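import Pool.Agent.Lib.MP_775b3b_nt.CM3.I3
import Pool.Agent.Lib.MP_775b3b_nt.CM.C2

namespace Pool.Agent.Lib.MP_775b3b_nt.CM

open Pool.Agent.Lib.MP_439fea_co NumberField WithZero

variable {K : Type} [Field K] [NumberField K] [IsGalois ℚ K]

variable (D : Dt K) {S : Finset (P K)}

omit [IsGalois ℚ K] in
theorem Dt.sy_q : D.sy D.q = D.b0 := if_pos rfl

omit [IsGalois ℚ K] in
theorem Dt.sy_ne {v : P K} (h : v ≠ D.q) : D.sy v = CM.sy v := if_neg h

omit [IsGalois ℚ K] in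
theorem Dt.sy_mul (hS : D.Ok S) {v : P K} (hv : v ∈ S) (x y : Kˣ) :
    D.sy v (x * y) = D.sy v x + D.sy v y := by
  by_cases h : v = D.q
  · rw [h, D.sy_q]
    exact D.b0_mul x y
  · rw [D.sy_ne h]
    exact CM.sy_mul (hS.sp v hv h) x y

omit [IsGalois ℚ K] in
theorem Dt.two_smul (hS : D.Ok S) {v : P K} (hv : v ∈ S) (g : Ga K) : val (g • v) (2 : K) = 1 := by
  by_cases h : v = D.q
  · exact h ▸ (D.ip.smul g).two
  · exact ((hS.sp v hv h).smul g).two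

omit [IsGalois ℚ K] in
theorem Dt.Ok.mono {D : Dt K} {S' : Finset (P K)} (h : D.Ok S') (hS : S ⊆ S') (hq : D.q ∈ S) :
    D.Ok S :=
  ⟨hq, fun v hv => h.sp v (hS hv), fun v hv w hw => h.inj v (hS hv) w (hS hw)⟩

omit [IsGalois ℚ K] in
theorem Dt.cs : D.c * D.σ = D.σ * D.c := D.cub.cen _

omit [IsGalois ℚ K] in
theorem Dt.cinv : D.c⁻¹ = D.c := inv_eq_of_mul_eq_one_right D.cc

omit [IsGalois ℚ K] in
theorem Dt.s0_c {x : Kˣ} (h : IsSquare (x * D.σ • x * (D.σ * D.σ) • x)) :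
    D.s0 (D.c • x) = D.s0 x := by
  have e := D.s0_eq _ (Mk.norm D.cs D.cc h)
  rw [sr_norm D.hΦ, D.s0_mul] at e
  exact (eq_neg_of_add_eq_zero_right e).trans (CharTwo.neg_eq _)

omit [IsGalois ℚ K] in
theorem Dt.b0_c {x : Kˣ} (h : IsSquare (x * D.σ • x * (D.σ * D.σ) • x)) :
    D.b0 x + D.b0 (D.c • x) = sl D.l D.q x := by
  rw [← D.b0_mul, D.b0_eq _ (Mk.norm D.cs D.cc h), D.ip.fs_norm D.cc]

omit [IsGalois ℚ K] in
theorem Dt.Z_mono {S' : Finset (P K)} (h : S ⊆ S') : D.Z S ≤ D.Z S' := by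
  intro x hx
  exact ⟨hx.1, fun w hw => hx.2 w fun v hv => hw v (h hv)⟩

omit [IsGalois ℚ K] in
theorem Dt.smul_mem {x : Kˣ} (h : x ∈ D.Z S) (g : Ga K) : g • x ∈ D.Z S := by
  refine ⟨?_, fun w hw => ?_⟩
  · obtain ⟨y, hy⟩ := h.1
    refine ⟨g • y, ?_⟩
    have e : ∀ z : Kˣ, D.σ • g • z = g • D.σ • z := fun z => by
      rw [← mul_smul, ← mul_smul, D.cub.cen g]
    rw [← smul_mul', ← hy, smul_mul', smul_mul', mul_smul, mul_smul, e, e]
  · have e := ord_smul' g⁻¹ w x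
    rw [inv_inv] at e
    rw [e]
    refine h.2 _ fun v hv g' hg => hw v hv (g * g') ?_
    rw [mul_smul, hg, smul_inv_smul]

omit [IsGalois ℚ K] in
theorem Dt.pw_mem {x : Kˣ} (h : x ∈ D.Z S) (m : GA (Ga K)) : pw m x ∈ D.Z S := by
  exact Subgroup.prod_mem _ fun g _ => Subgroup.pow_mem _ (D.smul_mem h g) _

omit [IsGalois ℚ K] in
theorem Dt.sq_mem {x : Kˣ} (h : IsSquare x) : x ∈ D.Z S := by
  refine ⟨?_, fun w _ => even_ord_of_mem_Sq (mem_Sq_of_isSquare w h)⟩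
  have e : ∀ g : Ga K, IsSquare (g • x) := fun g => by
    obtain ⟨y, rfl⟩ := h
    exact ⟨g • y, smul_mul' g y y⟩
  exact (h.mul (e _)).mul (e _)

omit [IsGalois ℚ K] in
theorem Dt.ee_co {φ : Kˣ → ZMod 2} (h : ∀ x y, φ (x * y) = φ x + φ y) {x : Kˣ}
    (hx : x ∈ D.Z S) : ee D.σ * co φ x = co φ x := by
  have e := co_isSquare h hx.1
  rw [co_mul h, co_mul h, co_smul, co_smul] at e
  exact (D.cub.ee_mul_eq _).2 e

omit [IsGalois ℚ K] in
theorem Dt.co_od {x : Kˣ} (hx : x ∈ D.Z S) {v : P K} (hv : ∀ w ∈ S, nm w ≠ nm v) :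
    co (od v) x = 0 := by
  refine ga_ext fun g => ?_
  have e : od v (g⁻¹ • x) = 0 := by
    rw [od_eq_zero, ord_smul']
    refine hx.2 _ fun w hw g' hg => hv w hw ?_
    rw [← nm_smul g' w, hg, nm_smul]
  simpa [co] using e

omit [IsGalois ℚ K] in
theorem Dt.mem_of_od [DecidableEq (P K)] {T : Finset (P K)} {x : Kˣ} (hx : x ∈ D.Z (S ∪ T))
    (h : ∀ v ∈ T, co (od v) x = 0) : x ∈ D.Z S := by
  refine ⟨hx.1, fun w hw => ?_⟩
  by_cases e : ∃ v ∈ T, ∃ g : Ga K, g • v = w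
  · obtain ⟨v, hv, g, rfl⟩ := e
    have e1 : od v (g⁻¹ • x) = 0 := by
      have := congrArg (fun m : GA (Ga K) => m.coeff g) (h v hv)
      simpa [co] using this
    rwa [od_eq_zero, ord_smul'] at e1
  · refine hx.2 w fun v hv g hg => ?_
    rcases Finset.mem_union.1 hv with h1 | h1
    · exact hw v h1 g hg
    · exact e ⟨v, h1, g, hg⟩

omit [IsGalois ℚ K] in
theorem Dt.sig_spec (hS : D.Ok S) {x : Kˣ} (hx : x ∈ D.Z S) : Sig x (sig x) := by
  refine CM.sig_spec D.two fun w hw => hx.2 w fun v hv g hg => ?_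
  have := D.two_smul hS hv g
  rw [hg] at this
  exact hw.ne this

omit [IsGalois ℚ K] in
theorem Dt.loc_mul {S' : Finset (P K)} (hS : D.Ok S) (hS' : D.Ok S') {x y : Kˣ} (hx : x ∈ D.Z S')
    (hy : y ∈ D.Z S') : D.loc S (x * y) = D.loc S x + D.loc S y := by
  funext i
  rcases i with (_ | _) | ⟨_ | _, v⟩
  · exact (cz_congr D.two D.α (D.sig_spec hS' (mul_mem hx hy))
      ((D.sig_spec hS' hx).mul (D.sig_spec hS' hy))).trans (cz_add _ _ _)
  · exact co_mul D.s0_mul x y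
  · exact co_mul (od_mul v.1) x y
  · exact co_mul (D.sy_mul hS v.2) x y

omit [IsGalois ℚ K] in
theorem Dt.loc_smul {S' : Finset (P K)} (hS' : D.Ok S') {x : Kˣ} (hx : x ∈ D.Z S') (g : Ga K) :
    D.loc S (g • x) = gr g • D.loc S x := by
  funext i
  rcases i with (_ | _) | ⟨_ | _, v⟩
  · exact (cz_congr D.two D.α (D.sig_spec hS' (D.smul_mem hx g))
      ((D.sig_spec hS' hx).smul g)).trans (cz_smul _ _ _)
  · exact co_smul _ g x
  · exact co_smul _ g x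
  · exact co_smul _ g x

omit [IsGalois ℚ K] in
theorem Dt.loc_isSquare (hS : D.Ok S) {x : Kˣ} (hx : IsSquare x) : D.loc S x = 0 := by
  funext i
  rcases i with (_ | _) | ⟨_ | _, v⟩
  · refine (cz_congr D.two D.α (D.sig_spec hS (D.sq_mem hx)) (Sig.of_isSquare hx)).trans ?_
    have e := cz_add D.α 0 0
    rw [add_zero, add_self_ga] at e
    exact e
  · exact co_isSquare D.s0_mul hx
  · exact co_isSquare (od_mul v.1) hx
  · exact co_isSquare (D.sy_mul hS v.2) hx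

omit [IsGalois ℚ K] in
theorem Dt.loc_prod {S' : Finset (P K)} (hS : D.Ok S) (hS' : D.Ok S') {ι : Type} (s : Finset ι)
    {x : ι → Kˣ} (hx : ∀ i ∈ s, x i ∈ D.Z S') :
    D.loc S (∏ i ∈ s, x i) = ∑ i ∈ s, D.loc S (x i) := by
  classical
  induction s using Finset.induction_on with
  | empty => simpa using D.loc_isSquare hS IsSquare.one
  | insert a s ha ih =>
    have h1 : ∀ i ∈ s, x i ∈ D.Z S' := fun i hi => hx i (Finset.mem_insert_of_mem hi)
    rw [Finset.prod_insert ha, Finset.sum_insert ha,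
      D.loc_mul hS hS' (hx a (Finset.mem_insert_self a s)) (Subgroup.prod_mem _ h1), ih h1]

omit [IsGalois ℚ K] in
theorem Dt.loc_pw {S' : Finset (P K)} (hS : D.Ok S) (hS' : D.Ok S') {x : Kˣ} (hx : x ∈ D.Z S')
    (m : GA (Ga K)) : D.loc S (pw m x) = m • D.loc S x := by
  have hp : ∀ y ∈ D.Z S', ∀ n : ℕ, D.loc S (y ^ n) = n • D.loc S y := fun y hy n => by
    have := D.loc_prod hS hS' (Finset.range n) (x := fun _ => y) fun _ _ => hy
    simpa using this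
  rw [pw, D.loc_prod hS hS' _ fun g _ => Subgroup.pow_mem _ (D.smul_mem hx g) _]
  conv_rhs => rw [eq_sum_gr m, Finset.sum_smul]
  refine Finset.sum_congr rfl fun g _ => ?_
  rw [hp _ (D.smul_mem hx g), D.loc_smul hS' hx, smul_assoc]

omit [IsGalois ℚ K] in
theorem Dt.ee_loc {S' : Finset (P K)} (hS : D.Ok S) (hS' : D.Ok S') {x : Kˣ} (hx : x ∈ D.Z S') :
    ee D.σ • D.loc S x = D.loc S x := by
  have e := D.loc_isSquare hS hx.1
  rw [D.loc_mul hS hS' (mul_mem hx (D.smul_mem hx _)) (D.smul_mem hx _),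
    D.loc_mul hS hS' hx (D.smul_mem hx _), D.loc_smul hS' hx, D.loc_smul hS' hx] at e
  funext i
  exact (D.cub.ee_mul_eq _).2 (congrFun e i)

/-- the image of the global classes -/
noncomputable def Dt.HS (S : Finset (P K)) : Submodule (GA (Ga K)) (Ix S → GA (Ga K)) :=
  Submodule.span _ (D.loc S '' D.Z S)

omit [IsGalois ℚ K] in
theorem Dt.mem_HS (hS : D.Ok S) {z : Ix S → GA (Ga K)} :
    z ∈ D.HS S ↔ ∃ x ∈ D.Z S, D.loc S x = z := by
  refine ⟨fun h => ?_, fun h => Submodule.subset_span h⟩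
  induction h using Submodule.span_induction with
  | mem z hz => exact hz
  | zero => exact ⟨1, one_mem _, D.loc_isSquare hS IsSquare.one⟩
  | add a b _ _ ha hb =>
    obtain ⟨x, hx, rfl⟩ := ha
    obtain ⟨y, hy, rfl⟩ := hb
    exact ⟨x * y, mul_mem hx hy, D.loc_mul hS hS hx hy⟩
  | smul m a _ ha =>
    obtain ⟨x, hx, rfl⟩ := ha
    exact ⟨pw m x, D.pw_mem hx m, D.loc_pw hS hS hx m⟩

omit [IsGalois ℚ K] in
theorem Dt.wp_loc {S' : Finset (P K)} (hq : D.q ∈ S) {x : Kˣ} (hx : x ∈ D.Z S') :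
    Wp D.c (⟨D.q, hq⟩ : S) (D.loc S x) := by
  refine ⟨ga_ext fun g => ?_, ga_ext fun g => ?_⟩
  · rw [coeff_mul_gr]
    show D.s0 ((g * D.c⁻¹)⁻¹ • x) = D.s0 (g⁻¹ • x)
    rw [mul_inv_rev, inv_inv, mul_smul]
    exact D.s0_c (D.smul_mem hx _).1
  · rw [coeff_mul_gr]
    show od D.q ((g * D.c⁻¹)⁻¹ • x) = od D.q (g⁻¹ • x)
    rw [od, od, ord_smul', ord_smul', D.cinv, mul_smul, D.ip.fix]

omit [IsGalois ℚ K] in
theorem Dt.Inj.wm {D : Dt K} (h : D.Inj S) (hq : D.q ∈ S) {x : Kˣ} (hx : x ∈ D.Z S)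
    (hw : Wm D.c (⟨D.q, hq⟩ : S) (D.loc S x)) : IsSquare x :=
  h x hx hw.two (fun v hv => hw.od ⟨v, hv⟩) fun v hv ne => by
    have := hw.aux ⟨v, hv⟩ fun e => ne (congrArg Subtype.val e)
    rwa [← D.sy_ne ne]

omit [IsGalois ℚ K] in
theorem Dt.Inj.zero {D : Dt K} (h : D.Inj S) {x : Kˣ} (hx : x ∈ D.Z S) (h0 : D.loc S x = 0) :
    IsSquare x :=
  h x hx (congrFun h0 (.inl false)) (fun v hv => congrFun h0 (.inr (false, ⟨v, hv⟩)))
    fun v hv ne => D.sy_ne ne ▸ congrFun h0 (.inr (true, ⟨v, hv⟩))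

end Pool.Agent.Lib.MP_775b3b_nt.CM
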