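import Pool.Agent.Lib.MP_775b3b_nt.CM3.D6c

namespace Pool.Agent.Lib.MP_775b3b_nt.CM

open Pool.Agent.Lib.MP_439fea_co NumberField WithZero

variable {K : Type} [Field K] [NumberField K] [IsGalois ℚ K]

variable (D : Dt K) {S : Finset (P K)}

theorem nq_bot {Γ : Type} [Group Γ] [Fintype Γ] : nq (⊥ : Subgroup Γ) = 1 := ga_ext fun g => by
  classical
  simp [nq, MonoidAlgebra.one_def, Finsupp.single_apply, eq_comm]

theorem Dt.pair (hS : D.Ok S) {x y : Kˣ} (hx : x ∈ D.Z S) (hy : y ∈ D.Z S) :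
    hf D.u (D.loc S x) (D.loc S y) = 0 := by
  refine ga_ext fun g => ?_
  rw [coeff_hf, ← D.loc_smul hS hy g]
  have e : ∀ z : Kˣ, ∀ g ∈ (⊥ : Subgroup (Ga K)), g • z = z := fun z g hg => by
    rw [Subgroup.mem_bot.1 hg, one_smul]
  obtain ⟨r, hr⟩ := hx.1
  obtain ⟨r', hr'⟩ := (D.smul_mem hy g).1
  exact D.pair_fixed hS ⊥ hx (D.smul_mem hy g) (e _) (e _) (e _) (e _) hr hr'
    (by rw [nq_bot, one_smul])

theorem Dt.pairT [DecidableEq (P K)] {T : Finset (P K)} (hS : D.Ok (S ∪ T)) (hq : D.q ∈ S)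
    (hd : Disjoint S T) {x y : Kˣ} (hx : x ∈ D.Z (S ∪ T)) (hy : y ∈ D.Z (S ∪ T)) :
    hf D.u (D.loc S x) (D.loc S y) =
      ∑ v ∈ T, (co (od v) x * star (co (CM.sy v) y) + co (CM.sy v) x * star (co (od v) y)) := by
  have h := D.pair hS hx hy
  let F : P K → GA (Ga K) := fun v =>
    co (od v) x * star (co (D.sy v) y) + co (D.sy v) x * star (co (od v) y)
  let c : GA (Ga K) :=
    cz D.α (sig x) * D.u * star (cz D.α (sig y)) + co D.s0 x * star (co D.s0 y)
  have e : ∀ U : Finset (P K), hf D.u (D.loc U x) (D.loc U y) = c + ∑ v ∈ U, F v := fun U =>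
    congrArg (c + ·) (Finset.sum_coe_sort U F)
  rw [e, Finset.sum_union hd, ← add_assoc, ← e] at h
  refine (add_right_cancel (h.trans (add_self_ga _).symm)).trans
    (Finset.sum_congr rfl fun v hv => ?_)
  simp only [F, D.sy_ne fun e : v = D.q => Finset.disjoint_left.1 hd hq (e ▸ hv)]

end Pool.Agent.Lib.MP_775b3b_nt.CM
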