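import Pool.Agent.Lib.MP_775b3b_nt.CM3.YDef
import Pool.Agent.Lib.MP_775b3b_nt.CM.C6c

/-! Sums over double cosets. -/

namespace Pool.Agent.Lib.MP_775b3b_nt.CM

variable {Γ : Type} [Group Γ] [Fintype Γ] {σ c : Γ} {G Q : Subgroup Γ}

theorem d4_sum {A : Type} [DecidableEq A] {R : Finset Γ} (hR : c6c_Rep Q R) (cc : c * c = 1)
    (f : Γ → A) (hf : ∀ g h, f g = f h ↔ ∃ k ∈ Q, h = k * g ∨ h = k * g * c) (F : Γ → ZMod 2)
    (hF : ∀ k ∈ Q, ∀ g, F (k * g) = F g) (t : A → ZMod 2)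
    (h1 : ∀ g, g * c * g⁻¹ ∈ Q → F g = t (f g))
    (h2 : ∀ g, g * c * g⁻¹ ∉ Q → F g + F (g * c) = t (f g)) :
    ∑ g ∈ R, F g = ∑ a ∈ R.image f, t a := by
  classical
  have _ := cc
  refine (Finset.sum_image' F fun g hg => ?_).symm
  obtain ⟨q, hq, hg'⟩ := hR.ex (g * c)
  have e : R.filter (fun j => f j = f g) = {g, q⁻¹ * (g * c)} := by
    ext j
    rw [Finset.mem_filter, Finset.mem_insert, Finset.mem_singleton]
    constructor
    · rintro ⟨hj, e⟩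
      obtain ⟨k, hk, e | e⟩ := (hf g j).1 e.symm
      · exact Or.inl (hR.un j hj g hg k hk e)
      · exact Or.inr (hR.un j hj _ hg' (k * q) (Q.mul_mem hk hq)
          (by rw [e, mul_assoc k q, mul_inv_cancel_left, mul_assoc]))
    · rintro (rfl | rfl)
      · exact ⟨hg, rfl⟩
      · exact ⟨hg', ((hf g _).2 ⟨q⁻¹, Q.inv_mem hq, Or.inr (mul_assoc _ _ _).symm⟩).symm⟩
  rw [e]
  by_cases h : g * c * g⁻¹ ∈ Q
  · have e2 : q⁻¹ * (g * c) = g := hR.un _ hg' g hg (q⁻¹ * (g * c * g⁻¹))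
      (Q.mul_mem (Q.inv_mem hq) h) (by rw [mul_assoc q⁻¹, inv_mul_cancel_right])
    rw [e2, Finset.pair_eq_singleton, Finset.sum_singleton, h1 g h]
  · have e2 : g ≠ q⁻¹ * (g * c) := fun e2 => h (by
      rw [← mul_inv_cancel_left q (g * c), ← e2, mul_inv_cancel_right]
      exact hq)
    rw [Finset.sum_pair e2, hF _ (Q.inv_mem hq), h2 g h]

theorem dc_count (hc : Cub σ G) {A A' : Type} (π : Γ → A) (π' : Γ → A')
    (h1 : ∀ g h, π g = π h → ∃ k ∈ Q, h = k * g ∨ h = k * g * c)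
    (h2 : ∀ g, π' (σ * g) = π' g) (h3 : ∀ k ∈ Q, ∀ g, π' (k * g) = π' g)
    (h4 : ∀ g, π' (g * c) = π' g) :
    dc σ Q c * 2 ^ Nat.card (Set.range π') ≤ 2 ^ Nat.card (Set.range π) := by
  classical
  have hs : ∀ a : Set.range π, ∃ g, π g = a.1 := fun a => a.2
  choose s hs using hs
  let X := {x : GA Γ // ee σ * x = x ∧ (∀ g ∈ Q, gr g * x = x) ∧ x * gr c = x}
  have hx : ∀ (x : X) (g : Γ), x.1.coeff (s ⟨π g, g, rfl⟩) = x.1.coeff g := by
    intro x g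
    have l : ∀ k ∈ Q, ∀ h, x.1.coeff (k * h) = x.1.coeff h := fun k hk h => by
      have := a3_inv x.2.2.1 (Q.inv_mem hk) h
      rwa [inv_inv] at this
    have r : ∀ h, x.1.coeff (h * c) = x.1.coeff h := fun h => by
      rw [← x.2.2.2, coeff_mul_gr, mul_inv_cancel_right, x.2.2.2]
    obtain ⟨k, hk, e | e⟩ := h1 (s ⟨π g, g, rfl⟩) g (hs _)
    · exact (l k hk _).symm.trans (congrArg _ e.symm)
    · exact ((r _).trans (l k hk _)).symm.trans (congrArg _ e.symm)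
  have hp : ∀ g : Γ, π' (s ⟨π g, g, rfl⟩) = π' g := by
    intro g
    obtain ⟨k, hk, e | e⟩ := h1 (s ⟨π g, g, rfl⟩) g (hs _)
    · exact (h3 k hk _).symm.trans (congrArg _ e.symm)
    · exact ((h4 _).trans (h3 k hk _)).symm.trans (congrArg _ e.symm)
  have hinj : Function.Injective fun (p : X × (Set.range π' → ZMod 2)) (a : Set.range π) =>
      p.1.1.coeff (s a) + p.2 ⟨π' (s a), s a, rfl⟩ := by
    rintro ⟨x, φ⟩ ⟨y, ψ⟩ e
    have e1 : ∀ g, x.1.coeff g + φ ⟨π' g, g, rfl⟩ = y.1.coeff g + ψ ⟨π' g, g, rfl⟩ := fun g => by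
      have e2 : x.1.coeff (s ⟨π g, g, rfl⟩) + φ ⟨π' (s ⟨π g, g, rfl⟩), _, rfl⟩ =
        y.1.coeff (s ⟨π g, g, rfl⟩) + ψ ⟨π' (s ⟨π g, g, rfl⟩), _, rfl⟩ := congrFun e ⟨π g, g, rfl⟩
      have e3 : (⟨π' (s ⟨π g, g, rfl⟩), _, rfl⟩ : Set.range π') = ⟨π' g, g, rfl⟩ :=
        Subtype.ext (hp g)
      rwa [hx, hx, e3] at e2
    have e4 : x = y := Subtype.ext (ga_ext fun g => by
      have e5 : (⟨π' (g * σ * σ), _, rfl⟩ : Set.range π') = ⟨π' (g * σ), _, rfl⟩ :=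
        Subtype.ext (by
          show π' (g * σ * σ) = π' (g * σ)
          rw [hc.cen (g * σ), h2])
      have e6 := e1 (g * σ * σ)
      have e7 := e1 (g * σ)
      rw [e5] at e6
      rw [← x.2.1, ← y.2.1, a1_coeff hc, a1_coeff hc]
      have z : ∀ a b c d u v : ZMod 2, a + u = c + v → b + u = d + v → a + b = c + d := by decide
      exact z _ _ _ _ _ _ e6 e7)
    subst e4
    refine Prod.ext rfl (funext ?_)
    rintro ⟨_, g, rfl⟩
    exact add_left_cancel (e1 g)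
  have h := Nat.card_le_card_of_injective _ hinj
  rwa [Nat.card_prod, Nat.card_fun, Nat.card_fun, Nat.card_zmod] at h

end Pool.Agent.Lib.MP_775b3b_nt.CM
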