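import Pool.Agent.Lib.MP_775b3b_nt.CM3.YDef

/-! Invariants of an involution in the group ring. -/

namespace Pool.Agent.Lib.MP_775b3b_nt.CM

variable {Γ : Type} [Group Γ] [Fintype Γ] {σ c : Γ} {G Q : Subgroup Γ}

theorem d4b_card {A : Type} [AddCommGroup A] (V : AddSubgroup A) (f : A →+ A) {p q r : A → Prop}
    (hp : ∀ x, p x ↔ x ∈ V ∧ f x = 0) (hq : ∀ x, q x ↔ ∃ y ∈ V, x = f y) (hr : ∀ x, r x ↔ x ∈ V) :
    Nat.card {x // p x} * Nat.card {x // q x} = Nat.card {x // r x} := by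
  let N : V →+ A := f.comp V.subtype
  have e1 : {x // p x} ≃ N.ker := (Equiv.subtypeEquivRight hp).trans
    (Equiv.subtypeSubtypeEquivSubtypeInter (· ∈ V) fun x => f x = 0).symm
  have e2 : {x // q x} ≃ N.range := Equiv.subtypeEquivRight fun x => (hq x).trans
    ⟨fun ⟨y, hy, e⟩ => ⟨⟨y, hy⟩, e.symm⟩, fun ⟨y, e⟩ => ⟨y.1, y.2, e.symm⟩⟩
  have e3 : {x // r x} ≃ V := Equiv.subtypeEquivRight hr
  rw [Nat.card_congr e1, Nat.card_congr e2, Nat.card_congr e3,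
    AddSubgroup.card_eq_card_quotient_mul_card_addSubgroup N.ker,
    Nat.card_congr (QuotientAddGroup.quotientKerEquivRange N).toEquiv, mul_comm]

theorem d4b_mem (cc : c * c = 1) {g : Γ} : g ∈ Subgroup.zpowers c ↔ g = 1 ∨ g = c := by
  constructor
  · rintro ⟨k, rfl⟩
    have h : ∀ m : ℤ, c ^ (2 * m) = 1 := fun m => by rw [zpow_mul, zpow_two, cc, one_zpow]
    rcases Int.even_or_odd' k with ⟨m, rfl | rfl⟩
    · exact Or.inl (h m)
    · exact Or.inr (by simp only [zpow_add_one, h, one_mul])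
  · rintro (rfl | rfl)
    · exact one_mem _
    · exact Subgroup.mem_zpowers _

theorem d4b_one : gr (1 : Γ) = 1 := rfl

theorem d4b_fix (cc : c * c = 1) {x : GA Γ} :
    (∀ g ∈ Subgroup.zpowers c, gr g * x = x) ↔ gr c * x = x :=
  ⟨fun h => h c (Subgroup.mem_zpowers c), fun h g hg => by
    rcases (d4b_mem cc).1 hg with rfl | rfl
    · exact one_mul x
    · exact h⟩

theorem d4b_bot {x : GA Γ} : ∀ g ∈ (⊥ : Subgroup Γ), gr g * x = x := fun g hg => by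
  rw [Subgroup.mem_bot.1 hg, d4b_one, one_mul]

theorem d4b_add {x y : GA Γ} : x + y = 0 ↔ y = x :=
  ⟨fun h => add_left_cancel (h.trans (add_self_ga x).symm), fun h => h ▸ add_self_ga y⟩

theorem d4b_nq (cc : c * c = 1) (c1 : c ≠ 1) : nq (Subgroup.zpowers c) = 1 + gr c := by
  classical
  refine ga_ext fun g => ?_
  rw [nq, coeff_mk, ← d4b_one]
  simp only [d4b_mem cc, MonoidAlgebra.coeff_add, MonoidAlgebra.coeff_single, Finsupp.add_apply,
    Finsupp.single_apply]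
  by_cases h1 : g = 1
  · simp [h1, c1]
  · by_cases h2 : g = c
    · simp [h2, c1.symm]
    · simp [h1, h2, Ne.symm h1, Ne.symm h2]

theorem d4b_left (cc : c * c = 1) (c1 : c ≠ 1) {x : GA Γ} (h : gr c * x = x) :
    ∃ y, x = (1 + gr c) * y := by
  obtain ⟨w, hw⟩ := a3_rep (Subgroup.zpowers c) ((d4b_fix cc).2 h)
  exact ⟨w, by rw [← d4b_nq cc c1, hw]⟩

theorem d4b_right (cc : c * c = 1) (c1 : c ≠ 1) {x : GA Γ} (h : x * gr c = x) :
    ∃ y, x = y * (1 + gr c) := by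
  have hi : star (gr c) = gr c := by rw [star_gr, inv_eq_of_mul_eq_one_left cc]
  obtain ⟨y, hy⟩ := d4b_left cc c1 (x := star x) (by rw [← hi, ← star_mul, h])
  exact ⟨star y, by rw [← star_star x, hy, star_mul, star_add, star_one, hi]⟩

theorem d4b_cn (cc : c * c = 1) : gr c * (1 + gr c) = 1 + gr c ∧ (1 + gr c) * gr c = 1 + gr c := by
  rw [mul_add, add_mul, ← gr_mul, cc, d4b_one, mul_one, one_mul, add_comm]
  exact ⟨rfl, rfl⟩

theorem d4b_sub (σ d : Γ) : ∃ V : AddSubgroup (GA Γ), ∀ x, x ∈ V ↔ ee σ * x = x ∧ x * gr d = x :=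
  ⟨{ carrier := {x | ee σ * x = x ∧ x * gr d = x}
     zero_mem' := ⟨mul_zero _, zero_mul _⟩
     add_mem' := fun a b => ⟨by rw [mul_add, a.1, b.1], by rw [add_mul, a.2, b.2]⟩
     neg_mem' := fun a => ⟨by rw [mul_neg, a.1], by rw [neg_mul, a.2]⟩ }, fun _ => Iff.rfl⟩

theorem dc_bot_one (hc : Cub σ G) : dc σ ⊥ 1 = 4 ^ Nat.card G := by
  rw [← hc.card_part]
  exact Nat.card_congr (Equiv.subtypeEquivRight fun x =>
    ⟨fun h => h.1, fun h => ⟨h, d4b_bot, mul_one x⟩⟩)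

theorem dc_bot (hc : Cub σ G) (cc : c * c = 1) (c1 : c ≠ 1) :
    dc σ ⊥ c ^ 2 = 4 ^ Nat.card G := by
  obtain ⟨V, hV⟩ := d4b_sub σ 1
  simp only [d4b_one, mul_one, and_true] at hV
  rw [← hc.card_part, sq]
  refine d4b_card V (AddMonoidHom.mulRight (1 + gr c)) (fun x => ?_) (fun x => ?_)
    fun x => (hV x).symm
  · rw [hV, AddMonoidHom.mulRight_apply, mul_add, mul_one, d4b_add]
    exact ⟨fun h => ⟨h.1, h.2.2⟩, fun h => ⟨h.1, d4b_bot, h.2⟩⟩
  · simp only [hV, AddMonoidHom.mulRight_apply]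
    constructor
    · rintro ⟨h1, -, h2⟩
      obtain ⟨y, hy⟩ := d4b_right cc c1 h2
      exact ⟨ee σ * y, by rw [← mul_assoc, hc.ee_mul], by rw [mul_assoc, ← hy, h1]⟩
    · rintro ⟨y, hy, rfl⟩
      exact ⟨by rw [← mul_assoc, hy], d4b_bot, by rw [mul_assoc, (d4b_cn cc).2]⟩

theorem dc_left (hc : Cub σ G) (cc : c * c = 1) (c1 : c ≠ 1) :
    dc σ (Subgroup.zpowers c) 1 ^ 2 = 4 ^ Nat.card G := by
  obtain ⟨V, hV⟩ := d4b_sub σ 1
  simp only [d4b_one, mul_one, and_true] at hV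
  rw [← hc.card_part, sq]
  refine d4b_card V (AddMonoidHom.mulLeft (1 + gr c)) (fun x => ?_) (fun x => ?_)
    fun x => (hV x).symm
  · rw [hV, AddMonoidHom.coe_mulLeft, add_mul, one_mul, d4b_add, d4b_fix cc]
    exact ⟨fun h => ⟨h.1, h.2.1⟩, fun h => ⟨h.1, h.2, mul_one x⟩⟩
  · simp only [hV, AddMonoidHom.coe_mulLeft, d4b_fix cc]
    constructor
    · rintro ⟨h1, h2, -⟩
      obtain ⟨y, hy⟩ := d4b_left cc c1 h2
      exact ⟨ee σ * y, by rw [← mul_assoc, hc.ee_mul],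
        by rw [← mul_assoc, ← hc.ee_comm, mul_assoc, ← hy, h1]⟩
    · rintro ⟨y, hy, rfl⟩
      exact ⟨by rw [← mul_assoc, hc.ee_comm, mul_assoc, hy], by rw [← mul_assoc, (d4b_cn cc).1],
        mul_one _⟩

theorem dc_both (hc : Cub σ G) (cc : c * c = 1) :
    dc σ (Subgroup.zpowers c) c * Nat.card {x : GA Γ // ∃ y, ee σ * y = y ∧ y * gr c = y ∧
      x = (1 + gr c) * y} = dc σ ⊥ c := by
  have _ := hc
  obtain ⟨V, hV⟩ := d4b_sub σ c
  refine d4b_card V (AddMonoidHom.mulLeft (1 + gr c)) (fun x => ?_) (fun x => ?_) fun x => ?_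
  · rw [hV, AddMonoidHom.coe_mulLeft, add_mul, one_mul, d4b_add, d4b_fix cc]
    exact ⟨fun h => ⟨⟨h.1, h.2.2⟩, h.2.1⟩, fun h => ⟨h.1.1, h.2, h.1.2⟩⟩
  · simp only [hV, AddMonoidHom.coe_mulLeft, and_assoc]
  · rw [hV]
    exact ⟨fun h => ⟨h.1, h.2.2⟩, fun h => ⟨h.1, d4b_bot, h.2⟩⟩

/-- an element that is fixed by an involution is a norm -/
theorem exists_norm_left (cc : c * c = 1) (c1 : c ≠ 1) {x : GA Γ} (h : gr c * x = x) :
    ∃ y, x = (1 + gr c) * y :=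
  d4b_left cc c1 h

theorem exists_norm_right (cc : c * c = 1) (c1 : c ≠ 1) {x : GA Γ} (h : x * gr c = x) :
    ∃ y, x = y * (1 + gr c) :=
  d4b_right cc c1 h

theorem coeff_fix_mul (cc : c * c = 1) (c1 : c ≠ 1) {a w : GA Γ} (ha : gr c * a = a)
    (hw : w * gr c = w) {γ : Γ} (hγ : c * γ = γ * c) : (a * w).coeff γ = 0 := by
  obtain ⟨y, rfl⟩ := d4b_left cc c1 ha
  have h1 : (gr c * (y * w)).coeff γ = (y * w).coeff γ := by
    rw [coeff_gr_mul, inv_eq_of_mul_eq_one_left cc, hγ]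
    conv_rhs => rw [← hw, ← mul_assoc, coeff_mul_gr, inv_eq_of_mul_eq_one_left cc]
  rw [mul_assoc, add_mul, one_mul, MonoidAlgebra.coeff_add, Finsupp.add_apply, h1]
  exact CharTwo.add_self_eq_zero _

end Pool.Agent.Lib.MP_775b3b_nt.CM
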