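import Pool.Agent.Lib.MP_775b3b_nt.CM3.NDef3
import Pool.Agent.Lib.MP_775b3b_nt.CM3.D4a
import Pool.Agent.Lib.MP_775b3b_nt.CM3.D4b

/-! Places of a fixed field and double cosets. -/

namespace Pool.Agent.Lib.MP_775b3b_nt.CM

open Pool.Agent.Lib.MP_439fea_co NumberField WithZero

variable {K : Type} [Field K] [NumberField K] [IsGalois ℚ K]
  {k : Type} [Field k] [NumberField k] [Algebra k K] {Q : Subgroup (Ga K)} {c : Ga K}

theorem pl_fin (hQ : ∀ g : Ga K, g ∈ Q ↔ ∀ a : k, g (algebraMap k K a) = algebraMap k K a)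
    {v : P K} (h1 : c • v = v) (h2 : ∀ g : Ga K, g • v = v → g = 1 ∨ g = c) (g h : Ga K) :
    und k (g • v) = und k (h • v) ↔ ∃ a ∈ Q, h = a * g ∨ h = a * g * c := by
  have : IsGalois k K := IsGalois.tower_top_of_isGalois ℚ k K
  constructor
  · intro e
    obtain ⟨τ, e⟩ := exists_smul_eq e
    rw [← c6c_res, ← mul_smul] at e
    refine ⟨τ.restrictScalars ℚ, (c6c_Q hQ _).2 ⟨τ, rfl⟩, ?_⟩
    have e1 : ((τ.restrictScalars ℚ * g)⁻¹ * h) • v = v := by
      rw [mul_smul, ← e, inv_smul_smul]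
    rcases h2 _ e1 with e2 | e2
    · exact Or.inl (inv_mul_eq_one.1 e2).symm
    · exact Or.inr (inv_mul_eq_iff_eq_mul.1 e2)
  · rintro ⟨a, ha, e⟩
    obtain ⟨τ, rfl⟩ := (c6c_Q hQ a).1 ha
    rcases e with rfl | rfl
    · rw [mul_smul, c6c_res, und_smul]
    · rw [mul_smul, h1, mul_smul, c6c_res, und_smul]

/-- the infinite place of the subfield attached to an automorphism -/
noncomputable def pli (k : Type) [Field k] [Algebra k K] (Φ : K →+* ℂ) (g : Ga K) :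
    InfinitePlace k :=
  InfinitePlace.mk ((Φ.comp ((g⁻¹ : Ga K) : K →+* K)).comp (algebraMap k K))

theorem pli_surj (Φ : K →+* ℂ) : Function.Surjective (pli k Φ) := by
  intro w
  have : Algebra.IsAlgebraic k K := Algebra.IsAlgebraic.tower_top (K := ℚ) k
  obtain ⟨g, hg⟩ := ComplexEmbedding.exists_comp_symm_eq_of_comp_eq (k := ℚ)
    Φ (ComplexEmbedding.lift K w.embedding) (Subsingleton.elim _ _)
  refine ⟨g, ?_⟩
  rw [← InfinitePlace.mk_embedding w, pli]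
  refine congrArg _ (RingHom.ext fun a => ?_)
  have e1 := RingHom.congr_fun hg (algebraMap k K a)
  rw [ComplexEmbedding.lift_algebraMap_apply] at e1
  exact e1

omit [IsGalois ℚ K] in
theorem d4_cc {Φ : K →+* ℂ} (hΦ : ∀ x : K, Φ (c x) = starRingEnd ℂ (Φ x)) : c * c = 1 := by
  refine AlgEquiv.ext fun x => Φ.injective ?_
  rw [AlgEquiv.mul_apply, hΦ, hΦ, Complex.conj_conj, AlgEquiv.one_apply]

omit [IsGalois ℚ K] [NumberField k] in
theorem d4_conj {Φ : K →+* ℂ} (hΦ : ∀ x : K, Φ (c x) = starRingEnd ℂ (Φ x)) (g : Ga K) :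
    ComplexEmbedding.conjugate ((Φ.comp ((g⁻¹ : Ga K) : K →+* K)).comp (algebraMap k K)) =
      (Φ.comp (((g * c)⁻¹ : Ga K) : K →+* K)).comp (algebraMap k K) := by
  have ci : c⁻¹ = c := inv_eq_of_mul_eq_one_right (d4_cc hΦ)
  refine RingHom.ext fun a => ?_
  rw [ComplexEmbedding.conjugate_coe_eq, mul_inv_rev, ci]
  exact (hΦ _).symm

omit [IsGalois ℚ K] [NumberField k] in
theorem d4_eq (hQ : ∀ g : Ga K, g ∈ Q ↔ ∀ a : k, g (algebraMap k K a) = algebraMap k K a)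
    (Φ : K →+* ℂ) (g h : Ga K) :
    (Φ.comp ((g⁻¹ : Ga K) : K →+* K)).comp (algebraMap k K) =
      (Φ.comp ((h⁻¹ : Ga K) : K →+* K)).comp (algebraMap k K) ↔ h * g⁻¹ ∈ Q := by
  rw [hQ]
  constructor
  · intro e a
    have e1 : g⁻¹ (algebraMap k K a) = h⁻¹ (algebraMap k K a) :=
      Φ.injective (RingHom.congr_fun e a)
    rw [AlgEquiv.mul_apply, e1, ← AlgEquiv.mul_apply, mul_inv_cancel, AlgEquiv.one_apply]
  · intro e
    refine RingHom.ext fun a => ?_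
    have e1 : g⁻¹ (algebraMap k K a) = h⁻¹ (algebraMap k K a) := by
      have e2 := congrArg (fun z => h⁻¹ z) (e a)
      simp only [← AlgEquiv.mul_apply, inv_mul_cancel_left] at e2
      exact e2
    exact congrArg Φ e1

theorem pl_inf (hQ : ∀ g : Ga K, g ∈ Q ↔ ∀ a : k, g (algebraMap k K a) = algebraMap k K a)
    {Φ : K →+* ℂ} (hΦ : ∀ x : K, Φ (c x) = starRingEnd ℂ (Φ x)) (g h : Ga K) :
    pli k Φ g = pli k Φ h ↔ ∃ a ∈ Q, h = a * g ∨ h = a * g * c := by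
  rw [pli, pli, InfinitePlace.mk_eq_iff, d4_conj hΦ, d4_eq hQ, d4_eq hQ]
  constructor
  · rintro (e | e)
    · exact ⟨h * g⁻¹, e, Or.inl (inv_mul_cancel_right h g).symm⟩
    · refine ⟨h * (g * c)⁻¹, e, Or.inr ?_⟩
      rw [mul_assoc (h * (g * c)⁻¹), inv_mul_cancel_right]
  · rintro ⟨a, ha, rfl | rfl⟩
    · left
      rwa [mul_inv_cancel_right]
    · right
      rwa [mul_assoc a, mul_inv_cancel_right]

theorem pli_real (hQ : ∀ g : Ga K, g ∈ Q ↔ ∀ a : k, g (algebraMap k K a) = algebraMap k K a)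
    {Φ : K →+* ℂ} (hΦ : ∀ x : K, Φ (c x) = starRingEnd ℂ (Φ x)) (g : Ga K) :
    (pli k Φ g).IsReal ↔ g * c * g⁻¹ ∈ Q := by
  rw [pli, InfinitePlace.isReal_mk_iff, ComplexEmbedding.isReal_iff, d4_conj hΦ, eq_comm,
    d4_eq hQ]

end Pool.Agent.Lib.MP_775b3b_nt.CM
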