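import Pool.Agent.Lib.MP_775b3b_nt.CM3.D2
import Pool.Agent.Lib.MP_775b3b_nt.CM3.D4
import Pool.Agent.Lib.MP_775b3b_nt.CM.C5a

namespace Pool.Agent.Lib.MP_775b3b_nt.CM

open Pool.Agent.Lib.MP_439fea_co NumberField WithZero

variable {K : Type} [Field K] [NumberField K] [IsGalois ℚ K]

/-- the relative norm -/
noncomputable def Dt.nrm (D : Dt K) : Kˣ →* Kˣ where
  toFun x := x * D.σ • x * (D.σ * D.σ) • x
  map_one' := by simp
  map_mul' x y := by
    rw [smul_mul', smul_mul', mul_mul_mul_comm x y, mul_mul_mul_comm]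

/-- the units that a subgroup fixes -/
def fxs (Q : Subgroup (Ga K)) : Subgroup Kˣ where
  carrier := {x | ∀ g ∈ Q, g • x = x}
  one_mem' g _ := smul_one g
  mul_mem' ha hb g hg := by rw [smul_mul', ha g hg, hb g hg]
  inv_mem' ha g hg := by rw [smul_inv', ha g hg]

/-- units outside the conjugates of `S` of norm one that `Q` fixes -/
noncomputable def Dt.U1 (D : Dt K) (S : Finset (P K)) (Q : Subgroup (Ga K)) : Subgroup Kˣ :=
  (US (orb S) ⊓ fxs Q) ⊓ D.nrm.ker

omit [IsGalois ℚ K] in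
theorem d5a_fix (Q : Subgroup (Ga K)) (g : Ga K) :
    g ∈ Q ↔ ∀ a : IntermediateField.fixedField Q, g (algebraMap _ K a) = algebraMap _ K a := by
  refine ⟨fun hg a => (IntermediateField.mem_fixedField_iff Q _).1 a.2 g hg, fun h => ?_⟩
  rw [← IntermediateField.fixingSubgroup_fixedField Q, IntermediateField.mem_fixingSubgroup_iff]
  exact fun a ha => h ⟨a, ha⟩

omit [IsGalois ℚ K] in
theorem d5a_orb {S : Finset (P K)} {w : P K} (g : Ga K) (h : w ∈ orb S) : g • w ∈ orb S := by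
  obtain ⟨v, hv, a, rfl⟩ := mem_orb.1 h
  exact mem_orb.2 ⟨v, hv, g * a, mul_smul _ _ _⟩

theorem d5a_und (Q : Subgroup (Ga K)) {w w' : P K}
    (h : und (IntermediateField.fixedField Q) w = und (IntermediateField.fixedField Q) w') :
    ∃ g : Ga K, g • w = w' := by
  obtain ⟨τ, e⟩ := exists_smul_eq h
  exact ⟨τ.restrictScalars ℚ, (c6c_res τ w).trans e⟩

theorem d5a_rank {S : Finset (P K)} (hS : ∀ v ∈ S, ∀ w ∈ S, nm v = nm w → v = w)
    (Q : Subgroup (Ga K)) (Φ : K →+* ℂ) :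
    Module.finrank ℤ (Additive (US (orb S) ⊓ fxs Q : Subgroup Kˣ)) + 1 =
      Nat.card (Set.range (pli (IntermediateField.fixedField Q) Φ)) + ∑ v ∈ S,
        Nat.card (Set.range fun g : Ga K => und (IntermediateField.fixedField Q) (g • v)) := by
  classical
  let k := IntermediateField.fixedField Q
  let S0 : Finset (P k) := (orb S).image (und k)
  have hinj : Function.Injective (um K : kˣ →* Kˣ) :=
    Units.map_injective (algebraMap k K).injective
  have e1 : (US S0).map (um K) = US (orb S) ⊓ fxs Q := by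
    refine le_antisymm ?_ fun x hx => ?_
    · rintro _ ⟨x, hx, rfl⟩
      refine ⟨mem_US.2 fun w hw => (val_algebraMap_eq_one_iff w _).2 (mem_US.1 hx _ fun h => ?_),
        fun g hg => Units.ext ((d5a_fix Q g).1 hg x)⟩
      obtain ⟨w', h1, h2⟩ := Finset.mem_image.1 h
      obtain ⟨g, rfl⟩ := d5a_und Q h2
      exact hw (d5a_orb g h1)
    · refine ⟨Units.mk0 ⟨x, (IntermediateField.mem_fixedField_iff Q _).2 fun g hg =>
        congrArg Units.val (hx.2 g hg)⟩ fun e => x.ne_zero (congrArg Subtype.val e),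
        mem_US.2 fun v hv => ?_, Units.ext rfl⟩
      obtain ⟨w, rfl⟩ := exists_over K v
      exact (val_algebraMap_eq_one_iff w _).1
        (mem_US.1 hx.1 w fun h => hv (Finset.mem_image_of_mem _ h))
  have e2 : S0 = S.biUnion fun v => Finset.univ.image fun g : Ga K => und k (g • v) := by
    ext u
    simp only [S0, Finset.mem_image, mem_orb, Finset.mem_biUnion, Finset.mem_univ, true_and]
    exact ⟨fun ⟨_, ⟨v, hv, g, e⟩, e'⟩ => ⟨v, hv, g, e ▸ e'⟩,
      fun ⟨v, hv, g, e⟩ => ⟨_, ⟨v, hv, g, rfl⟩, e⟩⟩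
  rw [← e1, ← (MulEquiv.toAdditive ((US S0).equivMapOfInjective _ hinj)).toIntLinearEquiv.finrank_eq,
    finrank_US, (pli_surj Φ).range_eq, Nat.card_univ, Nat.card_eq_fintype_card, e2,
    Finset.card_biUnion]
  · refine congrArg _ (Finset.sum_congr rfl fun v _ => ?_)
    rw [← Nat.card_eq_finsetCard]
    exact Nat.card_congr (Equiv.subtypeEquivRight fun u => by simp [k])
  · intro v hv w hw hne
    refine Finset.disjoint_left.2 fun u h1 h2 => hne (hS v hv w hw ?_)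
    obtain ⟨g, -, rfl⟩ := Finset.mem_image.1 h1
    obtain ⟨h, -, e⟩ := Finset.mem_image.1 h2
    obtain ⟨τ, e'⟩ := d5a_und Q e
    rw [← nm_smul g v, ← e', nm_smul, nm_smul]

omit [IsGalois ℚ K] in
theorem d5a_dc {σ c : Ga K} {G : Subgroup (Ga K)} (hc : Cub σ G) (Q : Subgroup (Ga K))
    {A A' : Type} (π : Ga K → A) (π' : Ga K → A')
    (h1 : ∀ g h, π g = π h ↔ ∃ a ∈ Q, h = a * g ∨ h = a * g * c)
    (h2 : ∀ g h, π' g = π' h ↔ ∃ a ∈ Q ⊔ Subgroup.zpowers σ, h = a * g ∨ h = a * g * c) :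
    dc σ Q c * 2 ^ Nat.card (Set.range π') ≤ 2 ^ Nat.card (Set.range π) :=
  dc_count hc π π' (fun g h => (h1 g h).1)
    (fun g => ((h2 g _).2 ⟨σ, Subgroup.mem_sup_right (Subgroup.mem_zpowers σ), .inl rfl⟩).symm)
    (fun k hk g => ((h2 g _).2 ⟨k, Subgroup.mem_sup_left hk, .inl rfl⟩).symm)
    fun g => ((h2 g _).2 ⟨1, one_mem _, .inr (by rw [one_mul])⟩).symm

theorem Dt.rank_U1 (D : Dt K) {S : Finset (P K)} (hS : D.Ok S) (Q : Subgroup (Ga K)) {a : ℕ}
    (ha : S.card = a + 1) :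
    dc D.σ Q D.c ^ 2 * dc D.σ Q 1 ^ a ≤ 2 ^ Module.finrank ℤ (Additive (D.U1 S Q)) := by
  classical
  have f : ∀ H : Subgroup (Ga K),
      Module.Finite ℤ (Additive (US (orb S) ⊓ fxs H : Subgroup Kˣ)) :=
    fun H => rk_finite_of_le inf_le_left
  have h3 := D.cub.three
  have h1 := rk_rank_le D.nrm (US (orb S) ⊓ fxs Q) (US (orb S) ⊓ fxs (Q ⊔ Subgroup.zpowers D.σ))
    fun x hx => by
      have hs : ∀ g : Ga K, g • x ∈ US (orb S) := fun g => mem_US.2 fun w hw => by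
        obtain ⟨w, rfl⟩ : ∃ w' : P K, g • w' = w := ⟨g⁻¹ • w, smul_inv_smul g w⟩
        exact (val_smul g w (x : K)).trans (mem_US.1 hx.1 w fun h => hw (d5a_orb g h))
      refine ⟨mul_mem (mul_mem hx.1 (hs _)) (hs _), fun g hg => ?_⟩
      refine (sup_le (fun g hg => ?_) (Subgroup.zpowers_le.2 ?_) :
        Q ⊔ Subgroup.zpowers D.σ ≤ MulAction.stabilizer (Ga K) (D.nrm x)) hg
      · show g • (x * D.σ • x * (D.σ * D.σ) • x) = x * D.σ • x * (D.σ * D.σ) • x
        rw [smul_mul', smul_mul', smul_smul, smul_smul, ← mul_assoc, D.cub.cen g,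
          D.cub.cen (D.σ * g), ← mul_assoc, mul_smul _ g, mul_smul _ g, hx.2 g hg]
      · show D.σ • (x * D.σ • x * (D.σ * D.σ) • x) = x * D.σ • x * (D.σ * D.σ) • x
        rw [smul_mul', smul_mul', smul_smul, smul_smul, ← mul_assoc, h3, one_smul, mul_comm _ x,
          mul_assoc]
  have h2 := d5a_rank hS.inj Q D.Φ
  have h4 := d5a_rank hS.inj (Q ⊔ Subgroup.zpowers D.σ) D.Φ
  have h5 := d5a_dc D.cub Q _ _ (pl_inf (d5a_fix Q) D.hΦ) (pl_inf (d5a_fix _) D.hΦ)
  have h6 := Finset.prod_le_prod' fun v (hv : v ∈ S) =>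
    have e1 : (if v = D.q then D.c else 1) • v = v := by
      split_ifs with e
      exacts [e ▸ D.ip.fix, one_smul _ _]
    have e2 : ∀ g : Ga K, g • v = v → g = 1 ∨ g = if v = D.q then D.c else 1 := fun g hg => by
      split_ifs with e
      exacts [D.ip.stab g (e ▸ hg), .inl ((hS.sp v hv e).free g hg)]
    d5a_dc D.cub Q _ _ (pl_fin (d5a_fix Q) e1 e2) (pl_fin (d5a_fix _) e1 e2)
  rw [Finset.prod_mul_distrib, Finset.prod_pow_eq_pow_sum, Finset.prod_pow_eq_pow_sum,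
    ← Finset.mul_prod_erase S _ hS.mem, if_pos rfl, Finset.prod_congr rfl
      (fun v hv => by rw [if_neg (Finset.ne_of_mem_erase hv)]), Finset.prod_const,
    Finset.card_erase_of_mem hS.mem, ha, Nat.add_sub_cancel] at h6
  have h7 := Nat.mul_le_mul h5 h6
  rw [mul_mul_mul_comm, ← pow_add, ← pow_add, ← h2, ← h4, ← mul_assoc, ← sq] at h7
  refine Nat.le_of_mul_le_mul_right (h7.trans ?_) (Nat.two_pow_pos _)
  rw [← pow_add]
  exact Nat.pow_le_pow_right two_pos (by unfold Dt.U1; omega)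

end Pool.Agent.Lib.MP_775b3b_nt.CM
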