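import Pool.Agent.Lib.MP_775b3b_nt.CM3.D4b

/-! Isotropic submodules attached to the global classes. -/

namespace Pool.Agent.Lib.MP_775b3b_nt.CM

variable {Γ T : Type} [Group Γ] [Fintype Γ] [Fintype T] {σ c : Γ} {G : Subgroup Γ} {u : GA Γ}
  {q : T} {H : Submodule (GA Γ) (Ix T → GA Γ)} {x y : Ix T → GA Γ}

theorem hat_mul (cc : c * c = 1) (c1 : c ≠ 1) {a b : GA Γ} (ha : a * gr c = a)
    (hb : b * gr c = b) : a * star b = 0 := by
  obtain ⟨a, rfl⟩ := exists_norm_right cc c1 ha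
  have := congrArg star hb
  rw [star_mul, star_gr, inv_eq_of_mul_eq_one_right cc] at this
  rw [mul_assoc, add_mul, one_mul, this, add_self_ga, mul_zero]

theorem Wp.hf (cc : c * c = 1) (c1 : c ≠ 1) (hx : Wp c q x) (hy : Wm c q y) : hf u x y = 0 := by
  rw [CM.hf, hy.two, star_zero, mul_zero, hat_mul cc c1 hx.inf hy.inf, add_zero, zero_add]
  refine Finset.sum_eq_zero fun t _ => ?_
  rw [hy.od, star_zero, mul_zero, add_zero]
  by_cases h : t = q
  · rw [h, hat_mul cc c1 hx.od hy.sy]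
  · rw [hy.aux t h, star_zero, mul_zero]

theorem Wm.wp (hy : Wm c q y) : Wp c q y := by
  exact ⟨hy.inf, by rw [hy.od, zero_mul]⟩

theorem Wp.add (hx : Wp c q x) (hy : Wp c q y) : Wp c q (x + y) := by
  exact ⟨by rw [Pi.add_apply, add_mul, hx.inf, hy.inf], by rw [Pi.add_apply, add_mul, hx.od, hy.od]⟩

theorem Wm.add (hx : Wm c q x) (hy : Wm c q y) : Wm c q (x + y) := by
  exact ⟨by rw [Pi.add_apply, hx.two, hy.two, add_zero], (hx.wp.add hy.wp).inf,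
    fun t => by rw [Pi.add_apply, hx.od, hy.od, add_zero],
    by rw [Pi.add_apply, add_mul, hx.sy, hy.sy],
    fun t h => by rw [Pi.add_apply, hx.aux t h, hy.aux t h, add_zero]⟩

theorem Wp.smul (hx : Wp c q x) (r : GA Γ) : Wp c q (r • x) := by
  exact ⟨(mul_assoc _ _ _).trans (congrArg _ hx.inf), (mul_assoc _ _ _).trans (congrArg _ hx.od)⟩

theorem Wm.smul (hx : Wm c q x) (r : GA Γ) : Wm c q (r • x) := by
  exact ⟨(congrArg (r * ·) hx.two).trans (mul_zero r), (hx.wp.smul r).inf,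
    fun t => (congrArg (r * ·) (hx.od t)).trans (mul_zero r),
    (mul_assoc _ _ _).trans (congrArg _ hx.sy),
    fun t h => (congrArg (r * ·) (hx.aux t h)).trans (mul_zero r)⟩

/-- an isotropic submodule that meets the invisible coordinates trivially -/
structure Hat (σ c : Γ) (u : GA Γ) (q : T) (H : Submodule (GA Γ) (Ix T → GA Γ)) : Prop where
  part : ∀ x ∈ H, ee σ • x = x
  wp : ∀ x ∈ H, Wp c q x
  wm : ∀ x ∈ H, Wm c q x → x = 0
  iso : ∀ x ∈ H, ∀ y ∈ H, hf u x y = 0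

theorem hat_W (hc : Cub σ G) (cc : c * c = 1) (c1 : c ≠ 1) (q : T) :
    ∃ W : Submodule (GA Γ) (Ix T → GA Γ), (∀ v, v ∈ W ↔ ee σ • v = v ∧ Wm c q v) ∧
      4 ^ Nat.card G ≤ Nat.card W := by
  classical
  let W : Submodule (GA Γ) (Ix T → GA Γ) :=
    { carrier := {v | ee σ • v = v ∧ Wm c q v}
      add_mem' := fun {a b} ha hb =>
        ⟨(smul_add _ a b).trans (congrArg₂ _ ha.1 hb.1), ha.2.add hb.2⟩
      zero_mem' := ⟨smul_zero _, rfl, zero_mul _, fun _ => rfl, zero_mul _, fun _ _ => rfl⟩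
      smul_mem' := fun r a ha =>
        ⟨by rw [smul_smul, hc.ee_comm, ← smul_smul, ha.1], ha.2.smul r⟩ }
  refine ⟨W, fun _ => Iff.rfl, ?_⟩
  rw [← dc_bot hc cc c1, sq, dc, ← Nat.card_prod]
  refine Nat.card_le_card_of_injective (fun p => ⟨fun i => if i = .inl true then p.1.1 else
    if i = .inr (true, q) then p.2.1 else 0, funext fun i => ?_, by simp, by simpa using p.1.2.2.2,
      fun t => by simp, by simpa using p.2.2.2.2, fun t h => by simp [h]⟩) fun p p' e => ?_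
  · rw [Pi.smul_apply, smul_eq_mul]
    split_ifs
    exacts [p.1.2.1, p.2.2.1, mul_zero _]
  · have := congrFun (congrArg Subtype.val e)
    exact Prod.ext (Subtype.ext (by simpa using this (.inl true)))
      (Subtype.ext (by simpa using this (.inr (true, q))))

theorem hat_sup (hc : Cub σ G) (hu : SymU G u) (cc : c * c = 1) (c1 : c ≠ 1)
    (h : Hat σ c u q H) : ∃ L : Submodule (GA Γ) (Ix T → GA Γ),
      (∀ x ∈ L, ∃ a ∈ H, ∃ w, Wm c q w ∧ a + w = x) ∧ (∀ x ∈ L, ee σ • x = x) ∧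
      (∀ x ∈ L, ∀ y ∈ L, hf u x y = 0) ∧
      4 ^ Nat.card G * Nat.card H ≤ Nat.card L := by
  obtain ⟨W, hW, hn⟩ := hat_W hc cc c1 q
  refine ⟨H ⊔ W, fun x hx => ?_, fun x hx => ?_, fun x hx y hy => ?_, ?_⟩
  · obtain ⟨a, ha, w, hw, e⟩ := Submodule.mem_sup.1 hx
    exact ⟨a, ha, w, ((hW w).1 hw).2, e⟩
  · obtain ⟨a, ha, w, hw, rfl⟩ := Submodule.mem_sup.1 hx
    rw [smul_add, h.part a ha, ((hW w).1 hw).1]
  · obtain ⟨a, ha, w, hw, rfl⟩ := Submodule.mem_sup.1 hx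
    obtain ⟨a', ha', w', hw', rfl⟩ := Submodule.mem_sup.1 hy
    replace hw := ((hW w).1 hw).2
    replace hw' := ((hW w').1 hw').2
    rw [hf_add_left, hf_add_right, hf_add_right, h.iso a ha a' ha', (h.wp a ha).hf cc c1 hw',
      hw.wp.hf cc c1 hw', ← hf_star hu.sym, (h.wp a' ha').hf cc c1 hw]
    simp
  · refine (Nat.mul_le_mul_right _ hn).trans ?_
    rw [← Nat.card_prod]
    refine Nat.card_le_card_of_injective (fun p : W × H =>
      (⟨p.2.1 + p.1.1, Submodule.add_mem_sup p.2.2 p.1.2⟩ : (H ⊔ W :))) fun p p' e => ?_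
    have e1 : p.2.1 + p.1.1 = p'.2.1 + p'.1.1 := congrArg Subtype.val e
    have e2 : p.2.1 - p'.2.1 = p'.1.1 - p.1.1 := by rw [sub_eq_sub_iff_add_eq_add, e1, add_comm]
    have e3 := h.wm _ (sub_mem p.2.2 p'.2.2) (e2 ▸ ((hW _).1 (sub_mem p'.1.2 p.1.2)).2)
    exact Prod.ext (Subtype.ext (sub_eq_zero.1 (e2.symm.trans e3)).symm)
      (Subtype.ext (sub_eq_zero.1 e3))

theorem Hat.card_le (hc : Cub σ G) (hu : SymU G u) (cc : c * c = 1) (c1 : c ≠ 1)
    (h : Hat σ c u q H) : Nat.card H ≤ 4 ^ (Nat.card G * Fintype.card T) := by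
  obtain ⟨L, -, h0, h1, hn⟩ := hat_sup hc hu cc c1 h
  have := hn.trans (card_le_of_iso hc hu h0 h1)
  rw [mul_add, mul_one, pow_add] at this
  exact Nat.le_of_mul_le_mul_left this (by positivity)

theorem Hat.max (hc : Cub σ G) (hu : SymU G u) (cc : c * c = 1) (c1 : c ≠ 1)
    (h : Hat σ c u q H) (n1 : 4 ^ (Nat.card G * Fintype.card T) ≤ Nat.card H) {v : Ix T → GA Γ}
    (h0 : ee σ • v = v) (h1 : Wp c q v) (h2 : ∀ x ∈ H, hf u x v = 0) :
    ∃ x ∈ H, Wm c q (v + x) := by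
  obtain ⟨L, hL, l0, l1, hn⟩ := hat_sup hc hu cc c1 h
  have := (lag_of_card hc hu l0 l1 (by
    rw [mul_add, mul_one, pow_add]
    exact (Nat.mul_le_mul_left _ n1).trans hn)).max v h0 fun x hx => by
      obtain ⟨a, ha, w, hw, rfl⟩ := hL x hx
      rw [hf_add_left, h2 a ha, ← hf_star hu.sym, h1.hf cc c1 hw, star_zero, add_zero]
  obtain ⟨a, ha, w, hw, rfl⟩ := hL v this
  exact ⟨-a, neg_mem ha, by rwa [add_neg_cancel_comm]⟩

theorem card_fixed3 (hc : Cub σ G) (hu : SymU G u) {M : Submodule (GA Γ) (Ix T → GA Γ)}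
    (hL : Lag u (ee σ) M) (hH : ∀ x, x ∈ H ↔ x ∈ M ∧ Wp c q x)
    (hW : ∀ v : Ix T → GA Γ, ee σ • v = v → ∃ m ∈ M, Wp c q (v + m))
    (hM : Nat.card M = 4 ^ (Nat.card G * (1 + Fintype.card T))) (Q : Subgroup Γ) (hQ : Q ≤ G)
    (hq : ∀ x ∈ H, (∀ g ∈ Q, gr g • x = x) → ∀ v, nq Q • v ∈ H → (hf u x v).coeff 1 = 0) :
    Nat.card {x : Ix T → GA Γ // x ∈ M ∧ ∀ g ∈ Q, gr g • x = x} ^ Nat.card Q ≤ Nat.card M := by
  let X : AddSubgroup (Ix T → GA Γ) :=
    { carrier := {x | x ∈ M ∧ ∀ g ∈ Q, gr g • x = x}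
      add_mem' := fun {a b} ha hb => ⟨add_mem ha.1 hb.1, fun g hg => by
        rw [smul_add, ha.2 g hg, hb.2 g hg]⟩
      zero_mem' := ⟨zero_mem _, fun g _ => smul_zero _⟩
      neg_mem' := fun {a} ha => ⟨neg_mem ha.1, fun g hg => by rw [smul_neg, ha.2 g hg]⟩ }
  have dec : ∀ v, ee σ • v = v → nq Q • v ∈ M → ∃ m ∈ M, nq Q • (v + m) ∈ H := fun v h0 h1 => by
    obtain ⟨m, hm, h⟩ := hW v h0
    exact ⟨m, hm, (hH _).2 ⟨by rw [smul_add]; exact add_mem h1 (M.smul_mem _ hm), h.smul _⟩⟩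
  rw [hM]
  refine card_fixed_le hc hu Q hQ X (fun x hx => hL.part x hx.1) (fun x hx => hx.2)
    fun x hx v h0 hv => ?_
  obtain ⟨w, hw⟩ := a3_repv Q hx.2
  have e : nq Q • ee σ • w = x := by
    rw [smul_smul, ← hc.ee_comm, ← smul_smul, hw, hL.part x hx.1]
  obtain ⟨m, hm, h1⟩ := dec (ee σ • w) (by rw [smul_smul, hc.ee_mul]) (e ▸ hx.1)
  obtain ⟨m', hm', h2⟩ := dec v h0 hv.1
  have h3 := hq _ h1 (fun g hg => by rw [smul_smul, a3_fix Q hg]) _ h2
  have h4 : (hf u (nq Q • m) (v + m')).coeff 1 = 0 := by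
    rw [hf_smul_left, a3_comm, ← a3_star, ← hf_smul_right, hL.iso m hm _ ((hH _).1 h2).1]
    rfl
  rwa [smul_add, e, hf_add_left, MonoidAlgebra.coeff_add, Finsupp.add_apply, h4, add_zero,
    hf_add_right, hL.iso x hx.1 m' hm', add_zero] at h3

end Pool.Agent.Lib.MP_775b3b_nt.CM
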