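import Pool.Agent.Lib.MP_775b3b_nt.CM3.Fr3

/-! Removing the torsion of a lattice. -/

namespace Pool.Agent.Lib.MP_775b3b_nt.CM

theorem card_range_ge {U V : Type} [AddCommGroup U] [Module.Finite ℤ U] [AddCommGroup V] [Finite V]
    (lam : U →+ V) (hk : ∀ a, lam a = 0 → ∃ b, a = b + b) :
    2 ^ Module.finrank ℤ U ≤ Nat.card lam.range := by
  rw [← AddSubgroup.index_ker, ← finrank_quotient_eq_of_le_torsion (le_refl (Submodule.torsion ℤ U)),
    ← AddSubgroup.index_range_nsmul, ← AddSubgroup.index_comap_of_surjective _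
      (f := (Submodule.torsion ℤ U).mkQ.toAddMonoidHom) (Submodule.mkQ_surjective _)]
  refine Nat.le_of_dvd (by rw [AddSubgroup.index_ker]; exact Nat.card_pos)
    (AddSubgroup.index_dvd_of_le fun a ha => ?_)
  obtain ⟨b, rfl⟩ := hk a ha
  exact ⟨(Submodule.torsion ℤ U).mkQ b, by simp [two_nsmul]⟩

theorem lat_tor {U V : Type} [AddCommGroup U] [AddCommGroup V] (h2 : ∀ v : V, v + v = 0)
    (lam : U →+ V) (ht : ∀ a : U, a + a = 0 → a = 0) (a : U) (n : ℕ) (h0 : n ≠ 0)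
    (h : n • a = 0) : lam a = 0 := by
  induction n using Nat.strong_induction_on with
  | _ n ih =>
    obtain ⟨k, rfl | rfl⟩ := Nat.even_or_odd' n
    · exact ih k (by omega) (by omega) (ht _ (by rw [← add_nsmul, ← two_mul, h]))
    · have := congrArg lam h
      rwa [add_nsmul, two_mul, add_nsmul, map_add, map_add, h2, zero_add, one_nsmul,
        map_zero] at this

theorem exists_lattice {Γ U V : Type} [Group Γ] [AddCommGroup U] [Module.Finite ℤ U]
    [AddCommGroup V] (h2 : ∀ v : V, v + v = 0) (ρ : Representation ℤ Γ U) (lam : U →+ V)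
    (ht : ∀ a : U, a + a = 0 → a = 0) (hk : ∀ a, lam a = 0 → ∃ b, a = b + b) :
    ∃ (U' : Type) (_ : AddCommGroup U') (_ : Module.Free ℤ U') (_ : Module.Finite ℤ U')
      (ρ' : Representation ℤ Γ U') (lam' : U' →+ V) (π : U →+ U'), Function.Surjective π ∧
      (∀ a, lam' (π a) = lam a) ∧ (∀ g a, π (ρ g a) = ρ' g (π a)) ∧
      ∀ a, lam' a = 0 → ∃ b, a = b + b := by
  have h1 : Submodule.torsion ℤ U ≤ LinearMap.ker lam.toIntLinearMap := by
    rintro a ⟨⟨n, hn⟩, e⟩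
    exact lat_tor h2 lam ht a n.natAbs (Int.natAbs_ne_zero.2 (nonZeroDivisors.ne_zero hn))
      (natAbs_nsmul_eq_zero.2 e)
  have h3 : ∀ g, Submodule.torsion ℤ U ≤ (Submodule.torsion ℤ U).comap (ρ g) := by
    rintro g a ⟨⟨n, hn⟩, e⟩
    exact ⟨⟨n, hn⟩, by
      rw [Submonoid.mk_smul] at e ⊢
      rw [← map_smul, e, map_zero]⟩
  refine ⟨U ⧸ Submodule.torsion ℤ U, inferInstance, inferInstance, inferInstance,
    ρ.quotient _ h3, ((Submodule.torsion ℤ U).liftQ _ h1).toAddMonoidHom,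
    (Submodule.torsion ℤ U).mkQ.toAddMonoidHom, Submodule.mkQ_surjective _, fun _ => rfl,
    fun _ _ => rfl, fun a ha => ?_⟩
  obtain ⟨a, rfl⟩ := Submodule.mkQ_surjective _ a
  obtain ⟨b, rfl⟩ := hk a ha
  exact ⟨_, map_add _ _ _⟩

end Pool.Agent.Lib.MP_775b3b_nt.CM
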