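import Pool.Agent.Lib.MP_775b3b_nt.CM3.D3
import Pool.Agent.Lib.MP_775b3b_nt.CM3.D5a
import Pool.Agent.Lib.MP_775b3b_nt.CM3.Hat
import Pool.Agent.Lib.MP_775b3b_nt.CM3.Lat

namespace Pool.Agent.Lib.MP_775b3b_nt.CM

open Pool.Agent.Lib.MP_439fea_co NumberField WithZero

variable {K : Type} [Field K] [NumberField K] [IsGalois ℚ K]

variable (D : Dt K) {S : Finset (P K)} {Q : Subgroup (Ga K)}

omit [IsGalois ℚ K] in
theorem Dt.U1_le : D.U1 S Q ≤ D.Z S := fun x h =>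
  ⟨⟨1, (show D.nrm x = 1 from h.2).trans (one_mul 1).symm⟩, fun w hw => by
    rw [(sunit_ord_eq_zero_iff w x.ne_zero).2
      (mem_US.1 h.1.1 w fun hm => let ⟨v, hv, g, e⟩ := mem_orb.1 hm; hw v hv g e)]
    exact Even.zero⟩

omit [IsGalois ℚ K] in
theorem Dt.nrm_smul (g : Ga K) (x : Kˣ) : D.nrm (g • x) = g • D.nrm x := by
  have e : ∀ z : Kˣ, D.σ • g • z = g • D.σ • z := fun z => by
    rw [← mul_smul, ← mul_smul, D.cub.cen g]
  change g • x * D.σ • g • x * (D.σ * D.σ) • g • x = g • (x * D.σ • x * (D.σ * D.σ) • x)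
  rw [mul_smul, e, e, ← mul_smul D.σ, ← smul_mul', ← smul_mul']

omit [IsGalois ℚ K] in
theorem Dt.U1_smul {x : Kˣ} (h : x ∈ D.U1 S ⊥) (g : Ga K) : g • x ∈ D.U1 S ⊥ := by
  refine ⟨⟨mem_US.2 fun w hw => ?_, fun k hk => by rw [Subgroup.mem_bot.1 hk, one_smul]⟩, ?_⟩
  · rw [← smul_inv_smul g w]
    refine (val_smul g _ (x : K)).trans (mem_US.1 h.1.1 _ fun hm => hw ?_)
    obtain ⟨v, hv, k, e⟩ := mem_orb.1 hm
    exact mem_orb.2 ⟨v, hv, g * k, by rw [mul_smul, e, smul_inv_smul]⟩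
  · change D.nrm (g • x) = 1
    rw [D.nrm_smul, show D.nrm x = 1 from h.2, smul_one]

omit [IsGalois ℚ K] in
theorem d5b_neg : D.nrm (-1) = -1 := Units.ext (by simp [Dt.nrm])

omit [IsGalois ℚ K] in
theorem d5b_eq {x y : Kˣ} (hx : D.nrm x = 1) (hy : D.nrm y = 1) (h : x * x = y * y) : x = y := by
  rcases mul_self_eq_mul_self_iff.1 (congrArg Units.val h) with h' | h'
  · exact Units.ext h'
  · rw [show x = -1 * y from Units.ext (by simpa using h'), map_mul, hy, mul_one, d5b_neg] at hx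
    have h3 := congrArg Units.val hx
    rw [Units.val_neg, Units.val_one] at h3
    exact absurd h3 (by norm_num)

omit [IsGalois ℚ K] in
theorem Dt.U1_sq {x : Kˣ} (h : x ∈ D.U1 S Q) (h' : IsSquare x) : ∃ y ∈ D.U1 S Q, x = y * y := by
  suffices ∃ y ∈ US (orb S), D.nrm y = 1 ∧ x = y * y by
    obtain ⟨y, h1, h2, rfl⟩ := this
    exact ⟨y, ⟨⟨h1, fun g hg => d5b_eq D (by rw [D.nrm_smul, h2, smul_one]) h2 (by
      rw [← smul_mul', h.1.2 g hg])⟩, h2⟩, rfl⟩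
  obtain ⟨z, rfl⟩ := h'
  have h1 : z ∈ US (orb S) := mem_US.2 fun w hw => by
    have := mem_US.1 h.1.1 w hw
    rw [Units.val_mul, map_mul, ← sq] at this
    exact (pow_eq_one_iff_of_nonneg zero_le two_ne_zero).1 this
  have h2 : (D.nrm z : K) * D.nrm z = 1 := by
    rw [← Units.val_mul, ← map_mul, show D.nrm (z * z) = 1 from h.2, Units.val_one]
  rcases mul_self_eq_one_iff.1 h2 with h3 | h3
  · exact ⟨z, h1, Units.ext h3, rfl⟩
  · refine ⟨-1 * z, mul_mem (neg_one_mem_US _) h1, Units.ext ?_, by simp⟩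
    rw [map_mul, d5b_neg, Units.val_mul, h3]
    simp

instance Dt.U1_fin : Module.Finite ℤ (Additive (D.U1 S Q)) :=
  rk_finite_of_le (inf_le_left.trans inf_le_left)

/-- the localisation map on the units -/
noncomputable def Dt.lam (hS : D.Ok S) (Q : Subgroup (Ga K)) :
    Additive (D.U1 S Q) →+ (Ix S → GA (Ga K)) :=
  AddMonoidHom.mk' (fun a => D.loc S (a.toMul : D.U1 S Q)) fun a b =>
    D.loc_mul hS hS (D.U1_le a.toMul.2) (D.U1_le b.toMul.2)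

omit [IsGalois ℚ K] in
theorem Dt.lam_ker (hS : D.Ok S) (hI : D.Inj S) (a : Additive (D.U1 S Q)) (ha : D.lam hS Q a = 0) :
    ∃ b, a = b + b := by
  obtain ⟨y, hy, e⟩ := D.U1_sq a.toMul.2 (hI.zero (D.U1_le a.toMul.2) ha)
  exact ⟨Additive.ofMul ⟨y, hy⟩, Subtype.ext e⟩

theorem Dt.card_lam (hS : D.Ok S) (hI : D.Inj S) (Q : Subgroup (Ga K)) {a : ℕ}
    (ha : S.card = a + 1) : dc D.σ Q D.c ^ 2 * dc D.σ Q 1 ^ a ≤ Nat.card (D.lam hS Q).range :=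
  (D.rank_U1 hS Q ha).trans (card_range_ge _ (D.lam_ker hS hI))

theorem Dt.hat (hS : D.Ok S) (hI : D.Inj S) : Hat D.σ D.c D.u ⟨D.q, hS.mem⟩ (D.HS S) ∧
    Nat.card (D.HS S) = 4 ^ (Nat.card D.G * S.card) ∧
    ∀ z ∈ D.HS S, ∃ x ∈ D.U1 S ⊥, D.loc S x = z := by
  obtain ⟨a, ha⟩ := Nat.exists_eq_add_one_of_ne_zero (Finset.card_ne_zero_of_mem hS.mem)
  have h2 := D.card_lam hS hI ⊥ ha
  rw [dc_bot D.cub D.cc D.c1, dc_bot_one D.cub, ← pow_succ', ← ha, ← pow_mul] at h2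
  have h3 : (D.lam hS ⊥).range ≤ (D.HS S).toAddSubgroup := by
    rintro _ ⟨a, rfl⟩
    exact (D.mem_HS hS).2 ⟨_, D.U1_le a.toMul.2, rfl⟩
  have h4 : Hat D.σ D.c D.u ⟨D.q, hS.mem⟩ (D.HS S) := ⟨fun x hx => by
    obtain ⟨y, hy, rfl⟩ := (D.mem_HS hS).1 hx
    exact D.ee_loc hS hS hy, fun x hx => by
    obtain ⟨y, hy, rfl⟩ := (D.mem_HS hS).1 hx
    exact D.wp_loc hS.mem hy, fun x hx hw => by
    obtain ⟨y, hy, rfl⟩ := (D.mem_HS hS).1 hx
    exact D.loc_isSquare hS (hI.wm hS.mem hy hw), fun x hx y hy => by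
    obtain ⟨a, ha, rfl⟩ := (D.mem_HS hS).1 hx
    obtain ⟨b, hb, rfl⟩ := (D.mem_HS hS).1 hy
    exact D.pair hS ha hb⟩
  have h6 := h4.card_le D.cub D.hu D.cc D.c1
  have h7 := h2.trans (AddSubgroup.card_le_of_le h3)
  rw [Fintype.card_coe] at h6
  refine ⟨h4, h6.antisymm h7, fun z hz => ?_⟩
  obtain ⟨a, ha⟩ := (AddSubgroup.eq_of_le_of_card_ge h3 (h6.trans h2)).ge hz
  exact ⟨_, a.toMul.2, ha⟩

end Pool.Agent.Lib.MP_775b3b_nt.CM
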