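import Pool.Agent.Lib.MP_775b3b_nt.CM3.D6x
import Pool.Agent.Lib.MP_775b3b_nt.CM3.D2

/-! Reciprocity in the fixed field of a subgroup. -/

namespace Pool.Agent.Lib.MP_775b3b_nt.CM

open Pool.Agent.Lib.MP_439fea_co NumberField WithZero

theorem d6_tm {K : Type} [Field K] [NumberField K] {v : P K} {l : ℕ} (hp : l.Prime)
    (h1 : l % 4 = 1) (hu : val v (l : K) = exp (-1 : ℤ)) (x y : Kˣ) :
    tm v x y = od v x * sl l v y + sl l v x * od v y := by
  have h2 : val v (2 : K) = 1 := by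
    refine (val_natCast_le_one v 2).antisymm (not_lt.1 fun h2 => ?_)
    have := prime_under_unique v hp Nat.prime_two (hu ▸ c1a_lt) h2
    omega
  have h3 : ord v ((nu K l : Kˣ) : K) = 1 := by rw [val_nu hp.ne_zero, ord, hu, log_exp, neg_neg]
  have h4 : (-1 : Kˣ) ∈ Sq (val v) := by
    have := Fact.mk hp
    obtain ⟨y, hy⟩ := (ZMod.exists_sq_eq_neg_one_iff (p := l)).2 (by rw [h1]; decide)
    have h1 : l ∣ y.val ^ 2 + 1 := by
      rw [← ZMod.natCast_eq_zero_iff, Nat.cast_add, Nat.cast_pow, ZMod.natCast_zmod_val, sq, ← hy]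
      simp
    have h0 : y.val ≠ 0 := fun e => hp.not_dvd_one (by simpa [e] using h1)
    have h3 := (val_natCast_lt_one_iff v hp (hu ▸ c1a_lt) _).2 h1
    refine mem_Sq.2 ⟨(nu K y.val)⁻¹, -(nu K y.val) ^ 2, ?_, by simp⟩
    rw [mem_One, local_val_four, h2, mul_one, ← Valuation.map_neg]
    simpa [val_nu h0, add_comm] using h3
  have h5 : ∀ x : Kˣ, ord v ((x * nu K l ^ (-ord v (x : K)) : Kˣ) : K) = 0 := fun x => by
    rw [Units.val_mul, ord_mul v x.ne_zero (Units.ne_zero _), c1a_zpow, h3, mul_one, add_neg_cancel]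
  have e : x ^ ord v (y : K) * y ^ (-ord v (x : K)) =
      (x * nu K l ^ (-ord v (x : K))) ^ ord v (y : K) *
        (y * nu K l ^ (-ord v (y : K))) ^ (-ord v (x : K)) := by
    rw [mul_zpow, mul_zpow, ← zpow_mul, ← zpow_mul, mul_mul_mul_comm, ← zpow_add,
      show -ord v (x : K) * ord v (y : K) + -ord v (y : K) * -ord v (x : K) = 0 by ring,
      zpow_zero, mul_one]
  rw [tm, mul_assoc, mul_comm, ns_mul_of_mem _ (zpow_mem h4 _), e,
    ns_mul h2 (by rw [c1a_zpow, h5, mul_zero]; exact Even.zero)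
      (by rw [c1a_zpow, h5, mul_zero]; exact Even.zero),
    c1a_ns, c1a_ns, Int.cast_neg, CharTwo.neg_eq (R := ZMod 2), add_comm,
    mul_comm ((ord v (y : K) : ℤ) : ZMod 2)]
  rfl

variable {K : Type} [Field K] [NumberField K] [IsGalois ℚ K]

variable (D : Dt K) {S : Finset (P K)}

theorem d6c_trace : ∑ g : Ga K, g • D.α = ((Algebra.trace ℤ (𝓞 K) D.α : ℤ) : 𝓞 K) := by
  apply RingOfIntegers.ext
  have h := trace_eq_sum_automorphisms (K := ℚ) (D.α : K)
  rw [← Algebra.coe_trace_int, map_intCast] at h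
  change algebraMap (𝓞 K) K _ = algebraMap (𝓞 K) K _
  rw [map_intCast, map_sum, h]
  rfl

omit [IsGalois ℚ K] in
theorem d6c_odd : ((Algebra.trace ℤ (𝓞 K) D.α : ℤ) : ZMod 2) = 1 := by
  have h := D.one 1 (by simp)
  rwa [one_mul] at h

omit [IsGalois ℚ K] in
theorem Dt.mk_smul {x r : Kˣ} {g : Ga K} (h1 : (g * D.c * g⁻¹) • x = x)
    (h2 : (g * D.c * g⁻¹) • r = r) (h : x * D.σ • x * (D.σ * D.σ) • x = r * r) :
    Mk D.σ D.c (g⁻¹ • x) := by
  have e : ∀ z : Kˣ, (g * D.c * g⁻¹) • z = z → D.c • g⁻¹ • z = g⁻¹ • z := fun z hz => by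
    rw [eq_inv_smul_iff, ← mul_smul, ← mul_smul, hz]
  have e2 : ∀ z : Kˣ, D.σ • g⁻¹ • z = g⁻¹ • D.σ • z := fun z => by
    rw [← mul_smul, ← mul_smul, D.cub.cen]
  exact ⟨e x h1, g⁻¹ • r, e r h2, by
    rw [← smul_mul', ← h, smul_mul', smul_mul', mul_smul, mul_smul, e2, e2]⟩

omit [IsGalois ℚ K] in
theorem Dt.od_c (x : Kˣ) : od D.q (D.c • x) = od D.q x := by
  rw [od, od, ← ord_smul D.c D.q (x : K), D.ip.fix]
  rfl

section Tower

variable {k : Type} [Field k] [NumberField k] [Algebra k K] {Q : Subgroup (Ga K)}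
  {R : Finset (Ga K)}

omit [IsGalois ℚ K] in
theorem d6c_even {x r : kˣ}
    (h5 : um K x * D.σ • um K x * (D.σ * D.σ) • um K x = um K r * um K r) {w : P K}
    (hw : Even (ord w ((um K x : Kˣ) : K))) : Even (ord (und k w) (x : k)) := by
  obtain ⟨e, he, h⟩ := ord_map k w
  have hx : ord w ((um K x : Kˣ) : K) = e * ord (und k w) (x : k) := h x
  have hr : ord w ((um K r : Kˣ) : K) = e * ord (und k w) (r : k) := h r
  rcases D.ram w with h1 | ⟨n, hn⟩
  · have a1 : ord w ((D.σ • um K x : Kˣ) : K) = ord w ((um K x : Kˣ) : K) := by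
      have := ord_smul D.σ w ((um K x : Kˣ) : K)
      rwa [h1] at this
    have a2 : ord w (((D.σ * D.σ) • um K x : Kˣ) : K) = ord w ((um K x : Kˣ) : K) := by
      have := ord_smul (D.σ * D.σ) w ((um K x : Kˣ) : K)
      rwa [mul_smul, h1, h1] at this
    have a3 := congrArg (fun z : Kˣ => ord w (z : K)) h5
    simp only [Units.val_mul] at a3
    rw [ord_mul w (mul_ne_zero (Units.ne_zero _) (Units.ne_zero _)) (Units.ne_zero _),
      ord_mul w (Units.ne_zero _) (Units.ne_zero _), ord_mul w (Units.ne_zero _) (Units.ne_zero _),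
      a1, a2, hx, hr, ← mul_add, ← mul_add, ← mul_add] at a3
    have a4 := mul_left_cancel₀ (Int.natCast_ne_zero.2 he) a3
    exact ⟨ord (und k w) (r : k) - ord (und k w) (x : k), by omega⟩
  · have := h (n : k)
    rw [map_natCast] at this
    rw [this, Int.odd_mul] at hn
    rw [hx, Int.even_mul] at hw
    exact hw.resolve_left (Int.not_even_iff_odd.2 hn.1)

theorem d6c_tau (hQ : ∀ g : Ga K, g ∈ Q ↔ ∀ a : k, g (algebraMap k K a) = algebraMap k K a)
    (hR : c6c_Rep Q R) :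
    ∑ τ : K ≃ₐ[k] K, (τ.restrictScalars ℚ : Ga K) • ∑ g ∈ R, g • D.α =
      ((Algebra.trace ℤ (𝓞 K) D.α : ℤ) : 𝓞 K) := by
  rw [← d6c_trace, ← c6c_sum (AlgEquiv.restrictScalars_injective ℚ) (c6c_Q hQ) hR]
  simp only [Finset.smul_sum, mul_smul]

theorem d6c_two (hQ : ∀ g : Ga K, g ∈ Q ↔ ∀ a : k, g (algebraMap k K a) = algebraMap k K a)
    (hR : c6c_Rep Q R) (s : 𝓞 k) :
    nq Q * cz D.α (algebraMap (𝓞 k) (𝓞 K) s * ∑ g ∈ R, g • D.α) =
      cz D.α (algebraMap (𝓞 k) (𝓞 K) s) := by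
  have e : ∀ τ : K ≃ₐ[k] K, (τ.restrictScalars ℚ : Ga K) • algebraMap (𝓞 k) (𝓞 K) s =
      algebraMap (𝓞 k) (𝓞 K) s := fun τ => RingOfIntegers.ext (τ.commutes (s : k))
  rw [c6c_nq (AlgEquiv.restrictScalars_injective ℚ) (c6c_Q hQ)]
  simp only [← cz_smul, smul_mul', e]
  rw [← c6c_cz_sum, ← Finset.mul_sum, d6c_tau D hQ hR]
  refine ga_ext fun g => ?_
  simp only [cz, coeff_mk]
  rw [mul_comm (algebraMap _ _ s), ← zsmul_eq_mul, smul_comm, smul_mul_assoc, zsmul_eq_mul,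
    c6c_tr2_int, d6c_odd, one_mul]

theorem d6c_form [IsGalois k K]
    (hQ : ∀ g : Ga K, g ∈ Q ↔ ∀ a : k, g (algebraMap k K a) = algebraMap k K a)
    (hR : c6c_Rep Q R) (s s' : 𝓞 k) :
    tr2 (algebraMap (𝓞 k) (𝓞 K) s * (algebraMap (𝓞 k) (𝓞 K) s' * ∑ g ∈ R, g • D.α)) =
      tr2 (s * s') := by
  rw [← mul_assoc, ← map_mul,
    tr2_map (s * s') ((Algebra.trace ℤ (𝓞 K) D.α : ℤ) : 𝓞 k), mul_comm, c6c_tr2_int, d6c_odd,
    one_mul]
  have h := congrArg (algebraMap (𝓞 K) K) (d6c_tau D hQ hR)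
  rw [map_intCast, map_sum] at h
  change algebraMap k K (algebraMap (𝓞 k) k _) = _
  rw [map_intCast, map_intCast, ← h]
  rfl

omit [IsGalois ℚ K] in
theorem d6c_q [IsGalois k K] [DecidableEq (P k)]
    (hQ : ∀ g : Ga K, g ∈ Q ↔ ∀ a : k, g (algebraMap k K a) = algebraMap k K a)
    (hR : c6c_Rep Q R) {x y r r' : kˣ} (hx : um K x ∈ D.Z S) (hy : um K y ∈ D.Z S)
    (h5 : um K x * D.σ • um K x * (D.σ * D.σ) • um K x = um K r * um K r)
    (h6 : um K y * D.σ • um K y * (D.σ * D.σ) • um K y = um K r' * um K r') :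
    ∑ w ∈ R.image fun g => und k (g • D.q), tm w x y =
      ∑ g ∈ R, (od D.q (g⁻¹ • um K x) * D.b0 (g⁻¹ • um K y) +
        D.b0 (g⁻¹ • um K x) * od D.q (g⁻¹ • um K y)) := by
  have fix : ∀ z : kˣ, ∀ g ∈ Q, g • um K z = um K z := fun z g hg =>
    Units.ext ((hQ g).1 hg (z : k))
  have ci : D.c⁻¹ = D.c := inv_eq_of_mul_eq_one_right D.cc
  have ho : ∀ (g : Ga K) (z : kˣ), od D.q (g⁻¹ • um K z) = od (und k (g • D.q)) z := fun g z => by
    rw [od, od, ord_smul', ord, ord, ← ord_map_of_one (D.ip.smul g).unr]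
    rfl
  have hu : ∀ g : Ga K, val (und k (g • D.q)) (D.l : k) = exp (-1 : ℤ) := fun g => by
    rw [← ord_map_of_one (D.ip.smul g).unr, map_natCast, (D.ip.smul g).unr]
  refine d6_fiber (c := D.c) hR _ (fun q hq g => ?_) _ (fun g h => ⟨fun e => ?_, ?_⟩) _
    (fun g hg => ?_) fun g hg => ?_
  · simp only [mul_inv_rev, mul_smul, fix _ _ (inv_mem hq)]
  · obtain ⟨τ, e⟩ := exists_smul_eq e.symm
    rw [← c6c_res, ← mul_smul] at e
    refine ⟨_, (c6c_Q hQ _).2 ⟨τ, rfl⟩, (D.ip.stab (g⁻¹ * (τ.restrictScalars ℚ * h))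
      (by rw [mul_smul, e, inv_smul_smul])).imp inv_mul_eq_one.1 fun e' => ?_⟩
    rw [← mul_assoc, inv_mul_eq_iff_eq_mul.1 e', mul_assoc, D.cc, mul_one]
  · rintro ⟨q, hq, rfl | rfl⟩ <;> obtain ⟨τ, rfl⟩ := (c6c_Q hQ q).1 hq
    · rw [mul_smul, c6c_res, und_smul]
    · rw [mul_smul, c6c_res, und_smul, mul_smul, D.ip.fix]
  · rw [D.b0_eq _ (D.mk_smul (fix _ _ hg) (fix _ _ hg) h5),
      D.b0_eq _ (D.mk_smul (fix _ _ hg) (fix _ _ hg) h6), fs_smul, fs_smul,
      (D.ip.smul g).fs_map ((hQ _).1 hg), (D.ip.smul g).fs_map ((hQ _).1 hg), ho, ho,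
      d6_tm D.ip.prime D.ip.one (hu g)]
  · have hs : ∀ z : kˣ, sl D.l D.q (g⁻¹ • um K z) = sl D.l (und k (g • D.q)) z := fun z => by
      rw [sl_smul, sl, sl, ← ns_map (D.ip.smul g).two (D.ip.smul g).unr (d6_res fun τ e =>
        AlgEquiv.restrictScalars_injective ℚ (((D.ip.smul g).stab (τ.restrictScalars ℚ)
          ((c6c_res ..).trans e)).resolve_right fun e' => hg (e' ▸ (c6c_Q hQ _).2 ⟨τ, rfl⟩))),
        map_mul, map_zpow, ord, ord, ← ord_map_of_one (D.ip.smul g).unr]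
      congr 3
      ext
      change _ = algebraMap k K (nu k D.l : kˣ)
      rw [val_nu D.ip.prime.ne_zero, val_nu D.ip.prime.ne_zero, map_natCast]
    simp only [mul_inv_rev, ci, mul_smul, D.od_c]
    rw [add_add_add_comm, ← mul_add, ← add_mul, D.b0_c (D.smul_mem hx _).1,
      D.b0_c (D.smul_mem hy _).1, hs, hs, ho, ho, d6_tm D.ip.prime D.ip.one (hu g)]

theorem d6c_main [IsGalois k K] (hS : D.Ok S)
    (hQ : ∀ g : Ga K, g ∈ Q ↔ ∀ a : k, g (algebraMap k K a) = algebraMap k K a)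
    {x y r r' : kˣ} (hx : um K x ∈ D.Z S) (hy : um K y ∈ D.Z S)
    (h5 : um K x * D.σ • um K x * (D.σ * D.σ) • um K x = um K r * um K r)
    (h6 : um K y * D.σ • um K y * (D.σ * D.σ) • um K y = um K r' * um K r')
    {v : Ix S → GA (Ga K)} (hv : nq Q • v = D.loc S (um K y)) :
    (hf D.u (D.loc S (um K x)) v).coeff 1 = 0 := by
  classical
  obtain ⟨R, hR⟩ := c6c_rep Q
  have fix : ∀ z : kˣ, ∀ g ∈ Q, g • um K z = um K z := fun z g hg =>
    Units.ext ((hQ g).1 hg (z : k))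
  have hund : ∀ q ∈ Q, ∀ w : P K, und k (q • w) = und k w := by
    intro q hq w
    obtain ⟨τ, rfl⟩ := (c6c_Q hQ q).1 hq
    rw [c6c_res, und_smul]
  let f : S → Finset (P k) := fun t => R.image fun g => und k (g • t.1)
  have dis : Set.PairwiseDisjoint (↑(Finset.univ : Finset S)) f := fun v _ w _ ne =>
    Finset.disjoint_left.2 fun a h1 h2 => by
      obtain ⟨g, -, rfl⟩ := Finset.mem_image.1 h1
      obtain ⟨h, -, e⟩ := Finset.mem_image.1 h2
      obtain ⟨τ, e⟩ := exists_smul_eq e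
      exact ne (Subtype.ext (hS.inj _ v.2 _ w.2 (by
        rw [← nm_smul g v.1, ← e, ← c6c_res, nm_smul, nm_smul])))
  have hT : ∀ w ∈ Finset.univ.biUnion f, val w (2 : k) = 1 := by
    intro w hw
    obtain ⟨t, -, hw⟩ := Finset.mem_biUnion.1 hw
    obtain ⟨g, -, rfl⟩ := Finset.mem_image.1 hw
    refine (val_algebraMap_eq_one_iff (g • t.1) (2 : k)).1 ?_
    rw [map_ofNat]
    by_cases e : t.1 = D.q
    exacts [e ▸ (D.ip.smul g).two, ((hS.sp _ t.2 e).smul g).two]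
  have ho : ∀ w ∉ Finset.univ.biUnion f, Even (ord w (x : k)) ∧ Even (ord w (y : k)) := by
    intro w hw
    obtain ⟨W, rfl⟩ := exists_over K w
    have out : ∀ v ∈ S, ∀ g : Ga K, g • v ≠ W := by
      intro v hv g e
      obtain ⟨q, hq, h⟩ := hR.ex g
      refine hw (Finset.mem_biUnion.2 ⟨⟨v, hv⟩, Finset.mem_univ _,
        Finset.mem_image.2 ⟨q⁻¹ * g, h, ?_⟩⟩)
      rw [mul_smul, e, hund _ (Q.inv_mem hq)]
    exact ⟨d6c_even D h5 (hx.2 W out), d6c_even D h6 (hy.2 W out)⟩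
  have h2 : Two k := D.two.down
  obtain ⟨s, hs⟩ := exists_sig h2 (x := x) fun w hw => (ho w fun h => hw.ne (hT w h)).1
  obtain ⟨s', hs'⟩ := exists_sig h2 (x := y) fun w hw => (ho w fun h => hw.ne (hT w h)).2
  have := Fintype.ofFinite (k →+* ℝ)
  have h := recip h2 x y s s' hs hs' _ hT ho
  rw [Finset.sum_biUnion dis] at h
  let v' : Ix S → GA (Ga K) := fun i => match i with
    | .inl false => cz D.α (algebraMap (𝓞 k) (𝓞 K) s' * ∑ g ∈ R, g • D.α)
    | .inl true => c6c_rs R (co D.s0 (um K y))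
    | .inr (false, t) => c6c_rs R (co (od t.1) (um K y))
    | .inr (true, t) => c6c_rs R (co (D.sy t.1) (um K y))
  have hco : ∀ φ : Kˣ → ZMod 2, nq Q * c6c_rs R (co φ (um K y)) = co φ (um K y) := fun φ =>
    c6c_rs_nq hR fun g hg => by rw [← co_smul, fix y g hg]
  have hv' : nq Q • v = nq Q • v' := by
    rw [hv]
    funext i
    rcases i with (_ | _) | ⟨_ | _, t⟩
    · exact (cz_congr D.two D.α (D.sig_spec hS hy) hs'.map).trans (d6c_two D hQ hR s').symm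
    · exact (hco _).symm
    · exact (hco _).symm
    · exact (hco _).symm
  rw [coeff_hf_congr D.u Q (fun g hg => by rw [← D.loc_smul hS hx g, fix x g hg]) hv', ← h, hf,
    MonoidAlgebra.coeff_add, MonoidAlgebra.coeff_add, MonoidAlgebra.coeff_sum,
    Finsupp.add_apply, Finsupp.add_apply, Finsupp.finsetSum_apply, ← d6c_form D hQ hR, ← D.form,
    ← d6_real hQ hR D.hΦ, add_comm _ (∑ _, _), add_assoc, add_comm (MonoidAlgebra.coeff _ _)]
  refine congrArg₂ _ (Finset.sum_congr rfl fun t _ => ?_)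
    (congrArg₂ _ ((c6c_rs_star R _ _).trans ?_) ?_)
  · rw [MonoidAlgebra.coeff_add, Finsupp.add_apply]
    refine (congrArg₂ _ (c6c_rs_star R _ _) (c6c_rs_star R _ _)).trans ?_
    rw [← Finset.sum_add_distrib]
    by_cases e : t.1 = D.q
    · simp only [f, Dt.loc, co, coeff_mk, Dt.sy, e, if_true]
      exact (d6c_q D hQ hR hx hy h5 h6).symm
    rw [Finset.sum_image fun g hg h hh e' => by
      obtain ⟨τ, e'⟩ := exists_smul_eq e'
      rw [← c6c_res, ← mul_smul] at e'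
      exact (hR.un h hh g hg _ ((c6c_Q hQ _).2 ⟨τ, rfl⟩) (inv_mul_eq_one.1 ((hS.sp _ t.2 e).free
        (h⁻¹ * (τ.restrictScalars ℚ * g)) (by rw [mul_smul, e', inv_smul_smul])))).symm]
    refine Finset.sum_congr rfl fun g _ => ?_
    have hp := (hS.sp _ t.2 e).smul g
    rw [← tm_map hp, tm_eq hp]
    simp only [Dt.loc, co, coeff_mk, od, ord_smul', Dt.sy, if_neg e, sy_smul]
  · simp only [Dt.loc, co, coeff_mk]
    rw [d6_inv hR D.cc _ (fun q hq g => by simp only [mul_inv_rev, mul_smul, fix _ _ (inv_mem hq)])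
      fun g => by
        simp only [mul_inv_rev, inv_eq_of_mul_eq_one_right D.cc, mul_smul,
          D.s0_c (D.smul_mem hx _).1, D.s0_c (D.smul_mem hy _).1]]
    refine Finset.sum_congr rfl fun g hg => ?_
    have hg := (Finset.mem_filter.1 hg).2
    rw [D.s0_eq _ (D.mk_smul (fix _ _ hg) (fix _ _ hg) h5),
      D.s0_eq _ (D.mk_smul (fix _ _ hg) (fix _ _ hg) h6)]
  · rw [← cz_congr D.two D.α (D.sig_spec hS hx) hs.map]
    rfl

end Tower

theorem Dt.pair_fixed (hS : D.Ok S) (Q : Subgroup (Ga K)) {x y r r' : Kˣ} (hx : x ∈ D.Z S)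
    (hy : y ∈ D.Z S) (h1 : ∀ g ∈ Q, g • x = x) (h2 : ∀ g ∈ Q, g • y = y)
    (h3 : ∀ g ∈ Q, g • r = r) (h4 : ∀ g ∈ Q, g • r' = r')
    (h5 : x * D.σ • x * (D.σ * D.σ) • x = r * r) (h6 : y * D.σ • y * (D.σ * D.σ) • y = r' * r')
    {v : Ix S → GA (Ga K)} (hv : nq Q • v = D.loc S y) :
    (hf D.u (D.loc S x) v).coeff 1 = 0 := by
  have hl : ∀ z : Kˣ, (∀ g ∈ Q, g • z = z) →
      ∃ z0 : (IntermediateField.fixedField Q)ˣ, um K z0 = z := fun z hz =>
    ⟨Units.mk0 ⟨z, (IntermediateField.mem_fixedField_iff Q _).2 fun g hg =>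
      congrArg Units.val (hz g hg)⟩ fun e => z.ne_zero (congrArg Subtype.val e), Units.ext rfl⟩
  obtain ⟨x, rfl⟩ := hl x h1
  obtain ⟨y, rfl⟩ := hl y h2
  obtain ⟨r, rfl⟩ := hl r h3
  obtain ⟨r', rfl⟩ := hl r' h4
  refine d6c_main D hS (fun g => ?_) hx hy h5 h6 hv
  constructor
  · intro hg a
    exact (IntermediateField.mem_fixedField_iff Q _).1 a.2 g hg
  · intro h
    rw [← IntermediateField.fixingSubgroup_fixedField Q, IntermediateField.mem_fixingSubgroup_iff]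
    exact fun a ha => h ⟨a, ha⟩

end Pool.Agent.Lib.MP_775b3b_nt.CM
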