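import Pool.Agent.Lib.MP_775b3b_nt.CM3.YDef
import Pool.Agent.Lib.MP_775b3b_nt.CM3.Fr31

/-! The free Lagrangian attached to the global classes. -/

namespace Pool.Agent.Lib.MP_775b3b_nt.CM

open Fr

variable {Γ T : Type} [Group Γ] [Fintype Γ] [Fintype T] {σ c : Γ} {G : Subgroup Γ} {u : GA Γ}
  {q : T} {H M : Submodule (GA Γ) (Ix T → GA Γ)}

/-- every functional is a pairing -/
theorem exists_pair (hu : IsUnit u) (L : Module.Dual (ZMod 2) (Ix T → GA Γ)) :
    ∃ r, ∀ x, (hf u r x).coeff 1 = L x := by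
  have z : ∀ r : ZMod 2, r = 0 ∨ r = 1 := by decide
  let B : (Ix T → GA Γ) →ₗ[ZMod 2] Module.Dual (ZMod 2) (Ix T → GA Γ) :=
    LinearMap.mk₂ (ZMod 2) (fun x y => (hf u x y).coeff 1)
      (fun _ _ _ => by rw [hf_add_left]; rfl)
      (fun r _ _ => by rcases z r with rfl | rfl <;> simp [hf_zero_left])
      (fun _ _ _ => by rw [hf_add_right]; rfl)
      fun r _ _ => by rcases z r with rfl | rfl <;> simp [hf_zero_right]
  obtain ⟨r, hr⟩ := (LinearMap.injective_iff_surjective_of_finrank_eq_finrank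
    (Subspace.dual_finrank_eq (K := ZMod 2) (V := Ix T → GA Γ)).symm).1
    ((injective_iff_map_eq_zero B).2 fun x hx => hf_nondeg hu x (LinearMap.congr_fun hx)) L
  exact ⟨r, LinearMap.congr_fun hr⟩

/-- the self-adjoint map onto the invisible coordinates -/
theorem exists_proj (cc : c * c = 1) (q : T) : ∃ P : (Ix T → GA Γ) →ₗ[GA Γ] Ix T → GA Γ,
    (∀ v, P v = 0 ↔ Wp c q v) ∧ (∀ u x y, hf u (P x) y = hf u x (P y)) ∧
      ∀ v, Wm c q (P v) := by
  classical
  have sn : star (1 + gr c) = 1 + gr c := by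
    rw [star_add, star_one, sel_star_gr, inv_eq_of_mul_eq_one_left cc]
  have fx : ∀ x : GA Γ, x * (1 + gr c) = 0 ↔ x * gr c = x := fun x => by
    rw [mul_add, mul_one, add_eq_zero_iff_neg_eq, neg_eq_iff_add_eq_zero.2 (sel_two x), eq_comm]
  have nc : ∀ x : GA Γ, x * (1 + gr c) * gr c = x * (1 + gr c) := fun x => by
    rw [mul_assoc, add_mul, one_mul, ← sel_gr_mul, cc, add_comm]
    rfl
  generalize 1 + gr c = n at *
  refine ⟨⟨⟨fun v => Pi.single (.inl true) (v (.inl true) * n) +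
    Pi.single (.inr (true, q)) (v (.inr (false, q)) * n), fun v w => ?_⟩, fun r v => ?_⟩,
    fun v => ⟨fun h => ⟨(fx _).1 ?_, (fx _).1 ?_⟩, fun h => ?_⟩, fun u x y => ?_,
    fun v => ⟨?_, ?_, fun t => ?_, ?_, fun t ht => ?_⟩⟩
  · simp only [Pi.add_apply, add_mul, Pi.single_add]
    abel
  · simp only [Pi.smul_apply, smul_eq_mul, RingHom.id_apply, smul_add, ← Pi.single_smul', mul_assoc]
  · simpa using congrFun h (.inl true)
  · simpa using congrFun h (.inr (true, q))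
  · simp [(fx _).2 h.1, (fx _).2 h.2]
  · simp [hf, Pi.single_apply, apply_ite star, sn, mul_assoc]
  all_goals simp [*]

/-- freeness of a Lagrangian whose part orthogonal to the invisible coordinates lifts to a
lattice -/
theorem free3 (hc : Cub σ G) (hu : SymU G u) (cG : c ∈ G) (cc : c * c = 1) (c1 : c ≠ 1)
    (hL : Lag u (ee σ) M) (hH : ∀ x, x ∈ H ↔ x ∈ M ∧ Wp c q x)
    (hW : ∀ v : Ix T → GA Γ, ee σ • v = v → ∃ m ∈ M, Wp c q (v + m)) (Q : Subgroup Γ)
    (h2 : IsPGroup 2 Q) (hi : Odd Q.index)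
    (hQ : Nat.card {x : Ix T → GA Γ // x ∈ M ∧ ∀ g ∈ Q, gr g • x = x} ^ Nat.card Q ≤ Nat.card M)
    (U : Type) [AddCommGroup U] [Module.Free ℤ U] [Module.Finite ℤ U]
    (ρ : Representation ℤ Γ U) (lam : U →+ (Ix T → GA Γ))
    (he : ∀ g a, lam (ρ g a) = gr g • lam a) (hr : ∀ x, x ∈ H ↔ ∃ a, lam a = x)
    (hk : ∀ a, lam a = 0 → ∃ b, a = b + b) : Fre (ee σ) (1 + Fintype.card T) M := by
  have _ := cG
  have _ := c1
  obtain ⟨n, τ, ι, p, hι, hp, hs, hker⟩ :=
    lattice3 hc hu (fun x hx => hL.part x ((hH x).1 hx).1) U ρ lam he hr hk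
  obtain ⟨P, P1, P2, -⟩ := exists_proj (T := T) cc q
  have t2 : ∀ v : Ix T → GA Γ, v + v = 0 := fun v => funext fun i => sel_two _
  have t3 : ∀ v w : Ix T → GA Γ, v + w = 0 → v = w := fun v w h => by
    rw [← add_zero v, ← t2 w, ← add_assoc, h, zero_add]
  refine free_core hc hL.part (hig_top_of_odd _ Q hi (hig_of_card _ Q h2 ?_)) fun N _ _ _ β C hC => ?_
  · rw [show Nat.card (fx (rp Γ M) Q) =
      Nat.card {x : Ix T → GA Γ // x ∈ M ∧ ∀ g ∈ Q, gr g • x = x} from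
      Nat.card_congr ⟨fun x => ⟨x.1.1, x.1.2, fun g hg => congrArg Subtype.val (x.2 g hg)⟩,
        fun x => ⟨⟨x.1, x.2.1⟩, fun g hg => Subtype.ext (x.2.2 g hg)⟩, fun _ => rfl, fun _ => rfl⟩]
    exact hQ
  let W := M.map P
  have w1 : ∀ v, ee σ • v = v → P v ∈ W := fun v hv => by
    obtain ⟨m, hm, e⟩ := hW v hv
    exact ⟨m, hm, (t3 _ _ (by rw [← map_add, (P1 _).2 e])).symm⟩
  have w2 : W ≤ EV hc (Ix T) := by
    rintro _ ⟨m, hm, rfl⟩
    rw [mem_EV, ← map_smul, hL.part m hm]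
  let i : (M × W) →ₗ[GA Γ] EV hc (Ix T) :=
    (Submodule.inclusion (show M ≤ EV hc (Ix T) from hL.part)).coprod (Submodule.inclusion w2)
  have e1 := hom_exact β C hC (rp Γ H) (rp Γ M) (rp Γ W)
    ((Submodule.inclusion fun x hx => ((hH x).1 hx).1).restrictScalars (ZMod 2))
    ((P.submoduleMap M).restrictScalars (ZMod 2)) (fun _ _ => rfl)
    (fun g y => (P.submoduleMap M).map_smul (gr g) y)
    (fun _ _ h => Subtype.ext (congrArg (·.1) h))
    (P.submoduleMap_surjective M) fun y => ⟨fun h => ⟨⟨y.1, (hH _).2 ⟨y.2, (P1 _).1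
      (congrArg Subtype.val h)⟩⟩, rfl⟩, fun ⟨x, hx⟩ =>
        Subtype.ext ((P1 _).2 (hx ▸ ((hH _).1 x.2).2))⟩
  have e2 := hom_exact β C hC (rp Γ M) (rp Γ (M × W)) (rp Γ W) (LinearMap.inl _ _ _)
    (LinearMap.snd _ _ _) (fun _ _ => Prod.ext rfl (smul_zero _).symm) (fun _ _ => rfl)
    LinearMap.inl_injective Prod.snd_surjective Function.Exact.inl_snd
  have e3 := hom_exact β C hC (rp Γ (M × W)) (rp Γ (EV hc (Ix T))) (mrep (dual3 τ))
    (i.restrictScalars (ZMod 2)) p (fun g x => i.map_smul (gr g) x) hp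
    ((injective_iff_map_eq_zero i).2 (by
      rintro ⟨m, _, x, hx, rfl⟩ h
      have h1 : m.1 = P x := t3 _ _ (congrArg Subtype.val h)
      have h0 : P x = 0 := a2_nd hc hu (h1 ▸ hL.part _ m.2) fun y hy => by
        obtain ⟨z, hz, e⟩ := hW y hy
        rw [← add_zero y, ← t2 z, ← add_assoc, hf_add_right, P2, (P1 _).2 e, hf_zero_right, ← h1,
          hL.iso _ m.2 _ hz, add_zero]
        rfl
      exact Prod.ext (Subtype.ext (h1.trans h0)) (Subtype.ext h0))) hs fun v => (hker v).trans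
    ⟨fun h => by
      let l : Module.Dual (ZMod 2) M :=
        { toFun m := (hf u m.1 v.1).coeff 1
          map_add' x y := by rw [Submodule.coe_add, hf_add_left]; rfl
          map_smul' r x := by
            rcases (by decide : ∀ r : ZMod 2, r = 0 ∨ r = 1) r with rfl | rfl <;>
              simp [hf_zero_left] }
      obtain ⟨L, hl⟩ : l ∈ LinearMap.range ((P.domRestrict M).restrictScalars (ZMod 2)).dualMap := by
        rw [LinearMap.range_dualMap_eq_dualAnnihilator_ker, Submodule.mem_dualAnnihilator]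
        intro m hm
        exact congrArg (fun x : GA Γ => x.coeff 1) (h _ ((hH _).2 ⟨m.2, (P1 _).1 hm⟩))
      obtain ⟨r, hr'⟩ := exists_pair hu.unit L
      have k : ∀ m ∈ M, (hf u m (v.1 + P (ee σ • r))).coeff 1 = 0 := fun m hm => by
        have a : L (P m) = (hf u m v.1).coeff 1 := LinearMap.congr_fun hl ⟨m, hm⟩
        rw [hf_add_right, MonoidAlgebra.coeff_add, Finsupp.add_apply, ← a, ← hr', map_smul,
          hf_smul_right, hc.star_ee', ← hc.ee_cm, ← hf_smul_left, hL.part m hm, ← P2 u r,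
          ← hf_star hu.sym m, coeff_star, inv_one, CharTwo.add_self_eq_zero]
      have w3 := w1 _ (ee_mem_EV hc r)
      exact ⟨(⟨_, hL.max _ (add_mem v.2 (w2 w3)) fun m hm => ga_ext fun g => by
        rw [← coeff_gr_inv_mul, ← hf_smul_left, k _ (M.smul_mem _ hm)]; rfl⟩, ⟨_, w3⟩),
        Subtype.ext ((add_assoc ..).trans ((congrArg _ (t2 _)).trans (add_zero _)))⟩, by
      rintro ⟨⟨m, _, x, hx, rfl⟩, rfl⟩ z hz
      change hf u z (m.1 + P x) = 0
      rw [hf_add_right, ← P2, (P1 _).2 ((hH z).1 hz).2, hf_zero_left, add_zero,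
        hL.iso _ ((hH z).1 hz).1 _ m.2]⟩
  rw [e3, e2, hom_mrep β _ hC (dual3 τ) τ fun g => (Matrix.trace_transpose _).trans (trace_inv τ g),
    hom_congr β _ (mrep τ) (rp Γ H) ι hι, sq, mul_assoc, mul_comm (Nat.card (fx ((rp Γ W).linHom β) C)),
    ← e1]

end Pool.Agent.Lib.MP_775b3b_nt.CM
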