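import Pool.Agent.Lib.MP_775b3b_nt.CM3.Hat
import Pool.Agent.Lib.MP_775b3b_nt.CM3.Fr3

/-! The Lagrangian attached to the global classes. -/

namespace Pool.Agent.Lib.MP_775b3b_nt.CM

variable {Γ T : Type} [Group Γ] [Fintype Γ] [Fintype T] {σ c : Γ} {G : Subgroup Γ} {u : GA Γ}
  {q : T} {H : Submodule (GA Γ) (Ix T → GA Γ)} {x y : Ix T → GA Γ}

omit [Fintype Γ] [Fintype T] in
theorem vi_two (v : Ix T → GA Γ) : v + v = 0 := funext fun _ => sel_two _

omit [Fintype Γ] [Fintype T] in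
theorem vi_eq {v w : Ix T → GA Γ} (h : v + w = 0) : v = w := by
  rw [← add_zero v, ← vi_two w, ← add_assoc, h, zero_add]

theorem vi_star (cc : c * c = 1) : star (1 + gr c) = 1 + gr c := by
  rw [star_add, star_one, sel_star_gr, inv_eq_of_mul_eq_one_left cc]

omit [Fintype Γ] in
theorem vi_right {a : GA Γ} : a * (1 + gr c) = 0 ↔ a * gr c = a := by
  rw [mul_add, mul_one, add_eq_zero_iff_neg_eq, neg_eq_iff_add_eq_zero.2 (sel_two a), eq_comm]

omit [Fintype Γ] [Fintype T] in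
theorem vi_left (cc : c * c = 1) (v : Ix T → GA Γ) : gr c • (1 + gr c) • v = (1 + gr c) • v := by
  rw [smul_smul, mul_add, mul_one, ← sel_gr_mul, cc, add_comm]
  rfl

theorem vi_hf (hu : SymU G u) (cc : c * c = 1) (c1 : c ≠ 1) (hx : Wm c q x) (hy : Wp c q y) :
    hf u x y = 0 := by rw [← hf_star hu.sym, hy.hf cc c1 hx, star_zero]

theorem vi_adj (cc : c * c = 1) (x y : Ix T → GA Γ) :
    (hf u ((1 + gr c) • x) y).coeff 1 = (hf u x ((1 + gr c) • y)).coeff 1 := by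
  rw [hf_smul_left, hf_smul_right, vi_star cc, sel_coeff_one_comm]

/-- a vector orthogonal to `H` with given visible class -/
theorem Hat.vi_orth (hc : Cub σ G) (hu : SymU G u) (cc : c * c = 1) (h : Hat σ c u q H)
    {t : Ix T → GA Γ} (ht : ee σ • t = t) :
    ∃ m, ee σ • m = m ∧ (∀ x ∈ H, CM.hf u x m = 0) ∧ Wp c q (t + m) := by
  obtain ⟨P, P1, P2, P3⟩ := exists_proj (T := T) cc q
  let l : Module.Dual (ZMod 2) (H × (Ix T → GA Γ)) :=
    { toFun m := (CM.hf u m.1.1 t).coeff 1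
      map_add' x y := by rw [Prod.fst_add, Submodule.coe_add, hf_add_left]; rfl
      map_smul' r x := by
        rcases (by decide : ∀ r : ZMod 2, r = 0 ∨ r = 1) r with rfl | rfl <;> simp [hf_zero_left] }
  obtain ⟨L, hl⟩ : l ∈ LinearMap.range ((H.subtype.coprod P).restrictScalars (ZMod 2)).dualMap := by
    rw [LinearMap.range_dualMap_eq_dualAnnihilator_ker, Submodule.mem_dualAnnihilator]
    intro m hm
    change (CM.hf u m.1.1 t).coeff 1 = 0
    rw [h.wm _ m.1.2 (vi_eq (show m.1.1 + P m.2 = 0 from hm) ▸ P3 _), hf_zero_left]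
    rfl
  obtain ⟨r, hr⟩ := exists_pair hu.unit L
  have k : ∀ x ∈ H, (CM.hf u x (t + ee σ • r)).coeff 1 = 0 := fun x hx => by
    have a : L (x + P 0) = (CM.hf u x t).coeff 1 := LinearMap.congr_fun hl (⟨x, hx⟩, 0)
    rw [hf_add_right, MonoidAlgebra.coeff_add, Finsupp.add_apply, ← a, ← hr, map_zero, add_zero,
      hf_smul_right, hc.star_ee', ← hc.ee_cm, ← hf_smul_left, h.part x hx, ← hf_star hu.sym x,
      coeff_star, inv_one, CharTwo.add_self_eq_zero]
  refine ⟨t + ee σ • r, by rw [smul_add, ht, smul_smul, hc.ee_mul_ee'], fun x hx => ga_ext fun g => by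
    rw [← Fr.coeff_gr_inv_mul, ← hf_smul_left, k _ (H.smul_mem _ hx)]; rfl, ?_⟩
  rw [← add_assoc, vi_two, zero_add]
  refine ((P1 r).1 (Fr.hf_nondeg hu.unit _ fun v => ?_)).smul _
  have a : L (0 + P v) = (CM.hf u 0 t).coeff 1 := LinearMap.congr_fun hl (0, v)
  rw [P2, hr, ← zero_add (P v), a, hf_zero_left]
  rfl

/-- the norm of such a vector is a global class up to an invisible norm -/
theorem Hat.vi_norm (hc : Cub σ G) (hu : SymU G u) (cc : c * c = 1) (c1 : c ≠ 1)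
    (h : Hat σ c u q H) {a : ℕ} (ha : Fintype.card T = a + 1)
    (n2 : dc σ (Subgroup.zpowers c) c ^ 2 * dc σ (Subgroup.zpowers c) 1 ^ a ≤
      Nat.card {x : Ix T → GA Γ // x ∈ H ∧ gr c • x = x})
    (hq : ∀ x ∈ H, gr c • x = x → ∀ v, (1 + gr c) • v ∈ H → (CM.hf u x v).coeff 1 = 0)
    {m : Ix T → GA Γ} (m1 : ee σ • m = m) (m2 : ∀ x ∈ H, CM.hf u x m = 0)
    (m3 : Wp c q ((1 + gr c) • m)) :
    ∃ w, ee σ • w = w ∧ Wm c q w ∧ (1 + gr c) • (m + w) ∈ H := by
  classical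
  have ce : ∀ (r : GA Γ) (v : Ix T → GA Γ), ee σ • v = v → ee σ • r • v = r • v := fun r v hv => by
    rw [smul_smul, hc.ee_cm, ← smul_smul, hv]
  let X : AddSubgroup (Ix T → GA Γ) :=
    { carrier := {y | ∃ x ∈ H, gr c • x = x ∧ ∃ w, ee σ • w = w ∧ Wm c q w ∧ y = x + (1 + gr c) • w}
      add_mem' := by
        rintro _ _ ⟨x, a1, a2, w, a3, a4, rfl⟩ ⟨x', b1, b2, w', b3, b4, rfl⟩
        exact ⟨x + x', add_mem a1 b1, by rw [smul_add, a2, b2], w + w', by rw [smul_add, a3, b3],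
          a4.add b4, by rw [smul_add, add_add_add_comm]⟩
      zero_mem' := ⟨0, zero_mem _, smul_zero _, 0, smul_zero _,
        ⟨rfl, zero_mul _, fun _ => rfl, zero_mul _, fun _ _ => rfl⟩, by simp⟩
      neg_mem' := fun {y} hy => by rwa [neg_eq_iff_add_eq_zero.2 (vi_two y)] }
  have x1 : ∀ y ∈ X, ee σ • y = y ∧ gr c • y = y := by
    rintro _ ⟨x, a1, a2, w, a3, -, rfl⟩
    exact ⟨by rw [smul_add, h.part x a1, ce _ _ a3], by rw [smul_add, a2, vi_left cc]⟩
  let Z : AddSubgroup (Ix T → GA Γ) :=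
    { carrier := {v | ee σ • v = v ∧ ∀ y ∈ X, (CM.hf u y v).coeff 1 = 0}
      add_mem' := fun {v w} a b => ⟨by rw [smul_add, a.1, b.1], fun y hy => by
        rw [hf_add_right, MonoidAlgebra.coeff_add, Finsupp.add_apply, a.2 y hy, b.2 y hy, add_zero]⟩
      zero_mem' := ⟨smul_zero _, fun y _ => by rw [hf_zero_right]; rfl⟩
      neg_mem' := fun {y} hy => by rwa [neg_eq_iff_add_eq_zero.2 (vi_two y)] }
  let Z0 : AddSubgroup (Ix T → GA Γ) :=
    { carrier := {v | ee σ • v = v ∧ (1 + gr c) • v ∈ X}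
      add_mem' := fun {v w} a b => ⟨by rw [smul_add, a.1, b.1], smul_add (1 + gr c) v w ▸
        add_mem a.2 b.2⟩
      zero_mem' := ⟨smul_zero _, by rw [smul_zero]; exact zero_mem _⟩
      neg_mem' := fun {y} hy => by rwa [neg_eq_iff_add_eq_zero.2 (vi_two y)] }
  have z1 : Z0 ≤ Z := by
    rintro v ⟨v1, x', b1, -, w', -, b4, e⟩
    refine ⟨v1, ?_⟩
    rintro _ ⟨x, a1, a2, w, -, a4, rfl⟩
    have := hq x a1 a2 (v + w') (by rwa [smul_add, e, add_assoc, vi_two, add_zero])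
    rw [hf_add_right, (h.wp x a1).hf cc c1 b4, add_zero] at this
    rw [hf_add_left, MonoidAlgebra.coeff_add, Finsupp.add_apply, this, vi_adj cc, e,
      vi_hf hu cc c1 a4 ((h.wp _ b1).add (b4.wp.smul _)), zero_add]
    rfl
  have s1 : ∀ y : X, ∃ v, ee σ • v = v ∧ (1 + gr c) • v = y.1 := fun y => by
    choose v hv using fun i => exists_norm_left cc c1 (congrFun (x1 _ y.2).2 i)
    refine ⟨ee σ • v, by rw [smul_smul, hc.ee_mul_ee'], ?_⟩
    rw [smul_smul, ← hc.ee_cm, ← smul_smul, show (1 + gr c) • v = y.1 from (funext hv).symm,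
      (x1 _ y.2).1]
  choose s s1 s2 using s1
  have z2 : Nat.card X * dc σ (Subgroup.zpowers c) 1 ^ (2 * (1 + Fintype.card T)) ≤ Nat.card Z0 := by
    rw [dc, ← a3_pi, ← Nat.card_prod]
    have k : ∀ v : {v : Ix T → GA Γ // ∀ i, ee σ * v i = v i ∧
        (∀ g ∈ Subgroup.zpowers c, gr g * v i = v i) ∧ v i * gr 1 = v i}, (1 + gr c) • v.1 = 0 :=
      fun v => by
        rw [add_smul, one_smul, show gr c • v.1 = v.1 from
          funext fun i => (v.2 i).2.1 c (Subgroup.mem_zpowers c), vi_two]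
    refine Nat.card_le_card_of_injective (fun p => ⟨s p.1 + p.2.1, by
      rw [smul_add, s1, show ee σ • p.2.1 = p.2.1 from funext fun i => (p.2.2 i).1], by
      rw [smul_add, s2, k, add_zero]; exact p.1.2⟩) fun p p' e => ?_
    have e1 : s p.1 + p.2.1 = s p'.1 + p'.2.1 := congrArg Subtype.val e
    have e2 := congrArg ((1 + gr c) • ·) e1
    simp only [smul_add, s2, k, add_zero] at e2
    have e3 : p.1 = p'.1 := Subtype.ext e2
    rw [e3, add_right_inj] at e1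
    exact Prod.ext e3 (Subtype.ext e1)
  have z3 : Nat.card {x : Ix T → GA Γ // x ∈ H ∧ gr c • x = x} *
      Nat.card {x : GA Γ // ∃ y, ee σ * y = y ∧ y * gr c = y ∧ x = (1 + gr c) * y} ^ 2 ≤
        Nat.card X := by
    rw [sq, ← Nat.card_prod, ← Nat.card_prod]
    have k : ∀ a b : GA Γ, a * gr c = a → b * gr c = b →
        Wm c q (Pi.single (.inl true) a + Pi.single (.inr (true, q)) b) := fun a b a1 b1 =>
      ⟨by simp, by simpa using a1, fun t => by simp, by simpa using b1, fun t ht => by simp [ht]⟩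
    refine Nat.card_le_card_of_injective (fun p => ⟨p.1.1 + (Pi.single (.inl true) p.2.1.1 +
      Pi.single (.inr (true, q)) p.2.2.1), p.1.1, p.1.2.1, p.1.2.2, by
        obtain ⟨a, a1, a2, a3⟩ := p.2.1.2
        obtain ⟨b, b1, b2, b3⟩ := p.2.2.2
        exact ⟨_, by simp only [smul_add, ← Pi.single_smul', smul_eq_mul, a1, b1], k a b a2 b2, by
          simp only [smul_add, ← Pi.single_smul', smul_eq_mul, ← a3, ← b3]⟩⟩) ?_
    rintro ⟨x, a, b⟩ ⟨x', a', b'⟩ e
    have e1 : x.1 + (Pi.single (.inl true) a.1 + Pi.single (.inr (true, q)) b.1) =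
      x'.1 + (Pi.single (.inl true) a'.1 + Pi.single (.inr (true, q)) b'.1) := congrArg Subtype.val e
    have f : ∀ a : {x : GA Γ // ∃ y, ee σ * y = y ∧ y * gr c = y ∧ x = (1 + gr c) * y},
        a.1 * gr c = a.1 := fun ⟨_, y, _, e, rfl⟩ => (mul_assoc ..).trans (congrArg _ e)
    have f2 : ∀ x x' w w' : Ix T → GA Γ, x + w = x' + w' → x + x' = w + w' := fun x x' w w' e =>
      vi_eq (by rw [add_add_add_comm, e, vi_two])
    have e2 : x.1 = x'.1 := vi_eq (h.wm _ (add_mem x.2.1 x'.2.1) (by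
      rw [f2 _ _ _ _ e1]
      exact (k _ _ (f a) (f b)).add (k _ _ (f a') (f b'))))
    rw [e2, add_right_inj] at e1
    exact Prod.ext (Subtype.ext e2) (Prod.ext
      (Subtype.ext (by simpa using congrFun e1 (.inl true)))
      (Subtype.ext (by simpa using congrFun e1 (.inr (true, q)))))
  have z4 := card_le_of_orth hc hu X Z (fun y hy => (x1 y hy).1) (fun _ hv => hv.1)
    fun y hy _ hv => hv.2 y hy
  have z5 : 4 ^ (Nat.card G * (1 + Fintype.card T)) ≤ Nat.card X ^ 2 := by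
    have := Nat.pow_le_pow_left ((Nat.mul_le_mul_right _ n2).trans z3) 2
    rw [mul_right_comm, ← mul_pow, dc_both hc cc, dc_bot hc cc c1, mul_pow, ← pow_mul _ a, mul_comm a,
      pow_mul _ 2, dc_left hc cc c1, ← pow_add] at this
    rwa [pow_mul, ha, show 1 + (a + 1) = 2 + a by omega]
  rw [pow_mul, dc_left hc cc c1, ← pow_mul] at z2
  rw [a2_sq] at z4
  have z6 : Nat.card Z ≤ Nat.card Z0 := Nat.le_of_mul_le_mul_left (z4.trans
    ((Nat.mul_le_mul_right _ z5).trans (by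
      rw [sq, mul_assoc]
      exact Nat.mul_le_mul_left _ z2))) Nat.card_pos
  obtain ⟨-, x, a1, -, w, a3, a4, e⟩ := (AddSubgroup.eq_of_le_of_card_ge z1 z6).ge
    (show m ∈ Z from ⟨m1, by
      rintro _ ⟨x, a1, -, w, -, a4, rfl⟩
      rw [hf_add_left, m2 x a1, zero_add, vi_adj cc, vi_hf hu cc c1 a4 m3]
      rfl⟩)
  exact ⟨w, a3, a4, by rwa [smul_add, e, add_assoc, vi_two, add_zero]⟩

theorem Hat.vi_lift (hc : Cub σ G) (hu : SymU G u) (cc : c * c = 1) (c1 : c ≠ 1)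
    (h : Hat σ c u q H) {a : ℕ} (ha : Fintype.card T = a + 1)
    (n2 : dc σ (Subgroup.zpowers c) c ^ 2 * dc σ (Subgroup.zpowers c) 1 ^ a ≤
      Nat.card {x : Ix T → GA Γ // x ∈ H ∧ gr c • x = x})
    (hq : ∀ x ∈ H, gr c • x = x → ∀ v, (1 + gr c) • v ∈ H → (CM.hf u x v).coeff 1 = 0)
    {t : Ix T → GA Γ} (t1 : ee σ • t = t) (t2 : Wp c q ((1 + gr c) • t)) :
    ∃ m, ee σ • m = m ∧ (∀ x ∈ H, CM.hf u x m = 0) ∧ Wp c q (t + m) ∧ (1 + gr c) • m ∈ H := by
  obtain ⟨m, m1, m2, m3⟩ := h.vi_orth hc hu cc t1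
  obtain ⟨w, w1, w2, w3⟩ := h.vi_norm hc hu cc c1 ha n2 hq m1 m2 (by
    have := t2.add (m3.smul (1 + gr c))
    rwa [← smul_add, ← add_assoc, vi_two, zero_add] at this)
  exact ⟨m + w, by rw [smul_add, m1, w1], fun x hx => by
    rw [hf_add_right, m2 x hx, (h.wp x hx).hf cc c1 w2, add_zero], add_assoc t m w ▸ m3.add w2.wp, w3⟩

theorem Hat.virt (hc : Cub σ G) (hu : SymU G u) (cG : c ∈ G) (cc : c * c = 1) (c1 : c ≠ 1)
    (h : Hat σ c u q H) (n1 : 4 ^ (Nat.card G * Fintype.card T) ≤ Nat.card H) {a : ℕ}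
    (ha : Fintype.card T = a + 1)
    (n2 : dc σ (Subgroup.zpowers c) c ^ 2 * dc σ (Subgroup.zpowers c) 1 ^ a ≤
      Nat.card {x : Ix T → GA Γ // x ∈ H ∧ gr c • x = x})
    (hq : ∀ x ∈ H, gr c • x = x → ∀ v, (1 + gr c) • v ∈ H → (hf u x v).coeff 1 = 0) :
    ∃ M : Submodule (GA Γ) (Ix T → GA Γ), Lag u (ee σ) M ∧ (∀ x, x ∈ H ↔ x ∈ M ∧ Wp c q x) ∧
      (∀ v : Ix T → GA Γ, ee σ • v = v → ∃ m ∈ M, Wp c q (v + m)) ∧
      Nat.card M = 4 ^ (Nat.card G * (1 + Fintype.card T)) := by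
  classical
  have _ := cG
  have nc : (1 + gr c) * ee σ * gr c = (1 + gr c) * ee σ := by
    rw [← hc.ee_cm, mul_assoc, add_mul, one_mul, ← sel_gr_mul, cc, add_comm]
    rfl
  obtain ⟨t, ht⟩ : ∃ t : Bool → Ix T → GA Γ, ∀ b, t b =
    Pi.single (if b then .inl true else .inr (false, q) : Ix T) (ee σ) := ⟨_, fun _ => rfl⟩
  have t1 : ∀ b, ee σ • t b = t b := fun b => by
    rw [ht, ← Pi.single_smul', smul_eq_mul, hc.ee_mul_ee']
  choose m m1 m2 m3 m4 using fun b => h.vi_lift hc hu cc c1 ha n2 hq (t1 b)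
    (by cases b <;> constructor <;> simp [ht, nc])
  obtain ⟨ω, hω⟩ : ∃ ω, ω = gr σ * ee σ := ⟨_, rfl⟩
  have o1 : ∀ x, ω * x = x * ω := fun x => hω ▸ (Commute.mul_left (hc.gr_cm x) (hc.ee_cm x)).eq
  have o2 : ω + star ω = ee σ := hω ▸ hc.om_add
  have o3 : ee σ * ω = ω := by rw [hc.ee_cm, hω, mul_assoc, hc.ee_mul_ee']
  have b1 : ∀ i j, (1 + gr c) * hf u (m i) (m j) = 0 := fun i j => by
    rw [← hf_smul_left, m2 j _ (m4 i)]
  have b2 : ∀ i j, ω * hf u (m i) (m j) * gr c = ω * hf u (m i) (m j) := fun i j => by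
    rw [← vi_right, mul_assoc, ← hf_star hu.sym, ← vi_star cc, ← star_mul, b1, star_zero, mul_zero]
  have b3 : ∀ i j, ee σ * hf u (m i) (m j) = hf u (m i) (m j) := fun i j => by
    rw [← hf_smul_left, m1]
  obtain ⟨w, hw⟩ : ∃ w : Bool → Ix T → GA Γ, ∀ i, w i =
    (Pi.single (.inl true) (ω * hf u (m i) (m true)) : Ix T → GA Γ) +
      (Pi.single (.inr (true, q)) (ω * hf u (m i) (m false)) : Ix T → GA Γ) := ⟨_, fun _ => rfl⟩
  have w1 : ∀ i, Wm c q (w i) := fun i => ⟨by simp [hw], by simpa [hw] using b2 i true,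
    fun t => by simp [hw], by simpa [hw] using b2 i false, fun t ht => by simp [hw, ht]⟩
  have w2 : ∀ i, ee σ • w i = w i := fun i => by
    simp only [hw, smul_add, ← Pi.single_smul', smul_eq_mul, ← mul_assoc, o3]
  have w3 : ∀ i, (1 + gr c) • w i = 0 := fun i => by
    simp only [hw, smul_add, ← Pi.single_smul', smul_eq_mul, ← mul_assoc, ← o1]
    simp only [mul_assoc, b1, mul_zero, Pi.single_zero, add_zero]
  have w4 : ∀ i j, hf u (w i) (m j) = ω * hf u (m i) (m j) := fun i j => by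
    have e : hf u (w i) (t j) = ω * hf u (m i) (m j) * ee σ := by
      cases j <;> simp [hf, hw, ht, Pi.single_apply, apply_ite star, hc.star_ee']
    have e' := vi_hf hu cc c1 (w1 i) (m3 j)
    rw [hf_add_right, e, mul_assoc, ← hc.ee_cm, b3] at e'
    exact (eq_neg_of_add_eq_zero_right e').trans (neg_eq_iff_add_eq_zero.2 (sel_two _))
  obtain ⟨k, hk⟩ : ∃ k : Bool → Ix T → GA Γ, ∀ i, k i = m i + w i := ⟨_, fun _ => rfl⟩
  have k1 : ∀ i, ee σ • k i = k i := fun i => by rw [hk, smul_add, m1, w2]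
  have k2 : ∀ i, ∀ x ∈ H, hf u x (k i) = 0 := fun i x hx => by
    rw [hk, hf_add_right, m2 i x hx, (h.wp x hx).hf cc c1 (w1 i), add_zero]
  have k3 : ∀ i, Wp c q (t i + k i) := fun i => by
    rw [hk, ← add_assoc]
    exact (m3 i).add (w1 i).wp
  have k4 : ∀ i, (1 + gr c) • k i ∈ H := fun i => by
    rw [hk, smul_add, w3, add_zero]
    exact m4 i
  have k5 : ∀ i j, hf u (k i) (k j) = 0 := fun i j => by
    rw [hk, hk, hf_add_left, hf_add_right, hf_add_right, vi_hf hu cc c1 (w1 i) (w1 j).wp, add_zero, w4,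
      ← hf_star hu.sym (w j), w4, star_mul, hf_star hu.sym, o1, add_assoc, ← mul_add, add_comm _ ω,
      o2, ← hc.ee_cm, b3, sel_two]
  clear hk w1 w2 w3 w4 hw b1 b2 b3 m1 m2 m3 m4 o1 o2 o3 hω w m ω
  let M : Submodule (GA Γ) (Ix T → GA Γ) :=
    { carrier := {y | ∃ x ∈ H, ∃ a b : GA Γ, y = x + (a • k true + b • k false)}
      add_mem' := by
        rintro _ _ ⟨x, hx, a, b, rfl⟩ ⟨x', hx', a', b', rfl⟩
        exact ⟨x + x', add_mem hx hx', a + a', b + b', by rw [add_smul, add_smul]; abel⟩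
      zero_mem' := ⟨0, zero_mem _, 0, 0, by simp⟩
      smul_mem' := by
        rintro r _ ⟨x, hx, a, b, rfl⟩
        exact ⟨r • x, H.smul_mem r hx, r * a, r * b, by simp only [smul_add, mul_smul]⟩ }
  have ce : ∀ (r : GA Γ) (v : Ix T → GA Γ), ee σ • v = v → ee σ • r • v = r • v := fun r v hv => by
    rw [smul_smul, hc.ee_cm, ← smul_smul, hv]
  have p1 : ∀ y ∈ M, ee σ • y = y := by
    rintro _ ⟨x, hx, a, b, rfl⟩
    rw [smul_add, smul_add, h.part x hx, ce _ _ (k1 _), ce _ _ (k1 _)]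
  have p2 : ∀ x ∈ M, ∀ y ∈ M, hf u x y = 0 := by
    rintro _ ⟨x, hx, a, b, rfl⟩ _ ⟨x', hx', a', b', rfl⟩
    have : ∀ i, hf u (k i) x' = 0 := fun i => by rw [← hf_star hu.sym, k2 i x' hx', star_zero]
    simp only [hf_add_left, hf_add_right, hf_smul_left, hf_smul_right, k2 _ x hx, k5, this,
      h.iso x hx x' hx', mul_zero, zero_mul, add_zero]
  have p3 : ∀ a b : GA Γ, Wp c q (a • t true + b • t false + (a • k true + b • k false)) :=
    fun a b => by
      rw [add_add_add_comm, ← smul_add, ← smul_add]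
      exact ((k3 _).smul a).add ((k3 _).smul b)
  have p4 : ∀ x ∈ H, ∀ a b : GA Γ, Wp c q (x + (a • k true + b • k false)) →
      a * ee σ * gr c = a * ee σ ∧ b * ee σ * gr c = b * ee σ := fun x hx a b e => by
    have := ((h.wp x hx).add e).add (p3 a b)
    rw [← add_assoc x, vi_two, zero_add, add_left_comm, vi_two, add_zero] at this
    exact ⟨by simpa [ht] using this.1, by simpa [ht] using this.2⟩
  have p5 : ∀ i (a : GA Γ), a * ee σ * gr c = a * ee σ → a • k i ∈ H := fun i a e => by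
    obtain ⟨z, hz⟩ := exists_norm_right cc c1 e
    rw [← k1, smul_smul, hz, mul_smul]
    exact H.smul_mem _ (k4 i)
  have p6 : 4 ^ (Nat.card G * (1 + Fintype.card T)) ≤ Nat.card M := by
    rw [mul_add, mul_one, pow_add, ← dc_bot hc cc c1, mul_comm]
    refine (Nat.mul_le_mul_right _ n1).trans ?_
    rw [dc, sq, ← Nat.card_prod, ← Nat.card_prod]
    choose s hs using fun d : {x : GA Γ // ee σ * x = x ∧ (∀ g ∈ (⊥ : Subgroup Γ), gr g * x = x) ∧
      x * gr c = x} => exists_norm_right cc c1 d.2.2.2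
    refine Nat.card_le_card_of_injective (fun p => ⟨_, p.1.1, p.1.2, s p.2.1, s p.2.2, rfl⟩)
      fun p p' e => ?_
    have e1 : p.1.1 + (s p.2.1 • k true + s p.2.2 • k false) =
      p'.1.1 + (s p'.2.1 • k true + s p'.2.2 • k false) := congrArg Subtype.val e
    have e2 := p4 _ (add_mem p.1.2 p'.1.2) (s p.2.1 + s p'.2.1) (s p.2.2 + s p'.2.2) (by
      rw [add_smul, add_smul, add_add_add_comm (_ • k true), add_add_add_comm, e1, vi_two]
      exact ⟨zero_mul _, zero_mul _⟩)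
    have e3 : ∀ d d', (s d + s d') * ee σ * gr c = (s d + s d') * ee σ → d = d' := fun d d' e => by
      rw [← vi_right, ← hc.ee_cm, mul_assoc, add_mul, ← hs, ← hs, mul_add, d.2.1, d'.2.1] at e
      exact Subtype.ext ((eq_neg_of_add_eq_zero_left e).trans
        (neg_eq_iff_add_eq_zero.2 (sel_two _)))
    have e4 : p.2 = p'.2 := Prod.ext (e3 _ _ e2.1) (e3 _ _ e2.2)
    rw [e4, add_left_inj] at e1
    exact Prod.ext (Subtype.ext e1) e4
  refine ⟨M, lag_of_card hc hu p1 p2 p6, fun x => ⟨fun hx => ⟨⟨x, hx, 0, 0, by simp⟩, h.wp x hx⟩, ?_⟩,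
    fun v hv => ⟨_, ⟨0, zero_mem _, v (.inl true), v (.inr (false, q)), rfl⟩, ?_⟩,
    le_antisymm (card_le_of_iso hc hu p1 p2) p6⟩
  · rintro ⟨⟨x, hx, a, b, rfl⟩, e⟩
    exact add_mem hx (add_mem (p5 _ _ (p4 x hx a b e).1) (p5 _ _ (p4 x hx a b e).2))
  · have e : ∀ i, v i * ee σ = v i := fun i => (hc.ee_cm _).symm.trans (congrFun hv i)
    have e1 : Wp c q (v + (v (.inl true) • t true + v (.inr (false, q)) • t false)) := by
      constructor <;> simp [ht, e, sel_two]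
    have := e1.add (p3 (v (.inl true)) (v (.inr (false, q))))
    rwa [add_assoc, ← add_assoc (_ + _), vi_two] at this

end Pool.Agent.Lib.MP_775b3b_nt.CM
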