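import Pool.Agent.Lib.MP_775b3b_nt.CM3.D5b
import Pool.Agent.Lib.MP_775b3b_nt.CM3.Virt
import Pool.Agent.Lib.MP_775b3b_nt.CM.C6a

namespace Pool.Agent.Lib.MP_775b3b_nt.CM

open Pool.Agent.Lib.MP_439fea_co NumberField WithZero

variable {K : Type} [Field K] [NumberField K] [IsGalois ℚ K]

omit [IsGalois ℚ K] in
theorem Dt.descend (D : Dt K) (Q : Subgroup (Ga K)) {x : Kˣ}
    (hN : IsSquare (x * D.σ • x * (D.σ * D.σ) • x)) (h : ∀ g ∈ Q, IsSquare (g • x * x)) :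
    ∃ y r : Kˣ, (∀ g ∈ Q, g • y = y) ∧ (∀ g ∈ Q, g • r = r) ∧
      y * D.σ • y * (D.σ * D.σ) • y = r * r ∧ IsSquare (x * y) := by
  have hc : ∀ (g : Ga K) (z : Kˣ), g • D.σ • z = D.σ • g • z := fun g z => by
    rw [smul_smul, smul_smul, D.cub.cen]
  have h3 : ∀ z : Kˣ, D.σ • D.σ • D.σ • z = z := fun z => by
    rw [smul_smul, smul_smul, D.cub.three, one_smul]
  have ha : ∀ g : Q, ∃ a : Kˣ, (g : Ga K) • x = x * (a * a) := by
    intro g
    obtain ⟨c, hc'⟩ := h g g.2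
    refine ⟨c * x⁻¹, ?_⟩
    rw [mul_mul_mul_comm, ← hc', mul_assoc, mul_inv_cancel_left, mul_left_comm, mul_inv_cancel,
      mul_one]
  choose a ha using ha
  have hb : ∀ g k : Q, D.σ • a (g * k) * D.σ • D.σ • a (g * k) =
      D.σ • a g * D.σ • D.σ • a g * (g : Ga K) • (D.σ • a k * D.σ • D.σ • a k) := by
    intro g k
    have e : a (g * k) * a (g * k) =
        (a g * (g : Ga K) • a k) * (a g * (g : Ga K) • a k) := by
      refine mul_left_cancel (a := x) ?_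
      rw [← ha, Subgroup.coe_mul, mul_smul, ha k, smul_mul', smul_mul', ha g]
      refine Units.ext ?_
      simp only [Units.val_mul]
      ring
    have e2 : a (g * k) = a g * (g : Ga K) • a k ∨ a (g * k) = -(a g * (g : Ga K) • a k) := by
      rcases mul_self_eq_mul_self_iff.1 (congrArg Units.val e) with h' | h'
      · exact Or.inl (Units.ext h')
      · exact Or.inr (Units.ext h')
    have hneg : ∀ z : Kˣ, D.σ • (-z) = -(D.σ • z) := fun z => Units.ext (by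
      rw [Units.val_neg, val_smul_units, val_smul_units, Units.val_neg, map_neg])
    rcases e2 with e2 | e2
    · simp only [e2, smul_mul', hc]
      refine Units.ext ?_
      simp only [Units.val_mul]
      ring
    · simp only [e2, hneg, neg_mul_neg, smul_mul', hc]
      refine Units.ext ?_
      simp only [Units.val_mul]
      ring
  obtain ⟨θ, hθ⟩ := c6a_h90 Q (fun g => D.σ • a g * D.σ • D.σ • a g) hb
  refine ⟨D.σ • x * D.σ • D.σ • x * (θ * θ),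
    x * D.σ • x * D.σ • D.σ • x * (θ * D.σ • θ * D.σ • D.σ • θ), fun g hg => ?_, fun g hg => ?_,
    ?_, ?_⟩
  · have e1 : g • x = x * (a ⟨g, hg⟩ * a ⟨g, hg⟩) := ha ⟨g, hg⟩
    have e2 : D.σ • a ⟨g, hg⟩ * D.σ • D.σ • a ⟨g, hg⟩ * g • θ = θ := hθ ⟨g, hg⟩
    simp only [smul_mul', hc, e1]
    generalize g • θ = t at e2 ⊢
    subst e2
    refine Units.ext ?_
    simp only [Units.val_mul]
    ring
  · have e1 : g • x = x * (a ⟨g, hg⟩ * a ⟨g, hg⟩) := ha ⟨g, hg⟩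
    have e2 : D.σ • a ⟨g, hg⟩ * D.σ • D.σ • a ⟨g, hg⟩ * g • θ = θ := hθ ⟨g, hg⟩
    simp only [smul_mul', hc, e1]
    generalize g • θ = t at e2 ⊢
    subst e2
    simp only [smul_mul', h3]
    refine Units.ext ?_
    simp only [Units.val_mul]
    ring
  · simp only [mul_smul, smul_mul', h3]
    refine Units.ext ?_
    simp only [Units.val_mul]
    ring
  · rw [mul_smul] at hN
    have := hN.mul (IsSquare.mul_self θ)
    rwa [mul_assoc x, mul_assoc x] at this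

theorem d6d_sylow {Γ : Type} [Group Γ] [Fintype Γ] {σ : Γ} {G : Subgroup Γ} (hc : Cub σ G) :
    ∃ Q : Subgroup Γ, Q ≤ G ∧ IsPGroup 2 Q ∧ Odd Q.index := by
  obtain ⟨P⟩ : Nonempty (Sylow 2 G) := inferInstance
  have hG : G.index = 3 := by
    have e := G.index_mul_card
    rw [hc.card] at e
    exact Nat.eq_of_mul_eq_mul_right Nat.card_pos e
  refine ⟨(P : Subgroup G).map G.subtype, Subgroup.map_subtype_le _, P.isPGroup'.map _, ?_⟩
  rw [Subgroup.index_map_subtype, hG]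
  exact (Nat.not_even_iff_odd.1 fun h => P.not_dvd_index h.two_dvd).mul (by decide)

theorem d6d_mem {Γ : Type} [Group Γ] {c g : Γ} (cc : c * c = 1) :
    g ∈ Subgroup.zpowers c ↔ g = 1 ∨ g = c := ⟨fun ⟨k, hk⟩ => by
    have h2 : c ^ (2 : ℤ) = 1 := by rw [zpow_two, cc]
    have h3 : g = c ^ (k % 2) := hk.symm.trans (zpow_eq_zpow_emod k h2)
    rcases Int.emod_two_eq_zero_or_one k with h | h <;> rw [h] at h3
    exacts [.inl (h3.trans (zpow_zero c)), .inr (h3.trans (zpow_one c))], by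
      rintro (rfl | rfl)
      exacts [one_mem _, Subgroup.mem_zpowers _]⟩

theorem nq_zpowers {Γ : Type} [Group Γ] [Fintype Γ] {c : Γ} (cc : c * c = 1) (c1 : c ≠ 1) :
    nq (Subgroup.zpowers c) = 1 + gr c := ga_ext fun g => by
  classical
  simp only [nq, coeff_mk, d6d_mem cc, MonoidAlgebra.coeff_add, Finsupp.add_apply, MonoidAlgebra.one_def,
    MonoidAlgebra.coeff_single, Finsupp.single_apply]
  by_cases h1 : g = 1
  · simp [h1, c1]
  · by_cases h2 : g = c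
    · simp [h2, c1, Ne.symm c1]
    · simp [h1, h2, Ne.symm h1, Ne.symm h2]

variable (D : Dt K) {S : Finset (P K)}

omit [IsGalois ℚ K] in
theorem d6d_desc (hS : D.Ok S) (hI : D.Inj S) (Q : Subgroup (Ga K)) {z : Ix S → GA (Ga K)}
    (hz : z ∈ D.HS S) (hf : ∀ g ∈ Q, gr g • z = z) :
    ∃ y r : Kˣ, y ∈ D.Z S ∧ (∀ g ∈ Q, g • y = y) ∧ (∀ g ∈ Q, g • r = r) ∧
      y * D.σ • y * (D.σ * D.σ) • y = r * r ∧ D.loc S y = z := by
  obtain ⟨x, hx, rfl⟩ := (D.mem_HS hS).1 hz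
  obtain ⟨y, r, h1, h2, h3, h4⟩ := D.descend Q hx.1 fun g hg =>
    hI.zero (mul_mem (D.smul_mem hx g) hx) (by
      rw [D.loc_mul hS hS (D.smul_mem hx g) hx, D.loc_smul hS hx, hf g hg, vi_two])
  have hy : y ∈ D.Z S := by
    have := mul_mem (inv_mem hx) (D.sq_mem (S := S) h4)
    rwa [inv_mul_cancel_left] at this
  refine ⟨y, r, hy, h1, h2, h3, ?_⟩
  have e := D.loc_isSquare hS h4
  rw [D.loc_mul hS hS hx hy] at e
  exact (vi_eq e).symm

theorem Dt.pair_HS (hS : D.Ok S) (hI : D.Inj S) (Q : Subgroup (Ga K)) {x : Ix S → GA (Ga K)}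
    (hx : x ∈ D.HS S) (h0 : ∀ g ∈ Q, gr g • x = x) (v : Ix S → GA (Ga K))
    (hv : nq Q • v ∈ D.HS S) : (hf D.u x v).coeff 1 = 0 := by
  obtain ⟨y, r, hy, h1, h2, h3, rfl⟩ := d6d_desc D hS hI Q hx h0
  obtain ⟨y', r', hy', h1', h2', h3', e⟩ := d6d_desc D hS hI Q hv fun g hg => by
    rw [smul_smul, a3_fix Q hg]
  exact D.pair_fixed hS Q hy hy' h1 h1' h2 h2' h3 h3' e.symm

theorem Dt.fre (hS : D.Ok S) (hI : D.Inj S) : ∃ M, Lag D.u (ee D.σ) M ∧
    Fre (ee D.σ) (1 + Fintype.card S) M ∧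
    (∀ x, x ∈ D.HS S ↔ x ∈ M ∧ Wp D.c ⟨D.q, hS.mem⟩ x) ∧
    ∀ v, ee D.σ • v = v → ∃ m ∈ M, Wp D.c ⟨D.q, hS.mem⟩ (v + m) := by
  obtain ⟨Q, hQ, h2, hi⟩ := d6d_sylow D.cub
  obtain ⟨hH, hc, hr⟩ := D.hat hS hI
  obtain ⟨a, ha⟩ := Nat.exists_eq_add_one_of_ne_zero (Finset.card_ne_zero_of_mem hS.mem)
  obtain ⟨M, m1, m2, m3, m4⟩ := hH.virt D.cub D.hu D.cG D.cc D.c1
    (by rw [hc, Fintype.card_coe]) ((Fintype.card_coe S).trans ha)
    ((D.card_lam hS hI _ ha).trans (Nat.card_le_card_of_injective (fun x => ⟨x.1, by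
      obtain ⟨_, y, rfl⟩ := x
      exact ⟨(D.mem_HS hS).2 ⟨_, D.U1_le y.toMul.2, rfl⟩,
        (D.loc_smul hS (D.U1_le y.toMul.2) _).symm.trans
          (congrArg _ (y.toMul.2.1.2 _ (Subgroup.mem_zpowers _)))⟩⟩)
      fun _ _ e => Subtype.ext (congrArg (·.1) e)))
    fun x hx e v hv => D.pair_HS hS hI (Subgroup.zpowers D.c) hx (fun g hg => by
      rcases (d6d_mem D.cc).1 hg with rfl | rfl
      exacts [one_smul _ x, e]) v (by rwa [nq_zpowers D.cc D.c1])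
  let f : Ga K → D.U1 S ⊥ →* D.U1 S ⊥ := fun g =>
    { toFun := fun x => ⟨g • x.1, D.U1_smul x.2 g⟩
      map_one' := Subtype.ext (smul_one g)
      map_mul' := fun x y => Subtype.ext (smul_mul' g x.1 y.1) }
  let ρ : Representation ℤ (Ga K) (Additive (D.U1 S ⊥)) :=
    { toFun := fun g => (MonoidHom.toAdditive (f g)).toIntLinearMap
      map_one' := LinearMap.ext fun x => Subtype.ext (one_smul _ x.toMul.1)
      map_mul' := fun g h => LinearMap.ext fun x => Subtype.ext (mul_smul g h x.toMul.1) }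
  obtain ⟨U, _, _, _, ρ', lam, π, p1, p2, p3, p4⟩ := exists_lattice vi_two ρ (D.lam hS ⊥)
    (fun a h => Subtype.ext (d5b_eq D a.toMul.2.2 (map_one _)
      ((congrArg Subtype.val h).trans (mul_one 1).symm))) (D.lam_ker hS hI)
  refine ⟨M, m1, free3 D.cub D.hu D.cG D.cc D.c1 m1 m2 m3 Q h2 hi
    (card_fixed3 D.cub D.hu m1 m2 m3 m4 Q hQ fun x hx => D.pair_HS hS hI Q hx) U ρ' lam
    (fun g a => ?_) (fun x => ⟨fun hx => ?_, ?_⟩) p4, m2, m3⟩
  · obtain ⟨a, rfl⟩ := p1 a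
    rw [← p3, p2, p2]
    exact D.loc_smul hS (D.U1_le a.toMul.2) g
  · obtain ⟨y, hy, e⟩ := hr x hx
    exact ⟨π (Additive.ofMul ⟨y, hy⟩), (p2 _).trans e⟩
  · rintro ⟨a, rfl⟩
    obtain ⟨a, rfl⟩ := p1 a
    exact (D.mem_HS hS).2 ⟨_, D.U1_le a.toMul.2, (p2 a).symm⟩

end Pool.Agent.Lib.MP_775b3b_nt.CM
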