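import Pool.Agent.Lib.MP_775b3b_nt.CM3.NDef3
import Pool.Agent.Lib.MP_775b3b_nt.CM.C6c
import Pool.Agent.Lib.MP_775b3b_nt.CM.C10a

/-! Sums over cosets and places of a subfield. -/

namespace Pool.Agent.Lib.MP_775b3b_nt.CM

open Pool.Agent.Lib.MP_439fea_co NumberField WithZero

section Grp

variable {Γ : Type} [Group Γ] {Q : Subgroup Γ} {R : Finset Γ} {c : Γ}

theorem d6_fiber {A M : Type} [DecidableEq A] [AddCommMonoid M] (hR : c6c_Rep Q R) (f : Γ → M)
    (hf : ∀ q ∈ Q, ∀ g, f (q * g) = f g) (φ : Γ → A)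
    (hφ : ∀ g h, φ g = φ h ↔ ∃ q ∈ Q, g = q * h ∨ g = q * (h * c)) (F : A → M)
    (h1 : ∀ g, g * c * g⁻¹ ∈ Q → F (φ g) = f g)
    (h2 : ∀ g, g * c * g⁻¹ ∉ Q → F (φ g) = f g + f (g * c)) :
    ∑ a ∈ R.image φ, F a = ∑ g ∈ R, f g := by
  classical
  refine Finset.sum_image' f fun g hg => ?_
  obtain ⟨q, hq, h⟩ := hR.ex (g * c)
  have e : R.filter (fun x => φ x = φ g) = {g, q⁻¹ * (g * c)} := by
    ext x
    simp only [Finset.mem_filter, Finset.mem_insert, Finset.mem_singleton, hφ]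
    constructor
    · rintro ⟨hx, r, hr, e | e⟩
      exacts [.inl (hR.un _ hx _ hg r hr e), .inr (hR.un _ hx _ h (r * q) (mul_mem hr hq)
        (by rw [mul_assoc, mul_inv_cancel_left, e]))]
    · rintro (rfl | rfl)
      exacts [⟨hg, 1, one_mem _, .inl (one_mul _).symm⟩, ⟨h, _, inv_mem hq, .inr rfl⟩]
  rw [e]
  by_cases hc : g * c * g⁻¹ ∈ Q
  · rw [hR.un _ h _ hg (q⁻¹ * (g * c * g⁻¹)) (mul_mem (inv_mem hq) hc) (by group),
      Finset.pair_eq_singleton, Finset.sum_singleton, h1 g hc]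
  · rw [Finset.sum_pair fun e => hc (by
      rw [show g * c * g⁻¹ = q from mul_inv_eq_of_eq_mul (eq_inv_mul_iff_mul_eq.1 e).symm]
      exact hq), hf _ (inv_mem hq), h2 g hc]

open Classical in
theorem d6_inv (hR : c6c_Rep Q R) (cc : c * c = 1) (f : Γ → ZMod 2)
    (hf : ∀ q ∈ Q, ∀ g, f (q * g) = f g) (hc : ∀ g, f (g * c) = f g) :
    ∑ g ∈ R, f g = ∑ g ∈ R with g * c * g⁻¹ ∈ Q, f g := by
  choose q hq hr using fun g => hR.ex (g * c)
  rw [← Finset.sum_filter_add_sum_filter_not R fun g => g * c * g⁻¹ ∈ Q,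
    Finset.sum_involution (s := R.filter fun g => ¬ g * c * g⁻¹ ∈ Q) (fun g _ => (q g)⁻¹ * (g * c))
      (fun g _ => by rw [hf _ (inv_mem (hq g)), hc, CharTwo.add_self_eq_zero])
      (fun g hg _ e => (Finset.mem_filter.1 hg).2 (by
        rw [show g * c * g⁻¹ = q g from mul_inv_eq_of_eq_mul (inv_mul_eq_iff_eq_mul.1 e)]
        exact hq g))
      (fun g hg => Finset.mem_filter.2 ⟨hr g, fun e => (Finset.mem_filter.1 hg).2 (by
        have := mul_mem (mul_mem (hq g) e) (inv_mem (hq g))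
        rwa [show q g * ((q g)⁻¹ * (g * c) * c * ((q g)⁻¹ * (g * c))⁻¹) * (q g)⁻¹ =
          g * c * g⁻¹ by group] at this)⟩)
      fun g hg => hR.un _ (hr _) _ (Finset.mem_filter.1 hg).1
        ((q ((q g)⁻¹ * (g * c)))⁻¹ * (q g)⁻¹) (mul_mem (inv_mem (hq _)) (inv_mem (hq _)))
        (by rw [mul_assoc _ (g * c), mul_assoc g, cc, mul_one, mul_assoc]), add_zero]

end Grp

variable {K : Type} [Field K] [NumberField K] {k : Type} [Field k] [NumberField k] [Algebra k K]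

theorem d6_res [IsGalois k K] {w : P K} (hw : ∀ τ : K ≃ₐ[k] K, τ • w = w → τ = 1) (y : K)
    (hy : val w y ≤ 1) : ∃ z : k, val w (y - algebraMap k K z) < 1 := by
  classical
  have : FiniteDimensional k K := Module.Finite.of_restrictScalars_finite ℚ k K
  obtain ⟨x, hx, -⟩ := approx (Finset.univ.image fun τ : K ≃ₐ[k] K => τ • w)
    (fun v => if v = w then y else 0) (exp (-1 : ℤ)) exp_ne_zero
  have h1 : ∀ τ : K ≃ₐ[k] K, val (τ • w) (x - if τ • w = w then y else 0) < 1 := fun τ =>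
    (hx _ (Finset.mem_image_of_mem _ (Finset.mem_univ τ))).trans_lt c10a_lt
  refine ⟨Algebra.trace k K x, ?_⟩
  rw [trace_eq_sum_automorphisms, ← Finset.add_sum_erase _ _ (Finset.mem_univ 1), ← sub_sub]
  refine Valuation.map_sub_lt _ ?_ (Valuation.map_sum_lt _ one_ne_zero fun τ hτ => ?_)
  · have := h1 1
    rw [one_smul, if_pos rfl] at this
    rwa [AlgEquiv.one_apply, Valuation.map_sub_swap]
  · have := h1 τ⁻¹
    rw [if_neg fun e => (Finset.mem_erase.1 hτ).1 (inv_eq_one.1 (hw _ e)), sub_zero,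
      ← val_smul τ, smul_inv_smul] at this
    exact this

open Classical in
theorem d6_real [IsGalois ℚ K] [Fintype (k →+* ℝ)] {Q : Subgroup (Ga K)} {R : Finset (Ga K)}
    (hQ : ∀ g : Ga K, g ∈ Q ↔ ∀ a : k, g (algebraMap k K a) = algebraMap k K a)
    (hR : c6c_Rep Q R) {c : Ga K} {Φ : K →+* ℂ} (hΦ : ∀ x : K, Φ (c x) = starRingEnd ℂ (Φ x))
    (x y : kˣ) :
    ∑ g ∈ R with g * c * g⁻¹ ∈ Q, sr Φ (g⁻¹ • um K x) * sr Φ (g⁻¹ • um K y) =
      ∑ τ : k →+* ℝ, sg τ x * sg τ y := by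
  have hr : ∀ g : Ga K, g * c * g⁻¹ ∈ Q → ComplexEmbedding.IsReal
      ((Φ.comp ((g⁻¹ : Ga K) : K →+* K)).comp (algebraMap k K)) := fun g hg =>
    ComplexEmbedding.isReal_iff.2 (RingHom.ext fun a => by
      change starRingEnd ℂ (Φ (g⁻¹ _)) = Φ (g⁻¹ _)
      rw [← hΦ]
      refine congrArg Φ (g.injective ?_)
      rw [← AlgEquiv.mul_apply, ← AlgEquiv.mul_apply, (hQ _).1 hg, ← AlgEquiv.mul_apply,
        mul_inv_cancel, AlgEquiv.one_apply])
  refine Finset.sum_bij (fun g hg => (hr g (Finset.mem_filter.1 hg).2).embedding)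
    (fun _ _ => Finset.mem_univ _) ?_ ?_ fun g hg => ?_
  · intro g hg h hh e
    refine hR.un g (Finset.mem_filter.1 hg).1 h (Finset.mem_filter.1 hh).1 (g * h⁻¹)
      ((hQ _).2 fun a => ?_) (inv_mul_cancel_right g h).symm
    have e1 : g⁻¹ (algebraMap k K a) = h⁻¹ (algebraMap k K a) := by
      have := congrArg Complex.ofReal (RingHom.congr_fun e a)
      rw [ComplexEmbedding.IsReal.coe_embedding_apply,
        ComplexEmbedding.IsReal.coe_embedding_apply] at this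
      exact Φ.injective this
    rw [AlgEquiv.mul_apply, ← e1, ← AlgEquiv.mul_apply, mul_inv_cancel, AlgEquiv.one_apply]
  · intro τ _
    have : Algebra.IsAlgebraic k K := Algebra.IsAlgebraic.tower_top (K := ℚ) k
    obtain ⟨g, hg⟩ := ComplexEmbedding.exists_comp_symm_eq_of_comp_eq (k := ℚ)
      Φ (ComplexEmbedding.lift K (Complex.ofRealHom.comp τ)) (Subsingleton.elim _ _)
    obtain ⟨q, hq, h⟩ := hR.ex g
    have e3 : ∀ a, Φ ((q⁻¹ * g)⁻¹ (algebraMap k K a)) = τ a := fun a => by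
      have e1 := RingHom.congr_fun hg (algebraMap k K a)
      rw [ComplexEmbedding.lift_algebraMap_apply] at e1
      rw [mul_inv_rev, inv_inv, AlgEquiv.mul_apply, (hQ q).1 hq]
      exact e1
    refine ⟨q⁻¹ * g, Finset.mem_filter.2 ⟨h, (hQ _).2 fun a => ?_⟩,
      RingHom.ext fun a => Complex.ofReal_injective ?_⟩
    · rw [AlgEquiv.mul_apply, AlgEquiv.mul_apply, show c ((q⁻¹ * g)⁻¹ (algebraMap k K a)) =
        (q⁻¹ * g)⁻¹ (algebraMap k K a) from Φ.injective (by rw [hΦ, e3, Complex.conj_ofReal]),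
        ← AlgEquiv.mul_apply, mul_inv_cancel, AlgEquiv.one_apply]
    · rw [ComplexEmbedding.IsReal.coe_embedding_apply]
      exact e3 a
  · have e : ∀ z : kˣ, sr Φ (g⁻¹ • um K z) = sg (hr g (Finset.mem_filter.1 hg).2).embedding z :=
      fun z => by
        rw [sr, sg]
        refine if_congr ?_ rfl rfl
        rw [← Complex.ofReal_re ((hr g (Finset.mem_filter.1 hg).2).embedding _),
          ComplexEmbedding.IsReal.coe_embedding_apply]
        rfl
    rw [e, e]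

end Pool.Agent.Lib.MP_775b3b_nt.CM
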