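import Pool.Agent.Lib.MP_775b3b_nt.CM3.D5b
import Pool.Agent.Lib.MP_775b3b_nt.CM.C7a

namespace Pool.Agent.Lib.MP_775b3b_nt.CM

open Pool.Agent.Lib.MP_439fea_co NumberField WithZero

variable {K : Type} [Field K] [NumberField K] [IsGalois ℚ K]

variable (D : Dt K) {S : Finset (P K)}

omit [IsGalois ℚ K] in
theorem d7a_loc {S' : Finset (P K)} (h : S ⊆ S') (x : Kˣ) :
    D.loc S x = D.loc S' x ∘ c7a_inc h := by
  funext i
  rcases i with (_ | _) | ⟨_ | _, v⟩ <;> rfl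

omit [IsGalois ℚ K] in
theorem Dt.Inj.mono {D : Dt K} {S' : Finset (P K)} (h : D.Inj S) (hS : S ⊆ S') : D.Inj S' := by
  classical
  intro x hx h0 h1 h2
  exact h x (D.mem_of_od (T := S') (D.Z_mono Finset.subset_union_right hx) h1) h0
    (fun v hv => h1 v (hS hv)) fun v hv => h2 v (hS hv)

theorem Dt.exists_od [DecidableEq (P K)] (hI : D.Inj S) (hq : D.q ∈ S) {v : P K} (hv : v ∉ S)
    (hS : D.Ok (insert v S)) : ∃ x ∈ D.Z (insert v S), co (od v) x = ee D.σ := by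
  have sub := Finset.subset_insert v S
  have hS0 := hS.mono sub hq
  obtain ⟨L1, c1, -⟩ := D.hat hS (hI.mono sub)
  obtain ⟨-, c0, -⟩ := D.hat hS0 hI
  let i : Ix (insert v S : Finset (P K)) := .inr (false, ⟨v, Finset.mem_insert_self v S⟩)
  let f : D.HS (insert v S) →+ GA (Ga K) :=
    (Pi.evalAddMonoidHom _ i).comp (D.HS (insert v S)).subtype.toAddMonoidHom
  let A : AddSubgroup (GA (Ga K)) :=
    { carrier := {a | ee D.σ * a = a}
      add_mem' := fun {a b} (ha : _ = _) (hb : _ = _) => show _ = _ by rw [mul_add, ha, hb]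
      zero_mem' := mul_zero _
      neg_mem' := fun {a} (ha : _ = _) => show _ = _ by rw [mul_neg, ha] }
  have key : ∀ z ∈ D.HS (insert v S), z i = 0 → ∃ x ∈ D.Z S, D.loc (insert v S) x = z :=
    fun z hz h0 => by
      obtain ⟨x, hx, rfl⟩ := (D.mem_HS hS).1 hz
      refine ⟨x, D.mem_of_od (T := {v}) (D.Z_mono (fun w hw => by simpa using hw) hx)
        fun w hw => ?_, rfl⟩
      rw [Finset.mem_singleton.1 hw]
      exact h0
  have h1 : Nat.card f.ker ≤ Nat.card (D.HS S) := by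
    refine Nat.card_le_card_of_injective (fun z => ⟨z.1.1 ∘ c7a_inc sub, ?_⟩) fun z z' e => ?_
    · obtain ⟨x, hx, e⟩ := key _ z.1.2 z.2
      exact (D.mem_HS hS0).2 ⟨x, hx, by rw [d7a_loc D sub, e]⟩
    · obtain ⟨x, hx, e1⟩ := key _ (z - z').1.2 (z - z').2
      have e2 : D.loc S x = 0 := by
        rw [d7a_loc D sub, e1]
        exact sub_eq_zero.2 (congrArg Subtype.val e)
      rw [D.loc_isSquare hS (hI.zero hx e2)] at e1
      exact sub_eq_zero.1 (Subtype.ext (Subtype.ext e1.symm))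
  have h2 : f.range ≤ A := by
    rintro _ ⟨z, rfl⟩
    exact congrFun (L1.part _ z.2) i
  have h3 : Nat.card A ≤ Nat.card f.range := by
    have e := f.ker.card_mul_index
    rw [AddSubgroup.index_ker, c1, Finset.card_insert_of_notMem hv, mul_add_one,
      pow_add, ← c0, ← D.cub.card_part] at e
    exact Nat.le_of_mul_le_mul_left (e.ge.trans (Nat.mul_le_mul_right _ h1)) Nat.card_pos
  obtain ⟨z, hz⟩ := (AddSubgroup.eq_of_le_of_card_ge h2 h3).ge (show ee D.σ ∈ A from D.cub.ee_mul)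
  obtain ⟨x, hx, e⟩ := (D.mem_HS hS).1 z.2
  exact ⟨x, hx, (congrFun e i).trans hz⟩

theorem Dt.exists_type [DecidableEq (P K)] (hI : D.Inj S) (hq : D.q ∈ S) {v : P K} (hv : v ∉ S)
    (hS : D.Ok (insert v S)) {y : Ix S → GA (Ga K)} (hy : ee D.σ • y = y)
    (hw : Wp D.c (⟨D.q, hq⟩ : S) y) (h : ∀ x ∈ D.Z S, co (CM.sy v) x = hf D.u (D.loc S x) y) :
    ∃ x ∈ D.Z (insert v S), co (od v) x = ee D.σ ∧ Wm D.c (⟨D.q, hq⟩ : S) (D.loc S x + y) := by
  have sub := Finset.subset_insert v S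
  have hS0 := hS.mono sub hq
  have eU : S ∪ {v} = insert v S := by rw [Finset.union_comm, Finset.insert_eq]
  have od0 : ∀ z ∈ D.Z S, co (od v) z = 0 := fun z hz => D.co_od hz fun w hw e =>
    hv (hS.inj w (sub hw) v (Finset.mem_insert_self v S) e ▸ hw)
  obtain ⟨x₀, h0, e0⟩ := D.exists_od hI hq hv hS
  obtain ⟨L0, c0, -⟩ := D.hat hS0 hI
  obtain ⟨_, h1, h3⟩ := L0.max D.cub D.hu D.cc D.c1 (by rw [Fintype.card_coe, c0])
    (v := D.loc S x₀ + y) (by rw [smul_add, hy, D.ee_loc hS0 hS h0]) ((D.wp_loc hq h0).add hw)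
    fun _ hz' => by
      obtain ⟨z, hz, rfl⟩ := (D.mem_HS hS0).1 hz'
      rw [hf_add_right, D.pairT (T := {v}) (eU ▸ hS) hq (Finset.disjoint_singleton_right.2 hv)
        (eU ▸ D.Z_mono sub hz) (eU ▸ h0), Finset.sum_singleton, od0 z hz, zero_mul, zero_add, e0,
        D.cub.star_ee, ← D.cub.ee_comm, D.ee_co (CM.sy_mul (hS.sp v (Finset.mem_insert_self v S)
          fun e => hv (e ▸ hq))) hz, h z hz, add_self_ga]
  obtain ⟨x₁, h2, rfl⟩ := (D.mem_HS hS0).1 h1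
  refine ⟨x₀ * x₁, mul_mem h0 (D.Z_mono sub h2), ?_, ?_⟩
  · rw [co_mul (od_mul v), e0, od0 x₁ h2, add_zero]
  · rwa [D.loc_mul hS0 hS h0 (D.Z_mono sub h2), add_right_comm]

end Pool.Agent.Lib.MP_775b3b_nt.CM
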