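import Pool.Agent.Lib.MP_775b3b_nt.CM3.D7a
import Pool.Agent.Lib.MP_775b3b_nt.CM.Sym

namespace Pool.Agent.Lib.MP_775b3b_nt.CM

open Pool.Agent.Lib.MP_439fea_co NumberField WithZero

variable {K : Type} [Field K] [NumberField K] [IsGalois ℚ K]


variable (D : Dt K) {S : Finset (P K)}

omit [IsGalois ℚ K] in
theorem d7b_sq {x β : Kˣ} (hx : x ∈ D.Z S) (hβ : D.σ • β = β) (h : IsSquare (x * β)) :
    IsSquare x := by
  have h1 : IsSquare (D.nrm x) := hx.1
  have h2 : D.nrm β = β * β * β := by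
    change β * D.σ • β * (D.σ * D.σ) • β = _
    rw [mul_smul, hβ, hβ]
  have h3 := ((h.map D.nrm).mul h1.inv).mul (IsSquare.mul_self β).inv
  rw [map_mul, h2, mul_comm (D.nrm x), mul_inv_cancel_right, mul_comm (β * β),
    mul_inv_cancel_right] at h3
  have h4 := h.mul h3.inv
  rwa [mul_inv_cancel_right] at h4

omit [IsGalois ℚ K] in
theorem d7b_pow (hS : D.Ok S) {x : Kˣ} (hx : x ∈ D.Z S) (n : ℕ) :
    D.loc S (x ^ n) = n • D.loc S x := by
  simpa using D.loc_prod hS hS (Finset.range n) (x := fun _ => x) fun _ _ => hx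

omit [IsGalois ℚ K] in
theorem d7b_ns (hS : D.Ok S) (hI : D.Inj S) (v : P K) {x z : Kˣ} (hx : x ∈ D.Z S) (hz : z ∈ D.Z S)
    (h : D.loc S x = D.loc S z) : ns v z = ns v x := by
  have h1 : IsSquare (z * x) := hI.zero (mul_mem hz hx) (by
    rw [D.loc_mul hS hS hz hx, h]
    exact funext fun i => add_self_ga _)
  have e : z = x * (z * x * (x * x)⁻¹) := by
    rw [mul_inv_rev, ← mul_assoc (z * x), mul_inv_cancel_right, mul_comm z, mul_inv_cancel_left]
  rw [e]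
  exact ns_mul_of_mem x (mem_Sq_of_isSquare v (h1.mul (IsSquare.mul_self x).inv))

theorem Dt.exists_prime [DecidableEq (P K)] (hS : D.Ok S) (hI : D.Inj S) (B : Finset Kˣ)
    (hB : ∀ b ∈ B, D.σ • b = b) {y : Ix S → GA (Ga K)} (hy : ee D.σ • y = y)
    (hw : Wp D.c (⟨D.q, hS.mem⟩ : S) y) :
    ∃ (v : P K) (x : Kˣ), SP v ∧ (∀ w ∈ S, nm w ≠ nm v) ∧
      (∀ b ∈ B, ∀ g : Ga K, g • b ∈ Sq (val v)) ∧ x ∈ D.Z (insert v S) ∧
      co (od v) x = ee D.σ ∧ Wm D.c (⟨D.q, hS.mem⟩ : S) (D.loc S x + y) ∧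
      ∀ z ∈ D.Z S, co (CM.sy v) z = hf D.u (D.loc S z) y := by
  classical
  have := Fintype.ofFinite (D.HS S)
  choose x hx hx' using fun z : D.HS S => (D.mem_HS hS).1 z.2
  let φ : (Ix S → GA (Ga K)) →+ ZMod 2 := AddMonoidHom.mk' (fun z => (hf D.u z y).coeff 1)
    fun a b => by rw [hf_add_left, MonoidAlgebra.coeff_add, Finsupp.add_apply]
  obtain ⟨v, hv, hY, hc⟩ := exists_sym (ι := D.HS S ⊕ (B × Ga K))
    (Sum.elim x fun p => p.2 • (p.1 : Kˣ)) (Sum.elim (fun z => φ z) fun _ => 0) (fun a j h => by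
      rw [Fintype.prod_sum_type, mul_left_comm] at h
      have h1 : ∀ z : D.HS S, x z ^ a (.inl z) ∈ D.Z S := fun z => pow_mem (hx z) _
      have h2 := d7b_sq D (prod_mem fun z _ => h1 z) (by
        have e : D.σ • (-1 : Kˣ) = -1 := Units.ext (by simp)
        rw [smul_mul', smul_pow', e, Finset.smul_prod']
        refine congrArg _ (Finset.prod_congr rfl fun p _ => ?_)
        rw [smul_pow', Sum.elim_inr, smul_smul, ← D.cub.cen, mul_smul, hB _ p.1.2]) h
      have h3 := congrArg φ (D.loc_isSquare hS h2)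
      rw [D.loc_prod hS hS _ fun z _ => h1 z, map_sum, map_zero] at h3
      rw [Fintype.sum_sum_type]
      simp only [Sum.elim_inl, Sum.elim_inr, mul_zero, Finset.sum_const_zero, add_zero]
      refine Eq.trans (Finset.sum_congr rfl fun z _ => ?_) h3
      rw [d7b_pow D hS (hx z), hx', map_nsmul, nsmul_eq_mul]) (S.sup nm)
  have hne : ∀ w ∈ S, nm w ≠ nm v := fun w hw => ((Finset.le_sup hw).trans_lt hY).ne
  have hS' : D.Ok (insert v S) := by
    refine ⟨Finset.mem_insert_of_mem hS.mem, fun w hw ne => ?_, fun w hw w' hw' e => ?_⟩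
    · rcases Finset.mem_insert.1 hw with rfl | hw
      exacts [hv, hS.sp w hw ne]
    · rcases Finset.mem_insert.1 hw with a | a <;> rcases Finset.mem_insert.1 hw' with b | b
      exacts [a.trans b.symm, absurd (a ▸ e).symm (hne _ b), absurd (b ▸ e) (hne _ a),
        hS.inj w a w' b e]
  have h1 : ∀ z ∈ D.Z S, ns v z = φ (D.loc S z) := fun z hz =>
    (d7b_ns D hS hI v (hx ⟨_, (D.mem_HS hS).2 ⟨z, hz, rfl⟩⟩) hz (hx' _)).trans (hc (.inl _)).2
  have h2 : ∀ z ∈ D.Z S, co (CM.sy v) z = hf D.u (D.loc S z) y := fun z hz => ga_ext fun g => by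
    have h3 : od v (g⁻¹ • z) = 0 := congrArg (fun m : GA (Ga K) => m.coeff g) (D.co_od hz hne)
    have h4 := h1 _ (D.smul_mem hz g⁻¹)
    rw [← sy_eq_ns (od_eq_zero.1 h3), D.loc_smul hS hz] at h4
    refine h4.trans ?_
    change (hf D.u (gr g⁻¹ • D.loc S z) y).coeff 1 = _
    rw [hf_smul_left, coeff_gr_mul, inv_inv, mul_one]
  obtain ⟨x', h3, h4, h5⟩ := D.exists_type hI hS.mem (fun h => hne v h rfl) hS' hy hw h2
  exact ⟨v, x', hv, hne, fun b hb g => ns_eq_zero.1 (hc (.inr (⟨b, hb⟩, g))).2, h3, h4, h5, h2⟩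

end Pool.Agent.Lib.MP_775b3b_nt.CM
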