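import Pool.Agent.Lib.MP_775b3b_nt.CM3.D2
import Pool.Agent.Lib.MP_775b3b_nt.CM.C8

namespace Pool.Agent.Lib.MP_775b3b_nt.CM

open Pool.Agent.Lib.MP_439fea_co NumberField WithZero

variable {K : Type} [Field K] [NumberField K] [IsGalois ℚ K]

omit [IsGalois ℚ K] in
theorem Two.not_sq (h : Two K) : ¬ IsSquare (-1 : Kˣ) := by
  intro h1
  obtain ⟨w, hw⟩ := exists_over_prime K Nat.prime_two
  have hw' : val w (2 : K) < 1 := by simpa using hw
  have h2 : Sig (-1 : Kˣ) (-1 : 𝓞 K) := ⟨1, fun w _ => by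
    have e : ((-1 : Kˣ) : K) * ((1 : Kˣ) : K) ^ 2 - 1 - 2 * ((-1 : 𝓞 K) : K) = 0 := by
      push_cast
      ring
    rw [e, map_zero]
    exact zero_le⟩
  have h3 := (h2.pry h hw').1 (Pry.of_isSquare w h1)
  simp at h3

omit [IsGalois ℚ K] in
theorem d8_ok (D : Dt K) : D.Ok {D.q} := ⟨by simp, by simp, by simp⟩

omit [IsGalois ℚ K] in
theorem d8_even (D : Dt K) {S : Finset (P K)} {y : Kˣ} (hy : y ∈ D.Z S) {j : ℕ}
    (h : IsSquare ((-1) ^ j * y)) : Even j := by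
  by_contra hj
  rw [Nat.not_even_iff_odd] at hj
  rw [hj.neg_one_pow] at h
  have h1 := (D.sq_mem (S := S) h).1
  have h2 := h1.mul hy.1.inv
  have e : ∀ g : Ga K, g • (-1 * y) = -1 * g • y := fun g => by simp
  rw [e, e] at h2
  refine D.two.not_sq ?_
  have e2 : -1 * y * (-1 * D.σ • y) * (-1 * (D.σ * D.σ) • y) * (y * D.σ • y * (D.σ * D.σ) • y)⁻¹ =
      -1 := by
    rw [mul_inv_eq_iff_eq_mul]
    simp
  rwa [e2] at h2

omit [IsGalois ℚ K] in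
theorem d8_pow (D : Dt K) {S : Finset (P K)} (hS : D.Ok S) {y : Kˣ} (hy : y ∈ D.Z S) (n : ℕ) :
    D.loc S (y ^ n) = n • D.loc S y := by
  simpa using D.loc_prod hS hS (Finset.range n) (x := fun _ => y) fun _ _ => hy

omit [IsGalois ℚ K] in
theorem d8_rel (D : Dt K) {κ : Kˣ} (hκ : κ ∈ D.Z {D.q})
    (hk : ∀ γ, (cz D.α (sig κ)).coeff γ = 0 ↔ γ * D.σ ∈ D.G) {φ : Kˣ} (hφ : φ ∈ D.Z {D.q})
    (h1 : cz D.α (sig φ) = 0) {a b c d : ℕ}
    (h : IsSquare (φ ^ a * κ ^ b * (D.σ • κ) ^ c * (D.σ • D.σ • κ) ^ d)) :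
    (c : ZMod 2) = b ∧ (d : ZMod 2) = b := by
  have ok := d8_ok D
  have k1 := D.smul_mem hκ D.σ
  have k2 := D.smul_mem k1 D.σ
  have e := D.loc_isSquare ok h
  rw [D.loc_mul ok ok (mul_mem (mul_mem (pow_mem hφ _) (pow_mem hκ _)) (pow_mem k1 _))
      (pow_mem k2 _), D.loc_mul ok ok (mul_mem (pow_mem hφ _) (pow_mem hκ _)) (pow_mem k1 _),
    D.loc_mul ok ok (pow_mem hφ _) (pow_mem hκ _), d8_pow D ok hφ, d8_pow D ok hκ,
    d8_pow D ok k1, d8_pow D ok k2, D.loc_smul ok k1, D.loc_smul ok hκ] at e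
  have e1 : a • cz D.α (sig φ) + b • cz D.α (sig κ) + c • (gr D.σ * cz D.α (sig κ)) +
      d • (gr D.σ * (gr D.σ * cz D.α (sig κ))) = 0 := congrFun e (.inl false)
  rw [h1, smul_zero, zero_add] at e1
  have e2 : ∀ γ, (b : ZMod 2) * (cz D.α (sig κ)).coeff γ +
      c * (cz D.α (sig κ)).coeff (D.σ⁻¹ * γ) +
      d * (cz D.α (sig κ)).coeff (D.σ⁻¹ * (D.σ⁻¹ * γ)) = 0 := fun γ => by
    have h2 := congrArg (fun z : GA (Ga K) => z.coeff γ) e1
    simp only [MonoidAlgebra.coeff_add, MonoidAlgebra.coeff_smul, Finsupp.add_apply,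
      Finsupp.smul_apply, coeff_gr_mul, MonoidAlgebra.coeff_zero, Finsupp.zero_apply] at h2
    simpa only [nsmul_eq_mul] using h2
  have one : ∀ a : ZMod 2, a ≠ 0 → a = 1 := by decide
  have t0 : (cz D.α (sig κ)).coeff 1 = 1 := one _ fun h => D.cub.nmem (by
    have := (hk 1).1 h
    rwa [one_mul] at this)
  have t1 : (cz D.α (sig κ)).coeff D.σ⁻¹ = 0 := by
    rw [hk, inv_mul_cancel]
    exact D.G.one_mem
  have t2 : (cz D.α (sig κ)).coeff D.σ = 1 := one _ fun h => D.cub.nmem2 ((hk _).1 h)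
  have t3 : D.σ⁻¹ * D.σ⁻¹ = D.σ := by
    rw [← mul_inv_rev, inv_eq_iff_mul_eq_one, D.cub.three]
  have f1 := e2 1
  have f2 := e2 D.σ
  rw [mul_one D.σ⁻¹, t3, t0, t1, t2] at f1
  rw [inv_mul_cancel, mul_one D.σ⁻¹, t0, t1, t2] at f2
  have z : ∀ b c d : ZMod 2, b * 1 + c * 0 + d * 1 = 0 → b * 1 + c * 1 + d * 0 = 0 →
      c = b ∧ d = b := by decide
  exact z _ _ _ f1 f2

theorem d8_key (D : Dt K) {κ : Kˣ} (hκ : κ ∈ D.Z {D.q}) (hG : ∀ g ∈ D.G, g • κ = κ)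
    (hk : ∀ γ, (cz D.α (sig κ)).coeff γ = 0 ↔ γ * D.σ ∈ D.G) {φ : Kˣ} (hφ : φ ∈ D.Z {D.q})
    (h1 : cz D.α (sig φ) = 0) (h2 : ¬ IsSquare φ) (Y : ℕ) :
    ∃ v : P K, SP v ∧ Y < nm v ∧ ns v φ = 1 ∧ co (sy v) κ = 0 := by
  have h3 := D.cub.three
  have k1 := D.smul_mem hκ D.σ
  have k2 := D.smul_mem k1 D.σ
  obtain ⟨v, v1, v2, v3⟩ := exists_sym ![φ, κ, D.σ • κ, D.σ • D.σ • κ] ![1, 0, 0, 0]
    (fun a j h => by
      simp only [Fin.prod_univ_four, Fin.sum_univ_four, Matrix.cons_val] at h ⊢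
      have hj := d8_even D (mul_mem (mul_mem (mul_mem (pow_mem hφ _) (pow_mem hκ _))
        (pow_mem k1 _)) (pow_mem k2 _)) h
      rw [hj.neg_one_pow, one_mul] at h
      obtain ⟨f1, f2⟩ := d8_rel D hκ hk hφ h1 h
      rw [ZMod.natCast_eq_natCast_iff'] at f1 f2
      simp only [mul_one, mul_zero, add_zero]
      rw [ZMod.natCast_eq_zero_iff_even, Nat.even_iff]
      by_contra f3
      let π := QuotientGroup.mk' (Subgroup.square Kˣ)
      have p1 : ∀ x, π x = 1 ↔ IsSquare x := fun x => QuotientGroup.eq_one_iff x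
      have p2 : ∀ x (n : ℕ), π x ^ n = π x ^ (n % 2) := fun x n =>
        pow_eq_pow_mod n (by rw [← map_pow, p1]; exact IsSquare.sq x)
      have p3 := (p1 _).2 hκ.1
      have p4 := (p1 _).2 h
      rw [mul_smul] at p3
      simp only [map_mul, map_pow] at p3 p4
      rw [p2 _ (a 0), p2 _ (a 1), p2 _ (a 2), p2 _ (a 3), f1, f2,
        show a 0 % 2 = 1 by omega, pow_one, mul_assoc, mul_assoc, ← mul_pow,
        ← mul_pow, ← mul_assoc, p3, one_pow, mul_one] at p4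
      exact h2 ((p1 _).1 p4)) Y
  refine ⟨v, v1, v2, (v3 0).2, ga_ext fun g => ?_⟩
  have s : ∀ x : Kˣ, val v (x : K) = 1 ∧ ns v x = 0 → sy v x = 0 := fun x h => by
    rw [sy_eq_ns, h.2]
    rw [(sunit_ord_eq_zero_iff v x.ne_zero).2 h.1]
    exact Even.zero
  change sy v (g⁻¹ • κ) = 0
  rcases D.cub.dec g⁻¹ with h | h | h
  · rw [hG _ h]
    exact s _ (v3 1)
  · have : g⁻¹ • κ = D.σ • D.σ • κ := by
      conv_rhs => rw [← hG _ h, ← mul_smul, ← mul_smul, D.cub.cen g⁻¹, ← mul_assoc, h3, one_mul]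
    rw [this]
    exact s _ (v3 3)
  · have : g⁻¹ • κ = D.σ • κ := by
      conv_rhs => rw [← hG _ h, ← mul_smul, ← D.cub.cen, mul_assoc, mul_assoc, ← mul_assoc D.σ,
        h3, mul_one]
    rw [this]
    exact s _ (v3 2)

theorem d8_ind (D : Dt K) {κ : Kˣ} (hκ : κ ∈ D.Z {D.q}) (hG : ∀ g ∈ D.G, g • κ = κ)
    (hk : ∀ γ, (cz D.α (sig κ)).coeff γ = 0 ↔ γ * D.σ ∈ D.G) {p : P K} (hp : SP p)
    (T : Finset K) : ∃ S : Finset (P K), p ∈ S ∧ D.Ok S ∧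
      (∀ v ∈ S, v ≠ D.q → v ≠ p → co (CM.sy v) κ = 0) ∧
      ∀ t ∈ T, ∀ φ ∈ D.Z {D.q}, (∃ z : K, (φ : K) = t * z ^ 2) → cz D.α (sig φ) = 0 →
        ¬ IsSquare φ → ∃ v ∈ S, v ≠ D.q ∧ ns v φ = 1 := by
  classical
  induction T using Finset.induction_on with
  | empty =>
    have hn := (D.ip.nm_ne D.c1 hp).2
    refine ⟨{D.q, p}, by simp, ⟨by simp, ?_, ?_⟩, ?_, by simp⟩
    · intro v hv h
      rw [Finset.mem_insert, Finset.mem_singleton] at hv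
      rcases hv with rfl | rfl
      · exact absurd rfl h
      · exact hp
    · intro a ha b hb e
      rw [Finset.mem_insert, Finset.mem_singleton] at ha hb
      rcases ha with rfl | rfl <;> rcases hb with rfl | rfl
      · rfl
      · exact absurd e hn
      · exact absurd e hn.symm
      · rfl
    · intro v hv h h'
      rw [Finset.mem_insert, Finset.mem_singleton] at hv
      exact absurd hv (not_or.2 ⟨h, h'⟩)
  | insert t T _ ih =>
    obtain ⟨S, s1, s2, s3, s4⟩ := ih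
    by_cases h : ∃ φ ∈ D.Z {D.q}, (∃ z : K, (φ : K) = t * z ^ 2) ∧ cz D.α (sig φ) = 0 ∧
        ¬ IsSquare φ
    · obtain ⟨φ, hφ, ⟨z, hz⟩, h1, h2⟩ := h
      obtain ⟨v, v1, v2, v3, v4⟩ := d8_key D hκ hG hk hφ h1 h2 (S.sup nm)
      have hlt : ∀ w ∈ S, nm w < nm v := fun w hw => (Finset.le_sup hw).trans_lt v2
      have hq : v ≠ D.q := fun e => (hlt _ s2.mem).ne (by rw [e])
      refine ⟨insert v S, by simp [s1], ⟨by simp [s2.mem], ?_, ?_⟩, ?_, ?_⟩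
      · exact Finset.forall_mem_insert _ _ _ |>.2 ⟨fun _ => v1, s2.sp⟩
      · intro a ha b hb e
        rw [Finset.mem_insert] at ha hb
        rcases ha with rfl | ha <;> rcases hb with rfl | hb
        · rfl
        · exact absurd e (hlt b hb).ne'
        · exact absurd e (hlt a ha).ne
        · exact s2.inj a ha b hb e
      · exact Finset.forall_mem_insert _ _ _ |>.2 ⟨fun _ _ => v4, s3⟩
      · refine Finset.forall_mem_insert _ _ _ |>.2 ⟨?_, fun t ht ψ hψ a b c => ?_⟩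
        · rintro ψ - ⟨y, hy⟩ - -
          refine ⟨v, by simp, hq, ?_⟩
          have h0 := φ.ne_zero
          rw [hz] at h0
          rw [← mul_div_cancel φ ψ, ns_mul_of_mem _ (mem_Sq_of_isSquare v
            (isSquare_units.2 ⟨y / z, ?_⟩)), v3]
          rw [Units.val_div_eq_div_val, hy, hz, mul_div_mul_left _ _ (left_ne_zero_of_mul h0),
            ← div_pow, sq]
        · obtain ⟨w, hw, e⟩ := s4 t ht ψ hψ a b c
          exact ⟨w, by simp [hw], e⟩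
    · exact ⟨S, s1, s2, s3, Finset.forall_mem_insert _ _ _ |>.2
        ⟨fun φ hφ a b c => absurd ⟨φ, hφ, a, b, c⟩ h, s4⟩⟩

theorem Dt.exists_aux (D : Dt K) {κ : Kˣ} (hκ : κ ∈ D.Z {D.q}) (hG : ∀ g ∈ D.G, g • κ = κ)
    (hk : ∀ γ, (cz D.α (sig κ)).coeff γ = 0 ↔ γ * D.σ ∈ D.G) {p : P K} (hp : SP p) :
    ∃ S : Finset (P K), p ∈ S ∧ D.Ok S ∧ D.Inj S ∧
      ∀ v ∈ S, v ≠ D.q → v ≠ p → co (CM.sy v) κ = 0 := by
  classical
  obtain ⟨T, hT⟩ := Pool.Agent.MP_651af7_nt.MW.selmer_finite (Set.range fun g : Ga K => g • D.q)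
    (Set.finite_range _)
  obtain ⟨S, s1, s2, s3, s4⟩ := d8_ind D hκ hG hk hp T
  refine ⟨S, s1, s2, fun x hx h0 h1 h4 => by_contra fun h2 => ?_, s3⟩
  have h3 : x ∈ D.Z {D.q} := D.mem_of_od (D.Z_mono Finset.subset_union_right hx) h1
  obtain ⟨t, ht, hz⟩ := hT x x.ne_zero fun w hw => by
    obtain ⟨m, hm⟩ := h3.2 w fun v hv g e => hw ⟨g, by rw [← e, Finset.mem_singleton.1 hv]⟩
    exact ⟨exp (-m), (val_eq_exp w x.ne_zero).trans (by rw [hm, neg_add, exp_add])⟩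
  obtain ⟨v, hv, hq, e⟩ := s4 t ht x h3 hz h0 h2
  have h5 := c8_coeff (CM.sy v) x 1
  have h6 := c8_coeff (od v) x 1
  rw [h1 v hv, one_smul] at h6
  rw [h4 v hv hq, one_smul, sy_eq_ns (od_eq_zero.1 h6.symm), e] at h5
  exact zero_ne_one h5

end Pool.Agent.Lib.MP_775b3b_nt.CM
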