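import Pool.Agent.Lib.MP_775b3b_nt.CM3.Rc2

/-! A change of coordinates that moves the place two to an auxiliary place. -/

set_option autoImplicit false

namespace Pool.Agent.Lib.MP_775b3b_nt.CM

section Ring

variable {R T : Type} [Ring R] [DecidableEq T]

/-- the change of coordinates -/
def phi (w ζ : R) (q p : T) (x : Ix T → R) : Ix T → R
  | .inl false => (x (.inr (false, q)) * w + x (.inr (false, p)) + x (.inr (true, p)) * (w * w)) * ζ
  | .inl true => x (.inl true)
  | .inr (false, t) => if t = p then x (.inl false) * (w * w) +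
      (x (.inr (false, q)) * (w * w) + x (.inr (false, p)) * w + x (.inr (true, p)) * (w * w)) * w
      else x (.inr (false, t))
  | .inr (true, t) => if t = p then x (.inl false) * w +
      (x (.inr (false, q)) * (w * w) + x (.inr (false, p)) * w + x (.inr (true, p)) * (w * w)) *
        (w * w)
      else if t = q then x (.inr (true, q)) + x (.inr (true, p)) * (w * w) else x (.inr (true, t))

/-- the change of coordinates as a linear map -/
def phiL (w ζ : R) (q p : T) : (Ix T → R) →ₗ[R] (Ix T → R) where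
  toFun := phi w ζ q p
  map_add' x y := funext fun i => by
    rcases i with (_ | _) | ⟨_ | _, t⟩ <;> simp only [phi, Pi.add_apply] <;> (try split_ifs) <;>
      simp only [add_mul] <;> abel
  map_smul' r x := funext fun i => by
    rcases i with (_ | _) | ⟨_ | _, t⟩ <;>
      simp only [phi, Pi.smul_apply, smul_eq_mul, RingHom.id_apply] <;> (try split_ifs) <;>
      simp only [add_mul, mul_add, mul_assoc]

end Ring

variable {Γ : Type} [Group Γ] [Fintype Γ] {σ : Γ} {G : Subgroup Γ} {T : Type} [Fintype T]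
  [DecidableEq T] {u ζ : GA Γ} {q p : T}

theorem Cub.phi_iso (h : Cub σ G) (z2 : ζ * u * star ζ = ee σ) (hqp : q ≠ p) (x y : Ix T → GA Γ)
    (hx : ee σ • x = x) : hf u (phi (om σ) ζ q p x) (phi (om σ) ζ q p y) = hf 1 x y := by
  obtain ⟨wc, ew, w2, w3, ws⟩ := h.om_fact
  generalize om σ = w at *
  have wl : ∀ i z, x i * (w * z) = w * (x i * z) := fun i z => by
    rw [← mul_assoc, ← wc, mul_assoc]
  have ww : ∀ i z, w * (w * (x i * z)) = x i * z + w * (x i * z) := fun i z => by
    have : ee σ * (x i * z) = x i * z := by rw [← mul_assoc]; exact congrArg (· * z) (congrFun hx i)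
    rw [w2, add_mul, mul_assoc] at this
    linear_combination (norm := abel) this - sel_two (w * (x i * z))
  have k1 : ∀ a b : GA Γ, ee σ * a = a → a * ζ * u * star (b * ζ) = a * star b := fun a b ha => by
    rw [star_mul, mul_assoc a, mul_assoc a, ← mul_assoc _ (star ζ), z2, ← mul_assoc, ← h.ee_cm, ha]
  have k2 : ∀ F F' : T → GA Γ, (∀ t, t ≠ p ∧ t ≠ q → F t = F' t) →
      ∑ t, F t = ∑ t, F' t + (F p + F' p + (F q + F' q)) := fun F F' e => by
    rw [← Fintype.sum_eq_add p q hqp.symm (f := fun t => F t + F' t)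
      fun t ht => by rw [e t ht, sel_two], Finset.sum_add_distrib, add_comm (∑ t, F t), ← add_assoc,
      sel_two, zero_add]
  unfold hf
  rw [k2 _ (fun t => x (.inr (false, t)) * star (y (.inr (true, t))) +
    x (.inr (true, t)) * star (y (.inr (false, t)))) fun t ht => by
      simp only [phi, if_neg ht.1, if_neg ht.2]]
  simp only [phi, if_true, if_neg hqp]
  rw [k1 _ _ (by simp only [mul_add, ← mul_assoc, show ∀ i, ee σ * x i = x i from congrFun hx])]
  generalize ∑ t, (x (.inr (false, t)) * star (y (.inr (true, t))) +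
    x (.inr (true, t)) * star (y (.inr (false, t)))) = S
  simp only [star_add, star_mul, ws, mul_add, add_mul, mul_assoc, wl, ww, mul_one]
  refine (one_smul (ZMod 2) _).symm.trans (Eq.trans ?_ (one_smul (ZMod 2) _))
  match_scalars <;> decide

theorem Cub.phi_kap (h : Cub σ G) (z1 : ee σ * ζ = ζ) (z4 : selNG G * ζ = selNG G * ee σ)
    (hqp : q ≠ p) {k : Ix T → GA Γ} (hk : Kap3 σ G q p k) :
    ∃ k0, Kap σ G q k0 ∧ phi (om σ) ζ q p k0 = k := by
  obtain ⟨wc, ew, w2, w3, -⟩ := h.om_fact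
  have b0 : ∀ a b : ZMod 2, (a = 0 ↔ b = 0) → a = b := by decide
  have h0 : Kap σ G q (Function.update k (.inr (true, p)) 0) :=
    ⟨fun b γ => by rw [Function.update_of_ne (by simp), hk.two],
      fun γ => by rw [Function.update_of_ne (by simp), hk.bin], fun t => by
        rcases eq_or_ne t p with rfl | ne
        exacts [Function.update_self .., by rw [Function.update_of_ne (by simp [ne]), hk.sy t ne]],
      fun t ht => by rw [Function.update_of_ne (by simp), hk.od t ht]⟩
  have e0 := congrFun (h.kap_eq h0 z1 z4)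
  have e1 : k (.inl false) = selNG G * (om σ * ζ) := by simpa [yt, om] using e0 (.inl false)
  have e2 : k (.inr (false, q)) = selNG G * ee σ := by simpa [yt] using e0 (.inr (false, q))
  have e3 : k (.inr (true, p)) = selNG G * ee σ :=
    (ga_ext fun γ => b0 _ _ (by rw [hk.sp, hk.bin])).trans e2
  have e4 : k (.inl false) = selNG G * om σ := by
    rw [e1, ← mul_assoc, ← wc, mul_assoc, z4, ← mul_assoc, wc, mul_assoc, wc, ew]
  refine ⟨_, h0, funext fun i => ?_⟩
  rcases i with (_ | _) | ⟨_ | _, t⟩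
  · simp [phi, hk.od p hqp.symm, e1, e2, mul_assoc, ← mul_assoc (ee σ), ew]
  · simp [phi]
  · rcases eq_or_ne t p with rfl | ne
    · simp [phi, hk.od t hqp.symm, e4, e2, mul_assoc, ← mul_assoc (ee σ), ew, sel_two]
    · simp [phi, ne]
  · rcases eq_or_ne t p with rfl | ne
    · simp only [phi, if_true, Function.update_self, ne_eq, reduceCtorEq, not_false_eq_true,
        Function.update_of_ne, Sum.inr.injEq, Prod.mk.injEq, false_and, hk.od t hqp.symm, zero_mul,
        add_zero, e4, e2, e3, mul_assoc, Bool.false_eq_true]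
      rw [← mul_add, ← mul_assoc (ee σ), ew, ← mul_assoc _ _ (_ * _), ← mul_assoc (_ * _), w3, ew,
        add_comm, ← w2]
    · simp +contextual [phi, ne, hqp]

theorem Cub.phi_tg (h : Cub σ G) (hqp : q ≠ p) (υ : GA Γ) (g : Γ) :
    phi (om σ) ζ q p '' ({v | ee σ • v = v} ∩ Tg0 σ q (gr g * ee σ) υ) ⊆ Tg σ q p ζ υ g := by
  obtain ⟨wc, ew, w2, w3, -⟩ := h.om_fact
  rintro _ ⟨x, ⟨hx, a, b, a1, a2, a3, a4, a5, a6, a7⟩, rfl⟩
  have x0 : ee σ * x (.inr (false, p)) = x (.inr (false, p)) := congrFun hx _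
  have a8 := a7 p hqp.symm
  rw [← mul_assoc, ← h.ee_cm, ← mul_assoc, mul_add, ← mul_assoc, ← mul_assoc, a1, a2] at a3
  have m0 : ee σ * (a * om σ + x (.inr (false, p))) = a * om σ + x (.inr (false, p)) := by
    rw [mul_add, ← mul_assoc, a1, x0]
  have m1 : a * (om σ * om σ) + x (.inr (false, p)) * om σ =
      (a * om σ + x (.inr (false, p))) * om σ := by rw [add_mul, mul_assoc]
  refine ⟨a, b, a * om σ + x (.inr (false, p)), a1, a2, m0, ?_, a4, ?_, ?_, ?_, ?_,
    fun t h1 h2 => ?_⟩ <;>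
    simp only [phi, if_true, if_neg hqp, a3, a5, a6, a8, zero_mul, add_zero, m1]
  · simp only [add_mul, mul_assoc]
  · rw [mul_assoc _ (om σ), ← mul_assoc (om σ), w3, ← h.ee_cm, m0]
  · rw [if_neg h2, if_neg h1, a7 t h1]

/-- The target is reached from every free Lagrangian. -/
theorem Cub.rc_tg3 {T : Type} [Fintype T] {q p : T} (h : Cub σ G) {υ : GA Γ} (hu : SymU G u)
    (u1 : ee σ * υ = υ) (u2 : star υ = υ) (u3 : υ * υ = ee σ) (hqp : q ≠ p)
    {k : Ix T → GA Γ} (hk : Kap3 σ G q p k) {M : Submodule (GA Γ) (Ix T → GA Γ)}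
    (hL : Lag u (ee σ) M) (hF : Fre (ee σ) (1 + Fintype.card T) M) :
    ∃ ζ : GA Γ, (∀ b, ee σ * b = b → Zc G 1 (gr σ * b * ζ) → Zc G 1 b → b = 0) ∧
      ∃ g ∈ G, Rc u (ee σ) k M (Tg σ q p ζ υ g) := by
  classical
  obtain ⟨ζ, z1, z2, -, z4, z5⟩ := h.exists_zeta hu
  obtain ⟨k0, h0, rfl⟩ := h.phi_kap z1 z4 hqp hk
  obtain ⟨g, hg, r⟩ := h.rc_tg (ζ := ee σ) hu.sym (star_one _) h.ee_mul_ee'
    (by rw [mul_one, h.star_ee', h.ee_mul_ee'])
    (fun v hv e => by rwa [mul_one, h.star_ee', ← h.ee_cm, hv] at e) rfl u1 u2 u3 q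
    (phiL (om σ) ζ q p) (fun x y hx _ => h.phi_iso z2 hqp x y hx) h0 hL hF
  exact ⟨ζ, z5, g, hg, r.mono (h.phi_tg hqp υ g)⟩

end Pool.Agent.Lib.MP_775b3b_nt.CM
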