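import Pool.Agent.Lib.MP_775b3b_nt.CM3.Kil
import Pool.Agent.Lib.MP_775b3b_nt.CM3.Rc3

/-! Selection of primes for an arbitrary complex conjugation. -/

set_option autoImplicit false

namespace Pool.Agent.Lib.MP_775b3b_nt.CM

variable {Γ T : Type} [Group Γ] [Fintype Γ] [Fintype T] {σ : Γ} {G : Subgroup Γ}

/-- the vectors that are real at the two invisible places -/
def WpS (c : Γ) (q : T) : Submodule (GA Γ) (Ix T → GA Γ) where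
  carrier := {v | Wp c q v}
  zero_mem' := ⟨zero_mul _, zero_mul _⟩
  add_mem' ha hb := ⟨by rw [Pi.add_apply, add_mul, ha.1, hb.1], by
    rw [Pi.add_apply, add_mul, ha.2, hb.2]⟩
  smul_mem' r v hv := ⟨by rw [Pi.smul_apply, smul_eq_mul, mul_assoc, hv.1], by
    rw [Pi.smul_apply, smul_eq_mul, mul_assoc, hv.2]⟩

theorem select3 (hc : Cub σ G) {u : GA Γ} (hu : SymU G u) {c : Γ} (cG : c ∈ G) (cc : c * c = 1)
    {q p : T} (hqp : q ≠ p) {k : Ix T → GA Γ} (hk : Kap3 σ G q p k)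
    {M : Submodule (GA Γ) (Ix T → GA Γ)}
    (hL : Lag u (ee σ) M) (hF : Fre (ee σ) (1 + Fintype.card T) M) (hkM : k ∈ M)
    (hW : ∀ v : Ix T → GA Γ, ee σ • v = v → ∃ m ∈ M, Wp c q (v + m)) :
    ∃ (D : Set (Ix T → GA Γ)) (n : ℕ) (y : Fin n → Ix T → GA Γ), Kil σ G c q p D ∧
      (∀ i, ee σ • y i = y i) ∧ (∀ i, hf u k (y i) = 0) ∧ (∀ i, Wp c q (y i)) ∧
      ∀ {Pr : Type} (Ind : Pr → Pr → Prop) (Ty : Fin n → Pr → Prop) (N : Pr → Pr → GA Γ),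
        Sup u (ee σ) y Ind Ty N → ∃ (m : ℕ) (r : Fin m → Pr) (t : Fin m → Fin n),
          (∀ a b, a ≠ b → Ind (r a) (r b)) ∧ (∀ a, Ty (t a) (r a)) ∧
          ∀ x ∈ M, ∀ d : Fin m → GA Γ, (∀ a, ee σ * d a = d a) →
            (∀ b, hf u x (y (t b)) = ∑ a, d a * N (r a) (r b)) →
            x + ∑ a, d a • y (t a) ∈ D ∧ (x + ∑ a, d a • y (t a) = 0 → d = 0) := by
  obtain ⟨υ, u1, u2, u3, u4⟩ := hc.kil_tg cG cc q p
  obtain ⟨ζ, z5, g, hg, r⟩ := hc.rc_tg3 hu u1 u2 u3 hqp hk hL hF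
  obtain ⟨n, y, y1, y2, y3, y4⟩ := r.real hc hu.sym hL hkM (A := WpS c q) hW
  refine ⟨_, n, y, u4 ζ z5 g hg, y2, y3, y1, fun Ind Ty N hS => ?_⟩
  obtain ⟨m, r, t, p1, p2, p3⟩ := y4 Ind Ty N hS
  exact ⟨m, r, t, p1, p2, fun x hx d d1 d2 => (p3 x hx d d1 d2).imp_right fun e e' => (e e').2⟩

end Pool.Agent.Lib.MP_775b3b_nt.CM
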