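import Pool.Agent.Lib.MP_775b3b_nt.CM3.D9a
import Pool.Agent.Lib.MP_775b3b_nt.CM3.D6d
import Pool.Agent.Lib.MP_775b3b_nt.CM3.Sel3

namespace Pool.Agent.Lib.MP_775b3b_nt.CM

open Pool.Agent.Lib.MP_439fea_co NumberField WithZero

section Grp

variable {Γ T : Type} [Group Γ] [Fintype Γ] {σ c : Γ} {G : Subgroup Γ} {q p : T}
  {z w : Ix T → GA Γ}

theorem Lt.add_wm (cc : c * c = 1) (hqp : p ≠ q) (hz : Lt σ G c q p z) (hw : Wm c q w) :
    Lt σ G c q p (z + w) := by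
  refine ⟨?_, ?_, fun g hg => ?_, ?_, ?_, fun t h1 h2 => ?_⟩ <;>
    simp only [Pi.add_apply, hw.two, hw.od, hw.aux p hqp, add_zero]
  exacts [hz.two, hz.od, by
    rw [MonoidAlgebra.coeff_add, Finsupp.add_apply, Finsupp.add_apply, hz.sy g hg, ← hw.sy,
      coeff_mul_gr, hw.sy, inv_eq_of_mul_eq_one_right cc], hz.p1, hz.p2, hz.aux t h1 h2]

theorem L1.add_wm (hc : Cub σ G) (cc : c * c = 1) (c1 : c ≠ 1) {ε : ZMod 2} (hz : L1 σ q ε z)
    {ι : Type} [Fintype ι] {a : ι → GA Γ} {w : ι → Ix T → GA Γ} (ha : ∀ i, gr c * a i = a i)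
    (hw : ∀ i, Wm c q (w i)) : L1 σ q ε (z + ∑ i, a i • w i) := by
  have e : ∀ j, (∀ i, w i j * gr c = w i j) → ∀ γ, c * γ = γ * c →
      ((z + ∑ i, a i • w i) j).coeff γ = (z j).coeff γ := fun j hj γ hγ => by
    rw [Pi.add_apply, Finset.sum_apply, MonoidAlgebra.coeff_add, Finsupp.add_apply,
      MonoidAlgebra.coeff_sum, Finsupp.finsetSum_apply, Finset.sum_eq_zero
        (f := fun i => ((a i • w i) j).coeff γ) fun i _ => coeff_fix_mul cc c1 (ha i) (hj i) hγ,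
      add_zero]
  refine ⟨(e _ (fun i => (hw i).inf) _ ?_).trans hz.inf,
    (e _ (fun i => (hw i).sy) _ (by simp)).trans (hz.sy.trans ?_)⟩
  · split_ifs
    exacts [by simp, hc.cen c]
  · simp [Finset.sum_apply, fun i => (hw i).od q]

theorem Wm.sum [Fintype T] {ι : Type} [Fintype ι] (a : ι → GA Γ) {w : ι → Ix T → GA Γ}
    (hw : ∀ i, Wm c q (w i)) : Wm c q (∑ i, a i • w i) :=
  Finset.sum_induction _ _ (fun _ _ => Wm.add)
    ⟨rfl, zero_mul _, fun _ => rfl, zero_mul _, fun _ _ => rfl⟩ fun i _ => (hw i).smul _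

end Grp

variable {K : Type} [Field K] [NumberField K] [IsGalois ℚ K]

theorem Dt.core [DecidableEq (P K)] (D : Dt K) {S : Finset (P K)} (hS : D.Ok S) (hI : D.Inj S)
    {κ : Kˣ} (hκ : κ ∈ D.Z S) (p0 : S) (hp : p0.1 ≠ D.q)
    (hk : Kap3 D.σ D.G ⟨D.q, hS.mem⟩ p0 (D.loc S κ)) :
    ∃ T : Finset (P K), D.Tw S κ T ∧ ∀ A : Subgroup Kˣ, A ≤ D.Z (S ∪ T) →
      (∀ g ∈ D.G, ∀ x ∈ A, g • x ∈ A) →
      (∀ x ∈ A, (∀ v ∈ T, co (CM.sy v) x = 0) ∧ Lt D.σ D.G D.c ⟨D.q, hS.mem⟩ p0 (D.loc S x)) →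
      (∀ x ∈ A, IsSquare (D.c • x * x) → ∃ x1 ∈ A, ∃ x2 ∈ A, IsSquare (x * x1 * x2) ∧
        IsSquare (D.c • x1 * x1) ∧ IsSquare (D.c • x2 * x2) ∧
        L1 D.σ (⟨D.q, hS.mem⟩ : S) 0 (D.loc S x1) ∧ L1 D.σ (⟨D.q, hS.mem⟩ : S) 1 (D.loc S x2)) →
      ∀ x ∈ A, IsSquare x := by
  obtain rfl : ‹DecidableEq (P K)› = fun a b => Classical.propDecidable (a = b) :=
    Subsingleton.elim _ _
  classical
  have hqp : p0 ≠ ⟨D.q, hS.mem⟩ := fun e => hp (congrArg Subtype.val e)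
  obtain ⟨M, hL, hF, hH, hW⟩ := D.fre hS hI
  have hM : ∀ x ∈ D.Z S, D.loc S x ∈ M := fun x hx => ((hH _).1 ((D.mem_HS hS).2 ⟨x, hx, rfl⟩)).1
  obtain ⟨E, n, y, hE, hy, hky, hwy, hsel⟩ :=
    select3 D.cub D.hu D.cG D.cc hqp.symm hk hL hF (hM κ hκ) hW
  obtain ⟨m, p, t, hind, hty, main⟩ := hsel Ind (fun i p => D.Ty S κ ⟨D.q, hS.mem⟩ (y i) p)
    (fun p q => ee D.σ * co (CM.sy q.1) p.2) (D.sup hS hI hκ hy hky hwy)
  set T : Finset (P K) := Finset.univ.image fun a => (p a).1 with hT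
  have hmT : ∀ a, (p a).1 ∈ T := fun a => Finset.mem_image_of_mem _ (Finset.mem_univ a)
  have hTm : ∀ v ∈ T, ∃ a, (p a).1 = v := fun v hv => by
    obtain ⟨a, -, ha⟩ := Finset.mem_image.1 hv
    exact ⟨a, ha⟩
  have hsp : D.Ok (S ∪ T) := by
    refine ⟨Finset.mem_union_left _ hS.mem, fun v hv ne => ?_, fun v hv w hw e => ?_⟩
    · rcases Finset.mem_union.1 hv with h | h
      · exact hS.sp v h ne
      · obtain ⟨a, rfl⟩ := hTm v h
        exact (hty a).sp
    · rcases Finset.mem_union.1 hv with h | h <;> rcases Finset.mem_union.1 hw with h' | h'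
      · exact hS.inj v h w h' e
      · obtain ⟨a, rfl⟩ := hTm w h'
        exact absurd e ((hty a).ne v h)
      · obtain ⟨a, rfl⟩ := hTm v h
        exact absurd e.symm ((hty a).ne w h')
      · obtain ⟨a, rfl⟩ := hTm v h
        obtain ⟨b, rfl⟩ := hTm w h'
        by_cases hab : a = b
        · rw [hab]
        · exact absurd e (hind a b hab).ne
  have hdj : Disjoint S T := Finset.disjoint_left.2 fun v hv h => by
    obtain ⟨a, rfl⟩ := hTm v h
    exact (hty a).ne _ hv rfl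
  refine ⟨T, ⟨hsp, hdj, fun v hv w hw hne => ?_, fun v hv => ?_, fun v hv => ?_⟩,
    fun A hA hG h1 h2 => ?_⟩
  · obtain ⟨a, rfl⟩ := hTm v hv
    rcases Finset.mem_union.1 hw with h | h
    · exact (hty a).sq w h
    · obtain ⟨b, rfl⟩ := hTm w h
      exact (hind b a fun e => hne (by rw [e])).sq
  · obtain ⟨a, rfl⟩ := hTm v hv
    exact (hty a).sql
  · obtain ⟨a, rfl⟩ := hTm v hv
    exact (hty a).kap
  have hp2 : ∀ a, (p a).2 ∈ D.Z (S ∪ T) := fun a =>
    D.Z_mono (Finset.insert_subset (Finset.mem_union_right _ (hmT a)) Finset.subset_union_left)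
      (hty a).mem
  let ψ : Kˣ → Ix S → GA (Ga K) := fun x =>
    D.loc S x + ∑ a, co (od (p a).1) x • (D.loc S (p a).2 + y (t a))
  have key : ∀ x ∈ A, ψ x ∈ E ∧ (ψ x = 0 → IsSquare x) := fun x hxA => by
    have hx := hA hxA
    set c : Fin m → GA (Ga K) := fun a => co (od (p a).1) x with hc
    have hce : ∀ a, ee D.σ * c a = c a := fun a => D.ee_co (od_mul _) hx
    have hz : ∀ a, pw (c a) (p a).2 ∈ D.Z (S ∪ T) := fun a => D.pw_mem (hp2 a) _
    have hpr : ∏ a, pw (c a) (p a).2 ∈ D.Z (S ∪ T) := prod_mem fun a _ => hz a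
    set x' : Kˣ := x * ∏ a, pw (c a) (p a).2 with hx'
    have hco : ∀ {φ : Kˣ → ZMod 2}, (∀ x y, φ (x * y) = φ x + φ y) →
        co φ x' = co φ x + ∑ a, c a * co φ (p a).2 := fun h => by
      rw [hx', co_mul h, co_prod h]
      simp only [co_pw h]
    have hod : ∀ b, co (od (p b).1) x' = 0 := fun b => by
      rw [hco (od_mul _), Finset.sum_eq_single b, (hty b).od, ← D.cub.ee_comm, hce]
      · exact add_self_ga _
      · intro a _ hab
        rw [D.co_od (hty a).mem, mul_zero]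
        intro w hw
        rcases Finset.mem_insert.1 hw with h | h
        · exact h ▸ (hind a b hab).ne
        · exact (hty b).ne w h
      · intro h
        exact absurd (Finset.mem_univ b) h
    have hxS : x' ∈ D.Z S := D.mem_of_od (mul_mem hx hpr) fun v hv => by
      obtain ⟨b, rfl⟩ := hTm v hv
      exact hod b
    have hloc : D.loc S x' + ∑ a, c a • y (t a) = ψ x := by
      rw [hx', D.loc_mul hS hsp hx hpr, D.loc_prod hS hsp _ fun a _ => hz a]
      simp only [fun a => D.loc_pw hS hsp (hp2 a) (c a), ψ, smul_add, Finset.sum_add_distrib]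
      rw [add_assoc]
    obtain ⟨k0, k1⟩ := main (D.loc S x') (hM x' hxS) c hce fun b => by
      have hsub : ({(p b).1} : Finset (P K)) ⊆ T := Finset.singleton_subset_iff.2 (hmT b)
      rw [← D.hf_wm (hty b).loc (D.wp_loc hS.mem hxS), D.pairT (T := {(p b).1})
        (hsp.mono (Finset.union_subset_union_right hsub) (Finset.mem_union_left _ hS.mem)) hS.mem
        (hdj.mono_right hsub) (D.Z_mono Finset.subset_union_left hxS)
        (D.Z_mono (Finset.insert_subset (Finset.mem_union_right _ (Finset.mem_singleton_self _))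
          Finset.subset_union_left) (hty b).mem),
        Finset.sum_singleton, hod, zero_mul, zero_add, (hty b).od, D.cub.star_ee,
        hco (CM.sy_mul (hty b).sp), (h1 x hxA).1 _ (hmT b), zero_add, Finset.sum_mul]
      refine Finset.sum_congr rfl fun a _ => ?_
      rw [mul_assoc, D.cub.ee_comm]
    rw [hloc] at k0 k1
    refine ⟨k0, fun e => ?_⟩
    rw [e, k1 e] at hloc
    have e := hI.zero hxS (by simpa using hloc)
    rw [hx', k1 ‹ψ x = 0›] at e
    simpa [pw_zero] using e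
  have a1 : ∀ x ∈ A, ∀ z ∈ A, ψ (x * z) = ψ x + ψ z := fun x hx z hz => by
    simp only [ψ, D.loc_mul hS hsp (hA hx) (hA hz), co_mul (od_mul _), add_smul,
      Finset.sum_add_distrib]
    rw [add_add_add_comm]
  have a2 : ∀ g : Ga K, ∀ x ∈ A, ψ (g • x) = gr g • ψ x := fun g x hx => by
    simp only [ψ, D.loc_smul hsp (hA hx), co_smul, mul_smul]
    rw [smul_add, Finset.smul_sum]
  have a3 : ∀ x, IsSquare x → ψ x = 0 := fun x hx => by
    simp [ψ, D.loc_isSquare hS hx, co_isSquare (od_mul _) hx]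
  have a4 : ∀ z : Ix S → GA (Ga K), z + z = 0 := fun z => funext fun i => add_self_ga _
  have a5 : ∀ x, IsSquare (D.c • x * x) → ∀ ε, L1 D.σ (⟨D.q, hS.mem⟩ : S) ε (D.loc S x) →
      L1 D.σ (⟨D.q, hS.mem⟩ : S) ε (ψ x) := fun x hx ε h =>
    h.add_wm D.cub D.cc D.c1 (fun a => by
      have := co_isSquare (od_mul (p a).1) hx
      rw [co_mul (od_mul _), co_smul] at this
      exact add_right_cancel (this.trans (add_self_ga _).symm)) fun a => (hty a).loc
  let X : AddSubgroup (Ix S → GA (Ga K)) :=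
    { carrier := ψ '' A
      zero_mem' := ⟨1, one_mem A, a3 1 IsSquare.one⟩
      add_mem' := by
        rintro _ _ ⟨x, hx, rfl⟩ ⟨z, hz, rfl⟩
        exact ⟨x * z, mul_mem hx hz, a1 x hx z hz⟩
      neg_mem' := fun {z} hz => by rwa [neg_eq_of_add_eq_zero_left (a4 z)] }
  refine fun x hx => (key x hx).2 (hE X ?_ ?_ ?_ _ ⟨x, hx, rfl⟩)
  · rintro _ ⟨x, hx, rfl⟩
    have hw := Wm.sum (fun a => co (od (p a).1) x) fun a => (hty a).loc
    exact ⟨(key x hx).1, (D.wp_loc hS.mem (hA hx)).add hw.wp, (h1 x hx).2.add_wm D.cc hqp hw⟩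
  · rintro g hg _ ⟨x, hx, rfl⟩
    exact ⟨g • x, hG g hg x hx, a2 g x hx⟩
  · rintro _ ⟨x, hx, rfl⟩ e
    have hc := hG _ D.cG x hx
    obtain ⟨x1, b1, x2, b2, b3, b4, b5, b6, b7⟩ := h2 x hx ((key _ (mul_mem hc hx)).2
      (by rw [a1 _ hc x hx, a2 _ x hx, e, a4]))
    refine ⟨_, ⟨x1, b1, rfl⟩, _, ⟨x2, b2, rfl⟩, ?_, a5 x1 b4 0 b6, a5 x2 b5 1 b7⟩
    have := a3 _ b3
    rw [a1 _ (mul_mem hx b1) _ b2, a1 _ hx _ b1, add_assoc] at this
    exact add_right_cancel (this.trans (a4 _).symm)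

end Pool.Agent.Lib.MP_775b3b_nt.CM
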