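import Pool.Agent.Lib.MP_775b3b_nt.CM3.G1
import Pool.Agent.Lib.MP_775b3b_nt.CM.E1

/-! The residue symbol in the prime field. -/

namespace Pool.Agent.Lib.MP_775b3b_nt.CM

open Pool.Agent.Lib.MP_439fea_co NumberField WithZero

variable {K : Type} [Field K] [NumberField K] {c : Ga K} {l : ℕ} {q : P K} {x y : Kˣ}

theorem IP.f_ord (h : IP c l q) : ord q ((nu K l : Kˣ) : K) = 1 := by
  have := val_eq_exp q (nu K l).ne_zero
  rw [val_nu h.prime.ne_zero, h.unr, exp_inj, neg_inj] at this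
  rw [val_nu h.prime.ne_zero, ← this]

theorem IP.f_unit (h : IP c l q) (x : Kˣ) :
    val q ((x * nu K l ^ (-ord q (x : K)) : Kˣ) : K) = 1 := by
  rw [← sunit_ord_eq_zero_iff _ (Units.ne_zero _), Units.val_mul,
    ord_mul q x.ne_zero (Units.ne_zero _), c1a_zpow, h.f_ord, mul_one, add_neg_cancel]

theorem IP.f_int (h : IP c l q) (a : ℤ) : val q (a : K) < 1 ↔ (a : ZMod l) = 0 := by
  rw [c1c_abs, val_natCast_lt_one_iff q h.prime h.g_lt, ZMod.intCast_zmod_eq_zero_iff_dvd,
    Int.natCast_dvd]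

theorem IP.f_iff (h : IP c l q) {m : ℤ}
    (hm : val q (((x * nu K l ^ (-ord q (x : K)) : Kˣ) : K) - m) < 1) :
    (m : ZMod l) ≠ 0 ∧ (fs l q x = 0 ↔ IsSquare (m : ZMod l)) := by
  classical
  have := Fact.mk h.prime
  refine ⟨fun e => ?_, ?_⟩
  · have := (val q).map_add_lt hm ((h.f_int m).2 e)
    rw [sub_add_cancel, h.f_unit] at this
    exact lt_irrefl _ this
  rw [fs, ite_eq_left_iff, not_imp_comm]
  refine (imp_iff_right one_ne_zero).trans ⟨fun ⟨n, hn⟩ => ⟨n, ?_⟩, fun ⟨r, hr⟩ => ?_⟩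
  · have := (val q).map_sub_lt hn hm
    rw [sub_sub_sub_cancel_left, ← Int.cast_pow, ← Int.cast_sub, h.f_int] at this
    push_cast at this
    rw [← sq, ← sub_eq_zero, this]
  · obtain ⟨n, rfl⟩ := ZMod.intCast_surjective r
    have := (val q).map_add_lt hm ((h.f_int (m - n ^ 2)).2 (by push_cast; rw [hr]; ring))
    rw [Int.cast_sub, sub_add_sub_cancel, Int.cast_pow] at this
    exact ⟨n, this⟩

theorem IP.f_res (h : IP c l q) (hx : c • x = x) :
    ∃ m : ℤ, val q (((x * nu K l ^ (-ord q (x : K)) : Kˣ) : K) - m) < 1 :=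
  h.res _ (by rw [← val_smul_units, smul_mul', smul_zpow', smul_nu, hx]) (h.f_unit x).le

theorem IP.f_mul (h : IP c l q) (hx : c • x = x) (hy : c • y = y) :
    fs l q (x * y) = fs l q x + fs l q y := by
  have := Fact.mk h.prime
  obtain ⟨m, hm⟩ := h.f_res hx
  obtain ⟨n, hn⟩ := h.f_res hy
  obtain ⟨m0, m1⟩ := h.f_iff hm
  obtain ⟨n0, n1⟩ := h.f_iff hn
  obtain ⟨-, k⟩ := h.f_iff (x := x * y) (m := m * n) (by
    have e : ∀ a b m n : K, a * b - m * n = (a - m) * b + m * (b - n) := fun _ _ _ _ => by ring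
    rw [Units.val_mul x, ord_mul q x.ne_zero y.ne_zero, neg_add, zpow_add, mul_mul_mul_comm,
      Units.val_mul, Int.cast_mul, e]
    refine (val q).map_add_lt ?_ (local_mul_lt _ ?_ hn)
    · rwa [map_mul, h.f_unit, mul_one]
    · rw [c1c_abs]
      exact val_natCast_le_one q _)
  rw [Int.cast_mul, ← quadraticChar_one_iff_isSquare (mul_ne_zero m0 n0), map_mul] at k
  rw [← quadraticChar_one_iff_isSquare m0] at m1
  rw [← quadraticChar_one_iff_isSquare n0] at n1
  revert k m1 n1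
  generalize fs l q x = a, fs l q y = b, fs l q (x * y) = d
  rcases quadraticChar_dichotomy m0 with e | e <;> rcases quadraticChar_dichotomy n0 with f | f <;>
    rw [e, f] <;> revert a b d <;> decide

theorem IP.f_near (h : IP c l q) (hx : val q ((x : K) - 1) < 1) : fs l q x = 0 :=
  (h.f_iff (m := 1) (by
    rwa [(sunit_ord_eq_zero_iff _ x.ne_zero).2 (c1b_one hx), neg_zero, zpow_zero, mul_one,
      Int.cast_one])).2.2 (by simp)

theorem IP.f_sq (h : IP c l q) (hx : c • x = x) : fs l q (x * x) = 0 := by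
  rw [h.f_mul hx hx, CharTwo.add_self_eq_zero]

theorem IP.f_l (h : IP c l q) : fs l q (nu K l) = 0 :=
  (h.f_iff (m := 1) (by simp [h.f_ord])).2.2 (by simp)

theorem IP.f_neg (h : IP c l q) : fs l q (-1 : Kˣ) = 0 := by
  have := Fact.mk h.prime
  refine (h.f_iff (m := -1) (by simp [ord])).2.2 ?_
  rw [Int.cast_neg, Int.cast_one]
  exact (ZMod.exists_sq_eq_neg_one_iff (p := l)).2 (by rw [h.one]; decide)

theorem IP.f_nat (h : IP c l q) {n : ℕ} (hn : ¬ l ∣ n) (hs : IsSquare (n : ZMod l)) :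
    fs l q (nu K n) = 0 := by
  have n0 : n ≠ 0 := fun e => hn (e ▸ dvd_zero _)
  have h1 : val q ((nu K n : Kˣ) : K) = 1 := by
    rw [val_nu n0]
    exact (val_natCast_le_one q n).antisymm (not_lt.1 fun e => hn (Val_dvd_of_lt q h.prime h.g_lt e))
  refine (h.f_iff (m := n) ?_).2.2 (by rwa [Int.cast_natCast])
  rw [(sunit_ord_eq_zero_iff _ (Units.ne_zero _)).2 h1]
  simp [val_nu n0]

theorem IP.f_sp (h : IP c l q) {v : P K} (hv : SP v) (hs : nu K l ∈ Sq (val v)) :
    nm v ≠ l ∧ fs l q (nu K (nm v)) = 0 := by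
  have h1 := Fact.mk hv.prime
  have h2 := Fact.mk h.prime
  have hne : nm v ≠ l := fun e => by
    have := even_ord_of_mem_Sq hs
    rw [← e, hv.ord_nu] at this
    exact Int.not_even_one this
  rw [hv.isSquare_iff fun e => hne ((Nat.prime_dvd_prime_iff_eq hv.prime h.prime).1 e)] at hs
  refine ⟨hne, h.f_nat (fun e => hne ((Nat.prime_dvd_prime_iff_eq h.prime hv.prime).1 e).symm) ?_⟩
  have h3 := hv.one
  exact (ZMod.exists_sq_eq_prime_iff_of_mod_four_eq_one h.one (by omega)).2 hs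

theorem IP.f_anti (h : IP c l q) (hx : c • x = -x) : fs l q (x * x) = 1 := by
  refine if_neg fun ⟨n, hn⟩ => ?_
  have h1 := h.f_unit x
  have h2 : c ((x * nu K l ^ (-ord q (x : K)) : Kˣ) : K) =
      -((x * nu K l ^ (-ord q (x : K)) : Kˣ) : K) := by
    rw [← val_smul_units, smul_mul', smul_zpow', smul_nu, hx, neg_mul, Units.val_neg]
  rw [Units.val_mul x, ord_mul q x.ne_zero x.ne_zero, neg_add, zpow_add, mul_mul_mul_comm,
    Units.val_mul] at hn
  generalize ((x * nu K l ^ (-ord q (x : K)) : Kˣ) : K) = z at *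
  have k : ∀ n : ℤ, ¬ val q (z - n) < 1 := fun n e => by
    have e' := e
    rw [← val_smul c, h.fix, AlgEquiv.smul_def, map_sub, map_intCast, h2] at e'
    have := (val q).map_sub_lt e e'
    rw [show z - n - (-z - n) = 2 * z by ring, map_mul, h.g_two, h1, one_mul] at this
    exact lt_irrefl _ this
  rw [show z * z - (n : K) ^ 2 = (z - n) * (z - (-n : ℤ)) by push_cast; ring, map_mul] at hn
  exact (one_le_mul (not_lt.1 (k n)) (not_lt.1 (k (-n)))).not_gt hn

theorem IP.f_norm (h : IP c l q) (hx : x ∈ Sq (val q)) : fs l q (x * c • x) = 0 := by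
  have cc : c * c = 1 := (h.stab _ (by rw [mul_smul, h.fix, h.fix])).elim id fun e => by
    rw [e, mul_eq_left.1 e]
  have k : ∀ z : Kˣ, c • (z * c • z) = z * c • z := fun z => by
    rw [smul_mul', ← mul_smul, cc, one_smul, mul_comm]
  obtain ⟨z, o, ho, rfl⟩ := mem_Sq.1 hx
  rw [mem_One, local_val_four, h.g_two, mul_one] at ho
  have ho' := ho
  rw [← val_smul c, h.fix, AlgEquiv.smul_def, map_sub, map_one] at ho'
  rw [show z ^ 2 * o * c • (z ^ 2 * o) = (z * c • z) * (z * c • z) * (o * c • o) by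
    rw [smul_mul', sq, smul_mul']; ac_rfl, h.f_mul (by rw [smul_mul', k]) (k o), h.f_sq (k z),
    zero_add]
  refine h.f_near ?_
  rw [show ((o * c • o : Kˣ) : K) - 1 = o * (c o - 1) + (o - 1) by
    rw [Units.val_mul, val_smul_units]; ring]
  exact (val q).map_add_lt (local_mul_lt _ (c1b_one ho).le ho') ho

/-- the elements fixed by `c` with even order are squares at `q` -/
theorem IP.f_Sq (h : IP c l q) (hx : c • x = x) (he : Even (ord q (x : K))) :
    x ∈ Sq (val q) := by
  obtain ⟨θ, h1, h2⟩ := h.th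
  have h0 : θ ≠ 0 := fun e => by simp [e] at h2
  have k : ∀ x : Kˣ, Even (ord q (x : K)) → fs l q x = 0 → x ∈ Sq (val q) := by
    rintro x ⟨k, hk⟩ hx
    obtain ⟨n, hn⟩ := not_not.1 (mt (if_neg · ) (hx ▸ zero_ne_one))
    have n1 : val q ((n : K) ^ 2) = 1 := by
      rw [← h.f_unit x]
      exact ((val q).map_eq_of_sub_lt (by rwa [Valuation.map_sub_swap, h.f_unit]))
    have n0 : (n : K) ≠ 0 := fun e => by simp [e] at n1
    have := mem_Sq_of_val h.g_two (x := x * nu K l ^ (-ord q (x : K)) / Units.mk0 _ n0 ^ 2) (by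
      rwa [Units.val_div_eq_div_val, Units.val_pow_eq_pow_val, Units.val_mk0,
        div_sub_one (pow_ne_zero 2 n0), map_div₀, n1, div_one])
    rw [div_mem_comm_iff, ← inv_mem_iff, inv_div, div_eq_mul_inv, mul_assoc,
      Subgroup.mul_mem_cancel_right] at this
    · exact this
    · exact mul_mem (mem_Sq_of_isSquare q ⟨_ ^ (-k), by rw [hk, neg_add, zpow_add]⟩)
        (inv_mem (mem_Sq_of_isSquare q ⟨_, sq _⟩))
  by_cases e : fs l q x = 0
  · exact k x he e
  have t : c • Units.mk0 θ h0 = -Units.mk0 θ h0 := Units.ext h1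
  refine (Subgroup.mul_mem_cancel_right _ (mem_Sq_of_isSquare q ⟨Units.mk0 θ h0, rfl⟩)).1
    (k _ ?_ ?_)
  · rw [Units.val_mul, ord_mul q x.ne_zero (Units.ne_zero _), Units.val_mul,
      ord_mul q (Units.ne_zero _) (Units.ne_zero _)]
    exact he.add ⟨_, rfl⟩
  · rw [h.f_mul hx (by rw [smul_mul', t, neg_mul_neg]), h.f_anti t]
    revert e
    generalize fs l q x = a
    revert a
    decide

theorem IP.f_mult (h : IP c l q) {z a b r : Kˣ} (hx : c • x = x) (hy : c • y = y)
    (hz : c • z = z) (hr : c • r = r) (e : x * y * z = r * r) (ha : (a : K) = y - x)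
    (hb : (b : K) = z - y) (h1 : Even (ord q (a : K))) (h3 : ord q (b : K) = ord q (a : K) + 1) :
    fs l q x = od q z * fs l q (-a) := by
  have e1 := e1_ult q ha
  have e2 := e1_ult q hb
  have e3 := e1_par q ⟨r, e⟩
  have e5 := e1_neg (v := q) a
  have ca : c • -a = -a := Units.ext (by
    rw [val_smul_units, Units.val_neg, ha, map_neg, map_sub, ← val_smul_units, ← val_smul_units,
      hx, hy])
  have dv : ∀ {u v : Kˣ}, c • u = u → c • v = v → c • (u / v) = u / v := fun hu hv => by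
    rw [smul_div', hu, hv]
  have nr : ∀ {u v w : Kˣ}, (w : K) = u - v → ord q (v : K) < ord q (w : K) → fs l q (u / v) = 0 :=
    fun h1 h2 => h.f_near (by rw [e1_val q h1, ← exp_zero, exp_lt_exp]; omega)
  rcases le_or_gt (ord q (y : K)) (ord q (a : K)) with h4 | h4
  · have := h.f_sq hr
    rw [← e, show x * y * z = x * (y * y * (z / y)) by ext; push_cast; field_simp,
      h.f_mul hx (by rw [smul_mul', smul_mul', hy, dv hz hy]),
      h.f_mul (by rw [smul_mul', hy]) (dv hz hy), h.f_sq hy, nr hb (by omega), add_zero,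
      add_zero] at this
    rw [this, od_eq_zero.2 (by
      have := (loc_mult h.g_two ⟨r, e⟩ ha hb h1 h3).1
      rw [Int.even_iff] at *; omega), zero_mul]
  · have := h.f_mul ca (dv hx ca)
    rw [mul_div_cancel, nr (w := y) (by rw [Units.val_neg, ha]; ring) (by omega), add_zero] at this
    have e4 : od q z = 1 := (by decide : ∀ t : ZMod 2, t ≠ 0 → t = 1) _
      (mt od_eq_zero.1 (by rw [Int.even_iff] at *; omega))
    rw [this, e4, one_mul]

end Pool.Agent.Lib.MP_775b3b_nt.CM
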