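import Pool.Agent.Lib.MP_775b3b_nt.CM3.NDef3
import Pool.Agent.Lib.MP_775b3b_nt.CM.E2b

/-! The class attached to the curve. -/

namespace Pool.Agent.Lib.MP_775b3b_nt.CM

open Pool.Agent.Lib.MP_439fea_co NumberField WithZero

variable {K : Type} [Field K] [NumberField K]

theorem IP.g_lt {c : Ga K} {l : ℕ} {q : P K} (h : IP c l q) : val q (l : K) < 1 :=
  h.unr ▸ c1a_lt

theorem IP.g_two {c : Ga K} {l : ℕ} {q : P K} (h : IP c l q) : val q (2 : K) = 1 := by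
  refine (val_natCast_le_one q 2).antisymm (not_lt.1 fun h2 => ?_)
  have := prime_under_unique q h.prime Nat.prime_two h.g_lt h2
  have h1 := h.one
  omega

theorem IP.g_conj [IsGalois ℚ K] {c : Ga K} {l : ℕ} {q w : P K} (h : IP c l q)
    (hw : ∀ g : Ga K, g • q ≠ w) : val w (l : K) = 1 := by
  refine (val_natCast_le_one w _).antisymm (not_lt.1 fun h1 => ?_)
  obtain ⟨g, hg⟩ := exists_smul_eq_of_prime h.prime h.g_lt h1
  exact hw g hg

theorem Rt.mult3 {s l : ℕ} {a b c : K} {v : P K} (h : Rt s l a b c) (h2 : val v (2 : K) = 1)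
    (hu : val v (l : K) = exp (-1 : ℤ)) (hs : s % l = 1) (ha : val v a = 1) :
    val v (a - b - 1) < 1 ∧ val v (c - a + 1) < 1 ∧ ord v (b - c) = 1 ∧
      val v (((jj s l : ℕ) : K) - 1) < 1 := by
  have hq : val v (l : K) < 1 := hu ▸ c1a_lt
  have k : ∀ x : K, val v x ≤ 1 → val v ((l : K) * x) < 1 := fun x hx => by
    rw [map_mul]
    exact (mul_le_of_le_one_right' hx).trans_lt hq
  have e3 : (s : K) - 1 = (l : K) * ((s / l : ℕ) : K) := by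
    have := Nat.div_add_mod s l
    rw [hs] at this
    rw [sub_eq_iff_eq_add]
    exact_mod_cast this.symm
  have hs1 : val v ((s : K) - 1) < 1 := e3 ▸ k _ (val_natCast_le_one v _)
  obtain ⟨hb, hc⟩ := e2a_unit h (by rwa [map_mul, h2, one_mul]) ha
  have hj : val v (((jj s l : ℕ) : K) - 1) < 1 := by
    rw [show ((jj s l : ℕ) : K) - 1 = (l : K) * (((s / l * (s + 1) + 1728 * l : ℕ) : K)) by
      unfold jj
      push_cast
      linear_combination ((s : K) + 1) * e3]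
    exact k _ (val_natCast_le_one v _)
  refine ⟨?_, ?_, ?_, hj⟩
  · rw [show a - b - 1 = (s : K) - 1 - b - b - c by linear_combination h.e1]
    exact (val v).map_sub_lt ((val v).map_sub_lt ((val v).map_sub_lt hs1 hb) hb) hc
  · rw [show c - a + 1 = b + c + c - ((s : K) - 1) by linear_combination -h.e1]
    exact (val v).map_sub_lt ((val v).map_add_lt ((val v).map_add_lt hb hc) hc) hs1
  · have h3 := congrArg (val v) h.di
    rw [map_mul, map_mul, e2a_sub ha hb, (val v).map_sub_swap c a, e2a_sub ha hc, one_mul, mul_one,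
      map_mul, map_mul, c1b_one hj, mul_one, show (16 : K) = 2 ^ 4 by norm_num, map_pow, h2,
      one_pow, one_mul, hu] at h3
    rw [ord, h3, log_exp]
    rfl

variable {D : Dt K} (C : Cw D)

theorem g1_three (x : K) : D.σ (D.σ (D.σ x)) = x := DFunLike.congr_fun D.cub.three x

theorem Cw.smul_a : D.σ • C.a = C.b := by
  ext
  rw [val_smul_units, C.ha, C.hb, map_sub]

theorem Cw.smul_b : D.σ • C.b = C.c := by
  ext
  rw [val_smul_units, C.hb, C.hc, map_sub, g1_three]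

theorem Cw.smul_c : D.σ • C.c = C.a := by
  ext
  rw [val_smul_units, C.hc, C.ha, map_sub, g1_three]

theorem Cw.fix_a {g : Ga K} (hg : g ∈ D.G) : g • C.a = C.a ∧ g • C.b = C.b ∧ g • C.c = C.c := by
  have k : ∀ x, g (D.σ x) = D.σ (g x) := fun x => DFunLike.congr_fun (D.cub.cen g) x
  refine ⟨?_, ?_, ?_⟩ <;> ext
  · rw [val_smul_units, C.ha, map_sub, k, C.fix g hg]
  · rw [val_smul_units, C.hb, map_sub, k, k, k, C.fix g hg]
  · rw [val_smul_units, C.hc, map_sub, k, k, C.fix g hg]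

theorem Cw.abc : C.a * C.b * C.c = nu K 16 * nu K D.l * nu K (jj C.s D.l) := by
  ext
  have h := D.ip.prime.ne_zero
  simp only [Units.val_mul]
  rw [C.ha, C.hb, C.hc, val_nu (by decide), val_nu h, val_nu (jj_ne h), C.rt.di]
  rfl

theorem Cw.val_t {g : Ga K} (hg : g ∈ D.G) (v : P K) : val (g • v) C.t = val v C.t := by
  rw [← val_smul g v, AlgEquiv.smul_def, C.fix g hg]

theorem Cw.s1 : D.σ • (C.a * C.c) = C.b * C.a := by
  rw [smul_mul', C.smul_a, C.smul_c]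

theorem Cw.s2 : (D.σ * D.σ) • (C.a * C.c) = C.c * C.b := by
  rw [mul_smul, C.s1, smul_mul', C.smul_a, C.smul_b]

theorem Cw.kap_fix {g : Ga K} (hg : g ∈ D.G) : g • (C.a * C.c) = C.a * C.c := by
  rw [smul_mul', (C.fix_a hg).1, (C.fix_a hg).2.2]

theorem Cw.tri (γ : Ga K) :
    (γ ∈ D.G ∧ γ * D.σ ∉ D.G ∧ γ⁻¹ • (C.a * C.c) = C.a * C.c) ∨
      (γ ∉ D.G ∧ γ * D.σ ∈ D.G ∧ γ⁻¹ • (C.a * C.c) = C.b * C.a) ∨
        (γ ∉ D.G ∧ γ * D.σ ∉ D.G ∧ γ⁻¹ • (C.a * C.c) = C.c * C.b) := by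
  have f : ∀ g ∈ D.G, g⁻¹ • (C.a * C.c) = C.a * C.c := fun g hg => C.kap_fix (inv_mem hg)
  have n : ∀ g ∈ D.G, g * D.σ ∉ D.G := fun g hg h =>
    D.cub.nmem ((Subgroup.mul_mem_cancel_left _ hg).1 h)
  rcases D.cub.dec γ with h | h | h
  · exact .inl ⟨h, n γ h, f γ h⟩
  · refine .inr (.inl ⟨fun e => n γ e h, h, ?_⟩)
    rw [← C.s1, ← congrArg (D.σ • ·) (f _ h), ← mul_smul, mul_inv_rev, mul_inv_cancel_left]
  · refine .inr (.inr ⟨fun e => D.cub.nmem2 ?_, fun e => n _ e h, ?_⟩)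
    · rwa [mul_assoc, Subgroup.mul_mem_cancel_left _ e] at h
    · rw [← C.s2, ← congrArg ((D.σ * D.σ) • ·) (f _ h), ← mul_smul, mul_assoc γ, mul_inv_rev γ,
        mul_inv_cancel_left]

theorem Cw.pry : Pry D.w (-C.a) ∧ Pry D.w C.c := by
  obtain ⟨h1, h2, -⟩ := C.rt.two C.s4 D.ip.one D.two D.hw C.w1
  rw [← C.ha] at h1
  rw [← C.hc] at h2
  refine ⟨⟨1, ?_⟩, 1, by simpa using h2⟩
  have e : ((-C.a : Kˣ) : K) * ((1 : Kˣ) : K) ^ 2 - 1 = -(((C.a : K) - 3) + 4) := by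
    push_cast
    ring
  rw [e, Valuation.map_neg]
  exact Valuation.map_add_le _ h1 le_rfl

theorem Cw.pry3 : Pry D.w (-(C.a * C.c)) ∧ Pry D.w (C.b * C.a) ∧ Pry D.w (-(C.c * C.b)) := by
  obtain ⟨h1, h2⟩ := C.pry
  have h3 : Pry D.w (C.a * C.b * C.c) := C.abc ▸
    ((Pry.of_isSquare _ e2b_sq).mul D.hw (pry_nu D.ip.one _)).mul D.hw (pry_nu (jj_mod C.s4) _)
  refine ⟨neg_mul C.a C.c ▸ h1.mul D.hw h2, ?_, ?_⟩
  · have := (h3.mul D.hw h2).mul D.hw (Pry.of_isSquare _ ⟨C.c⁻¹, rfl⟩)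
    rwa [mul_assoc (C.a * C.b), mul_assoc, ← mul_inv, mul_inv_cancel, mul_one, mul_comm] at this
  · have := (h3.mul D.hw h1).mul D.hw (Pry.of_isSquare _ ⟨C.a⁻¹, rfl⟩)
    rwa [mul_neg, neg_mul, mul_assoc C.a, mul_comm C.a, mul_assoc (C.b * C.c), mul_assoc,
      ← mul_inv, mul_inv_cancel, mul_one, mul_comm] at this

theorem Cw.atq : val D.q ((C.a : K) - 1) < 1 ∧ val D.q ((C.c : K) + 1) < 1 ∧
    ord D.q (C.b : K) = 1 ∧ val D.q (((nu K (jj C.s D.l) : Kˣ) : K) - 1) < 1 := by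
  rw [C.ha, C.hb, C.hc, val_nu (jj_ne D.ip.prime.ne_zero)]
  exact C.rt.mult3 D.ip.g_two D.ip.unr C.sq C.q1

theorem Cw.ordq : ord D.q (C.a : K) = 0 ∧ ord D.q (C.c : K) = 0 := by
  obtain ⟨h1, h2, -⟩ := C.atq
  refine ⟨(sunit_ord_eq_zero_iff _ C.a.ne_zero).2 (c1b_one h1),
    (sunit_ord_eq_zero_iff _ C.c.ne_zero).2 ?_⟩
  rw [← Valuation.map_neg]
  exact c1b_one (by rwa [← neg_add', Valuation.map_neg])

theorem Cw.kap_od (γ : Ga K) : (co (od D.q) (C.a * C.c)).coeff γ = 0 ↔ γ ∈ D.G := by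
  have oa : od D.q C.a = 0 := od_eq_zero.2 (C.ordq.1 ▸ Even.zero)
  have oc : od D.q C.c = 0 := od_eq_zero.2 (C.ordq.2 ▸ Even.zero)
  have hb : od D.q C.b = 1 := by rw [od, C.atq.2.2.1, Int.cast_one]
  change od D.q (γ⁻¹ • (C.a * C.c)) = 0 ↔ _
  rcases C.tri γ with ⟨h, -, e⟩ | ⟨h, -, e⟩ | ⟨h, -, e⟩ <;> rw [e, od_mul]
  · rw [oa, oc]
    exact iff_of_true (by decide) h
  · rw [oa, hb]
    exact iff_of_false (by decide) h
  · rw [oc, hb]
    exact iff_of_false (by decide) h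

variable [IsGalois ℚ K]

theorem Cw.kap_ev {w : P K} (h2 : val w (2 : K) < 1) : Even (ord w ((C.a * C.c : Kˣ) : K)) := by
  obtain ⟨g, rfl⟩ := exists_smul_eq_of_prime Nat.prime_two D.hw h2
  obtain ⟨h1, h3, h4⟩ := C.pry3
  rw [← ord_smul']
  rcases C.tri g with ⟨-, -, e⟩ | ⟨-, -, e⟩ | ⟨-, -, e⟩ <;> rw [e]
  · exact e2b_neg D.hw h1
  · exact e2b_even D.hw h3
  · exact e2b_neg D.hw h4

theorem Cw.kap_mem : C.a * C.c ∈ D.Z {D.q} := by
  refine ⟨⟨C.a * C.b * C.c, ?_⟩, fun w hw => ?_⟩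
  · rw [C.s1, C.s2]
    ac_rfl
  by_cases h2 : val w (2 : K) < 1
  · exact C.kap_ev h2
  · obtain ⟨h1, h3, -⟩ := C.rt.ord_good D.ip.prime.ne_zero
      ((c1b_two_le_one _).antisymm (not_lt.1 h2))
      (D.ip.g_conj (hw _ (Finset.mem_singleton_self _)))
    rw [Units.val_mul, ord_mul w C.a.ne_zero C.c.ne_zero, C.ha, C.hc, h1, h3]
    exact ⟨_, rfl⟩

theorem Cw.kap_two (γ : Ga K) :
    (cz D.α (sig (C.a * C.c))).coeff γ = 0 ↔ γ * D.σ ∈ D.G := by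
  obtain ⟨h1, h2, h3⟩ := C.pry3
  have hs := (sig_spec D.two fun w hw => C.kap_ev hw).smul γ⁻¹
  change tr2 ((γ⁻¹ • sig (C.a * C.c)) * D.α) = 0 ↔ _
  rcases C.tri γ with ⟨-, h, e⟩ | ⟨-, h, e⟩ | ⟨-, h, e⟩ <;> rw [e] at hs
  · rw [D.one _ (hs.neg_pry D.two D.hw h1)]
    exact iff_of_false (by decide) h
  · exact iff_of_true (D.zero _ ((hs.pry D.two D.hw).1 h2)) h
  · rw [D.one _ (hs.neg_pry D.two D.hw h3)]
    exact iff_of_false (by decide) h

end Pool.Agent.Lib.MP_775b3b_nt.CM
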