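import Pool.Agent.Lib.MP_775b3b_nt.CM3.G1
import Pool.Agent.Lib.MP_775b3b_nt.CM.Sym

/-! The special twisting prime. -/

namespace Pool.Agent.Lib.MP_775b3b_nt.CM

open Pool.Agent.Lib.MP_439fea_co NumberField WithZero

variable {K : Type} [Field K] [NumberField K] [IsGalois ℚ K] {D : Dt K} (C : Cw D)

omit [IsGalois ℚ K] in
theorem g2_odl (g : Ga K) : od (g • D.q) (nu K D.l) = 1 := by
  have := val_eq_exp D.q (nu K D.l).ne_zero
  rw [val_nu D.ip.prime.ne_zero, D.ip.unr, exp_inj, neg_inj] at this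
  rw [od, ← ord_smul', smul_nu, val_nu D.ip.prime.ne_zero, ← this, Int.cast_one]

omit [IsGalois ℚ K] in
theorem g2_pow (v : P K) (x : Kˣ) (n : ℕ) : od v (x ^ n) = n * od v x := by
  rw [od, od, ← zpow_natCast, c1a_zpow, Int.cast_mul, Int.cast_natCast]

theorem Cw.exists_p : ∃ p : P K, SP p ∧ nu K D.l ∈ Sq (val p) ∧
    ∀ γ, (co (sy p) (C.a * C.c)).coeff γ = 0 ↔ γ ∈ D.G := by
  have oa : od D.q C.a = 0 := od_eq_zero.2 (C.ordq.1 ▸ Even.zero)
  have oc : od D.q C.c = 0 := od_eq_zero.2 (C.ordq.2 ▸ Even.zero)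
  have ob : od D.q C.b = 1 := by rw [od, C.atq.2.2.1, Int.cast_one]
  have sm : ∀ x : Kˣ, od (D.σ⁻¹ • D.q) x = od D.q (D.σ • x) := fun x => by
    rw [od, od, ← ord_smul', inv_inv]
  have sm' : ∀ x : Kˣ, od (D.σ • D.q) x = od D.q ((D.σ * D.σ) • x) := fun x => by
    rw [od, od, ← ord_smul', (a1_inv D.cub).1]
  obtain ⟨p, hp, -, h⟩ := exists_sym (ι := Fin 3) ![nu K D.l, C.a * C.c, C.b * C.a] ![0, 0, 1]
    (fun a j hs => by
      have k : ∀ g : Ga K, (a 0 : ZMod 2) + a 1 * od (g • D.q) (C.a * C.c) +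
          a 2 * od (g • D.q) (C.b * C.a) = 0 := fun g => by
        have := od_eq_zero.2 (even_ord_of_mem_Sq (mem_Sq_of_isSquare (g • D.q) hs))
        rw [od_mul, g2_pow, od_eq_zero.2 (by
          rw [Units.val_neg, ord, Valuation.map_neg, ← ord, Units.val_one, ord_one]
          exact Even.zero), mul_zero, zero_add,
          Fin.prod_univ_three, od_mul, od_mul, g2_pow, g2_pow, g2_pow] at this
        simpa [g2_odl] using this
      have k1 := k 1
      have k2 := k D.σ⁻¹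
      have k3 := k D.σ
      rw [one_smul, od_mul, od_mul, oa, ob, oc] at k1
      rw [sm, sm, C.s1, smul_mul', C.smul_a, C.smul_b, od_mul, od_mul, oa, ob, oc] at k2
      rw [sm', sm', C.s2, mul_smul, smul_mul', smul_mul', C.smul_a, C.smul_b, C.smul_c,
        od_mul, od_mul, oa, ob, oc] at k3
      rw [Fin.sum_univ_three]
      change (a 0 : ZMod 2) * 0 + a 1 * 0 + a 2 * 1 = 0
      revert k1 k2 k3
      generalize (a 0 : ZMod 2) = x, (a 1 : ZMod 2) = y, (a 2 : ZMod 2) = z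
      revert x y z
      decide) 0
  have ev : ∀ x : Kˣ, val p (x : K) = 1 → sy p x = ns p x := fun x hx =>
    sy_eq_ns ((sunit_ord_eq_zero_iff _ x.ne_zero).2 hx ▸ Even.zero)
  have h1 : sy p (C.a * C.c) = 0 := (ev _ (h 1).1).trans (h 1).2
  have h2 : sy p (C.b * C.a) = 1 := (ev _ (h 2).1).trans (h 2).2
  have h3 : sy p (C.c * C.b) = 1 := by
    have := co_isSquare (sy_mul hp) (x := C.a * C.c * (C.b * C.a) * (C.c * C.b))
      ⟨C.a * C.b * C.c, by ac_rfl⟩
    have e : sy p ((1 : Ga K)⁻¹ • _) = 0 := congrArg (fun m : GA (Ga K) => m.coeff 1) this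
    rw [inv_one, one_smul, sy_mul hp, sy_mul hp, h1, h2, zero_add, add_eq_zero_iff_eq_neg] at e
    rw [← neg_neg (sy p _), ← e]
    rfl
  refine ⟨p, hp, ns_eq_zero.1 (h 0).2, fun γ => ?_⟩
  change sy p (γ⁻¹ • (C.a * C.c)) = 0 ↔ _
  rcases C.tri γ with ⟨h, -, e⟩ | ⟨h, -, e⟩ | ⟨h, -, e⟩ <;> rw [e]
  · exact iff_of_true h1 h
  · exact iff_of_false (h2 ▸ one_ne_zero) h
  · exact iff_of_false (h3 ▸ one_ne_zero) h

end Pool.Agent.Lib.MP_775b3b_nt.CM
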