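import Pool.Agent.Lib.MP_775b3b_nt.CM.E4
import Pool.Agent.Lib.MP_775b3b_nt.CM.C1a

/-! The classes of the points form a group. -/

namespace Pool.Agent.Lib.MP_775b3b_nt.CM

open Pool.Agent.Lib.MP_439fea_co NumberField WithZero

variable {K : Type} [Field K] [NumberField K]

/-- `ξ = X - n t` for a point `(X, Y)` that `σ` fixes -/
structure Ku (σ : Ga K) (s Q n : ℕ) (t X Y : K) (ξ : Kˣ) : Prop where
  fx : σ X = X
  fy : σ Y = Y
  eq : Y ^ 2 = cb s Q (n : K) X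
  val : (ξ : K) = X - n * t

variable {σ : Ga K} {s Q n : ℕ} {t : K}

theorem k1_prod (h : Rt s Q t (σ t) (σ (σ t))) (X : K) :
    (X - n * t) * (X - n * σ t) * (X - n * σ (σ t)) = cb s Q (n : K) X := by
  unfold cb
  linear_combination -(n * X ^ 2) * h.e1 + n ^ 2 * X * h.e2 - n ^ 3 * h.e3

theorem ku_exists (h3 : σ * σ * σ = 1) (h : Rt s Q t (σ t) (σ (σ t))) (hQ : Q ≠ 0) (hn : n ≠ 0)
    {X Y : K} (fx : σ X = X) (fy : σ Y = Y) (e : Y ^ 2 = cb s Q (n : K) X) :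
    Y ≠ 0 ∧ ∃ ξ, Ku σ s Q n t X Y ξ := by
  have s3 : σ (σ (σ t)) = t := DFunLike.congr_fun h3 t
  have h2 : ∀ u : K, X - n * u = 0 → u - σ u = 0 := fun u hu => by
    have h3 := congrArg σ hu
    rw [map_sub, map_mul, map_natCast, map_zero, fx] at h3
    exact (mul_eq_zero.1 (by linear_combination h3 - hu : (n : K) * (u - σ u) = 0)).resolve_left
      (Nat.cast_ne_zero.2 hn)
  have h4 : (t - σ t) * (σ t - σ (σ t)) * (σ (σ t) - t) ≠ 0 := by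
    rw [h.di]
    exact_mod_cast mul_ne_zero (mul_ne_zero (by norm_num) hQ) (e4_jj s hQ)
  have h5 : X - n * t ≠ 0 := fun c => h4 (by rw [h2 _ c, zero_mul, zero_mul])
  refine ⟨fun c => ?_, Units.mk0 _ h5, fx, fy, e, rfl⟩
  rw [c, ← k1_prod h, zero_pow two_ne_zero] at e
  refine mul_ne_zero (mul_ne_zero h5 fun c => h4 ?_) (fun c => h4 ?_) e.symm
  · rw [h2 _ c, mul_zero, zero_mul]
  · have h6 := h2 _ c
    rw [s3] at h6
    rw [h6, mul_zero]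

theorem Ku.norm (h : Rt s Q t (σ t) (σ (σ t))) {X Y : K} {ξ : Kˣ} (k : Ku σ s Q n t X Y ξ) :
    ((ξ * σ • ξ * (σ * σ) • ξ : Kˣ) : K) = Y * Y := by
  change (ξ : K) * σ ξ * σ (σ ξ) = _
  simp only [k.val, map_sub, map_mul, map_natCast, k.fx]
  rw [k1_prod h, ← k.eq, sq]

theorem Ku.smul {X Y : K} {ξ : Kˣ} (k : Ku σ s Q n t X Y ξ) {g : Ga K} (hg : g t = t)
    (hc : g * σ = σ * g) : Ku σ s Q n t (g X) (g Y) (g • ξ) := by
  have c : ∀ x, σ (g x) = g (σ x) := fun x => (DFunLike.congr_fun hc x).symm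
  refine ⟨by rw [c, k.fx], by rw [c, k.fy], ?_, ?_⟩
  · have := congrArg g k.eq
    simpa only [cb, map_add, map_sub, map_mul, map_pow, map_natCast, map_ofNat] using this
  · change g (ξ : K) = _
    rw [k.val, map_sub, map_mul, map_natCast, hg]

section points

open WeierstrassCurve WeierstrassCurve.Affine Pool.Agent.MP_651af7_nt

/-- the points of the curve -/
abbrev k1_Pt (K : Type) [Field K] [NumberField K] (s Q n : ℕ) :=
  ((crv s Q n).toAffine.baseChange K).Point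

open Classical in
/-- the action of an automorphism on points -/
noncomputable abbrev k1_act (s Q n : ℕ) (g : Ga K) : k1_Pt K s Q n →+ k1_Pt K s Q n :=
  Point.map (W' := (crv s Q n).toAffine) (g : K →ₐ[ℚ] K)

/-- `ξ` is the class of the point `P` -/
def k1_Cl (σ : Ga K) (t : K) (P : k1_Pt K s Q n) (ξ : Kˣ) : Prop :=
  P = 0 ∧ ξ = 1 ∨ ∃ X Y h, P = .some X Y h ∧ Ku σ s Q n t X Y ξ

theorem k1_ns (hQ : Q ≠ 0) (hn : n ≠ 0) {X Y : K} (e : Y ^ 2 = cb s Q (n : K) X) :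
    ((crv s Q n).toAffine.baseChange K).Nonsingular X Y := by
  have := crv_ell s hQ hn
  have : ((crv s Q n).toAffine.baseChange K).IsElliptic :=
    inferInstanceAs ((crv s Q n).map (algebraMap ℚ K)).IsElliptic
  rw [← equation_iff_nonsingular, equation_iff]
  simp only [crv, Affine.baseChange, WeierstrassCurve.baseChange, map_a₁, map_a₂, map_a₃, map_a₄,
    map_a₆, map_zero, map_neg, map_mul, map_pow, map_natCast, map_ofNat]
  unfold cb at e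
  linear_combination e

theorem k1_cl (h3 : σ * σ * σ = 1) (h : Rt s Q t (σ t) (σ (σ t))) (hQ : Q ≠ 0) (hn : n ≠ 0)
    {P : k1_Pt K s Q n} (hP : k1_act s Q n σ P = P) : ∃ ξ, k1_Cl σ t P ξ := by
  rcases P with _ | ⟨x, y, hp⟩
  · exact ⟨1, .inl ⟨rfl, rfl⟩⟩
  · obtain ⟨-, ξ, k⟩ := ku_exists h3 h hQ hn (Point.some.inj hP).1 (Point.some.inj hP).2 (e4_eqn hp)
    exact ⟨ξ, .inr ⟨x, y, hp, rfl, k⟩⟩

theorem k1_uniq {P : k1_Pt K s Q n} {ξ ξ' : Kˣ} (k : k1_Cl σ t P ξ) (k' : k1_Cl σ t P ξ') :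
    ξ = ξ' := by
  obtain ⟨rfl, rfl⟩ | ⟨X, Y, h, rfl, k⟩ := k <;> obtain ⟨e, rfl⟩ | ⟨X', Y', h', e, k'⟩ := k'
  · rfl
  · exact absurd e.symm (Point.some_ne_zero _)
  · exact absurd e (Point.some_ne_zero _)
  · exact Units.ext (by rw [k.val, k'.val, (Point.some.inj e).1])

open Classical in
theorem k1_neg {P : k1_Pt K s Q n} {ξ : Kˣ} (k : k1_Cl σ t P ξ) : k1_Cl σ t (-P) ξ := by
  obtain ⟨rfl, rfl⟩ | ⟨X, Y, h, rfl, k⟩ := k
  · exact .inl ⟨neg_zero, rfl⟩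
  · refine .inr ⟨X, _, _, Point.neg_some h, k.fx, ?_, ?_, k.val⟩ <;> rw [e4_neg]
    · rw [map_neg, k.fy]
    · rw [neg_sq, k.eq]

open Classical in
theorem k1_add (h : Rt s Q t (σ t) (σ (σ t))) {P R : k1_Pt K s Q n} {ξ ξ' ξ'' : Kˣ}
    (k : k1_Cl σ t P ξ) (k' : k1_Cl σ t R ξ') (k'' : k1_Cl σ t (P + R) ξ'') :
    IsSquare (ξ * ξ' * ξ'') := by
  obtain ⟨rfl, rfl⟩ | ⟨X, Y, hp, rfl, a⟩ := id k
  · rw [zero_add] at k''
    exact ⟨ξ', by rw [k1_uniq k'' k', one_mul]⟩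
  obtain ⟨rfl, rfl⟩ | ⟨X', Y', hp', rfl, a'⟩ := id k'
  · rw [add_zero] at k''
    exact ⟨ξ, by rw [k1_uniq k'' k, mul_one]⟩
  by_cases hxy : X = X' ∧ Y = ((crv s Q n).toAffine.baseChange K).negY X' Y'
  · rw [Point.add_of_Y_eq hxy.1 hxy.2] at k''
    rw [k1_uniq k'' (.inl ⟨rfl, rfl⟩), mul_one]
    exact ⟨ξ, congrArg _ (Units.ext (by rw [a.val, a'.val, hxy.1]))⟩
  rw [Point.add_some hxy] at k''
  obtain ⟨e, -⟩ | ⟨X'', Y'', hp'', e, a''⟩ := k''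
  · exact absurd e (Point.some_ne_zero _)
  have h1 := congrArg (Polynomial.eval (n * t)) (addPolynomial_slope hp.1 hp'.1 hxy)
  rw [(Point.some.inj e).1, addPolynomial_eq] at h1
  generalize ((crv s Q n).toAffine.baseChange K).slope X X' Y Y' = l at h1
  have h2 := k1_prod (n := n) h (n * t)
  simp only [Cubic.toPoly, crv, Affine.baseChange, WeierstrassCurve.baseChange, map_a₁, map_a₂,
    map_a₃, map_a₄, map_a₆, map_zero, map_neg, map_mul, map_pow, map_natCast, map_ofNat,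
    Polynomial.eval_neg, Polynomial.eval_add, Polynomial.eval_mul, Polynomial.eval_sub,
    Polynomial.eval_pow, Polynomial.eval_C, Polynomial.eval_X] at h1
  unfold cb at h2
  refine isSquare_units.2 ⟨l * (n * t - X) + Y, ?_⟩
  rw [Units.val_mul, Units.val_mul, a.val, a'.val, a''.val]
  linear_combination -h1 + h2

open Classical in
theorem k1_two (h3 : σ * σ * σ = 1) (h : Rt s Q t (σ t) (σ (σ t))) (hQ : Q ≠ 0) (hn : n ≠ 0)
    {P : k1_Pt K s Q n} (hP : k1_act s Q n σ P = P) (h2 : P + P = 0) : P = 0 := by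
  rcases P with _ | ⟨x, y, hp⟩
  · rfl
  have h4 := (Point.some.inj (add_eq_zero_iff_eq_neg.1 h2)).2
  rw [e4_neg] at h4
  exact absurd (by linear_combination h4 / 2)
    (ku_exists h3 h hQ hn (Point.some.inj hP).1 (Point.some.inj hP).2 (e4_eqn hp)).1

open Classical in
theorem k1_comp (g g' : Ga K) (P : k1_Pt K s Q n) :
    k1_act s Q n g (k1_act s Q n g' P) = k1_act s Q n (g * g') P := by
  rcases P with _ | ⟨x, y, hp⟩ <;> rfl

open Classical in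
theorem k1_one (P : k1_Pt K s Q n) : k1_act s Q n 1 P = P := by
  rcases P with _ | ⟨x, y, hp⟩ <;> rfl

open Classical in
theorem k1_half (h3 : σ * σ * σ = 1) (h : Rt s Q t (σ t) (σ (σ t))) (hQ : Q ≠ 0) (hn : n ≠ 0)
    {P : k1_Pt K s Q n} {ξ : Kˣ} (k : k1_Cl σ t P ξ) (hs : IsSquare ξ) :
    ∃ R, k1_act s Q n σ R = R ∧ R + R = P := by
  obtain ⟨rfl, rfl⟩ | ⟨X, Y, hp, rfl, a⟩ := k
  · exact ⟨0, rfl, add_zero _⟩
  have := crv_ell s hQ hn
  have : ((crv s Q n).toAffine.baseChange K).IsElliptic :=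
    inferInstanceAs ((crv s Q n).map (algebraMap ℚ K)).IsElliptic
  have sp : MW.Split ((crv s Q n).toAffine.baseChange K) (n * t) (n * σ t) (n * σ (σ t)) := by
    refine ⟨?_, ?_, ?_⟩ <;>
      simp only [crv, Affine.baseChange, WeierstrassCurve.baseChange, b₂, b₄, b₆, map_a₁, map_a₂,
        map_a₃, map_a₄, map_a₆, map_zero, map_neg, map_mul, map_pow, map_natCast, map_ofNat]
    · linear_combination 4 * n * h.e1
    · linear_combination -2 * n ^ 2 * h.e2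
    · linear_combination 4 * n ^ 3 * h.e3
  obtain ⟨r, hr⟩ := isSquare_units.1 hs
  rw [a.val] at hr
  have r1 := congrArg σ hr
  rw [map_sub, map_mul, map_natCast, a.fx, map_mul] at r1
  have r2 := congrArg σ r1
  rw [map_sub, map_mul, map_natCast, a.fx, map_mul] at r2
  obtain ⟨R, hR⟩ := sp.halve hp (hr.trans (sq r).symm) (r1.trans (sq _).symm)
    (r2.trans (sq _).symm)
  have g1 : k1_act s Q n σ (.some X Y hp) = .some X Y hp := by
    simp only [Point.map_some, Point.some.injEq]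
    exact ⟨a.fx, a.fy⟩
  have h2 := congrArg (k1_act s Q n σ) hR
  rw [map_add, g1] at h2
  have h4 := congrArg (k1_act s Q n σ) h2
  rw [map_add, g1] at h4
  refine ⟨R + k1_act s Q n σ R + k1_act s Q n σ (k1_act s Q n σ R) - .some X Y hp, ?_, ?_⟩
  · have h5 : k1_act s Q n σ (k1_act s Q n σ (k1_act s Q n σ R)) = R := by
      rw [k1_comp, k1_comp, h3, k1_one]
    rw [map_sub, map_add, map_add, g1, h5]
    abel
  · linear_combination (norm := abel1) hR + h2 + h4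

theorem Ku.mul (h3 : σ * σ * σ = 1) (h : Rt s Q t (σ t) (σ (σ t))) (hQ : Q ≠ 0) (hn : n ≠ 0)
    {X Y X' Y' : K} {ξ ξ' : Kˣ} (k : Ku σ s Q n t X Y ξ) (k' : Ku σ s Q n t X' Y' ξ') :
    IsSquare (ξ * ξ') ∨ ∃ X'' Y'' ξ'', Ku σ s Q n t X'' Y'' ξ'' ∧ IsSquare (ξ * ξ' * ξ'') := by
  classical
  have f : ∀ {X Y : K} {ξ : Kˣ} (k : Ku σ s Q n t X Y ξ),
      k1_act s Q n σ (.some X Y (k1_ns hQ hn k.eq)) = .some X Y (k1_ns hQ hn k.eq) := fun k => by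
    simp only [Point.map_some, Point.some.injEq]
    exact ⟨k.fx, k.fy⟩
  obtain ⟨ξ'', k''⟩ := k1_cl h3 h hQ hn ((map_add _ _ _).trans (congrArg₂ _ (f k) (f k')))
  have := k1_add h (.inr ⟨_, _, _, rfl, k⟩) (.inr ⟨_, _, _, rfl, k'⟩) k''
  obtain ⟨-, rfl⟩ | ⟨X'', Y'', -, -, a⟩ := k''
  exacts [.inl (mul_one (ξ * ξ') ▸ this), .inr ⟨_, _, _, a, this⟩]

theorem Ku.split (h3 : σ * σ * σ = 1) (h : Rt s Q t (σ t) (σ (σ t))) (hQ : Q ≠ 0) (hn : n ≠ 0)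
    {c : Ga K} (ct : c t = t) (hc : c * σ = σ * c) (cc : c * c = 1) {X Y : K} {ξ : Kˣ}
    (k : Ku σ s Q n t X Y ξ) (hs : IsSquare (ξ * c • ξ)) : ∃ ξ₁ ξ₂ : Kˣ,
      (ξ₁ = 1 ∨ ∃ X₁ Y₁, Ku σ s Q n t X₁ Y₁ ξ₁ ∧ c X₁ = X₁ ∧ c Y₁ = Y₁) ∧
      (ξ₂ = 1 ∨ ∃ X₂ Y₂, Ku σ s Q n t X₂ Y₂ ξ₂ ∧ c X₂ = X₂ ∧ c Y₂ = -Y₂) ∧
      IsSquare (ξ * ξ₁ * ξ₂) := by
  classical
  obtain ⟨P, hP, k1, k2⟩ : ∃ P : k1_Pt K s Q n, k1_act s Q n σ P = P ∧ k1_Cl σ t P ξ ∧
      k1_Cl σ t (k1_act s Q n c P) (c • ξ) := ⟨.some X Y (k1_ns hQ hn k.eq), by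
    simp only [Point.map_some, Point.some.injEq]
    exact ⟨k.fx, k.fy⟩, .inr ⟨_, _, _, rfl, k⟩, .inr ⟨_, _, _, rfl, k.smul ct hc⟩⟩
  have cm : ∀ R : k1_Pt K s Q n, k1_act s Q n σ R = R →
      k1_act s Q n σ (k1_act s Q n c R) = k1_act s Q n c R := fun R hR => by
    rw [k1_comp, ← hc, ← k1_comp, hR]
  obtain ⟨δ, k3⟩ := k1_cl h3 h hQ hn (P := -P + k1_act s Q n c P)
    (by rw [map_add, map_neg, hP, cm P hP])
  have s1 := (k1_add h (k1_neg k1) k2 k3).mul hs.inv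
  rw [mul_comm, inv_mul_cancel_left] at s1
  obtain ⟨R, r1, r2⟩ := k1_half h3 h hQ hn k3 s1
  have r3 := congrArg (k1_act s Q n c) r2
  rw [map_add, map_add, map_neg, k1_comp, cc, k1_one] at r3
  have r4 : k1_act s Q n c R = -R := eq_neg_of_add_eq_zero_left (k1_two h3 h hQ hn
    (by rw [map_add, cm R r1, r1]) (by linear_combination (norm := abel1) r2 + r3))
  have r5 : k1_act s Q n c (P + R) = P + R := by
    rw [map_add, r4]
    linear_combination (norm := abel1) -r2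
  obtain ⟨ξ₁, k4⟩ := k1_cl h3 h hQ hn (P := P + R) (by rw [map_add, hP, r1])
  obtain ⟨ξ₂, k5⟩ := k1_cl h3 h hQ hn r1
  refine ⟨ξ₁, ξ₂, ?_, ?_, mul_right_comm ξ ξ₂ ξ₁ ▸ k1_add h k1 k5 k4⟩
  · obtain ⟨-, e⟩ | ⟨X₁, Y₁, hp, e, a⟩ := k4
    · exact .inl e
    · rw [e] at r5
      exact .inr ⟨X₁, Y₁, a, Point.some.inj r5⟩
  · obtain ⟨-, e⟩ | ⟨X₂, Y₂, hp, rfl, a⟩ := k5
    · exact .inl e
    · exact .inr ⟨X₂, Y₂, a, (Point.some.inj r4).1, (Point.some.inj r4).2.trans (e4_neg s Q n _ _)⟩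

end points

end Pool.Agent.Lib.MP_775b3b_nt.CM
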