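import Pool.Agent.Lib.MP_775b3b_nt.CM.E1

/-! The local image at a twisting prime. -/

namespace Pool.Agent.Lib.MP_775b3b_nt.CM

open Pool.Agent.Lib.MP_439fea_co NumberField WithZero

variable {K : Type} [Field K] [NumberField K] {v : P K} {x y z a b c : Kˣ}

theorem l1_eq (hv : SP v) (h : x / y ∈ Sq (val v)) : sy v x = sy v y := by
  have := sy_mul hv (x / y) y
  rwa [div_mul_cancel, e1_sy h, zero_add] at this

theorem l1_neg (hv : SP v) (x : Kˣ) : sy v (-x) = sy v x := by
  rw [← neg_one_mul, sy_mul hv, e1_sy hv.neg_one, zero_add]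

theorem l1_od (h : ord v (x : K) % 2 = 1) : od v x = 1 :=
  (by decide : ∀ t : ZMod 2, t ≠ 0 → t = 1) _ (mt od_eq_zero.1 (by rw [Int.even_iff]; omega))

theorem l1_ev (h : ord v (x : K) % 2 = 0) : od v x = 0 := od_eq_zero.2 (Int.even_iff.2 h)

theorem loc_tw3 (hv : SP v) (h : IsSquare (x * y * z)) (ha : (a : K) = y - x)
    (hb : (b : K) = z - y) (hc : (c : K) = x - z) (h1 : ord v (a : K) = ord v (b : K))
    (h2 : ord v (b : K) = ord v (c : K)) (h3 : Odd (ord v (a : K))) :
    sy v x = od v z * sy v a + od v y * sy v c := by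
  have e0 := e1_ult v hb
  have e1 := e1_ult v ha
  have e2 := e1_ult v hc
  have e3 := e1_par v h
  have e5 := e1_neg (v := v) a
  have e6 := e1_neg (v := v) c
  rw [Int.even_iff] at e3
  rw [Int.odd_iff] at h3
  have s1 := mem_Sq_of_isSquare v h
  rcases lt_trichotomy (ord v (x : K)) (ord v (a : K)) with h5 | h5 | h5
  · have := div_mem (div_mem (div_mem s1 (mem_Sq_of_isSquare v ⟨x, rfl⟩)) (e1_sq hv.two ha h5))
      (e1_sq hv.two (c := -c) (x := z) (y := x) (by rw [Units.val_neg, hc]; ring) (by omega))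
    rw [show x * y * z / (x * x) / (y / x) / (z / x) = x by ext; push_cast; field_simp] at this
    rw [e1_sy this, l1_ev (x := z) (by omega), l1_ev (x := y) (by omega), zero_mul, zero_mul,
      add_zero]
  · rcases lt_or_ge (ord v (a : K)) (ord v (y : K)) with h6 | h6
    · rw [l1_eq hv (e1_sq hv.two (c := y) (x := x) (y := -a) (by rw [Units.val_neg, ha]; ring)
        (by omega)), l1_neg hv, l1_od (x := z) (by omega), l1_ev (x := y) (by omega), one_mul,
        zero_mul, add_zero]
    · rw [l1_eq hv (e1_sq hv.two (c := z) (x := x) (y := c) (by rw [hc]; ring) (by omega)),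
        l1_ev (x := z) (by omega), l1_od (x := y) (by omega), one_mul, zero_mul, zero_add]
  · have h6 := e1_sy s1
    rw [sy_mul hv, sy_mul hv,
      l1_eq hv (e1_sq hv.two (c := x) (x := y) (y := a) (by rw [ha]; ring) h5),
      l1_eq hv (e1_sq hv.two (c := x) (x := z) (y := -c) (by rw [Units.val_neg, hc]; ring)
        (by omega)), l1_neg hv] at h6
    rw [l1_od (x := z) (by omega), l1_od (x := y) (by omega), one_mul, one_mul]
    exact (by decide : ∀ p q r : ZMod 2, p + q + r = 0 → p = q + r) _ _ _ h6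

end Pool.Agent.Lib.MP_775b3b_nt.CM
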