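import Pool.Agent.Lib.MP_775b3b_nt.CM3.G0
import Pool.Agent.Lib.MP_775b3b_nt.CM3.K1
import Pool.Agent.Lib.MP_775b3b_nt.CM3.L1
import Pool.Agent.Lib.MP_775b3b_nt.CM.E2d

/-! The local conditions satisfied by the classes of points. -/

namespace Pool.Agent.Lib.MP_775b3b_nt.CM

open Pool.Agent.Lib.MP_439fea_co NumberField WithZero

variable {K : Type} [Field K] [NumberField K]

/-- the primes that divide the twisting factor -/
structure Dt.Tp (D : Dt K) (T : Finset (P K)) : Prop where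
  sp : ∀ v ∈ T, SP v
  sq : ∀ v ∈ T, ∀ w ∈ T, w ≠ v → nu K (nm w) ∈ Sq (val v)
  sql : ∀ v ∈ T, nu K D.l ∈ Sq (val v)

variable {D : Dt K} (C : Cw D) {T : Finset (P K)} {ξ : Kˣ} {X Y : K}

/-- the scaling factor of the roots -/
noncomputable def Cw.sc (T : Finset (P K)) : Kˣ := nu K (∏ v ∈ T, nm v) * nu K (jj C.s D.l)

/-- the class of a point of the twisted curve -/
abbrev Cw.Pt (T : Finset (P K)) (X Y : K) (ξ : Kˣ) : Prop :=
  Ku D.σ C.s D.l ((∏ v ∈ T, nm v) * jj C.s D.l) C.t X Y ξ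

variable {C}

theorem Dt.Tp.ne (hT : D.Tp T) : ∏ v ∈ T, nm v ≠ 0 :=
  Finset.prod_ne_zero_iff.2 fun v hv => (hT.sp v hv).prime.ne_zero

theorem g3_sq (h : C.Pt T X Y ξ) : IsSquare (ξ * D.σ • ξ * (D.σ * D.σ) • ξ) :=
  isSquare_units.2 ⟨Y, h.norm C.rt⟩

theorem g3_diff (hT : D.Tp T) (h : C.Pt T X Y ξ) :
    ((C.sc T * C.a : Kˣ) : K) = (D.σ • ξ : Kˣ) - ξ ∧
      ((C.sc T * C.b : Kˣ) : K) = ((D.σ * D.σ) • ξ : Kˣ) - (D.σ • ξ : Kˣ) ∧
      ((C.sc T * C.c : Kˣ) : K) = ξ - ((D.σ * D.σ) • ξ : Kˣ) := by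
  simp only [Cw.sc, val_smul_units, Units.val_mul, h.val, C.ha, C.hb, C.hc, AlgEquiv.mul_apply,
    map_sub, map_mul, map_natCast, h.fx, val_nu hT.ne, val_nu (jj_ne D.ip.prime.ne_zero),
    Nat.cast_mul]
  exact ⟨by ring, by ring, by ring⟩

theorem g3_two (hT : D.Tp T) (h : C.Pt T X Y ξ) {g : Ga K} (hg : g ∈ D.G) :
    Pry (g • D.w) ξ ∧ Even (ord (g • D.w) (ξ : K)) ∧
      Even (ord (g • D.w) ((D.σ • ξ : Kˣ) : K)) ∧
        Even (ord (g • D.w) (((D.σ * D.σ) • ξ : Kˣ) : K)) := by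
  have hv : val (g • D.w) (2 : K) < 1 := by
    rw [← (c1b_smul_ofNat g).1, val_smul]
    exact D.hw
  obtain ⟨h1, -, h3⟩ := C.rt.two C.s4 D.ip.one D.two hv ((C.val_t hg D.w).trans C.w1)
  have h4 : val (g • D.w) (((-C.a : Kˣ) : K) - 1) ≤ val (g • D.w) (4 : K) := by
    rw [show ((-C.a : Kˣ) : K) - 1 = -(C.t - D.σ C.t - 3 + 4) by rw [Units.val_neg, C.ha]; ring,
      Valuation.map_neg]
    exact Valuation.map_add_le _ h1 le_rfl
  have h5 := c1b_one (h4.trans_lt ((c1b_four_le_two _).trans_lt hv))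
  rw [Units.val_neg, Valuation.map_neg, ← sunit_ord_eq_zero_iff _ C.a.ne_zero] at h5
  refine loc_two D.two hv (g3_sq h) (g3_diff hT h).1 (g3_diff hT h).2.1 ?_ ?_
  · rw [← mul_neg]
    refine ((pry_nu ?_ _).mul hv (pry_nu (jj_mod C.s4) _)).mul hv ⟨1, by simpa using h4⟩
    exact Finset.prod_induction _ (· % 4 = 1) (fun a b ha hb => by rw [Nat.mul_mod, ha, hb]) rfl
      fun v hv => (hT.sp v hv).one
  · rw [e2d_ord, e2d_ord, h5, C.hb, h3, add_zero]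

theorem g3_atq (hT : D.Tp T) : Even (ord D.q ((C.sc T * C.a : Kˣ) : K)) ∧
    ord D.q ((C.sc T * C.b : Kˣ) : K) = ord D.q ((C.sc T * C.a : Kˣ) : K) + 1 ∧
      D.c • (C.sc T * C.a) = C.sc T * C.a ∧ fs D.l D.q (-(C.sc T * C.a)) = 0 := by
  obtain ⟨m1, -, m3, m4⟩ := C.atq
  have k : ord D.q ((nu K (∏ v ∈ T, nm v) : Kˣ) : K) = 0 ∧
      fs D.l D.q (nu K (∏ v ∈ T, nm v)) = 0 := by
    rw [nu_prod _ _ fun w hw => (hT.sp w hw).prime.ne_zero]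
    refine (Finset.prod_induction _ (fun x : Kˣ => D.c • x = x ∧ ord D.q (x : K) = 0 ∧
      fs D.l D.q x = 0) (fun a b ha hb => ⟨by rw [smul_mul', ha.1, hb.1], by
        rw [e2d_ord, ha.2.1, hb.2.1, add_zero], by
        rw [D.ip.f_mul ha.1 hb.1, ha.2.2, hb.2.2, add_zero]⟩)
      ⟨smul_one _, by rw [Units.val_one, ord_one], D.ip.f_near (by simp)⟩ fun v hv => ?_).2
    obtain ⟨h1, h2⟩ := D.ip.f_sp (hT.sp v hv) (hT.sql v hv)
    refine ⟨smul_nu _ _, (sunit_ord_eq_zero_iff _ (Units.ne_zero _)).2 ?_, h2⟩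
    rw [val_nu (hT.sp v hv).prime.ne_zero]
    exact (val_natCast_le_one _ _).antisymm (not_lt.1 fun e => h1
      (prime_under_unique D.q (hT.sp v hv).prime D.ip.prime e D.ip.g_lt))
  have oj := (sunit_ord_eq_zero_iff _ (Units.ne_zero _)).2 (c1b_one m4)
  have ca := (C.fix_a D.cG).1
  have cs : D.c • C.sc T = C.sc T := by rw [Cw.sc, smul_mul', smul_nu, smul_nu]
  refine ⟨?_, by rw [e2d_ord, e2d_ord, m3, C.ordq.1, add_zero], by rw [smul_mul', cs, ca], ?_⟩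
  · rw [e2d_ord, Cw.sc, e2d_ord, k.1, oj, C.ordq.1]
    exact Even.zero
  · rw [← neg_one_mul, D.ip.f_mul (by simp) (by rw [smul_mul', cs, ca]), D.ip.f_neg,
      D.ip.f_mul cs ca, D.ip.f_near m1, Cw.sc, D.ip.f_mul (smul_nu _ _) (smul_nu _ _), k.2,
      D.ip.f_near m4]
    rfl

theorem g3_q (hT : D.Tp T) (h : C.Pt T X Y ξ) : ξ ∈ Sq (val D.q) := by
  obtain ⟨a1, a2, a3, -⟩ := g3_atq (C := C) hT
  have := (loc_mult D.ip.g_two (g3_sq h) (g3_diff hT h).1 (g3_diff hT h).2.1 a1 a2).2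
  rwa [ns_eq_zero.2 (D.ip.f_Sq (x := -(C.sc T * C.a)) (Units.ext (by
    rw [val_smul_units, Units.val_neg, map_neg, ← val_smul_units, a3]))
    (by rwa [e1_neg])), mul_zero, ns_eq_zero] at this

theorem g3_tw (hT : D.Tp T) (h : C.Pt T X Y ξ) {v : P K} (hv : v ∈ T) (γ : Ga K) :
    sy v (γ⁻¹ • ξ) = od v (γ⁻¹ • (D.σ * D.σ) • ξ) * sy v (γ⁻¹ • (D.σ * D.σ) • (C.a * C.c)) +
      od v (γ⁻¹ • D.σ • ξ) * sy v (γ⁻¹ • D.σ • (C.a * C.c)) := by
  classical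
  have sw := (hT.sp v hv).smul γ
  have hQ := e2d_nu (hT.sql v hv) γ
  have hQ1 : val (γ • v) (D.l : K) = 1 := sw.val_nat fun e => (D.ip.f_sp sw hQ).1
    ((Nat.prime_dvd_prime_iff_eq sw.prime D.ip.prime).1 e)
  obtain ⟨o1, o2, o3⟩ := C.rt.ord_good D.ip.prime.ne_zero sw.two hQ1
  rw [← C.ha, ← C.hb] at o1
  rw [← C.hb, ← C.hc] at o2
  rw [← C.ha, ← val_nu (jj_ne D.ip.prime.ne_zero)] at o3
  obtain ⟨d1, d2, d3⟩ := g3_diff hT h
  have hd : nu K (∏ v ∈ T, nm v) * nu K (nm (γ • v)) ∈ Sq (val (γ • v)) := by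
    rw [nu_prod _ _ fun w hw => (hT.sp w hw).prime.ne_zero, nm_smul,
      ← Finset.prod_erase_mul _ _ hv, mul_assoc]
    refine mul_mem (Subgroup.prod_mem _ fun w hw => ?_) (mem_Sq_of_isSquare _ ⟨_, rfl⟩)
    exact e2d_nu (hT.sq v hv w (Finset.mem_of_mem_erase hw) (Finset.ne_of_mem_erase hw)) γ
  have s1 := e1_sy hd
  rw [sy_mul sw, sy_nu sw, add_zero] at s1
  have s2 := congrArg (sy (γ • v)) C.abc
  rw [sy_mul sw, sy_mul sw, sy_mul sw, sy_mul sw, e1_sy hQ,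
    e1_sy (mem_Sq_of_isSquare _ e2b_sq), zero_add, zero_add] at s2
  have s3 := even_ord_of_mem_Sq hd
  rw [e2d_ord, sw.ord_nu] at s3
  rw [sy_smul, sy_smul, sy_smul, od, od, ord_smul', ord_smul', ← od, ← od, C.s1, C.s2,
    loc_tw3 sw (g3_sq h) d1 d2 d3 (by rw [e2d_ord, e2d_ord, o1]) (by rw [e2d_ord, e2d_ord, o2]) (by
      rw [e2d_ord, Cw.sc, e2d_ord, ← o3, Int.odd_iff]
      rw [Int.even_iff] at s3
      omega)]
  simp only [Cw.sc, sy_mul sw, s1, ← s2]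
  generalize sy (γ • v) C.a = a, sy (γ • v) C.b = b, sy (γ • v) C.c = c, od (γ • v) (D.σ • ξ) = y,
    od (γ • v) ((D.σ * D.σ) • ξ) = z
  revert a b c y z
  decide

variable [IsGalois ℚ K]

theorem g3_even (hT : D.Tp T) (h : C.Pt T X Y ξ) (w : P K) (hw : val w (2 : K) < 1) :
    Even (ord w (ξ : K)) := by
  obtain ⟨γ, rfl⟩ := exists_smul_eq_of_prime Nat.prime_two (w := D.w) (w' := w)
    (by exact_mod_cast D.hw) (by exact_mod_cast hw)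
  rcases D.cub.dec γ with hg | hg | hg
  · exact (g3_two hT h hg).2.1
  · have := (g3_two hT h hg).2.2.1
    rwa [D.cub.cen, mul_smul, c1b_coe, ord_smul] at this
  · have := (g3_two hT h hg).2.2.2
    rwa [D.cub.cen γ, D.cub.cen, ← mul_assoc, mul_smul, c1b_coe, ord_smul] at this

theorem g3_good (hT : D.Tp T) (h : C.Pt T X Y ξ) (w : P K) (h1 : ∀ g : Ga K, g • D.q ≠ w)
    (h2 : ∀ v ∈ T, ∀ g : Ga K, g • v ≠ w) : Even (ord w (ξ : K)) := by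
  rcases (c1b_two_le_one (val w)).lt_or_eq with hw | hw
  · exact g3_even hT h w hw
  obtain ⟨a1, a2, a3⟩ := C.rt.ord_good D.ip.prime.ne_zero hw (D.ip.g_conj h1)
  rw [← C.ha, ← C.hb] at a1
  rw [← C.hb, ← C.hc] at a2
  rw [← C.ha, ← val_nu (jj_ne D.ip.prime.ne_zero)] at a3
  have a4 : ord w (nu K (∏ v ∈ T, nm v) : K) = 0 := by
    rw [sunit_ord_eq_zero_iff _ (Units.ne_zero _), val_nu hT.ne, Nat.cast_prod, map_prod]
    exact Finset.prod_eq_one fun v hv => (hT.sp v hv).val_conj (h2 v hv)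
  refine loc_good (g3_sq h) (g3_diff hT h).1 (g3_diff hT h).2.2 (by rw [e2d_ord, e2d_ord, a1])
    (by rw [e2d_ord, e2d_ord, a2]) (g3_diff hT h).2.1 ?_
  rw [e2d_ord, Cw.sc, e2d_ord, a4, ← a3]
  exact ⟨2 * ord w (C.a : K), by ring⟩

theorem g3_zc (hT : D.Tp T) (h : C.Pt T X Y ξ) : Zc D.G 1 (cz D.α (sig ξ)) := fun g hg => by
  change tr2 (((g * 1)⁻¹ • sig ξ) * D.α) = 0
  rw [mul_one]
  exact D.zero _ ((((sig_spec D.two (g3_even hT h)).smul g⁻¹).pry D.two D.hw).1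
    (Pry.smul g (g3_two hT h hg).1))

end Pool.Agent.Lib.MP_775b3b_nt.CM
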