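import Pool.Agent.Lib.MP_775b3b_nt.CM3.I2

/-! Existence of the marks. -/

namespace Pool.Agent.Lib.MP_775b3b_nt.CM

open Pool.Agent.Lib.MP_439fea_co NumberField WithZero

variable {K : Type} [Field K] [NumberField K] {σ c : Ga K}

theorem i3_mul (σ : Ga K) (x y : Kˣ) : x * y * σ • (x * y) * (σ * σ) • (x * y) =
    x * σ • x * (σ * σ) • x * (y * σ • y * (σ * σ) • y) := by
  rw [smul_mul', smul_mul', mul_mul_mul_comm x, mul_mul_mul_comm]

theorem i3_smul (hc : c * σ = σ * c) (x : Kˣ) : c • (x * σ • x * (σ * σ) • x) =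
    c • x * σ • c • x * (σ * σ) • c • x := by
  rw [smul_mul', smul_mul', ← mul_smul, ← mul_smul, ← mul_smul, ← mul_smul, ← mul_assoc, hc,
    mul_assoc σ c, hc, ← mul_assoc]

omit [NumberField K] in
theorem i3_pm {x y : Kˣ} (h : x * x = y * y) : x = y ∨ x = -y := by
  have := congrArg Units.val h
  rw [Units.val_mul, Units.val_mul, mul_self_eq_mul_self_iff] at this
  exact this.imp Units.ext Units.ext

theorem i3_neg (g : Ga K) (x : Kˣ) : g • (-x) = -(g • x) := Units.ext (map_neg g (x : K))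

theorem i3_fix {Φ : K →+* ℂ} (hΦ : ∀ x : K, Φ (c x) = starRingEnd ℂ (Φ x)) {x : Kˣ}
    (hx : c • x = x) : (Φ x).im = 0 ∧ (Φ x).re ≠ 0 := by
  have h1 : (Φ x).im = 0 := Complex.conj_eq_iff_im.1 ((hΦ x).symm.trans
    (congrArg (fun u : Kˣ => Φ u) hx))
  exact ⟨h1, fun e => (map_ne_zero Φ).2 x.ne_zero (Complex.ext e h1)⟩

theorem Mk.mul (hc : c * σ = σ * c) {x y : Kˣ} (hx : Mk σ c x) (hy : Mk σ c y) :
    Mk σ c (x * y) := by
  have _ := hc
  obtain ⟨h1, r, h2, h3⟩ := hx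
  obtain ⟨h4, s, h5, h6⟩ := hy
  exact ⟨by rw [smul_mul', h1, h4], r * s, by rw [smul_mul', h2, h5],
    by rw [i3_mul, h3, h6, mul_mul_mul_comm]⟩

theorem Mk.sq (hc : c * σ = σ * c) {x : Kˣ} (hx : Mk σ c x) (h : IsSquare x) :
    ∃ z : Kˣ, c • z = z ∧ x = z * z := by
  obtain ⟨z, rfl⟩ := h
  obtain ⟨h1, r, h2, h3⟩ := hx
  rw [smul_mul'] at h1
  refine ⟨z, (i3_pm h1).resolve_right fun e => ?_, rfl⟩
  rw [i3_mul] at h3
  have h4 : c • (z * σ • z * (σ * σ) • z) = z * σ • z * (σ * σ) • z := by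
    rcases i3_pm h3 with e' | e' <;> rw [e']
    · exact h2
    · rw [i3_neg, h2]
  rw [i3_smul hc, e, i3_neg, i3_neg, neg_mul_neg, mul_neg] at h4
  exact Units.ne_zero _ (neg_eq_self.1 (congrArg Units.val h4))

theorem Mk.norm (hc : c * σ = σ * c) (cc : c * c = 1) {x : Kˣ}
    (h : IsSquare (x * σ • x * (σ * σ) • x)) : Mk σ c (x * c • x) := by
  have k : ∀ u : Kˣ, c • (u * c • u) = u * c • u := fun u => by
    rw [smul_mul', ← mul_smul, cc, one_smul, mul_comm]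
  obtain ⟨r, hr⟩ := h
  exact ⟨k x, r * c • r, k r, by rw [i3_mul, ← i3_smul hc, hr, smul_mul', mul_mul_mul_comm]⟩

theorem exists_mark (hc : c * σ = σ * c) (f : Kˣ → ZMod 2)
    (hf : ∀ x y, c • x = x → c • y = y → f (x * y) = f x + f y) :
    ∃ φ : Kˣ → ZMod 2, (∀ x y, φ (x * y) = φ x + φ y) ∧ ∀ y, Mk σ c y → φ y = f y := by
  have two : ∀ t : ZMod 2, t + t = 0 := by decide
  let _ : Module (ZMod 2) (Additive (Kˣ ⧸ Subgroup.square Kˣ)) := AddCommGroup.zmodModule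
    fun u => by
      obtain ⟨x, hx⟩ := QuotientGroup.mk_surjective (Additive.toMul u)
      rw [← ofMul_toMul u, ← ofMul_pow, ← hx, ← QuotientGroup.mk_pow, ofMul_eq_zero,
        QuotientGroup.eq_one_iff]
      exact ⟨x, pow_two x⟩
  let π := Finsupp.linearCombination (ZMod 2)
    fun y : {y // Mk σ c y} => Additive.ofMul (y.1 : Kˣ ⧸ Subgroup.square Kˣ)
  let g := Finsupp.linearCombination (ZMod 2) fun y : {y // Mk σ c y} => f y.1
  have m1 : Mk σ c 1 := ⟨smul_one c, 1, smul_one c, by simp⟩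
  have f1 : f 1 = 0 := by
    have := hf 1 1 (smul_one c) (smul_one c)
    rwa [mul_one, two] at this
  have key : ∀ u, ∃ y, Mk σ c y ∧ π u = Additive.ofMul (y : Kˣ ⧸ Subgroup.square Kˣ) ∧
      g u = f y := fun u => by
    induction u using Finsupp.induction_linear with
    | zero => exact ⟨1, m1, map_zero π, (map_zero g).trans f1.symm⟩
    | add u v ih ih' =>
      obtain ⟨y, h1, h2, h3⟩ := ih
      obtain ⟨z, h4, h5, h6⟩ := ih'
      exact ⟨y * z, h1.mul hc h4, by rw [map_add, h2, h5]; rfl,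
        by rw [map_add, h3, h6, hf y z h1.1 h4.1]⟩
    | single y a =>
      rcases (by decide : ∀ t : ZMod 2, t = 0 ∨ t = 1) a with rfl | rfl
      · exact ⟨1, m1, by simp, by simp [f1]⟩
      · exact ⟨y, y.2, by simp [π], by simp [g]⟩
  have hg : g ∈ (LinearMap.ker π).dualAnnihilator := (Submodule.mem_dualAnnihilator _).2
    fun u hu => by
      obtain ⟨y, h1, h2, h3⟩ := key u
      rw [LinearMap.mem_ker, h2, ofMul_eq_zero, QuotientGroup.eq_one_iff] at hu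
      obtain ⟨z, h4, rfl⟩ := h1.sq hc hu
      rw [h3, hf z z h4 h4, two]
  rw [← LinearMap.range_dualMap_eq_dualAnnihilator_ker] at hg
  obtain ⟨φ, hφ⟩ := hg
  refine ⟨fun x => φ (Additive.ofMul (x : Kˣ ⧸ Subgroup.square Kˣ)), fun x y => ?_,
    fun y hy => ?_⟩
  · simp only [QuotientGroup.mk_mul, ofMul_mul, map_add]
  simpa [π, g] using DFunLike.congr_fun hφ (Finsupp.single ⟨y, hy⟩ 1)

theorem sr_mul {Φ : K →+* ℂ} (hΦ : ∀ x : K, Φ (c x) = starRingEnd ℂ (Φ x)) {x y : Kˣ}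
    (hx : c • x = x) (hy : c • y = y) : sr Φ (x * y) = sr Φ x + sr Φ y := by
  obtain ⟨h1, h2⟩ := i3_fix hΦ hx
  obtain ⟨-, h4⟩ := i3_fix hΦ hy
  rw [sr, sr, sr, Units.val_mul, map_mul, Complex.mul_re, h1, zero_mul, sub_zero]
  rcases h2.lt_or_gt with a | a <;> rcases h4.lt_or_gt with b | b
  · rw [if_neg (mul_pos_of_neg_of_neg a b).not_gt, if_pos a, if_pos b]
    decide
  · rw [if_pos (mul_neg_of_neg_of_pos a b), if_pos a, if_neg b.not_gt, add_zero]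
  · rw [if_pos (mul_neg_of_pos_of_neg a b), if_neg a.not_gt, if_pos b, zero_add]
  · rw [if_neg (mul_pos a b).not_gt, if_neg a.not_gt, if_neg b.not_gt, add_zero]

theorem sr_norm {Φ : K →+* ℂ} (hΦ : ∀ x : K, Φ (c x) = starRingEnd ℂ (Φ x)) (x : Kˣ) :
    sr Φ (x * c • x) = 0 := by
  rw [sr, Units.val_mul, map_mul, show Φ (c • x : Kˣ) = _ from hΦ x, Complex.mul_conj,
    Complex.ofReal_re, if_neg (Complex.normSq_nonneg _).not_gt]

theorem exists_marks (hc : c * σ = σ * c) {Φ : K →+* ℂ}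
    (hΦ : ∀ x : K, Φ (c x) = starRingEnd ℂ (Φ x)) {l : ℕ} {q : P K} (hq : IP c l q) :
    ∃ s0 b0 : Kˣ → ZMod 2, (∀ x y, s0 (x * y) = s0 x + s0 y) ∧
      (∀ x y, b0 (x * y) = b0 x + b0 y) ∧ (∀ y, Mk σ c y → s0 y = sr Φ y) ∧
      ∀ y, Mk σ c y → b0 y = fs l q y := by
  obtain ⟨s0, h1, h2⟩ := exists_mark hc (sr Φ) fun _ _ => sr_mul hΦ
  obtain ⟨b0, h3, h4⟩ := exists_mark hc (fs l q) fun _ _ => hq.fs_mul
  exact ⟨s0, b0, h1, h3, h2, h4⟩

end Pool.Agent.Lib.MP_775b3b_nt.CM
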