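import Pool.Agent.Lib.MP_775b3b_nt.CM3.G3
import Pool.Agent.Lib.MP_775b3b_nt.CM3.I3

/-! The two places fixed by the complex conjugation. -/

namespace Pool.Agent.Lib.MP_775b3b_nt.CM

open Pool.Agent.Lib.MP_439fea_co NumberField WithZero

variable {K : Type} [Field K] [NumberField K] {D : Dt K} {C : Cw D} {T : Finset (P K)} {ξ : Kˣ}
  {X Y : K}

theorem g4_im {x : K} (h : D.c x = x) : (D.Φ x).im = 0 :=
  Complex.conj_eq_iff_im.1 ((D.hΦ x).symm.trans (congrArg _ h))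

theorem g4_mul {x : K} (h : D.c x = x) (y : K) : (D.Φ (x * y)).re = (D.Φ x).re * (D.Φ y).re := by
  rw [map_mul, Complex.mul_re, g4_im h, zero_mul, sub_zero]

theorem g4_fix {x : Kˣ} (h : D.c • x = x) : D.c (x : K) = x := congrArg Units.val h

theorem g4_cs {x : Kˣ} (h : D.c • x = x) : D.c • D.σ • x = D.σ • x := by
  rw [← mul_smul, D.cub.cen, mul_smul, h]

theorem g4_nu (n : ℕ) : 0 < (D.Φ ((nu K n : Kˣ) : K)).re := by
  rcases eq_or_ne n 0 with rfl | h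
  · simp [nu]
  · rw [val_nu h, map_natCast, Complex.natCast_re]
    exact Nat.cast_pos.2 (Nat.pos_of_ne_zero h)

theorem g4_sgn (C : Cw D) : (D.Φ (C.a : K)).re < 0 ∧ (D.Φ (C.b : K)).re < 0 ∧
    0 < (D.Φ (C.c : K)).re := by
  have sa : (D.Φ (C.a : K)).re < 0 := by rw [C.ha, map_sub, Complex.sub_re, sub_neg]; exact C.r1
  have sc : 0 < (D.Φ (C.c : K)).re := by rw [C.hc, map_sub, Complex.sub_re, sub_pos]; exact C.r2
  refine ⟨sa, ?_, sc⟩
  have e : 0 < (D.Φ ((C.a * C.b * C.c : Kˣ) : K)).re := by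
    rw [C.abc, mul_assoc, Units.val_mul, Units.val_mul, g4_mul (g4_fix (smul_nu _ _)),
      g4_mul (g4_fix (smul_nu _ _))]
    exact mul_pos (g4_nu _) (mul_pos (g4_nu _) (g4_nu _))
  rw [mul_assoc, Units.val_mul, Units.val_mul, g4_mul (g4_fix (C.fix_a D.cG).1),
    g4_mul (g4_fix (C.fix_a D.cG).2.1)] at e
  exact neg_of_mul_neg_left (neg_of_mul_pos_right e sa.le) sc.le

theorem g4_kap (C : Cw D) (γ : Ga K) : Mk D.σ D.c (γ⁻¹ • (C.a * C.c)) := by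
  obtain ⟨f1, f2, f3⟩ := C.fix_a D.cG
  have r : D.c • (C.a * C.b * C.c) = C.a * C.b * C.c := by rw [smul_mul', smul_mul', f1, f2, f3]
  rcases C.tri γ with ⟨-, -, e⟩ | ⟨-, -, e⟩ | ⟨-, -, e⟩ <;> rw [e] <;>
    refine ⟨by simp only [smul_mul', f1, f2, f3], _, r, ?_⟩ <;>
    simp only [mul_smul, smul_mul', C.smul_a, C.smul_b, C.smul_c] <;> ac_rfl

theorem Cw.kap_s0 (C : Cw D) (γ : Ga K) :
    (co D.s0 (C.a * C.c)).coeff γ = 0 ↔ γ * D.σ ∈ D.G := by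
  obtain ⟨f1, f2, f3⟩ := C.fix_a D.cG
  obtain ⟨s1, s2, s3⟩ := g4_sgn C
  have ha : sr D.Φ C.a = 1 := if_pos s1
  have hb : sr D.Φ C.b = 1 := if_pos s2
  have hc : sr D.Φ C.c = 0 := if_neg s3.not_gt
  rw [co, coeff_mk, D.s0_eq _ (g4_kap C γ)]
  rcases C.tri γ with ⟨-, h, e⟩ | ⟨-, h, e⟩ | ⟨-, h, e⟩ <;> rw [e]
  · rw [sr_mul D.hΦ f1 f3, ha, hc]
    exact iff_of_false (by decide) h
  · rw [sr_mul D.hΦ f2 f1, ha, hb]
    exact iff_of_true (by decide) h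
  · rw [sr_mul D.hΦ f3 f2, hb, hc]
    exact iff_of_false (by decide) h

theorem Cw.kap_b0 (C : Cw D) : co D.b0 (C.a * C.c) = 0 := by
  obtain ⟨f1, f2, f3⟩ := C.fix_a D.cG
  obtain ⟨m1, m2, -, m4⟩ := C.atq
  have ha := D.ip.f_near m1
  have hc : fs D.l D.q C.c = 0 := by
    have := D.ip.f_mul (x := -1) (y := C.c) (by simp) f3
    rw [D.ip.f_neg, zero_add, neg_one_mul] at this
    exact this ▸ D.ip.f_near (by rwa [Units.val_neg, ← neg_add', Valuation.map_neg])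
  have hb := congrArg (fs D.l D.q) C.abc
  rw [D.ip.f_mul (by rw [smul_mul', f1, f2]) f3, D.ip.f_mul f1 f2, ha, hc, zero_add, add_zero,
    D.ip.f_mul (by rw [smul_mul', smul_nu, smul_nu]) (smul_nu _ _),
    D.ip.f_mul (smul_nu _ _) (smul_nu _ _), D.ip.f_l, D.ip.f_near m4, add_zero, add_zero,
    show nu K 16 = nu K 4 * nu K 4 from nu_mul (a := 4) (b := 4) (by decide) (by decide),
    D.ip.f_sq (smul_nu _ _)] at hb
  refine ga_ext fun γ => ?_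
  rw [co, coeff_mk, D.b0_eq _ (g4_kap C γ)]
  rcases C.tri γ with ⟨-, h, e⟩ | ⟨-, h, e⟩ | ⟨-, h, e⟩ <;> rw [e]
  · rw [D.ip.f_mul f1 f3, ha, hc]
    rfl
  · rw [D.ip.f_mul f2 f1, ha, hb]
    rfl
  · rw [D.ip.f_mul f3 f2, hb, hc]
    rfl

theorem g4_y (h : C.Pt T X Y ξ) : Y ≠ 0 := fun e =>
  (ξ * D.σ • ξ * (D.σ * D.σ) • ξ).ne_zero (by rw [h.norm C.rt, e, mul_zero])

theorem g4_c (h : C.Pt T X Y ξ) (hX : D.c X = X) : D.c • ξ = ξ := Units.ext (by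
  rw [val_smul_units, h.val, map_sub, map_mul, map_natCast, hX, C.fix _ D.cG])

theorem g4_ord (hT : D.Tp T) (h : C.Pt T X Y ξ) (hX : D.c X = X) : ∃ x y z : ℝ,
    x = (D.Φ (ξ : K)).re ∧ z = (D.Φ (((D.σ * D.σ) • ξ : Kˣ) : K)).re ∧ y < x ∧ z < x ∧ z < y ∧
      x * y * z = (D.Φ (Y * Y)).re := by
  obtain ⟨s1, s2, s3⟩ := g4_sgn C
  obtain ⟨d1, d2, d3⟩ := g3_diff hT h
  have cs : D.c (C.sc T : Kˣ) = (C.sc T : Kˣ) :=
    g4_fix (by rw [Cw.sc, smul_mul', smul_nu, smul_nu])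
  have hk : 0 < (D.Φ (C.sc T : Kˣ)).re := by
    rw [Cw.sc, Units.val_mul, g4_mul (g4_fix (smul_nu _ _))]
    exact mul_pos (g4_nu _) (g4_nu _)
  replace d1 := congrArg (fun x => (D.Φ x).re) d1
  replace d2 := congrArg (fun x => (D.Φ x).re) d2
  replace d3 := congrArg (fun x => (D.Φ x).re) d3
  simp only [Units.val_mul, g4_mul cs, map_sub, Complex.sub_re] at d1 d2 d3
  refine ⟨_, (D.Φ ((D.σ • ξ : Kˣ) : K)).re, _, rfl, rfl,
    sub_neg.1 (d1 ▸ mul_neg_of_pos_of_neg hk s1), sub_pos.1 (d3 ▸ mul_pos hk s3),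
    sub_neg.1 (d2 ▸ mul_neg_of_pos_of_neg hk s2), ?_⟩
  rw [← h.norm C.rt, mul_assoc ξ, Units.val_mul, Units.val_mul, g4_mul (g4_fix (g4_c h hX)),
    g4_mul (g4_fix (g4_cs (g4_c h hX))), mul_assoc]

theorem g4_plus (hT : D.Tp T) (h : C.Pt T X Y ξ) (hX : D.c X = X) (hY : D.c Y = Y) :
    D.s0 ξ = 0 ∧ D.b0 ξ = 0 := by
  have y0 := g4_y h
  have cx := g4_c h hX
  have cy : D.c • Units.mk0 Y y0 = Units.mk0 Y y0 := Units.ext hY
  have e : ξ * D.σ • ξ * (D.σ * D.σ) • ξ = Units.mk0 Y y0 * Units.mk0 Y y0 :=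
    Units.ext (h.norm C.rt)
  obtain ⟨x, y, z, hx, -, h1, h2, -, h4⟩ := g4_ord hT h hX
  obtain ⟨a1, a2, -, a4⟩ := g3_atq (C := C) hT
  rw [D.s0_eq _ ⟨cx, _, cy, e⟩, D.b0_eq _ ⟨cx, _, cy, e⟩]
  constructor
  · refine if_neg (hx ▸ e2d_max ?_ h1 h2)
    rw [h4, g4_mul hY]
    exact mul_self_pos.2 fun e => (map_ne_zero D.Φ).2 y0 (Complex.ext e (g4_im hY))
  · rw [D.ip.f_mult cx (g4_cs cx) (by rw [mul_smul]; exact g4_cs (g4_cs cx)) cy e
      (g3_diff hT h).1 (g3_diff hT h).2.1 a1 a2, a4, mul_zero]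

theorem g4_minus (hT : D.Tp T) (h : C.Pt T X Y ξ) (hX : D.c X = X) (hY : D.c Y = -Y) :
    D.s0 ((D.σ * D.σ) • ξ) = 0 ∧ D.b0 ξ = od D.q ((D.σ * D.σ) • ξ) := by
  have y0 := g4_y h
  have c0 := g4_c h hX
  have c1 := g4_cs c0
  have c2 : D.c • (D.σ * D.σ) • ξ = (D.σ * D.σ) • ξ := by rw [mul_smul]; exact g4_cs c1
  obtain ⟨u, hu⟩ : ∃ u : Kˣ, (u : K) = Y := ⟨Units.mk0 Y y0, rfl⟩
  have cu : D.c • u = -u := Units.ext (by rw [val_smul_units, Units.val_neg, hu, hY])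
  have su : D.σ • u = u := Units.ext (by rw [val_smul_units, hu, h.fy])
  have cuu : D.c • (u * u) = u * u := by rw [smul_mul', cu, neg_mul_neg]
  have e : ξ * D.σ • ξ * (D.σ * D.σ) • ξ = u * u := Units.ext (by
    rw [h.norm C.rt, Units.val_mul, hu])
  have s3 : ∀ x : Kˣ, D.σ • D.σ • D.σ • x = x := fun x => Units.ext (g1_three _)
  have mk : ∀ x : Kˣ, D.c • x = x → x * D.σ • x * (D.σ * D.σ) • x = u * u →
      Mk D.σ D.c (u * u * x) := fun x hx e => ⟨by rw [smul_mul', cuu, hx], u * u * (u * u),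
    by rw [smul_mul', cuu], by
      simp only [mul_smul, smul_mul', su] at e ⊢
      generalize D.σ • D.σ • x = z at *
      generalize D.σ • x = y at *
      calc _ = u * u * (u * u) * (u * u) * (x * y * z) := by ac_rfl
        _ = _ := by rw [e]; ac_rfl⟩
  have sq : ∀ {φ : Kˣ → ZMod 2}, (∀ x y, φ (x * y) = φ x + φ y) → ∀ x, φ x = φ (u * u * x) :=
    fun hφ x => by rw [hφ, hφ, CharTwo.add_self_eq_zero, zero_add]
  obtain ⟨x, y, z, -, hz, -, h2, h3, h4⟩ := g4_ord hT h hX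
  obtain ⟨a1, a2, a3, a4⟩ := g3_atq (C := C) hT
  obtain ⟨d1, d2, -⟩ := g3_diff hT h
  constructor
  · have h5 : (D.Φ (Y * Y)).re < 0 := by
      have h6 : (D.Φ Y).re = 0 := by
        have := congrArg Complex.re (D.hΦ Y)
        rw [hY, map_neg, Complex.neg_re, Complex.conj_re] at this
        linarith
      rw [map_mul, Complex.mul_re, h6, zero_mul, zero_sub, neg_lt_zero]
      exact mul_self_pos.2 fun e => (map_ne_zero D.Φ).2 y0 (Complex.ext h6 e)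
    have h6 : z < 0 := not_le.1 fun h0 => absurd (h4 ▸ h5)
      (mul_nonneg (mul_nonneg (h0.trans h2.le) (h0.trans h3.le)) h0).not_gt
    rw [sq D.s0_mul, D.s0_eq _ (mk _ c2 (by
      rw [← e]
      simp only [mul_smul, s3]
      ac_rfl)), sr_mul D.hΦ cuu c2, sr, sr, if_pos (by rwa [Units.val_mul, hu]),
      if_pos (hz ▸ h6)]
    rfl
  · rw [sq D.b0_mul, D.b0_eq _ (mk _ c0 e), D.ip.f_mult (y := u * u * D.σ • ξ)
      (z := u * u * (D.σ * D.σ) • ξ) (a := u * u * (C.sc T * C.a)) (b := u * u * (C.sc T * C.b))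
      (r := u * u * (u * u)) (by rw [smul_mul', cuu, c0]) (by rw [smul_mul', cuu, c1])
      (by rw [smul_mul', cuu, c2]) (by rw [smul_mul', cuu])
      (calc _ = u * u * (u * u) * (u * u) * (ξ * D.σ • ξ * (D.σ * D.σ) • ξ) := by ac_rfl
        _ = _ := by rw [e]; ac_rfl)
      (by rw [Units.val_mul (u * u), d1]; push_cast; ring)
      (by rw [Units.val_mul (u * u), d2]; push_cast; ring)
      (by rw [e2d_ord, e2d_ord]; exact Even.add ⟨_, rfl⟩ a1)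
      (by rw [e2d_ord (x := u * u), e2d_ord (x := u * u), a2, add_assoc]),
      ← sq (od_mul D.q), ← mul_neg, D.ip.f_mul cuu (Units.ext (by
        rw [val_smul_units, Units.val_neg, map_neg, ← val_smul_units, a3])), D.ip.f_anti cu, a4,
      add_zero, mul_one]

end Pool.Agent.Lib.MP_775b3b_nt.CM
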