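import Pool.Agent.Lib.MP_775b3b_nt.CM3.NDef3
import Pool.Agent.Lib.MP_775b3b_nt.CM3.K1

/-! Finiteness of the group of points. -/

namespace Pool.Agent.Lib.MP_775b3b_nt.CM

open Pool.Agent.Lib.MP_439fea_co NumberField WithZero

variable {F K : Type} [Field F] [NumberField F] [Field K] [NumberField K] [Algebra F K]
  {s Q n : ℕ} {t : K} {σ : Ga K}

omit [NumberField K] in
theorem g6_units {x : Kˣ} : IsSquare x ↔ IsSquare (x : K) := by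
  constructor
  · rintro ⟨r, rfl⟩
    exact ⟨r, rfl⟩
  · rintro ⟨r, hr⟩
    have h0 : r ≠ 0 := by
      rintro rfl
      exact x.ne_zero (hr.trans (mul_zero 0))
    exact ⟨Units.mk0 r h0, Units.ext hr⟩

theorem g6_smul (g : Ga K) {x : Kˣ} (h : IsSquare x) : IsSquare (g • x) := by
  obtain ⟨r, rfl⟩ := h
  exact ⟨g • r, smul_mul' g r r⟩

theorem g6_sq {A : Type} [CommGroup A] {x y z : A} (w : A) (hx : IsSquare x) (hy : IsSquare y)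
    (e : z = x * y * (w * w)) : IsSquare z :=
  e ▸ (hx.mul hy).mul (IsSquare.mul_self w)

theorem cl_iff (h3 : σ * σ * σ = 1) (h : Rt s Q t (σ t) (σ (σ t))) (hQ : Q ≠ 0) (hn : n ≠ 0)
    (R : K → K → Prop) (ξ : Kˣ) : Cl s Q n t (fun X Y => σ X = X ∧ σ Y = Y ∧ R X Y) ξ ↔
      ∃ ξ₀ : Kˣ, IsSquare (ξ * ξ₀) ∧ (ξ₀ = 1 ∨ ∃ X Y, Ku σ s Q n t X Y ξ₀ ∧ R X Y) := by
  constructor
  · rintro (hs | ⟨X, Y, ⟨fx, fy, r⟩, e, hs⟩)
    · exact ⟨1, by rwa [mul_one], Or.inl rfl⟩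
    · obtain ⟨-, ξ₀, k⟩ := ku_exists h3 h hQ hn fx fy e
      refine ⟨ξ₀, g6_units.2 ?_, Or.inr ⟨X, Y, k, r⟩⟩
      rwa [Units.val_mul, k.val]
  · rintro ⟨ξ₀, hs, rfl | ⟨X, Y, k, r⟩⟩
    · exact Or.inl (by rwa [mul_one] at hs)
    · refine Or.inr ⟨X, Y, ⟨k.fx, k.fy, r⟩, k.eq, ?_⟩
      have := g6_units.1 hs
      rwa [Units.val_mul, k.val] at this

theorem cl_iff' (h3 : σ * σ * σ = 1) (h : Rt s Q t (σ t) (σ (σ t))) (hQ : Q ≠ 0) (hn : n ≠ 0)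
    (ξ : Kˣ) : Cl s Q n t (fun X Y => σ X = X ∧ σ Y = Y) ξ ↔
      ∃ ξ₀ : Kˣ, IsSquare (ξ * ξ₀) ∧ (ξ₀ = 1 ∨ ∃ X Y, Ku σ s Q n t X Y ξ₀) := by
  simpa only [and_true] using cl_iff h3 h hQ hn (fun _ _ => True) ξ

theorem g6_mul (h3 : σ * σ * σ = 1) (h : Rt s Q t (σ t) (σ (σ t))) (hQ : Q ≠ 0) (hn : n ≠ 0)
    {ξ η : Kˣ} (a : Cl s Q n t (fun X Y => σ X = X ∧ σ Y = Y) ξ)
    (b : Cl s Q n t (fun X Y => σ X = X ∧ σ Y = Y) η) :
    Cl s Q n t (fun X Y => σ X = X ∧ σ Y = Y) (ξ * η) := by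
  rw [cl_iff' h3 h hQ hn] at a b ⊢
  obtain ⟨x, hx, a⟩ := a
  obtain ⟨y, hy, b⟩ := b
  have hxy := hx.mul hy
  rw [mul_mul_mul_comm] at hxy
  rcases a with rfl | ⟨X, Y, k⟩
  · exact ⟨y, by rwa [one_mul] at hxy, b⟩
  rcases b with rfl | ⟨X', Y', k'⟩
  · exact ⟨x, by rwa [mul_one] at hxy, Or.inr ⟨X, Y, k⟩⟩
  rcases k.mul h3 h hQ hn k' with e | ⟨X'', Y'', z, k'', e⟩
  · refine ⟨1, g6_sq (x * y)⁻¹ hxy e ?_, Or.inl rfl⟩
    apply Units.ext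
    simp only [Units.val_mul, Units.val_inv_eq_inv_val, Units.val_one]
    field_simp
  · refine ⟨z, g6_sq (x * y)⁻¹ hxy e ?_, Or.inr ⟨X'', Y'', k''⟩⟩
    apply Units.ext
    simp only [Units.val_mul, Units.val_inv_eq_inv_val]
    field_simp

theorem g6_inv (h3 : σ * σ * σ = 1) (h : Rt s Q t (σ t) (σ (σ t))) (hQ : Q ≠ 0) (hn : n ≠ 0)
    {ξ : Kˣ} (a : Cl s Q n t (fun X Y => σ X = X ∧ σ Y = Y) ξ) :
    Cl s Q n t (fun X Y => σ X = X ∧ σ Y = Y) ξ⁻¹ := by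
  rw [cl_iff' h3 h hQ hn] at a ⊢
  obtain ⟨x, hx, a⟩ := a
  refine ⟨x, g6_sq ξ⁻¹ hx IsSquare.one ?_, a⟩
  apply Units.ext
  simp only [Units.val_mul, Units.val_inv_eq_inv_val, Units.val_one]
  field_simp

omit [NumberField F] [NumberField K] in
theorem g6_map (x : F) : algebraMap F K (cb s Q (n : F) x) = cb s Q (n : K) (algebraMap F K x) := by
  simp only [cb, map_add, map_sub, map_mul, map_pow, map_natCast, map_ofNat]

theorem crv_finite3 (h : CE s Q F t σ) (hQ : Q ≠ 0) (hn : n ≠ 0) {c : Ga K} (ct : c t = t)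
    (cc : c * c = 1) (H : Triv s Q n t σ c (MulAction.stabilizer (Ga K) t)) :
    Finite ((crv s Q n).toAffine.baseChange F).Point := by
  have h3 := h.cub.three
  let A : Subgroup Kˣ :=
    { carrier := {ξ | Cl s Q n t (fun X Y => σ X = X ∧ σ Y = Y) ξ}
      one_mem' := Or.inl IsSquare.one
      mul_mem' := fun a b => g6_mul h3 h.rt hQ hn a b
      inv_mem' := fun a => g6_inv h3 h.rt hQ hn a }
  have mA : ∀ ξ, ξ ∈ A ↔
      ∃ ξ₀ : Kˣ, IsSquare (ξ * ξ₀) ∧ (ξ₀ = 1 ∨ ∃ X Y, Ku σ s Q n t X Y ξ₀) :=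
    fun ξ => cl_iff' h3 h.rt hQ hn ξ
  have hA : ∀ ξ ∈ A, IsSquare ξ := by
    refine H A ?_ (fun ξ a => a) ?_
    · intro g hg ξ a
      obtain ⟨x, hx, a⟩ := (mA ξ).1 a
      refine (mA _).2 ⟨g • x, ?_, ?_⟩
      · rw [← smul_mul']
        exact g6_smul g hx
      · rcases a with rfl | ⟨X, Y, k⟩
        · exact Or.inl (smul_one g)
        · exact Or.inr ⟨_, _, k.smul hg (h.cub.cen g)⟩
    · intro ξ a hs
      obtain ⟨x, hx, rfl | ⟨X, Y, k⟩⟩ := (mA ξ).1 a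
      · exact ⟨1, one_mem _, 1, one_mem _, by rwa [mul_one], Or.inl IsSquare.one,
          Or.inl IsSquare.one⟩
      have hc := g6_smul c hx
      rw [smul_mul'] at hc
      have h1 : IsSquare (x * c • x) := by
        refine g6_sq (c • ξ * ξ)⁻¹ (hx.mul hc) hs ?_
        generalize c • ξ = u, c • x = v
        apply Units.ext
        simp only [Units.val_mul, Units.val_inv_eq_inv_val]
        field_simp
      obtain ⟨y, z, hy, hz, e⟩ := k.split h3 h.rt hQ hn ct (h.cub.cen c) cc h1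
      refine ⟨y, (mA y).2 ⟨y, IsSquare.mul_self y, ?_⟩, z, (mA z).2 ⟨z, IsSquare.mul_self z, ?_⟩,
        g6_sq x⁻¹ hx e ?_,
        (cl_iff h3 h.rt hQ hn (fun X Y => c X = X ∧ c Y = Y) y).2 ⟨y, IsSquare.mul_self y, hy⟩,
        (cl_iff h3 h.rt hQ hn (fun X Y => c X = X ∧ c Y = -Y) z).2 ⟨z, IsSquare.mul_self z, hz⟩⟩
      · exact hy.imp id fun ⟨X, Y, k, _⟩ => ⟨X, Y, k⟩
      · exact hz.imp id fun ⟨X, Y, k, _⟩ => ⟨X, Y, k⟩
      · apply Units.ext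
        simp only [Units.val_mul, Units.val_inv_eq_inv_val]
        field_simp
  refine crv_finite h hQ hn ∅ (fun _ a => a.elim) (fun _ a => a.elim) fun x y e _ _ => ?_
  have e' : algebraMap F K y ^ 2 = cb s Q (n : K) (algebraMap F K x) := by
    rw [← map_pow, e, g6_map]
  obtain ⟨-, ξ, k⟩ := ku_exists h3 h.rt hQ hn ((h.fix _).2 ⟨x, rfl⟩) ((h.fix _).2 ⟨y, rfl⟩) e'
  rw [← k.val]
  exact g6_units.1 (hA ξ ((mA ξ).2 ⟨ξ, IsSquare.mul_self ξ, Or.inr ⟨_, _, k⟩⟩))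

end Pool.Agent.Lib.MP_775b3b_nt.CM
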