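import Pool.Agent.Lib.MP_775b3b_nt.CM3.G2
import Pool.Agent.Lib.MP_775b3b_nt.CM3.G4
import Pool.Agent.Lib.MP_775b3b_nt.CM3.G6
import Pool.Agent.Lib.MP_775b3b_nt.CM3.D8
import Pool.Agent.Lib.MP_775b3b_nt.CM3.D9

/-! A twist all of whose compatible groups of classes are trivial. -/

namespace Pool.Agent.Lib.MP_775b3b_nt.CM

open Pool.Agent.Lib.MP_439fea_co NumberField WithZero

variable {K : Type} [Field K] [NumberField K] [IsGalois ℚ K] {D : Dt K} {C : Cw D}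
  {S T : Finset (P K)} {ξ : Kˣ} {X Y : K} {p : P K}

omit [IsGalois ℚ K] in
theorem g5_nm {v w : P K} {g g' : Ga K} (e : g • v = g' • w) : nm v = nm w := by
  rw [← nm_smul g v, e, nm_smul]

theorem Cw.kap (C : Cw D) (hS : D.Ok S) (hp : p ∈ S) (hq : p ≠ D.q)
    (h0 : ∀ γ, (co (sy p) (C.a * C.c)).coeff γ = 0 ↔ γ ∈ D.G)
    (h : ∀ v ∈ S, v ≠ D.q → v ≠ p → co (sy v) (C.a * C.c) = 0) :
    Kap3 D.σ D.G (⟨D.q, hS.mem⟩ : S) ⟨p, hp⟩ (D.loc S (C.a * C.c)) := by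
  refine ⟨fun b γ => ?_, C.kap_od, fun γ => ?_, fun t ht => ?_, fun t ht => ?_⟩
  · cases b
    exacts [C.kap_two γ, C.kap_s0 γ]
  · change (co (D.sy p) _).coeff γ = 0 ↔ _
    rw [D.sy_ne hq, h0]
  · change co (D.sy t.1) _ = 0
    by_cases e : t.1 = D.q
    · rw [e, D.sy_q, C.kap_b0]
    · rw [D.sy_ne e, h _ t.2 e fun e => ht (Subtype.ext e)]
  · refine D.co_od C.kap_mem fun w hw e => ht (Subtype.ext ?_)
    rw [Finset.mem_singleton.1 hw] at e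
    exact (hS.inj _ hS.mem _ t.2 e).symm

variable [DecidableEq (P K)]

omit [IsGalois ℚ K] in
theorem g5_ok {κ : Kˣ} (hT : D.Tw S κ T) : D.Ok (S ∪ T) := by
  have := hT.ok
  rwa [Subsingleton.elim (fun a b : P K => Classical.propDecidable (a = b)) ‹DecidableEq (P K)›]
    at this

omit [IsGalois ℚ K] in
theorem g5_tp {κ : Kˣ} (hT : D.Tw S κ T) (hS : D.q ∈ S) (hp : p ∈ S) (hq : p ≠ D.q)
    (hl : nu K D.l ∈ Sq (val p)) : D.Tp (insert p T) := by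
  have ok := g5_ok hT
  have sp : ∀ v ∈ T, SP v := fun v hv => ok.sp v (Finset.mem_union_right _ hv)
    fun e => Finset.disjoint_left.1 hT.disj hS (e ▸ hv)
  have s0 := ok.sp p (Finset.mem_union_left _ hp) hq
  have sq : ∀ v ∈ T, ∀ w, w ∈ S ∨ w ∈ T → w ≠ v → nu K (nm w) ∈ Sq (val v) :=
    fun v hv w hw e => hT.sq v hv w (by simpa using hw) e
  refine ⟨Finset.forall_mem_insert _ _ _ |>.2 ⟨s0, sp⟩, fun v hv w hw e => ?_,
    Finset.forall_mem_insert _ _ _ |>.2 ⟨hl, hT.sql⟩⟩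
  rcases Finset.mem_insert.1 hv with rfl | h1 <;> rcases Finset.mem_insert.1 hw with rfl | h2
  · exact absurd rfl e
  · exact nu_recip s0 (sp w h2) (fun e' => e (ok.inj _ (Finset.mem_union_left _ hp) _
      (Finset.mem_union_right _ h2) e').symm) (sq w h2 v (.inl hp) e.symm)
  · exact sq v h1 w (.inl hp) e
  · exact sq v h1 w (.inr h2) e

theorem g5_mem (hT : D.Tp (insert p T)) (hS : D.q ∈ S) (hp : p ∈ S)
    (h : C.Pt (insert p T) X Y ξ) : ξ ∈ D.Z (S ∪ T) :=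
  ⟨g3_sq h, fun w hw => g3_good hT h w (hw _ (Finset.mem_union_left _ hS)) fun v hv =>
    hw v ((Finset.mem_insert.1 hv).elim (fun e => e ▸ Finset.mem_union_left _ hp)
      (Finset.mem_union_right _))⟩

omit [IsGalois ℚ K] in
theorem g5_tw (hT : D.Tp (insert p T)) (h : C.Pt (insert p T) X Y ξ) {v : P K} (hv : v ∈ T)
    (hk : co (sy v) (C.a * C.c) = 0) : co (sy v) ξ = 0 := by
  have k : ∀ γ τ : Ga K, sy v (γ⁻¹ • τ • (C.a * C.c)) = 0 := fun γ τ => by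
    have e : sy v ((τ⁻¹ * γ)⁻¹ • (C.a * C.c)) = 0 :=
      congrArg (fun m : GA (Ga K) => m.coeff (τ⁻¹ * γ)) hk
    rwa [mul_inv_rev, inv_inv, mul_smul] at e
  refine ga_ext fun γ => ?_
  change sy v (γ⁻¹ • ξ) = 0
  rw [g3_tw hT h (Finset.mem_insert_of_mem hv), k, k, mul_zero, mul_zero, add_zero]

theorem g5_lt (hT : D.Tp (insert p T)) (ok : D.Ok (S ∪ T)) (hd : Disjoint S T) (hS : D.q ∈ S)
    (hp : p ∈ S) (hq : p ≠ D.q) (h0 : ∀ γ, (co (sy p) (C.a * C.c)).coeff γ = 0 ↔ γ ∈ D.G)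
    (h : C.Pt (insert p T) X Y ξ) :
    Lt D.σ D.G D.c (⟨D.q, hS⟩ : S) ⟨p, hp⟩ (D.loc S ξ) := by
  have pt : ∀ g ∈ D.G, C.Pt (insert p T) (g⁻¹ X) (g⁻¹ Y) (g⁻¹ • ξ) := fun g hg =>
    h.smul (C.fix _ (inv_mem hg)) (D.cub.cen _)
  have i1 : ∀ (g : Ga K) (x : Kˣ), (g * D.σ)⁻¹ • D.σ • x = g⁻¹ • x := fun g x => by
    rw [← mul_smul, D.cub.cen g, mul_inv_rev, inv_mul_cancel_right]
  have i2 : ∀ (g : Ga K) (x : Kˣ), (g * D.σ)⁻¹ • (D.σ * D.σ) • x = (g * D.σ * D.σ)⁻¹ • x :=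
    fun g x => by
      rw [mul_smul, i1, ← i1 (g * D.σ * D.σ), a1_three D.cub]
  have i3 : ∀ (g : Ga K) (x : Kˣ), (g * D.σ * D.σ)⁻¹ • (D.σ * D.σ) • x = g⁻¹ • x :=
    fun g x => by rw [mul_smul, i1, i1]
  have z0 : ∀ g ∈ D.G, sy p (g⁻¹ • (C.a * C.c)) = 0 := fun g hg => (h0 g).2 hg
  have z1 : ∀ g ∉ D.G, sy p (g⁻¹ • (C.a * C.c)) = 1 := fun g hg =>
    (by decide : ∀ t : ZMod 2, t ≠ 0 → t = 1) _ (mt (h0 g).1 hg)
  refine ⟨g3_zc hT h, fun g hg => ?_, fun g hg => ?_, fun g hg => ?_, fun g hg => ?_,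
    fun t h1 h2 => ga_ext fun g => ?_⟩
  · change od D.q ((g * 1)⁻¹ • ξ) = 0
    rw [mul_one, od_eq_zero]
    exact even_ord_of_mem_Sq (g3_q hT (pt g hg))
  · change D.sy D.q (g⁻¹ • ξ) = D.sy D.q ((g * D.c)⁻¹ • ξ)
    have := D.b0_c (g3_sq (pt g hg))
    rw [sl_eq_ns _ (even_ord_of_mem_Sq (g3_q hT (pt g hg))), ns_eq_zero.2 (g3_q hT (pt g hg)),
      add_eq_zero_iff_eq_neg, CharTwo.neg_eq] at this
    rw [D.sy_q, mul_inv_rev, D.cinv, mul_smul, this]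
  · change od p ((g * D.σ)⁻¹ • ξ) = D.sy p ((g * D.σ * D.σ)⁻¹ • ξ)
    rw [D.sy_ne hq, g3_tw hT h (Finset.mem_insert_self _ _), i3, i3, i1, i1, z0 g hg,
      z1 _ fun e => D.cub.nmem ((Subgroup.mul_mem_cancel_left _ hg).1 e), mul_zero, mul_one,
      zero_add]
  · change od p ((g * D.σ * D.σ)⁻¹ • ξ) = D.sy p ((g * D.σ)⁻¹ • ξ)
    rw [D.sy_ne hq, g3_tw hT h (Finset.mem_insert_self _ _), i2, i2, i1, i1, z0 g hg,
      z1 _ fun e => D.cub.nmem2 ((Subgroup.mul_mem_cancel_left _ hg).1 (mul_assoc g _ _ ▸ e)),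
      mul_zero, mul_one, add_zero]
  · change od t.1 (g⁻¹ • ξ) = 0
    rw [od_eq_zero, ord_smul']
    have ht := Finset.mem_union_left T t.2
    refine g3_good hT h _ (fun g' e => h1 (Subtype.ext (ok.inj _ ht _ ok.mem (g5_nm e).symm)))
      fun v hv g' e => ?_
    rcases Finset.mem_insert.1 hv with rfl | hv
    · exact h2 (Subtype.ext (ok.inj _ ht _ (Finset.mem_union_left T hp) (g5_nm e).symm))
    · exact Finset.disjoint_left.1 hd t.2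
        (ok.inj _ (Finset.mem_union_right S hv) _ ht (g5_nm e) ▸ hv)

omit [DecidableEq (P K)] in
theorem Cw.main (C : Cw D) :
    ∃ d : ℕ, 0 < d ∧ Triv C.s D.l (d * jj C.s D.l) C.t D.σ D.c D.G := by
  classical
  obtain ⟨p, sp, hl, h0⟩ := C.exists_p
  obtain ⟨S, hp, hS, hI, hk⟩ := D.exists_aux C.kap_mem (fun g hg => C.kap_fix hg) C.kap_two sp
  have hq : p ≠ D.q := fun e => D.c1 (sp.free _ (e ▸ D.ip.fix))
  obtain ⟨T, hT, h⟩ := D.core hS hI (D.Z_mono (Finset.singleton_subset_iff.2 hS.mem) C.kap_mem)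
    ⟨p, hp⟩ hq (C.kap hS hp hq h0 hk)
  have tp := g5_tp hT hS.mem hp hq hl
  have ok := g5_ok hT
  have l0 := D.ip.prime.ne_zero
  have n0 := mul_ne_zero tp.ne (jj_ne (s := C.s) l0)
  have mem : ∀ {x y : Kˣ}, IsSquare (x * y) → y ∈ D.Z (S ∪ T) →
      x ∈ D.Z (S ∪ T) ∧ D.loc S x = D.loc S y := fun {x y} hs hy => by
    have hx := (Subgroup.mul_mem_cancel_right _ hy).1 (D.sq_mem hs)
    have := D.loc_isSquare hS hs
    rw [D.loc_mul hS ok hx hy, add_eq_zero_iff_eq_neg] at this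
    exact ⟨hx, this.trans (neg_eq_iff_add_eq_zero.2 (funext fun i => add_self_ga _))⟩
  have fx : ∀ {x y : Kˣ}, IsSquare (x * y) → D.c • y = y → IsSquare (D.c • x * x) :=
    fun {x y} hs hy => by
      obtain ⟨r, hr⟩ := hs
      have h1 := congrArg (D.c • ·) hr
      simp only [smul_mul', hy] at h1
      refine ⟨D.c • r * r * y⁻¹, ?_⟩
      rw [eq_mul_inv_of_mul_eq h1, eq_mul_inv_of_mul_eq hr]
      generalize D.c • r = z
      ac_rfl
  have l1 : D.loc S 1 = 0 := D.loc_isSquare hS IsSquare.one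
  have is : D.σ⁻¹ = D.σ * D.σ := (a1_inv D.cub).1
  refine ⟨_, Nat.pos_of_ne_zero tp.ne, fun A hG h1 h2 => h A (fun x hx => ?_) hG
    (fun x hx => ?_) fun x hx hs => ?_⟩
  · obtain ⟨y, hy, rfl | ⟨X, Y, k⟩⟩ := (cl_iff' D.cub.three C.rt l0 n0 x).1 (h1 x hx)
    exacts [(mem hy (one_mem _)).1, (mem hy (g5_mem tp hS.mem hp k)).1]
  · obtain ⟨y, hy, k⟩ := (cl_iff' D.cub.three C.rt l0 n0 x).1 (h1 x hx)
    have e : ∀ v ∈ T, co (sy v) y = 0 → co (sy v) x = 0 := fun v hv e => by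
      have sv := sy_mul (tp.sp v (Finset.mem_insert_of_mem hv))
      have := co_isSquare sv hy
      rwa [co_mul sv, e, add_zero] at this
    obtain rfl | ⟨X, Y, k⟩ := k
    · refine ⟨fun v hv => e v hv (co_isSquare (sy_mul (tp.sp v (Finset.mem_insert_of_mem hv)))
        IsSquare.one), ?_⟩
      rw [(mem hy (one_mem _)).2, l1]
      exact ⟨fun _ _ => rfl, fun _ _ => rfl, fun _ _ => rfl, fun _ _ => rfl, fun _ _ => rfl,
        fun _ _ _ => rfl⟩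
    · refine ⟨fun v hv => e v hv (g5_tw tp k hv (hT.kap v hv)), ?_⟩
      rw [(mem hy (g5_mem tp hS.mem hp k)).2]
      exact g5_lt tp ok hT.disj hS.mem hp hq h0 k
  · obtain ⟨x1, m1, x2, m2, e, c1, c2⟩ := h2 x hx hs
    obtain ⟨y1, e1, k1⟩ := (cl_iff D.cub.three C.rt l0 n0
      (fun X Y => D.c X = X ∧ D.c Y = Y) x1).1 c1
    obtain ⟨y2, e2, k2⟩ := (cl_iff D.cub.three C.rt l0 n0
      (fun X Y => D.c X = X ∧ D.c Y = -Y) x2).1 c2
    refine ⟨x1, m1, x2, m2, e, fx e1 ?_, fx e2 ?_, ?_, ?_⟩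
    · obtain rfl | ⟨X, Y, k, hX, -⟩ := k1
      exacts [smul_one _, g4_c k hX]
    · obtain rfl | ⟨X, Y, k, hX, -⟩ := k2
      exacts [smul_one _, g4_c k hX]
    · obtain rfl | ⟨X, Y, k, hX, hY⟩ := k1
      · rw [(mem e1 (one_mem _)).2, l1]
        exact ⟨rfl, (zero_mul _).symm⟩
      · rw [(mem e1 (g5_mem tp hS.mem hp k)).2]
        obtain ⟨s1, s2⟩ := g4_plus tp k hX hY
        refine ⟨?_, ?_⟩
        · change D.s0 ((1 : Ga K)⁻¹ • y1) = 0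
          rw [inv_one, one_smul, s1]
        · change D.sy D.q ((1 : Ga K)⁻¹ • y1) = _ * 0
          rw [inv_one, one_smul, D.sy_q, s2, mul_zero]
    · obtain rfl | ⟨X, Y, k, hX, hY⟩ := k2
      · rw [(mem e2 (one_mem _)).2, l1]
        exact ⟨rfl, (zero_mul _).symm⟩
      · rw [(mem e2 (g5_mem tp hS.mem hp k)).2]
        obtain ⟨s1, s2⟩ := g4_minus tp k hX hY
        refine ⟨?_, ?_⟩
        · change D.s0 (D.σ⁻¹ • y2) = 0
          rw [is, s1]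
        · change D.sy D.q ((1 : Ga K)⁻¹ • y2) = od D.q (D.σ⁻¹ • y2) * 1
          rw [inv_one, one_smul, D.sy_q, s2, is, mul_one]

end Pool.Agent.Lib.MP_775b3b_nt.CM
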