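import Pool.Agent.Lib.MP_775b3b_nt.CM3.NDef3
import Pool.Agent.Lib.MP_775b3b_nt.CM.E5b
import Pool.Agent.Lib.MP_775b3b_nt.CM.C10a

/-! A prime whose Frobenius element is a given involution. -/

namespace Pool.Agent.Lib.MP_775b3b_nt.CM

open Pool.Agent.Lib.MP_439fea_co NumberField WithZero

variable {F : Type} [Field F] [NumberField F] [IsGalois ℚ F]

theorem g7_inertia {w : P F} {p : ℕ} (hp : p.Prime) (hw : val w (p : F) = exp (-1 : ℤ)) :
    w.asIdeal.inertia (Ga F) = ⊥ := by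
  have h : val w (p : F) < 1 := hw ▸ c10a_lt
  have := w.isPrime
  have := (liesOver_iff_val hp w).mpr h
  have hpz : Prime (p : ℤ) := Nat.prime_iff_prime_int.mp hp
  have hmax : (Ideal.span {(p : ℤ)}).IsMaximal := hpz.isMaximal_span_singleton
  have hne : Ideal.span {(p : ℤ)} ≠ ⊥ := by simpa using hp.ne_zero
  have : Finite (ℤ ⧸ Ideal.span {(p : ℤ)}) := Ring.HasFiniteQuotients.finiteQuotient hne
  have h1 := Ideal.card_inertia_eq_ramificationIdxIn (G := Ga F) (Ideal.span {(p : ℤ)}) w.asIdeal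
  rw [Ideal.ramificationIdxIn_eq_ramificationIdx _ w.asIdeal (Ga F),
    ← Ideal.ramificationIdx'_eq_ramificationIdx (Ideal.span {(p : ℤ)}) w.asIdeal hne] at h1
  let v : IsDedekindDomain.HeightOneSpectrum ℤ := ⟨Ideal.span {(p : ℤ)}, hmax.isPrime, hne⟩
  have : w.asIdeal.LiesOver v.asIdeal := (liesOver_iff_val hp w).mpr h
  have h4 := IsDedekindDomain.HeightOneSpectrum.intValuation_liesOver v w (p : ℤ)
  have h5 : v.intValuation (p : ℤ) = exp (-1 : ℤ) :=
    IsDedekindDomain.HeightOneSpectrum.intValuation_singleton v hpz.ne_zero rfl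
  rw [h5, ← h1, ← IsDedekindDomain.HeightOneSpectrum.valuation_of_algebraMap (K := F)] at h4
  have h6 : w.valuation F (algebraMap (𝓞 F) F (algebraMap ℤ (𝓞 F) (p : ℤ))) =
      exp (-1 : ℤ) := by rw [← hw, map_natCast, map_natCast]
  rw [h6, ← exp_nsmul, exp_inj] at h4
  rw [← Subgroup.card_eq_one]
  simpa using h4

theorem inertia_one {w : P F} {p : ℕ} (hp : p.Prime) (hw : val w (p : F) = exp (-1 : ℤ))
    {g : Ga F} (h : ∀ x : F, val w x ≤ 1 → val w (g x - x) < 1) : g = 1 := by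
  rw [← Subgroup.mem_bot, ← g7_inertia hp hw]
  exact fun x => (Val_lt_iff_mem w (g • x - x)).1 (h x (w.valuation_le_one x))

omit [IsGalois ℚ F] in
theorem g7_int (q : P F) (n : ℤ) : val q (n : F) ≤ 1 := by
  simpa using q.valuation_le_one (K := F) (n : 𝓞 F)

omit [IsGalois ℚ F] in
theorem g7_val {g : Ga F} {q : P F} (h : g • q = q) (x : F) : val q (g x) = val q x :=
  (mem_stabilizer_iff_val g q).1 h x

theorem ip_of {c : Ga F} (cc : c * c = 1) {l : ℕ} {q : P F} (hl : l.Prime) (h4 : l % 4 = 1)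
    (hu : val q (l : F) = exp (-1 : ℤ)) {θ : F} (h1 : c θ = -θ) (h2 : val q θ = 1)
    (h3 : ∀ n : ℤ, ¬ val q (θ ^ 2 - n ^ 2) < 1)
    (hr : ∀ y : F, c y = y → val q y ≤ 1 → ∃ n : ℤ, val q (y - n) < 1) : IP c l q := by
  classical
  have ci : ∀ x, c (c x) = x := fun x => DFunLike.congr_fun cc x
  have t1 : val q (2 : F) = 1 := by
    refine (val_natCast_le_one q 2).antisymm (not_lt.1 fun h => ?_)
    have := prime_under_unique q hl Nat.prime_two (hu ▸ c1a_lt) h
    omega
  have θ0 : θ ≠ 0 := fun e => by simp [e] at h2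
  have fix : c • q = q := by
    by_contra hne
    obtain ⟨e, he, -⟩ := approx {q, c • q} (fun w => if w = q then θ else 0) (exp (-1 : ℤ))
      exp_ne_zero
    have e1 := (he q (by simp)).trans_lt c1a_lt
    have e2 := (he (c • q) (by simp)).trans_lt c1a_lt
    rw [if_pos rfl] at e1
    rw [if_neg hne, sub_zero, ← val_smul c, smul_smul, cc, one_smul] at e2
    have e3 : val q (e + c e - θ) < 1 := by
      rw [add_sub_right_comm]
      exact Valuation.map_add_lt _ e1 e2
    obtain ⟨n, hn⟩ := hr (e + c e) (by rw [map_add, ci, add_comm]) (by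
      rw [← sub_add_cancel (e + c e) θ]
      exact Valuation.map_add_le _ e3.le h2.le)
    refine h3 n ?_
    rw [show θ ^ 2 - n ^ 2 = (θ + n) * (e + c e - n - (e + c e - θ)) by ring]
    exact local_mul_lt _ (Valuation.map_add_le _ h2.le (g7_int q n))
      (Valuation.map_sub_lt _ hn e3)
  have A : ∀ x : F, val q x ≤ 1 → ∃ a b : ℤ, val q (x - (a + b * θ)) < 1 := fun x hx => by
    have hc : val q (c x) ≤ 1 := (g7_val fix x).trans_le hx
    obtain ⟨a, ha⟩ := hr ((x + c x) / 2) (by rw [map_div₀, map_add, ci, map_ofNat, add_comm]) (by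
      rw [map_div₀, t1, div_one]
      exact Valuation.map_add_le _ hx hc)
    obtain ⟨b, hb⟩ := hr ((x - c x) / (2 * θ)) (by
      rw [map_div₀, map_sub, ci, map_mul, map_ofNat, h1, mul_neg, div_neg, ← neg_div, neg_sub]) (by
      rw [map_div₀, map_mul, t1, h2, one_mul, div_one]
      exact Valuation.map_sub_le _ hx hc)
    refine ⟨a, b, ?_⟩
    rw [show x - (a + b * θ) = (x + c x) / 2 - a + θ * ((x - c x) / (2 * θ) - b) by
      field_simp; ring]
    exact Valuation.map_add_lt _ ha (local_mul_lt _ h2.le hb)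
  have C : ∀ g : Ga F, g • q = q → val q (g θ - θ) < 1 → g = 1 := fun g hg h => by
    refine inertia_one hl hu fun x hx => ?_
    obtain ⟨a, b, hab⟩ := A x hx
    rw [show g x - x = g (x - (a + b * θ)) - (x - (a + b * θ)) + b * (g θ - θ) by
      rw [map_sub, map_add, map_mul, map_intCast, map_intCast]; ring]
    exact Valuation.map_add_lt _ (Valuation.map_sub_lt _ ((g7_val hg _).trans_lt hab) hab)
      (local_mul_lt _ (g7_int q b) h)
  refine ⟨hl, h4, hu, fix, fun g hg => ?_, hr, θ, h1, h2⟩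
  obtain ⟨n, hn⟩ := hr (θ ^ 2) (by rw [map_pow, h1, neg_sq]) (by rw [map_pow, h2, one_pow])
  have e := Valuation.map_sub_lt _ ((g7_val hg _).trans_lt hn) hn
  rw [map_sub g, map_pow, map_intCast, sub_sub_sub_cancel_right, sq_sub_sq, map_mul] at e
  by_cases h : val q (g θ - θ) < 1
  · exact Or.inl (C g hg h)
  refine Or.inr (mul_left_cancel ((C (c * g) (by rw [mul_smul, hg, fix]) ?_).trans cc.symm))
  rw [AlgEquiv.mul_apply, sub_eq_add_neg, ← h1, ← map_add, g7_val fix]
  exact (le_mul_of_one_le_right' (not_lt.1 h)).trans_lt e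

theorem exists_ip {c : Ga F} (cc : c * c = 1) (c1 : c ≠ 1) (hi : ∀ i : F, i ^ 2 ≠ -1) (Y : ℕ) :
    ∃ (l : ℕ) (q : P F), Y < l ∧ IP c l q := by
  have ci : ∀ x, c (c x) = x := fun x => DFunLike.congr_fun cc x
  obtain ⟨z, hz⟩ : ∃ z, c z ≠ z := not_forall.1 fun h => c1 (AlgEquiv.ext h)
  obtain ⟨θ, θ0, h1⟩ : ∃ θ : F, θ ≠ 0 ∧ c θ = -θ :=
    ⟨z - c z, sub_ne_zero.2 hz.symm, by rw [map_sub, ci, neg_sub]⟩
  let k := IntermediateField.fixedField (Subgroup.zpowers c)
  have mk : ∀ x : F, x ∈ k ↔ c x = x := fun x =>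
    ⟨fun h => (IntermediateField.mem_fixedField_iff _ x).1 h c (Subgroup.mem_zpowers c),
      fun h => (IntermediateField.mem_fixedField_iff _ x).2 fun g hg =>
        (Subgroup.zpowers_le (H := MulAction.stabilizer (Ga F) x)).2 h hg⟩
  obtain ⟨η, hη⟩ : ∃ η : kˣ, algebraMap k F η = θ ^ 2 :=
    ⟨Units.mk0 ⟨θ ^ 2, (mk _).2 (by rw [map_pow, h1, neg_sq])⟩
      fun e => pow_ne_zero 2 θ0 (congrArg Subtype.val e), rfl⟩
  obtain ⟨Y₁, hY₁⟩ := sym_bound fun _ : Unit => η
  obtain ⟨v, hp, hY, h5, h6⟩ := sym_ind 1 k (fun _ => -1) η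
    ((powMonoidHom 4 : kˣ →* kˣ).range.comap (powMonoidHom 2))
    (fun x hx => by
      obtain ⟨w, rfl⟩ := mem_Sqs.1 hx
      exact ⟨w, pow_mul w 2 2⟩)
    (fun _ => ⟨1, by simp⟩) (by
      rintro ⟨w, hw⟩
      have e : (θ ^ 2) ^ 2 = (algebraMap k F w ^ 2) ^ 2 := by
        rw [← hη, ← pow_mul, ← map_pow, ← map_pow, ← Units.val_pow_eq_pow_val,
          ← Units.val_pow_eq_pow_val]
        exact congrArg _ (congrArg _ hw.symm)
      have w0 : algebraMap k F w ≠ 0 := (map_ne_zero _).2 w.ne_zero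
      have cw : c (algebraMap k F w) = algebraMap k F w := (mk _).1 (w : k).2
      rcases sq_eq_sq_iff_eq_or_eq_neg.1 e with e | e
      · refine θ0 (self_eq_neg.1 (h1 ▸ ?_))
        rcases sq_eq_sq_iff_eq_or_eq_neg.1 e with e | e
        · rw [e, cw]
        · rw [e, map_neg, cw]
      · exact hi (θ / algebraMap k F w) (by rw [div_pow, e, neg_div_self (pow_ne_zero 2 w0)]))
    (max Y (max Y₁ (discr F).natAbs))
  obtain ⟨t1, t2⟩ := hY₁ v (by omega)
  obtain ⟨q, rfl⟩ := exists_over F v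
  refine ⟨_, q, by omega, ip_of cc hp ?_ (e5b_unr hp (fun hd => ?_) q ?_) h1 ?_ (fun n hn => ?_)
    fun y hy h => ?_⟩
  · have h8 := rec3_nm t1
    rw [(ns_eq_zero (x := -1)).2 (h6 0)] at h8
    exact (ZMod.natCast_eq_natCast_iff' _ 1 4).1 h8
  · have := Nat.le_of_dvd (Int.natAbs_pos.2 (discr_ne_zero F)) (Int.natCast_dvd.1 hd)
    change nm (und k q) ≤ _ at this
    omega
  · have := (e5b_lt q _).2 (intp2_val_absNorm (und k q))
    rwa [map_natCast] at this
  · have := (val_algebraMap_eq_one_iff q (η : k)).2 (t2 ())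
    rw [hη, map_pow] at this
    exact (pow_eq_one_iff_of_nonneg zero_le two_ne_zero).1 this
  · rw [← hη, ← map_intCast (algebraMap k F), ← map_pow, ← map_sub, e5b_lt, sq] at hn
    have h4 : val (und k q) ((n : k) * n) = 1 := by
      have := (val (und k q)).map_sub_eq_of_lt_left (x := (η : k)) (y := η - n * n)
        (by rwa [t2 ()])
      rwa [sub_sub_cancel, t2 ()] at this
    have h7 : (n : k) ≠ 0 := fun e => by simp [e] at h4
    refine h5 ?_
    rw [← Subgroup.mul_mem_cancel_right _ (inv_mem (rec1_sq _ (Units.mk0 _ h7))),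
      ← div_eq_mul_inv]
    refine rec1_One t1 ?_
    rw [Units.val_div_eq_div_val, Units.val_mul, Units.val_mk0, div_sub_one (mul_ne_zero h7 h7),
      map_div₀, h4, div_one]
    exact hn
  · obtain ⟨n, hn⟩ := res1_of_absNorm hp ⟨y, (mk y).2 hy⟩ (not_lt.1 fun e => h.not_gt (by
      simpa using (val_algebraMap_lt_iff q (1 : k) ⟨y, (mk y).2 hy⟩).2 (by rwa [map_one])))
    refine ⟨n, ?_⟩
    have := (e5b_lt q _).2 hn
    rwa [map_sub, map_intCast] at this

end Pool.Agent.Lib.MP_775b3b_nt.CM
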