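import Pool.Agent.Lib.MP_775b3b_nt.CM3.NDef3
import Pool.Agent.Lib.MP_775b3b_nt.CM.E3b

/-! The complex conjugation and the inert prime in the cubic extension. -/

namespace Pool.Agent.Lib.MP_775b3b_nt.CM

open Pool.Agent.Lib.MP_439fea_co NumberField WithZero

variable {F K : Type} [Field F] [NumberField F] [IsGalois ℚ F] [Field K] [NumberField K]
  [IsGalois ℚ K] [Algebra F K] {s l : ℕ} {t : K} {σ : Ga K}

theorem CE.cx (h : CE s l F t σ) (hl : l ≠ 0) {c₀ : Ga F} (Φ₀ : F →+* ℂ)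
    (h0 : ∀ x : F, Φ₀ (c₀ x) = starRingEnd ℂ (Φ₀ x)) : ∃ (Φ : K →+* ℂ) (c : Ga K),
      (∀ x : K, Φ (c x) = starRingEnd ℂ (Φ x)) ∧ c * c = 1 ∧ c t = t ∧
      (∀ x : F, c (algebraMap F K x) = algebraMap F K (c₀ x)) ∧
      (Φ t).re < (Φ (σ t)).re ∧ (Φ t).re < (Φ (σ (σ t))).re := by
  obtain ⟨x, hx⟩ := e3b_root s l
  obtain ⟨φ, p1, p2⟩ := h.lift ℂ Φ₀ (x : ℂ) (by
    have := congrArg (fun y : ℝ => (y : ℂ)) hx
    simpa [cb] using this)
  obtain ⟨τ, hτ⟩ := ComplexEmbedding.exists_comp_symm_eq_of_comp_eq (k := ℚ) φ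
    ((starRingEnd ℂ).comp φ) (Subsingleton.elim _ _)
  obtain ⟨c, hc⟩ : ∃ c : Ga K, ∀ y, φ (c y) = starRingEnd ℂ (φ y) :=
    ⟨τ.symm, RingHom.congr_fun hτ⟩
  have cc : c * c = 1 := AlgEquiv.ext fun y => φ.injective (by
    rw [AlgEquiv.mul_apply, hc, hc, Complex.conj_conj, AlgEquiv.one_apply])
  have ct : c t = t := φ.injective (by rw [hc, p1, Complex.conj_ofReal])
  have k : ∀ y, c (σ y) = σ (c y) := fun y => DFunLike.congr_fun (h.cub.cen c) y
  have key : ∀ a ∈ e3b_N F K, (∀ y, a (c y) = c (a y)) → (φ (a t)).re < (φ (a (σ t))).re →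
      (φ (a t)).re < (φ (a (σ (σ t)))).re → ∃ (Φ : K →+* ℂ) (c : Ga K),
      (∀ x : K, Φ (c x) = starRingEnd ℂ (Φ x)) ∧ c * c = 1 ∧ c t = t ∧
      (∀ x : F, c (algebraMap F K x) = algebraMap F K (c₀ x)) ∧
      (Φ t).re < (Φ (σ t)).re ∧ (Φ t).re < (Φ (σ (σ t))).re := fun a _ ha h1 h2 =>
    ⟨φ.comp (a : K →+* K), c, fun y => (congrArg φ (ha y)).trans (hc _), cc, ct,
      fun y => φ.injective (by rw [hc, p2, p2, h0]), h1, h2⟩
  have ne : ∀ u v : K, c u = u → c v = v → u - v ≠ 0 → (φ u).re ≠ (φ v).re := by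
    intro u v hu hv h1 h2
    refine h1 (sub_eq_zero.2 (φ.injective (Complex.ext h2 ?_)))
    rw [Complex.conj_eq_iff_im.1 ((hc u).symm.trans (congrArg φ hu)),
      Complex.conj_eq_iff_im.1 ((hc v).symm.trans (congrArg φ hv))]
  obtain ⟨n1, n2, n3⟩ := e2a_ne h.rt hl
  have c1 : c (σ t) = σ t := by rw [k, ct]
  have c2 : c (σ (σ t)) = σ (σ t) := by rw [k, c1]
  have h1 := ne _ _ ct c1 n1
  have h2 := ne _ _ c1 c2 n2
  have h3 := ne _ _ c2 ct n3
  have k1 := key 1 (one_mem _) fun _ => rfl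
  have k2 := key σ (e3b_mem h) fun y => (k y).symm
  have k3 := key (σ * σ) (mul_mem (e3b_mem h) (e3b_mem h)) fun y => by
    rw [AlgEquiv.mul_apply, AlgEquiv.mul_apply, k, k]
  simp only [AlgEquiv.one_apply, AlgEquiv.mul_apply, e3b_three h.cub] at k1 k2 k3
  rcases h1.lt_or_gt with a | a <;> rcases h2.lt_or_gt with b | b <;>
    rcases h3.lt_or_gt with d | d
  exacts [k3 d (d.trans a), k1 a d, k3 d b, k1 a d, k2 b a, k2 b a, k3 d b, k1 (d.trans b) d]

theorem CE.ip (h : CE s l F t σ) (hs : s % l = 1) {c₀ : Ga F} {q₀ : P F} (hq : IP c₀ l q₀)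
    {c : Ga K} (ct : c t = t) (hc : ∀ x : F, c (algebraMap F K x) = algebraMap F K (c₀ x)) :
    ∃ q : P K, IP c l q ∧ val q t = 1 := by
  have hl : val q₀ (l : F) < 1 := hq.unr ▸ c1a_lt
  have un : ∀ n : ℕ, ¬ l ∣ n → val q₀ (n : F) = 1 := fun n hn =>
    (val_natCast_le_one q₀ n).antisymm (not_lt.1 fun e => hn (Val_dvd_of_lt q₀ hq.prime hl e))
  have lt : ∀ (w : P K) (x : F), val w (algebraMap F K x) < 1 ↔ val (und F w) x < 1 :=
    fun w x => by
      have := val_algebraMap_lt_iff (K := F) w x 1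
      rwa [map_one, map_one, map_one] at this
  have hsq : ∀ w : P K, und F w = q₀ → val w (s : K) = 1 ∧ val w (2 * l : K) < 1 := fun w e => ⟨by
    rw [← map_natCast (algebraMap F K), val_algebraMap_eq_one_iff, e]
    refine un s fun d => ?_
    rw [Nat.mod_eq_zero_of_dvd d] at hs
    omega, by
    rw [map_mul]
    refine (mul_le_of_le_one_left' (val_natCast_le_one _ 2)).trans_lt ?_
    rwa [← map_natCast (algebraMap F K), lt, e]⟩
  obtain ⟨w, hw⟩ := exists_over K q₀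
  obtain ⟨q, e, qt, hG⟩ := h.choose (hsq w hw).1 (hsq w hw).2
  rw [hw] at e
  have mv := h.move (hsq q e).1 (hsq q e).2
  obtain ⟨h1, h2⟩ := h.split mv
  rw [e] at h1
  have v0 : ∀ x : F, val q₀ (c₀ x) = val q₀ x := (mem_stabilizer_iff_val c₀ q₀).1 hq.fix
  have fix : c • q = q := by
    have := IsGalois.tower_top_of_isGalois ℚ F K
    have k : ∀ y : K, val (c⁻¹ • q) y = val q (c y) := fun y => by
      rw [← val_smul c, smul_inv_smul, AlgEquiv.smul_def]
    obtain ⟨a, ha⟩ := exists_smul_eq (K := F) (w := q) (w' := c⁻¹ • q) (by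
      apply IsDedekindDomain.HeightOneSpectrum.ext
      ext x
      rw [← Val_lt_iff_mem, ← Val_lt_iff_mem, ← lt, ← lt, k, hc, h1, h1, v0])
    have h3 : (c * a.restrictScalars ℚ) • q = q := (mem_stabilizer_iff_val _ q).2 fun y => by
      rw [← val_smul a q y, ha, k]
      rfl
    have h4 : a.restrictScalars ℚ t = t := c.injective ((hG _ h3).trans ct.symm)
    rcases h.res (a.restrictScalars ℚ) a.commutes with h5 | h5 | h5 <;> rw [h5] at h3 h4
    · rwa [mul_one] at h3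
    · exact absurd h4 h.cub.nmem
    · exact absurd ((congrArg σ h4).symm.trans (e3b_three h.cub t)) h.cub.nmem
  have v1 : ∀ y : K, val q (c y) = val q y := (mem_stabilizer_iff_val c q).1 fix
  refine ⟨q, ⟨hq.prime, hq.one, ?_, fix, fun g hg => ?_, fun y hy y1 => ?_, ?_⟩, qt⟩
  · rw [← hq.unr, ← h1, map_natCast (algebraMap F K)]
  · refine (hq.stab (g.restrictNormal F) ((mem_stabilizer_iff_val _ _).2 fun x => ?_)).imp
      (fun h6 => e3b_one h mv (fun y => ?_) hg) fun h6 => ?_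
    · rw [← h1, ← h1, AlgEquiv.smul_def, AlgEquiv.restrictNormal_commutes]
      exact (mem_stabilizer_iff_val g q).1 hg _
    · rw [← AlgEquiv.restrictNormal_commutes, h6]
      rfl
    · refine (inv_mul_eq_one.1 (e3b_one h mv (g := c⁻¹ * g) (fun y => c.injective ?_) ?_)).symm
      · rw [← AlgEquiv.mul_apply, mul_inv_cancel_left, hc, ← AlgEquiv.restrictNormal_commutes, h6]
      · rw [mul_smul, hg, inv_smul_eq_iff, fix]
  · obtain ⟨z, hz⟩ := h2 y y1
    have cc : c₀ (c₀ z) = z := by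
      rcases hq.stab (c₀ * c₀) (by rw [mul_smul, hq.fix, hq.fix]) with d | d
      · exact DFunLike.congr_fun d z
      · rw [mul_eq_left.1 d]
        rfl
    have two : val q (2 : K) = 1 := by
      rw [← map_ofNat (algebraMap F K), h1]
      refine un 2 fun d => ?_
      have := (Nat.prime_dvd_prime_iff_eq hq.prime Nat.prime_two).1 d
      have := hq.one
      omega
    have h3 : val q (y - algebraMap F K ((z + c₀ z) / 2)) < 1 := by
      have h4 := v1 (y - algebraMap F K z)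
      rw [map_sub, hy, hc] at h4
      rw [show y - algebraMap F K ((z + c₀ z) / 2) =
        (y - algebraMap F K z + (y - algebraMap F K (c₀ z))) / 2 by
          rw [map_div₀, map_add, map_ofNat]
          ring, map_div₀, two, div_one]
      exact Valuation.map_add_lt _ hz (h4 ▸ hz)
    obtain ⟨n, hn⟩ := hq.res ((z + c₀ z) / 2) (by
      rw [map_div₀, map_add, cc, map_ofNat, add_comm]) (h1 _ ▸ e3b_le y1 h3)
    rw [← h1, map_sub, map_intCast] at hn
    exact ⟨n, sub_add_sub_cancel y _ (n : K) ▸ Valuation.map_add_lt _ h3 hn⟩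
  · obtain ⟨θ, t1, t2⟩ := hq.th
    exact ⟨algebraMap F K θ, by rw [hc, t1, map_neg], by rw [h1, t2]⟩

end Pool.Agent.Lib.MP_775b3b_nt.CM
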