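import Pool.Agent.Lib.MP_775b3b_nt.CM3.G5
import Pool.Agent.Lib.MP_775b3b_nt.CM3.G7
import Pool.Agent.Lib.MP_775b3b_nt.CM3.G8
import Pool.Agent.Lib.MP_775b3b_nt.CM.E5d

/-! The theorem for an arbitrary Galois field. -/

namespace Pool.Agent.Lib.MP_775b3b_nt.CM

open Pool.Agent.Lib.MP_439fea_co NumberField WithZero

variable {F : Type} [Field F] [NumberField F] [IsGalois ℚ F]

theorem Base3.main {s l : ℕ} {c₀ : Ga F} {q₀ : P F} (h : Base3 s l c₀ q₀) (c1 : c₀ ≠ 1)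
    (Φ₀ : F →+* ℂ) (h0 : ∀ x : F, Φ₀ (c₀ x) = starRingEnd ℂ (Φ₀ x)) : ∃ d : ℕ, 0 < d ∧
      Finite ((crv s l (d * jj s l)).toAffine.baseChange F).Point := by
  have hQ := h.ip.prime.ne_zero
  obtain ⟨K, _, _, _, _, t, σ, E⟩ := exists_cubic F hQ h.irr
  have hs2 : ∀ w : P K, val w (2 : K) < 1 → val w (s : K) = 1 ∧ val w (2 * l : K) < 1 :=
    fun w hw => ⟨(val_natCast_le_one w s).antisymm (not_lt.1 fun c => by
      have := Val_dvd_of_lt w Nat.prime_two (by exact_mod_cast hw) c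
      have := h.s4
      omega), by
      rw [map_mul]
      exact (mul_le_of_le_one_right' (val_natCast_le_one _ _)).trans_lt hw⟩
  have two : Two K := fun w hw => by
    have e := (E.split (E.move (hs2 w hw).1 (hs2 w hw).2)).1 2
    rw [map_ofNat] at e
    rw [e] at hw ⊢
    exact h.two _ hw
  have lt : ∀ (w : P K) (n : ℕ), val w (n : K) < 1 ↔ val (und F w) (n : F) < 1 := fun w n => by
    rw [← e5b_lt w, map_natCast (algebraMap F K)]
  obtain ⟨w0, hw0⟩ := exists_over_prime K Nat.prime_two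
  obtain ⟨w, e1, w1, hG⟩ := E.choose (hs2 w0 hw0).1 (hs2 w0 hw0).2
  have hw : val w (2 : K) < 1 := (lt w 2).2 (e1 ▸ (lt w0 2).1 hw0)
  obtain ⟨α, u, hu, f1, f2, f3⟩ := exists_nb two hw hG
  obtain ⟨Φ, c, p1, cc, ct, p2, r1, r2⟩ := E.cx hQ Φ₀ h0
  obtain ⟨q, ip, q1⟩ := E.ip h.sq h.ip ct p2
  obtain ⟨s0, b0, m1, m2, m3, m4⟩ := exists_marks (E.cub.cen c) p1 ip
  have ram : ∀ w : P K, σ • w = w ∨ ∃ n : ℕ, Odd (ord w (n : K)) := fun w =>
    or_iff_not_imp_left.2 fun hw => by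
      obtain ⟨x, x1, x2⟩ := E.root hw
      obtain ⟨n, hn⟩ := (h.ram _).resolve_right fun c => c x x1 x2
      have o : ∀ x, ord w (algebraMap F K x) = ord (und F w) x := fun x =>
        congrArg (fun z => -log z) ((E.split hw).1 x)
      exact ⟨n, by rwa [← map_natCast (algebraMap F K), o]⟩
  have ne : (t - σ t) * (σ t - σ (σ t)) * (σ (σ t) - t) ≠ 0 := by
    rw [E.rt.di]
    exact mul_ne_zero (mul_ne_zero (by norm_num) (Nat.cast_ne_zero.2 hQ))
      (Nat.cast_ne_zero.2 (jj_ne hQ))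
  let D : Dt K := ⟨σ, _, E.cub, two, ram, w, hw, α, u, hu, f1, f2, f3, c, ct, cc,
    fun e => c1 (AlgEquiv.ext fun x => (algebraMap F K).injective (by rw [← p2, e]; rfl)),
    Φ, p1, l, q, ip, s0, b0, m1, m2, m3, m4⟩
  let C : Cw D := ⟨s, t, .mk0 _ (left_ne_zero_of_mul (left_ne_zero_of_mul ne)),
    .mk0 _ (right_ne_zero_of_mul (left_ne_zero_of_mul ne)), .mk0 _ (right_ne_zero_of_mul ne),
    h.s4, h.sq, fun _ hg => hg, E.rt, rfl, rfl, rfl, w1, q1, r1, r2⟩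
  obtain ⟨d, hd, m⟩ := C.main
  exact ⟨d, hd, crv_finite3 E hQ (mul_ne_zero hd.ne' (jj_ne hQ)) ct cc m⟩

theorem exists_base3 (hodd : Odd (discr F))
    (h3 : ∀ I : Ideal (𝓞 F), I.IsMaximal → Even (I.ramificationIdx ℤ) → ¬ 3 ∣ I.inertiaDeg ℤ)
    {c : Ga F} {l : ℕ} {q : P F} (hq : IP c l q) (N : ℕ) : ∃ s : ℕ, N < s ∧ Base3 s l c q := by
  classical
  have h2 : Two F := val_two_of_odd hodd
  obtain ⟨w0, hw0, hY, -⟩ := exists_sym (K := F) (ι := Empty) (fun i => i.elim) (fun i => i.elim)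
    (fun _ _ _ => by simp) l
  have hodd' : ∀ p : ℕ, p.Prime → ∀ w : P F, val w (p : F) = exp (-1 : ℤ) →
      ¬ Even (ord w (p : F)) := fun p hp w hw => by
    have h1 := val_eq_exp w (Nat.cast_ne_zero.2 hp.ne_zero : (p : F) ≠ 0)
    rw [hw, exp_inj, neg_inj] at h1
    rw [← h1]
    decide
  obtain ⟨s, hN, hs4, hsq, hA⟩ := exists_s hq.prime hq.one
    (insert (nm w0) (finite_bad F).toFinset) (fun p hp => by
      rw [Finset.mem_insert, Set.Finite.mem_toFinset] at hp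
      rcases hp with rfl | ⟨hp, w, hw, he⟩
      · have := hw0.one
        exact ⟨hw0.prime, by omega, hY.ne'⟩
      · refine ⟨hp, ?_, ?_⟩
        · rintro rfl
          exact hodd' 2 hp w (by exact_mod_cast h2 w (by exact_mod_cast hw)) he
        · rintro rfl
          obtain ⟨g, rfl⟩ := exists_smul_eq_of_prime hp hq.g_lt hw
          exact hodd' _ hp _ (by
            rw [← hq.unr, ← val_smul g q, AlgEquiv.smul_def, map_natCast g]) he) N
  refine ⟨s, hN, h2, hq, hs4, hsq, noroot_sp hw0 (hA _ (Finset.mem_insert_self _ _)), fun w => ?_⟩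
  obtain ⟨p, hp, hw⟩ := exists_prime_under w
  rcases Int.even_or_odd (ord w (p : F)) with he | he
  · refine Or.inr fun x hx => noroot_up hp (hA p (Finset.mem_insert_of_mem
      ((finite_bad F).mem_toFinset.2 ⟨hp, w, hw, he⟩))) hw (h3 _ w.isMaximal ?_) x hx
    rwa [ord_eq_ram hp hw, Int.even_coe_nat] at he
  · exact Or.inl ⟨p, he⟩

variable (F) in
theorem main_all (hodd : Odd (discr F))
    (h3 : ∀ I : Ideal (𝓞 F), I.IsMaximal → Even (I.ramificationIdx ℤ) → ¬ 3 ∣ I.inertiaDeg ℤ) :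
    {j : ℚ | ∃ (E : WeierstrassCurve ℚ) (_ : E.IsElliptic), E.j = j ∧
      Finite (E.toAffine.baseChange F).Point}.Infinite := by
  by_cases hF : ∀ c ∈ Cj F, c = 1
  · exact main_comm F (fun c hc d _ => hF c hc ▸ Commute.one_left d) hodd h3
  push Not at hF
  obtain ⟨c, ⟨φ, hc⟩, c1⟩ := hF
  obtain ⟨l, q, -, hq⟩ := exists_ip (c := c)
    (AlgEquiv.ext fun x => ComplexEmbedding.isConj_apply_apply hc x) c1 (e5d_no_i F hodd) 0
  have hQ := hq.prime.ne_zero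
  refine infinite_j hQ fun N => ?_
  obtain ⟨s, hN, hb⟩ := exists_base3 hodd h3 hq N
  obtain ⟨d, hd, hm⟩ := hb.main c1 φ hc.eq
  have hn := mul_ne_zero hd.ne' (jj_ne (s := s) hQ)
  have := crv_ell s hQ hn
  exact ⟨s, hN, _, this, crv_j s hQ hn, hm⟩

end Pool.Agent.Lib.MP_775b3b_nt.CM
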