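import Pool.Agent.Lib.MP_775b3b_nt.CM3.NDef3
import Pool.Agent.Lib.MP_775b3b_nt.CM.C1c
import Pool.Agent.Lib.MP_775b3b_nt.CM.C6b

/-! Symbols at a prime whose decomposition group has order two. -/

namespace Pool.Agent.Lib.MP_775b3b_nt.CM

open Pool.Agent.Lib.MP_439fea_co NumberField WithZero

variable {K : Type} [Field K] [NumberField K] {c : Ga K} {l : ℕ} {v : P K}

theorem i1_nu (hl : val v (l : K) = exp (-1 : ℤ)) : ord v ((nu K l : Kˣ) : K) = 1 := by
  have h0 : l ≠ 0 := fun h => exp_ne_zero (by rw [← hl, h, Nat.cast_zero, map_zero])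
  have := val_eq_exp v (nu K l).ne_zero
  rw [val_nu h0, hl, exp_inj, neg_inj] at this
  rw [val_nu h0, ← this]

theorem i1_ord (hl : val v (l : K) = exp (-1 : ℤ)) (x : Kˣ) :
    ord v ((x * nu K l ^ (-ord v (x : K)) : Kˣ) : K) = 0 := by
  rw [Units.val_mul, ord_mul v x.ne_zero (Units.ne_zero _), c1a_zpow, i1_nu hl, mul_one,
    add_neg_cancel]

theorem IP.smul (h : IP c l v) (g : Ga K) : IP (g * c * g⁻¹) l (g • v) := by
  refine ⟨h.prime, h.one, ?_, ?_, fun a ha => ?_, fun y hc hy => ?_, ?_⟩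
  · rw [← h.unr, ← val_smul g v, AlgEquiv.smul_def, map_natCast g]
  · rw [mul_smul, mul_smul, inv_smul_smul, h.fix]
  · refine (h.stab (g⁻¹ * a * g) (by rw [mul_smul, mul_smul, ha, inv_smul_smul])).imp
      (fun e => ?_) fun e => ?_
    · rwa [mul_assoc, inv_mul_eq_one, eq_comm, mul_eq_right] at e
    · rw [← e]
      group
  · have h1 : c (g⁻¹ • y) = g⁻¹ • y := eq_inv_smul_iff.2 hc
    obtain ⟨n, hn⟩ := h.res (g⁻¹ • y) h1 (by rwa [← val_smul g, smul_inv_smul])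
    refine ⟨n, ?_⟩
    rwa [← val_smul g, smul_sub, smul_inv_smul, AlgEquiv.smul_def, map_intCast] at hn
  · obtain ⟨θ, h1, h2⟩ := h.th
    refine ⟨g • θ, ?_, by rwa [val_smul]⟩
    change (g * c * g⁻¹) • g • θ = _
    rw [mul_smul, inv_smul_smul, mul_smul, ← smul_neg, ← h1]
    rfl

theorem IP.val_nat (h : IP c l v) {n : ℕ} (hn : ¬ l ∣ n) : val v (n : K) = 1 := by
  exact (val_natCast_le_one v n).antisymm (not_lt.1 fun h2 =>
    hn (Val_dvd_of_lt v h.prime (h.unr ▸ c1a_lt) h2))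

theorem IP.two (h : IP c l v) : val v (2 : K) = 1 := by
  refine (val_natCast_le_one v 2).antisymm (not_lt.1 fun h2 => ?_)
  have := prime_under_unique v h.prime Nat.prime_two (h.unr ▸ c1a_lt) h2
  have h1 := h.one
  omega

theorem IP.ord_nu (h : IP c l v) : ord v ((nu K l : Kˣ) : K) = 1 := by
  exact i1_nu h.unr

theorem IP.val_int (h : IP c l v) (a : ℤ) : val v (a : K) < 1 ↔ (l : ℤ) ∣ a := by
  rw [c1c_abs, val_natCast_lt_one_iff v h.prime (h.unr ▸ c1a_lt), Int.natCast_dvd]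

theorem IP.neg_one (h : IP c l v) : (-1 : Kˣ) ∈ Sq (val v) := by
  have := Fact.mk h.prime
  obtain ⟨y, hy⟩ := (ZMod.exists_sq_eq_neg_one_iff (p := l)).2 (by rw [h.one]; decide)
  have h1 : l ∣ y.val ^ 2 + 1 := by
    rw [← ZMod.natCast_eq_zero_iff, Nat.cast_add, Nat.cast_pow, ZMod.natCast_zmod_val, sq, ← hy]
    simp
  have h2 : ¬ l ∣ y.val := fun e =>
    h.prime.not_dvd_one ((Nat.dvd_add_right (dvd_pow e two_ne_zero)).1 h1)
  have h0 : y.val ≠ 0 := fun e => h2 (e ▸ dvd_zero _)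
  have h3 := (val_natCast_lt_one_iff v h.prime (h.unr ▸ c1a_lt) _).2 h1
  refine mem_Sq.2 ⟨(nu K y.val)⁻¹, -(nu K y.val) ^ 2, ?_, by simp⟩
  rw [mem_One, local_val_four, h.two, mul_one, ← Valuation.map_neg]
  simpa [val_nu h0, add_comm] using h3

theorem IP.conj [IsGalois ℚ K] (h : IP c l v) {w : P K} (hw : val w (l : K) < 1) :
    ∃ g : Ga K, g • v = w := by
  exact exists_smul_eq_of_prime h.prime (h.unr ▸ c1a_lt) hw

theorem IP.val_conj [IsGalois ℚ K] (h : IP c l v) {w : P K} (hw : ∀ g : Ga K, g • v ≠ w) :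
    val w (l : K) = 1 := by
  refine (val_natCast_le_one w _).antisymm (not_lt.1 fun h1 => ?_)
  obtain ⟨g, hg⟩ := h.conj h1
  exact hw g hg

theorem IP.nm_ne [IsGalois ℚ K] (h : IP c l v) (c1 : c ≠ 1) {w : P K} (hw : SP w) :
    nm w ≠ l ∧ nm v ≠ nm w := by
  have h0 : val v (l : K) < 1 := h.unr ▸ c1a_lt
  have h1 : nm w ≠ l := fun e => by
    obtain ⟨g, rfl⟩ := hw.conj (w := v) (e ▸ h0)
    exact c1 ((hw.smul g).free c h.fix)
  refine ⟨h1, fun e => h1 (prime_under_unique v hw.prime h.prime ?_ h0)⟩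
  have := (Val_lt_iff_mem v _).2 (Ideal.absNorm_mem v.asIdeal)
  rw [← e]
  simpa using this

theorem sl_smul (g : Ga K) (l : ℕ) (v : P K) (x : Kˣ) : sl l v (g⁻¹ • x) = sl l (g • v) x := by
  classical
  rw [sl, sl, ns, ns, ord_smul']
  exact if_congr (by rw [← Sq_smul, smul_mul', smul_zpow', smul_nu]) rfl rfl

theorem fs_smul (g : Ga K) (l : ℕ) (v : P K) (x : Kˣ) : fs l v (g⁻¹ • x) = fs l (g • v) x := by
  classical
  rw [fs, fs, ord_smul']
  refine if_congr (exists_congr fun n => ?_) rfl rfl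
  rw [← val_smul g v, AlgEquiv.smul_def, map_sub, map_pow, map_intCast, ← val_smul_units,
    smul_mul', smul_zpow', smul_nu, smul_inv_smul]

theorem sl_eq_ns (l : ℕ) {x : Kˣ} (h : Even (ord v (x : K))) : sl l v x = ns v x := by
  obtain ⟨n, hn⟩ := h
  exact ns_mul_of_mem x (mem_Sq_of_isSquare v ⟨_ ^ (-n), by rw [hn, neg_add, zpow_add]⟩)

theorem sl_mul (h2 : val v (2 : K) = 1) (hl : val v (l : K) = exp (-1 : ℤ)) (x y : Kˣ) :
    sl l v (x * y) = sl l v x + sl l v y := by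
  rw [sl, sl, sl, ← ns_mul h2 (i1_ord hl x ▸ Even.zero) (i1_ord hl y ▸ Even.zero), Units.val_mul,
    ord_mul v x.ne_zero y.ne_zero, neg_add, zpow_add, mul_mul_mul_comm]

theorem tm_sl (h2 : val v (2 : K) = 1) (hl : val v (l : K) = exp (-1 : ℤ))
    (h1 : (-1 : Kˣ) ∈ Sq (val v)) (x y : Kˣ) :
    tm v x y = od v x * sl l v y + sl l v x * od v y := by
  have e : x ^ ord v (y : K) * y ^ (-ord v (x : K)) =
      (x * nu K l ^ (-ord v (x : K))) ^ ord v (y : K) *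
        (y * nu K l ^ (-ord v (y : K))) ^ (-ord v (x : K)) := by
    rw [mul_zpow, mul_zpow, ← zpow_mul, ← zpow_mul, mul_mul_mul_comm, ← zpow_add,
      show -ord v (x : K) * ord v (y : K) + -ord v (y : K) * -ord v (x : K) = 0 by ring,
      zpow_zero, mul_one]
  rw [tm, mul_assoc, mul_comm, ns_mul_of_mem _ (zpow_mem h1 _), e,
    ns_mul h2 (by rw [c1a_zpow, i1_ord hl, mul_zero]; exact Even.zero)
      (by rw [c1a_zpow, i1_ord hl, mul_zero]; exact Even.zero),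
    c1a_ns, c1a_ns, Int.cast_neg, CharTwo.neg_eq (R := ZMod 2), add_comm,
    mul_comm ((ord v (y : K) : ℤ) : ZMod 2)]
  rfl

end Pool.Agent.Lib.MP_775b3b_nt.CM
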