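import Pool.Agent.Lib.MP_775b3b_nt.CM3.I2b

/-! The symbol in the prime field. -/

namespace Pool.Agent.Lib.MP_775b3b_nt.CM

open Pool.Agent.Lib.MP_439fea_co NumberField WithZero

variable {K : Type} [Field K] [NumberField K] {c : Ga K} {l : ℕ} {v : P K}

theorem i2_c (h : IP c l v) (x : K) : val v (c x) = val v x := by
  have := val_smul c v x
  rwa [h.fix] at this

theorem i2_int (v : P K) (a : ℤ) : val v (a : K) ≤ 1 := by
  rw [c1c_abs]
  exact val_natCast_le_one v _

theorem i2_mul {y y' b b' : K} (hy : val v y ≤ 1) (hb : val v b' ≤ 1) (h : val v (y - b) < 1)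
    (h' : val v (y' - b') < 1) : val v (y * y' - b * b') < 1 := by
  rw [show y * y' - b * b' = y * (y' - b') + b' * (y - b) by ring]
  exact (val v).map_add_lt (local_mul_lt _ hy h') (local_mul_lt _ hb h)

theorem i2_one {y b : K} (hy : val v y = 1) (h : val v (y - b) < 1) : val v b = 1 := by
  rw [show b = y - (y - b) by ring, (val v).map_sub_eq_of_lt_left (hy ▸ h), hy]

theorem i2_dvd (h : IP c l v) (a : ℤ) : val v (a : K) < 1 ↔ (a : ZMod l) = 0 := by
  rw [h.val_int, ZMod.intCast_zmod_eq_zero_iff_dvd]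

theorem i2_key (h : IP c l v) {y : K} {m : ℤ} (hm : val v (y - m) < 1) :
    (∃ n : ℤ, val v (y - n ^ 2) < 1) ↔ IsSquare (m : ZMod l) := by
  constructor
  · rintro ⟨n, hn⟩
    have := (i2_dvd h (m - n * n)).1 (by
      rw [show ((m - n * n : ℤ) : K) = y - n ^ 2 - (y - m) by push_cast; ring]
      exact (val v).map_sub_lt hn hm)
    push_cast at this
    exact ⟨n, sub_eq_zero.1 this⟩
  · rintro ⟨r, hr⟩
    obtain ⟨n, rfl⟩ := ZMod.intCast_surjective r
    refine ⟨n, ?_⟩
    rw [show y - n ^ 2 = y - m + ((m - n * n : ℤ) : K) by push_cast; ring]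
    exact (val v).map_add_lt hm ((i2_dvd h _).2 (by push_cast; exact sub_eq_zero.2 hr))

theorem i2_ne (h : IP c l v) {y : K} {m : ℤ} (hy : val v y = 1) (hm : val v (y - m) < 1) :
    (m : ZMod l) ≠ 0 := fun e => ((i2_dvd h m).2 e).ne (i2_one hy hm)

theorem i2_sq (hl : l.Prime) {a b : ZMod l} (ha : a ≠ 0) (hb : b ≠ 0) :
    IsSquare (a * b) ↔ (IsSquare a ↔ IsSquare b) := by
  have := Fact.mk hl
  rw [← quadraticChar_one_iff_isSquare ha, ← quadraticChar_one_iff_isSquare hb,
    ← quadraticChar_one_iff_isSquare (mul_ne_zero ha hb), map_mul]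
  rcases quadraticChar_dichotomy ha with e | e <;> rcases quadraticChar_dichotomy hb with f | f <;>
    simp [e, f]

theorem i2_anti (h : IP c l v) {y : K} (hc : c y = -y) (hy : val v y = 1) :
    ¬ ∃ n : ℤ, val v (y * y - n ^ 2) < 1 := by
  rintro ⟨n, hn⟩
  have e : val v (y + n) = val v (y - n) := by
    rw [← i2_c h (y - n), map_sub, hc, map_intCast, ← (val v).map_neg]
    congr 1
    ring
  rw [show y * y - n ^ 2 = (y + n) * (y - n) by ring, map_mul, e] at hn
  have h1 : val v (y - n) < 1 := not_le.1 fun h1 => hn.not_ge (one_le_mul h1 h1)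
  have h2 := (val v).map_add_lt (e ▸ h1) h1
  rw [show y + n + (y - n) = 2 * y by ring, map_mul, h.two, hy, one_mul] at h2
  exact h2.false

theorem i2_cong (h : IP c l v) {x y : Kˣ} (hy : val v (y : K) = 1)
    (hx : val v ((x : K) - y) < 1) (hs : y ∈ Sq (val v)) : x ∈ Sq (val v) := by
  have : x / y ∈ Sq (val v) := mem_Sq_of_val h.two (by
    rwa [Units.val_div_eq_div_val, div_sub_one y.ne_zero, map_div₀, hy, div_one])
  simpa using mul_mem this hs

theorem i2_Sq (h : IP c l v) {x : Kˣ} (hx : val v (x : K) = 1)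
    (hz : ∃ n : ℤ, val v ((x : K) - n ^ 2) < 1) : x ∈ Sq (val v) := by
  obtain ⟨n, hn⟩ := hz
  have h1 := i2_one hx hn
  have h0 : (n : K) ≠ 0 := fun e => by simp [e] at h1
  have e : ((Units.mk0 _ h0 ^ 2 : Kˣ) : K) = n ^ 2 := by simp
  exact i2_cong h (e ▸ h1) (e ▸ hn) (mem_Sq_of_isSquare v (IsSquare.sq (Units.mk0 _ h0)))

theorem i2_fix (h : IP c l v) {x : Kˣ} (hc : c (x : K) = x) (hx : val v (x : K) = 1) :
    x ∈ Sq (val v) := by
  obtain ⟨m, hm⟩ := h.res x hc hx.le
  by_cases s : IsSquare (m : ZMod l)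
  · exact i2_Sq h hx ((i2_key h hm).2 s)
  obtain ⟨t, ht, t1⟩ := h.th
  have t2 : val v (t * t) = 1 := by rw [map_mul, t1, one_mul]
  obtain ⟨k, hk⟩ := h.res (t * t) (by rw [map_mul, ht, neg_mul_neg]) t2.le
  have t0 : t ≠ 0 := fun e => by simp [e] at t1
  have h1 := i2_mul t2.le (i2_int v m) hk hm
  rw [← Int.cast_mul] at h1
  have h2 : Units.mk0 t t0 * Units.mk0 t t0 * x ∈ Sq (val v) :=
    i2_Sq h (by simp [t1, hx]) ((i2_key h h1).2 (by
      rw [Int.cast_mul, i2_sq h.prime (i2_ne h t2 hk) (i2_ne h hx hm)]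
      exact iff_of_false (fun e => i2_anti h ht t1 ((i2_key h hk).2 e)) s))
  exact (mul_mem_cancel_left (mem_Sq_of_isSquare v (IsSquare.mul_self _))).1 h2

/-- the unit part -/
noncomputable def i2_u (l : ℕ) (v : P K) (x : Kˣ) : Kˣ := x * nu K l ^ (-ord v (x : K))

theorem i2_u_val (h : IP c l v) (x : Kˣ) : val v (i2_u l v x : K) = 1 := by
  rw [val_eq_exp v (Units.ne_zero _), i2_u, Units.val_mul,
    ord_mul v (Units.ne_zero _) (Units.ne_zero _), c1a_zpow, h.ord_nu]
  simp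

theorem i2_u_mul (x y : Kˣ) : i2_u l v (x * y) = i2_u l v x * i2_u l v y := by
  rw [i2_u, i2_u, i2_u, Units.val_mul, ord_mul v x.ne_zero y.ne_zero, neg_add, zpow_add,
    mul_mul_mul_comm]

theorem i2_u_smul (h : IP c l v) (x : Kˣ) : i2_u l v (c • x) = c • i2_u l v x := by
  rw [i2_u, i2_u, smul_mul', smul_zpow', smul_nu, val_smul_units, ord, ord, i2_c h]

theorem i2_fs {x : Kˣ} : fs l v x = 0 ↔ ∃ n : ℤ, val v ((i2_u l v x : K) - n ^ 2) < 1 := by
  rw [fs, i2_u]
  split_ifs with e <;> simp only [e, one_ne_zero]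

theorem IP.nat_sq (h : IP c l v) (cc : c * c = 1) {n : ℕ} (hn : ¬ l ∣ n) :
    nu K n ∈ Sq (val v) := by
  have e := val_nu (K := K) (n := n) fun e => hn (e ▸ dvd_zero _)
  exact i2_fix h (by rw [e, map_natCast]) (by rw [e, h.val_nat hn])

theorem IP.fs_mul (h : IP c l v) {x y : Kˣ} (hx : c • x = x) (hy : c • y = y) :
    fs l v (x * y) = fs l v x + fs l v y := by
  have f : ∀ {x : Kˣ}, c • x = x → ∃ m : ℤ, val v ((i2_u l v x : K) - m) < 1 := fun {x} hx =>
    h.res _ (by rw [← val_smul_units, ← i2_u_smul h, hx]) (i2_u_val h x).le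
  obtain ⟨m, hm⟩ := f hx
  obtain ⟨k, hk⟩ := f hy
  have h1 := i2_mul (i2_u_val h x).le (i2_int v k) hm hk
  rw [← Int.cast_mul, ← Units.val_mul, ← i2_u_mul] at h1
  have h2 : fs l v (x * y) = 0 ↔ (fs l v x = 0 ↔ fs l v y = 0) := by
    rw [i2_fs, i2_fs, i2_fs, i2_key h h1, i2_key h hm, i2_key h hk, Int.cast_mul,
      i2_sq h.prime (i2_ne h (i2_u_val h x) hm) (i2_ne h (i2_u_val h y) hk)]
  revert h2
  generalize fs l v (x * y) = a, fs l v x = b, fs l v y = d
  decide +revert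

theorem i2_norm (h : IP c l v) (cc : c * c = 1) {u : Kˣ} (hu : val v (u : K) = 1) :
    (∃ n : ℤ, val v ((u : K) * c u - n ^ 2) < 1) ↔ u ∈ Sq (val v) := by
  have hc : ∀ y : K, c (y * c y) = y * c y := fun y => by
    rw [map_mul, ← AlgEquiv.mul_apply, cc, AlgEquiv.one_apply, mul_comm]
  constructor
  · rintro ⟨n, hn⟩
    have h1 := i2_one (by rw [map_mul, i2_c h, hu, one_mul]) hn
    rw [map_pow, pow_eq_one_iff_of_nonneg zero_le two_ne_zero] at h1
    have h0 : (n : K) ≠ 0 := fun e => by simp [e] at h1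
    rcases ((val v).map_add_le h1.le hu.le).eq_or_lt with a1 | a1
    · have a0 : (n : K) + u ≠ 0 := fun e => by simp [e] at a1
      have h2 : u * (Units.mk0 _ a0 * c • Units.mk0 _ a0) ∈ Sq (val v) := by
        refine i2_cong h (y := Units.mk0 _ h0 * (Units.mk0 _ a0 * Units.mk0 _ a0))
          (by simp [h1, a1]) ?_ (mul_mem (i2_fix h (map_intCast c n) h1)
            (mem_Sq_of_isSquare v (IsSquare.mul_self _)))
        simp only [Units.val_mul, val_smul_units, Units.val_mk0, map_add, map_intCast]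
        rw [show (u : K) * ((n + u) * (n + c u)) - n * ((n + u) * (n + u)) =
          (n + u) * (u * c u - n ^ 2) by ring]
        exact local_mul_lt _ a1.le hn
      refine (mul_mem_cancel_right (i2_fix h (hc _) ?_)).1 h2
      rw [Units.val_mul, val_smul_units, map_mul, i2_c h, Units.val_mk0, a1, one_mul]
    · refine i2_cong h (y := -Units.mk0 _ h0) (by simp [h1]) (by simpa [add_comm] using a1)
        (i2_fix h (by simp) (by simp [h1]))
  · intro hs
    obtain ⟨z, o, ho, rfl⟩ := mem_Sq.1 hs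
    have o1 : val v (o : K) = 1 := One_le_Un _ ho
    rw [mem_One, local_val_four, h.two, one_mul] at ho
    rw [Units.val_mul, Units.val_pow_eq_pow_val] at hu ⊢
    rw [map_mul, o1, mul_one, map_pow, pow_eq_one_iff_of_nonneg zero_le two_ne_zero] at hu
    have z1 : val v ((z : K) * c z) = 1 := by rw [map_mul, i2_c h, hu, one_mul]
    obtain ⟨n, hn⟩ := h.res _ (hc z) z1.le
    have ho' : val v (c o - 1) < 1 := by rwa [← i2_c h, map_sub, map_one] at ho
    have h1 := i2_mul (by rw [map_mul, z1, one_mul]) (by simp) (i2_mul z1.le (i2_int v n) hn hn)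
      (i2_mul o1.le (by simp) ho ho')
    refine ⟨n, ?_⟩
    rwa [show (z : K) ^ 2 * o * c (z ^ 2 * o) - n ^ 2 =
      z * c z * (z * c z) * (o * c o) - n * n * (1 * 1) by rw [map_mul, map_pow]; ring]

theorem IP.fs_norm (h : IP c l v) (cc : c * c = 1) (x : Kˣ) : fs l v (x * c • x) = sl l v x := by
  have h2 : fs l v (x * c • x) = 0 ↔ sl l v x = 0 := by
    rw [i2_fs, i2_u_mul, i2_u_smul h, Units.val_mul, val_smul_units,
      i2_norm h cc (i2_u_val h x), sl, ns_eq_zero, i2_u]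
  revert h2
  generalize fs l v (x * c • x) = a, sl l v x = b
  decide +revert

theorem IP.fs_anti (h : IP c l v) {θ : Kˣ} (hθ : c • θ = -θ) : fs l v (θ * θ) = 1 := by
  have h2 : ¬ fs l v (θ * θ) = 0 := by
    rw [i2_fs, i2_u_mul, Units.val_mul]
    refine i2_anti h ?_ (i2_u_val h θ)
    rw [← val_smul_units, i2_u, smul_mul', smul_zpow', smul_nu, hθ, neg_mul, Units.val_neg]
  revert h2
  generalize fs l v (θ * θ) = a
  decide +revert

theorem IP.fs_nu (h : IP c l v) {n : ℕ} (hn : ¬ l ∣ n) :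
    fs l v (nu K n) = 0 ↔ IsSquare (n : ZMod l) := by
  have e := val_nu (K := K) (n := n) fun e => hn (e ▸ dvd_zero _)
  rw [i2_fs, i2_key h (m := n), Int.cast_natCast]
  simp [i2_u, ord, e, h.val_nat hn]

end Pool.Agent.Lib.MP_775b3b_nt.CM
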