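import Pool.Agent.Lib.MP_775b3b_nt.CM3.I1

/-! Symbols in a subfield. -/

namespace Pool.Agent.Lib.MP_775b3b_nt.CM

open Pool.Agent.Lib.MP_439fea_co NumberField WithZero

variable {K : Type} [Field K] [NumberField K] {c : Ga K} {l : ℕ} {v : P K}

variable {k : Type} [Field k] [NumberField k] [Algebra k K]

theorem i2b_nu (l : ℕ) : um K (nu k l) = nu K l := by
  rcases eq_or_ne l 0 with rfl | h
  · rw [nu, nu, dif_pos rfl, dif_pos rfl, map_one]
  · refine Units.ext ?_
    change algebraMap k K (nu k l : kˣ) = _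
    rw [val_nu h, val_nu h, map_natCast]

theorem i2b_ord (h : IP c l v) (x : kˣ) :
    ord v ((um K x : Kˣ) : K) = ord (und k v) (x : k) := by
  rw [ord, ord, ← ord_map_of_one h.unr]
  rfl

theorem i2b_um (h : IP c l v) (x : kˣ) :
    um K x * nu K l ^ (-ord v ((um K x : Kˣ) : K)) =
      um K (x * nu k l ^ (-ord (und k v) (x : k))) := by
  rw [map_mul, map_zpow, i2b_nu, i2b_ord h]

theorem i2b_int (v : P K) (a : ℤ) : val v (a : K) ≤ 1 := by
  rw [c1c_abs]
  exact val_natCast_le_one v _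

theorem i2b_two (h : IP c l v) : val (und k v) (2 : k) = 1 := by
  rw [← ord_map_of_one h.unr, map_ofNat, h.two]

theorem i2b_sq {w : P K} (h2 : val w (2 : K) = 1) {u : Kˣ} (hu : val w (u : K) = 1)
    (hr : ∀ y : K, val w y ≤ 1 → ∃ n : ℤ, val w (y - n) < 1) :
    (∃ n : ℤ, val w ((u : K) - n ^ 2) < 1) ↔ u ∈ Sq (val w) := by
  have h4 : val w (4 : K) = 1 := by rw [local_val_four, h2, one_mul]
  constructor
  · rintro ⟨n, hn⟩
    have h1 : val w ((n : K) ^ 2) = 1 := by
      have := (val w).map_sub_eq_of_lt_left (x := (u : K)) (y := u - n ^ 2) (by rwa [hu])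
      rwa [sub_sub_cancel, hu] at this
    have h0 : (n : K) ≠ 0 := fun e => by
      rw [e, zero_pow two_ne_zero, map_zero] at h1
      exact zero_ne_one h1
    refine mem_Sq.2 ⟨Units.mk0 n h0, u / Units.mk0 (n : K) h0 ^ 2, ?_, by simp⟩
    have e : ((u / Units.mk0 (n : K) h0 ^ 2 : Kˣ) : K) - 1 = (u - n ^ 2) / (n : K) ^ 2 := by
      rw [Units.val_div_eq_div_val, Units.val_pow_eq_pow_val, Units.val_mk0, sub_div,
        div_self (pow_ne_zero 2 h0)]
    rwa [mem_One, h4, e, map_div₀, h1, div_one]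
  · intro h
    obtain ⟨z, o, ho, e⟩ := mem_Sq.1 h
    have e1 : (u : K) = (z : K) ^ 2 * o := by rw [e, Units.val_mul, Units.val_pow_eq_pow_val]
    have ho1 : val w (o : K) = 1 := One_le_Un _ ho
    rw [mem_One, h4] at ho
    have hz : val w (z : K) = 1 := by
      rw [e1, map_mul, ho1, mul_one, map_pow] at hu
      exact (pow_eq_one_iff_of_nonneg zero_le two_ne_zero).1 hu
    obtain ⟨m, hm⟩ := hr z hz.le
    refine ⟨m, ?_⟩
    have e2 : (u : K) - m ^ 2 = (z : K) ^ 2 * (o - 1) + (z + m) * (z - m) := by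
      rw [e1]
      ring
    rw [e2]
    refine (val w).map_add_lt (local_mul_lt _ ?_ ho)
      (local_mul_lt _ ((val w).map_add_le hz.le (i2b_int w m)) hm)
    rw [map_pow, hz, one_pow]

theorem IP.fs_map (h : IP c l v) (hk : ∀ a : k, c (algebraMap k K a) = algebraMap k K a)
    (x : kˣ) : fs l v (um K x) = sl l (und k v) x := by
  classical
  have hv := ord_map_of_one (k := k) h.unr
  have hl : ord (und k v) ((nu k l : kˣ) : k) = 1 := by rw [← i2b_ord h, i2b_nu, h.ord_nu]
  rw [fs, sl, ns, i2b_um h]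
  generalize hu : x * nu k l ^ (-ord (und k v) (x : k)) = u
  have h1 : val (und k v) (u : k) = 1 := by
    rw [← sunit_ord_eq_zero_iff _ u.ne_zero, ← hu, Units.val_mul,
      ord_mul _ x.ne_zero (Units.ne_zero _), c1a_zpow, hl, mul_one, add_neg_cancel]
  have e : ∀ n : ℤ, val v (((um K u : Kˣ) : K) - n ^ 2) = val (und k v) ((u : k) - n ^ 2) := by
    intro n
    rw [← hv, map_sub (algebraMap k K), map_pow (algebraMap k K), map_intCast (algebraMap k K)]
    rfl
  simp only [e]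
  refine if_congr (i2b_sq (i2b_two h) h1 fun y hy => ?_) rfl rfl
  obtain ⟨n, hn⟩ := h.res _ (hk y) (by rwa [hv])
  exact ⟨n, by rwa [← hv, map_sub, map_intCast]⟩

theorem IP.down (h : IP c l v) : val (und k v) (2 : k) = 1 ∧
    val (und k v) (l : k) = exp (-1 : ℤ) ∧ (-1 : kˣ) ∈ Sq (val (und k v)) ∧
    ∀ x : k, val v (algebraMap k K x) = val (und k v) x := by
  have hv := ord_map_of_one (k := k) h.unr
  have hl : val (und k v) (l : k) = exp (-1 : ℤ) := by rw [← hv, map_natCast, h.unr]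
  refine ⟨i2b_two h, hl, ?_, hv⟩
  have := Fact.mk h.prime
  obtain ⟨y, hy⟩ := (ZMod.exists_sq_eq_neg_one_iff (p := l)).2 (by rw [h.one]; decide)
  have h1 : l ∣ y.val ^ 2 + 1 := by
    rw [← ZMod.natCast_eq_zero_iff, Nat.cast_add, Nat.cast_pow, ZMod.natCast_zmod_val, sq, ← hy]
    simp
  have h2 : ¬ l ∣ y.val := fun e =>
    h.prime.not_dvd_one ((Nat.dvd_add_right (dvd_pow e two_ne_zero)).1 h1)
  have h0 : y.val ≠ 0 := fun e => h2 (e ▸ dvd_zero _)
  have h3 := (val_natCast_lt_one_iff (und k v) h.prime (hl ▸ c1a_lt) _).2 h1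
  refine mem_Sq.2 ⟨(nu k y.val)⁻¹, -(nu k y.val) ^ 2, ?_, by simp⟩
  rw [mem_One, local_val_four, i2b_two h, mul_one, ← Valuation.map_neg]
  simpa [val_nu h0, add_comm] using h3

theorem IP.sl_map [IsGalois ℚ K] (h : IP c l v) (cc : c * c = 1)
    (hk : ∃ a : k, c (algebraMap k K a) ≠ algebraMap k K a)
    (x : kˣ) : sl l v (um K x) = sl l (und k v) x := by
  have _ := cc
  have : FiniteDimensional k K := Module.Finite.of_restrictScalars_finite ℚ k K
  have : IsGalois k K := IsGalois.tower_top_of_isGalois ℚ k K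
  rw [sl, sl, i2b_um h]
  refine ns_map h.two h.unr (fun y _ => ?_) _
  obtain ⟨z, hz, hz'⟩ := avg (⊤ : Subgroup (K ≃ₐ[k] K)) v y (exp (-1 : ℤ)) exp_ne_zero
    fun τ _ h1 => by
      have h2 : (τ.restrictScalars ℚ : Ga K) • v = v :=
        (IsDedekindDomain.HeightOneSpectrum.ext rfl).trans h1
      have h3 : τ y = y := by
        rcases h.stab _ h2 with e | e
        · exact DFunLike.congr_fun e y
        · obtain ⟨a, ha⟩ := hk
          exact absurd (e ▸ τ.commutes a) ha
      rw [AlgEquiv.smul_def, h3, sub_self, map_zero]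
      exact zero_le
  obtain ⟨a, rfl⟩ := (IsGalois.mem_range_algebraMap_iff_fixed z).2 fun τ => hz τ trivial
  exact ⟨a, by rw [Valuation.map_sub_swap]; exact hz'.trans_lt c1a_lt⟩

end Pool.Agent.Lib.MP_775b3b_nt.CM
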