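import Pool.Agent.Lib.MP_775b3b_nt.CM3.Kil1

/-! The target kills all classes. -/

namespace Pool.Agent.Lib.MP_775b3b_nt.CM

variable {Γ T : Type} [Group Γ] [Fintype Γ] {σ : Γ} {G : Subgroup Γ}

theorem Cub.exists_real (h : Cub σ G) (L : GA Γ →ₗ[ZMod 2] ZMod 2) : ∃ r ∈ selSG G, ∀ y,
    ee σ * y = y → Zc G 1 y → L y = (y * r).coeff σ := by
  classical
  have n1 : ∀ γ, γ ∈ G → γ * σ ∉ G := fun γ a b => h.nmem ((G.mul_mem_cancel_left a).1 b)
  have n2 : ∀ γ, γ ∈ G → γ * σ * σ ∉ G := fun γ a b =>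
    h.nmem2 ((G.mul_mem_cancel_left a).1 (mul_assoc γ σ σ ▸ b))
  have hr : (CM.mk fun g => if g ∈ G then L (ee σ * gr g⁻¹) else 0) ∈ selSG G :=
    fun g hg => if_neg hg
  refine ⟨_, hr, fun y h1 h2 => ?_⟩
  obtain ⟨x, hx, hx'⟩ : ∃ x ∈ selSG G, ∀ g ∈ G, x.coeff g = y.coeff (g * σ) :=
    ⟨CM.mk fun g => if g ∈ G then y.coeff (g * σ) else 0, fun g hg => if_neg hg,
      fun g hg => if_pos hg⟩
  have e : y + ee σ * x = 0 := h.sel_zero (by rw [mul_add, h1, ← mul_assoc, h.ee_mul_ee'])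
    (h2.add fun g hg => by rw [mul_one, a1_coeff h, hx _ (n1 g hg), hx _ (n2 g hg), add_zero])
    fun g hg => by
      rw [MonoidAlgebra.coeff_add, Finsupp.add_apply, a1_coeff h, a1_three h, hx _ (n2 g hg),
        add_zero, hx' g hg, CharTwo.add_self_eq_zero]
  rw [(eq_neg_of_add_eq_zero_left e).trans (neg_eq_iff_add_eq_zero.2 (sel_two _)), mul_assoc,
    a1_coeff h, h.three, mul_mem hx hr _ h.nmem2, add_zero, coeff_mul']
  conv_lhs => rw [← x.sum_coeff_single, Finsupp.sum_fintype _ _ (by simp), Finset.mul_sum, map_sum]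
  refine Finset.sum_congr rfl fun g _ => ?_
  by_cases hg : g ∈ G
  · rw [mul_one, coeff_mk, if_pos (inv_mem hg), inv_inv, ← smul_eq_mul (x.coeff g), ← map_smul,
      ← mul_smul_comm, MonoidAlgebra.smul_single, smul_eq_mul, mul_one]
  · simp [hx g hg]

/-- a coordinate that vanishes on the invariants factors through the norm -/
theorem Cub.kil_fac (h : Cub σ G) {c : Γ} (cG : c ∈ G) {ι : Type} [Fintype ι]
    (Y : AddSubgroup (ι → GA Γ)) (he : ∀ m ∈ Y, ee σ • m = m) (hr : ∀ m ∈ Y, ∀ i, Zc G 1 (m i))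
    (hG : ∀ g ∈ G, ∀ m ∈ Y, gr g • m ∈ Y) (i : ι)
    (hc : ∀ m ∈ Y, gr c • m = m → (m i).coeff σ = 0) :
    ∃ r : ι → GA Γ, ∀ m ∈ Y, m i = (∑ j, m j * r j) * (1 + gr c) := by
  classical
  let N : AddSubgroup.toZModSubmodule 2 Y →ₗ[ZMod 2] ι → GA Γ :=
    (((1 + gr c) • LinearMap.id : (ι → GA Γ) →ₗ[ZMod 2] ι → GA Γ)).domRestrict _
  let l : Module.Dual (ZMod 2) (AddSubgroup.toZModSubmodule 2 Y) :=
    { toFun m := (m.1 i).coeff σ, map_add' _ _ := rfl, map_smul' _ _ := rfl }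
  obtain ⟨L, hL⟩ : l ∈ LinearMap.range N.dualMap := by
    rw [LinearMap.range_dualMap_eq_dualAnnihilator_ker, Submodule.mem_dualAnnihilator]
    intro m hm
    have : (1 + gr c) • m.1 = 0 := hm
    rw [add_smul, one_smul] at this
    exact hc _ m.2 ((eq_neg_of_add_eq_zero_right this).trans
      (neg_eq_iff_add_eq_zero.2 (funext fun j => sel_two _)))
  choose r r1 r2 using fun j => h.exists_real (L ∘ₗ LinearMap.single (ZMod 2) (fun _ => GA Γ) j)
  have cn : 1 + gr c ∈ selSG G := add_mem (one_mem _) fun g hg =>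
    Finsupp.single_eq_of_ne fun e => hg (e ▸ cG)
  have k : ∀ m ∈ Y, (m i + (∑ j, m j * r j) * (1 + gr c)).coeff σ = 0 := fun m hm => by
    have hn : (1 + gr c) • m ∈ Y := by
      rw [add_smul, one_smul]
      exact add_mem hm (hG c cG m hm)
    have e1 : L ((1 + gr c) • m) = (m i).coeff σ := LinearMap.congr_fun hL ⟨m, hm⟩
    have e2 : ∀ x y : GA Γ, (x * y).coeff σ = (y * x).coeff σ := fun x y => by
      have e : ∀ z : GA Γ, z.coeff σ = (gr σ * (gr σ * z)).coeff 1 := fun z => by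
        rw [← mul_assoc, ← sel_gr_mul, ← h.inv_eq', sel_coeff_gr_mul, inv_inv, mul_one]
      rw [e, e, ← mul_assoc, ← mul_assoc, sel_coeff_one_comm, ← mul_assoc, ← mul_assoc,
        ← h.gr_cm y, mul_assoc (gr σ), ← h.gr_cm y, mul_assoc, mul_assoc]
    rw [MonoidAlgebra.coeff_add, Finsupp.add_apply, ← e1, e2, Finset.mul_sum,
      ← Finset.univ_sum_single ((1 + gr c) • m), map_sum, MonoidAlgebra.coeff_sum,
      Finsupp.finsetSum_apply, ← Finset.sum_add_distrib]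
    refine Finset.sum_eq_zero fun j _ => ?_
    rw [← mul_assoc]
    exact (congrArg (· + _) (r2 j _ (congrFun (he _ hn) j) (hr _ hn j))).trans
      (CharTwo.add_self_eq_zero _)
  refine ⟨r, fun m hm => (eq_neg_of_add_eq_zero_left (h.sel_zero ?_ ?_ fun g hg => ?_)).trans
    (neg_eq_iff_add_eq_zero.2 (sel_two _))⟩
  · have : ∀ j, ee σ * m j = m j := congrFun (he m hm)
    simp only [mul_add (ee σ), ← mul_assoc, Finset.mul_sum, this]
  · refine (hr m hm i).add (Zc.mul (fun g hg => ?_) cn)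
    rw [MonoidAlgebra.coeff_sum, Finsupp.finsetSum_apply]
    exact Finset.sum_eq_zero fun j _ => (hr m hm j).mul (r1 j) g hg
  · have := k _ (hG _ (inv_mem hg) m hm)
    simp only [Pi.smul_apply, smul_eq_mul, mul_assoc, ← Finset.mul_sum, ← mul_add] at this
    rwa [sel_coeff_gr_mul, inv_inv] at this

/-- the final step, for pairs of real elements -/
theorem Cub.kil_core (h : Cub σ G) {c : Γ} (cG : c ∈ G) {π : GA Γ}
    (hπ : (1 + gr c) * π ∈ Ring.jacobson (GA Γ)) (Y : AddSubgroup (Fin 2 → GA Γ))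
    (he : ∀ m ∈ Y, ee σ • m = m) (hr : ∀ m ∈ Y, ∀ i, Zc G 1 (m i))
    (hG : ∀ g ∈ G, ∀ m ∈ Y, gr g • m ∈ Y)
    (hb : ∀ m ∈ Y, (m 0 + gr σ * (gr σ * m 1)) * π = m 0 + gr σ * (gr σ * m 1))
    (hc : ∀ m ∈ Y, gr c • m = m → ∀ i, (m i).coeff σ = 0) : ∀ m ∈ Y, m = 0 := by
  choose r hr' using fun i => h.kil_fac cG Y he hr hG i fun m hm e => hc m hm e i
  refine h.socle Y he hG fun m hm h0 => ?_
  have k : ∀ i, m i * π = 0 := fun i => by
    rw [hr' i m hm, mul_assoc, Finset.sum_mul]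
    exact Finset.sum_eq_zero fun j _ => by
      rw [mul_assoc]
      exact h0 j _ (Ideal.mul_mem_left _ _ hπ)
  have e := hb m hm
  rw [add_mul, mul_assoc, mul_assoc, k, k, mul_zero, mul_zero, add_zero] at e
  have e0 : m 0 = gr σ * (gr σ * m 1) :=
    (eq_neg_of_add_eq_zero_left e.symm).trans (neg_eq_iff_add_eq_zero.2 (sel_two _))
  have e1 : m 1 = 0 := h.sel_zero (congrFun (he m hm) 1) (hr m hm 1) (by
    have := (h.sel_zc _).2 (hr m hm 0)
    rwa [e0, ← mul_assoc, ← mul_assoc, h.gr_three', one_mul] at this)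
  rw [e1, mul_zero, mul_zero] at e0
  funext i
  fin_cases i
  exacts [e0, e1]

theorem Cub.kil_tg (h : Cub σ G) {c : Γ} (cG : c ∈ G) (cc : c * c = 1) (q p : T) :
    ∃ υ : GA Γ, ee σ * υ = υ ∧ star υ = υ ∧ υ * υ = ee σ ∧ ∀ ζ : GA Γ,
      (∀ b, ee σ * b = b → Zc G 1 (gr σ * b * ζ) → Zc G 1 b → b = 0) →
      ∀ g ∈ G, Kil σ G c q p (Tg σ q p ζ υ g) := by
  have ci : c⁻¹ = c := inv_eq_of_mul_eq_one_left cc
  obtain ⟨υ, π, u1, u2, u3, u4, u5⟩ := h.exists_ups (n := 1 + gr c)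
    (by rw [star_add, star_one, sel_star_gr, ci]) (by
      rw [mul_add, mul_one, add_mul, one_mul, ← sel_gr_mul, cc, add_comm (gr c)]
      exact sel_two _)
  refine ⟨υ, u1, u2, u3, fun ζ z5 g0 hg0 X hX hG hc => ?_⟩
  have c1 : ∀ x y, x * (gr σ * y) = gr σ * (x * y) := fun x y => by
    rw [← mul_assoc, ← h.gr_cm, mul_assoc]
  have c2 : ∀ y, gr σ * (gr σ * (gr σ * y)) = y := fun y => by
    rw [← mul_assoc, ← mul_assoc, h.gr_three', one_mul]
  have w0 : ∀ x, ee σ * x = x → x * om σ = gr σ * (gr σ * x) := fun x hx => by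
    rw [om, c1, c1 x, ← h.ee_cm, hx]
  have w2 : ∀ x, ee σ * x = x → gr σ * (gr σ * x) + gr σ * x = x := fun x hx => by
    rw [← mul_assoc, ← add_mul, add_comm, ← sel_ee_eq, hx]
  have ee2 : ∀ x, ee σ * x = x → ee σ * (gr σ * x) = gr σ * x := fun x hx => by rw [c1, hx]
  have fx : ∀ x : GA Γ, x * gr c = x → x * (1 + gr c) = 0 := fun x hx => by
    rw [mul_add, mul_one, hx, sel_two]
  have gs : ∀ g ∈ G, gr g ∈ selSG G := fun k hk g hg =>
    Finsupp.single_eq_of_ne fun e => hg (e ▸ hk)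
  have cn : 1 + gr c ∈ selSG G := add_mem (one_mem _) (gs c cG)
  have s2 : ∀ (x : GA Γ) g, (gr σ * (gr σ * x)).coeff g = x.coeff (g * σ) := fun x g => by
    rw [← mul_assoc, ← sel_gr_mul, ← h.inv_eq', sel_coeff_gr_mul, inv_inv, h.cen]
  have s0 : ∀ (x : GA Γ) g, (gr σ * x).coeff (g * σ) = x.coeff g := fun x g => by
    rw [sel_coeff_gr_mul, h.cen, inv_mul_cancel_left]
  have key : ∀ v ∈ X, ∃ y a, ee σ * y = y ∧ ee σ * a = a ∧ Zc G 1 y ∧ Zc G 1 a ∧
      (y + gr σ * (gr σ * a)) * π = y + gr σ * (gr σ * a) ∧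
      v (.inr (true, p)) = gr σ * (gr σ * (y * gr g0)) ∧
      v (.inl true) = a + gr σ * (gr σ * y) ∧ v (.inr (false, q)) = a ∧
      v (.inr (true, q)) = gr σ * (gr σ * y) + gr σ * a ∧ v (.inl false) = 0 ∧
      v (.inr (false, p)) = gr σ * (y * gr g0) ∧
      ∀ b t, t ≠ q → t ≠ p → v (.inr (b, t)) = 0 := fun v hv => by
    obtain ⟨⟨a, b, m, a1, b1, m1, v0, v2, v3, v4, v6, v1, v5⟩, ⟨p1, p2⟩,
      ⟨l1, l2, l3, l5, l6, l4⟩⟩ := hX v hv
    have b2 : ee σ * (b * υ) = b * υ := by rw [← mul_assoc, b1]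
    have b3 : ee σ * (b * υ * (1 + gr c)) = b * υ * (1 + gr c) := by rw [← mul_assoc, b2]
    rw [w0 a a1] at v1 v6
    have y0 : ee σ * ((gr σ * (gr σ * a) + b * υ) * gr g0) = (gr σ * (gr σ * a) + b * υ) * gr g0 := by
      rw [← mul_assoc, mul_add, b2, ee2 _ (ee2 _ a1)]
    have m2 : ee σ * ((gr σ * (gr σ * a) + b * υ) * gr g0 + m) =
        (gr σ * (gr σ * a) + b * υ) * gr g0 + m := by rw [mul_add, y0, m1]
    rw [w0 _ y0] at v1
    rw [w0 _ m2, w0 _ (ee2 _ (ee2 _ m2)), c2] at v6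
    have m3 : m = 0 := by
      rw [← c2 m, z5 _ (ee2 _ (ee2 _ m1)) (by rwa [c2, ← v0]) fun g hg => ?_, mul_zero]
      have e1 := l5 g hg
      have e2 := a1_coeff h m g
      rw [v1, v6, s0, MonoidAlgebra.coeff_add, Finsupp.add_apply, MonoidAlgebra.coeff_add,
        Finsupp.add_apply, s2, a1_three h, add_right_inj] at e1
      rw [m1, ← e1, left_eq_add] at e2
      rw [mul_one, s2, e2]
    rw [m3, add_zero] at v1 v6
    rw [m3, zero_mul] at v0
    rw [w0 _ (by rw [mul_add, a1, b1])] at v2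
    rw [mul_add, ← h.ee_cm, b1, ← mul_assoc, ← mul_assoc, w0 _ b2, w0 _ (ee2 _ (ee2 _ b2)), c2] at v4
    rw [v3] at p2 l2
    rw [v2] at p1
    have a2 := fx _ p2
    have b4 : b * (1 + gr c) = 0 := by
      have := congrArg (gr σ * ·) (fx _ p1)
      simpa only [mul_assoc, c2, add_mul a, a2, zero_add, mul_zero] using this
    have y1 : Zc G 1 (gr σ * (gr σ * a) + b * υ) := by
      have e : Zc G 1 ((gr σ * (gr σ * a) + b * υ) * gr g0) := fun g hg => by
        have e1 := l6 g hg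
        rw [v1, v6, s0, s2] at e1
        rw [mul_one, ← y0, a1_coeff h, e1, CharTwo.add_self_eq_zero]
      have := e.mul (gs _ (inv_mem hg0))
      rwa [mul_assoc, ← sel_gr_mul, mul_inv_cancel, show gr (1 : Γ) = 1 from rfl,
        mul_one] at this
    have y2 := y1.mul cn
    rw [add_mul, mul_assoc, mul_assoc, a2, mul_zero, mul_zero, zero_add] at y2
    have y3 : Zc G 1 (v (.inr (true, q)) * (1 + gr c)) := fun g hg => by
      rw [mul_one, mul_add, mul_one, MonoidAlgebra.coeff_add, Finsupp.add_apply, coeff_mul_gr, ci,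
        l3 g hg, CharTwo.add_self_eq_zero]
    rw [v4, add_mul, b4, add_zero, mul_assoc] at y3
    have y4 := h.sel_zero (ee2 _ b3) y3 ((h.sel_zc _).2 y2)
    obtain ⟨b5, b6⟩ := u5 b b1 b4 (by rw [← c2 (b * υ * _), y4, mul_zero, mul_zero])
    rw [b5] at v1 v4 v6 y1
    have y5 : gr σ * (gr σ * a) + b + gr σ * (gr σ * a) = b := by
      rw [add_right_comm, sel_two, zero_add]
    refine ⟨_, a, by rw [mul_add, b1, ee2 _ (ee2 _ a1)], a1, y1, l2, by rw [y5, b6], v1, ?_, v3, ?_,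
      v0, v6, fun b t ht ht' => by cases b; exacts [l4 t ht ht', v5 t ht ht']⟩
    · rw [v2]
      simp only [mul_add, c2]
      linear_combination (norm := abel) w2 a a1 - sel_two (gr σ * a)
    · rw [v4]
      simp only [mul_add, c2]
      linear_combination (norm := abel) w2 b b1 + sel_two b - sel_two (gr σ * a) -
        sel_two (gr σ * (gr σ * b))
  let F : (Ix T → GA Γ) →ₗ[GA Γ] Fin 2 → GA Γ :=
    { toFun v := ![v (.inr (true, p)) * (gr σ * gr g0⁻¹), v (.inr (false, q))]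
      map_add' v w := funext fun i => by fin_cases i <;> simp [add_mul]
      map_smul' r v := funext fun i => by fin_cases i <;> simp [mul_assoc] }
  have hF : ∀ v y, v (.inr (true, p)) = gr σ * (gr σ * (y * gr g0)) → F v 0 = y := fun v y e => by
    change v (.inr (true, p)) * (gr σ * gr g0⁻¹) = y
    rw [e, c1, ← mul_assoc, c2, mul_assoc, ← sel_gr_mul, mul_inv_cancel]
    exact mul_one _
  have inj : ∀ v ∈ X, F v = 0 → v = 0 := fun v hv e => by
    obtain ⟨y, a, -, -, -, -, -, v1, v2, v3, v4, v0, v6, v5⟩ := key v hv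
    obtain rfl : y = 0 := (hF v y v1).symm.trans (congrFun e 0)
    obtain rfl : a = 0 := v3.symm.trans (congrFun e 1)
    funext i
    rcases i with (_ | _) | ⟨b, t⟩
    · exact v0
    · simp [v2]
    · rcases eq_or_ne t q with rfl | ne
      · cases b <;> simp [v3, v4]
      · rcases eq_or_ne t p with rfl | ne'
        · cases b <;> simp [v1, v6]
        · exact v5 b t ne ne'
  have s1 : ∀ x : GA Γ, ee σ * x = x → Zc G 1 x → x.coeff (σ * σ) = x.coeff σ := fun x a b => by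
    have := a1_coeff h x 1
    rw [a, one_mul, ← mul_one 1, b 1 G.one_mem] at this
    exact (eq_neg_of_add_eq_zero_left this.symm).trans (CharTwo.neg_eq _)
  have s3 : ∀ ε, ∀ v ∈ X, L1 σ q ε v → ∀ i, (F v i).coeff σ = 0 := fun ε v hv hl => by
    obtain ⟨y, a, y1, a1, y2, a2, -, v1, v2, v3, v4, -⟩ := key v hv
    obtain ⟨l1, l2⟩ := hl
    rw [v2, MonoidAlgebra.coeff_add, Finsupp.add_apply, s2] at l1
    rw [v3, v4, MonoidAlgebra.coeff_add, Finsupp.add_apply, s2, sel_coeff_gr_mul, mul_one, one_mul,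
      h.inv_eq', s1 a a1 a2] at l2
    have : y.coeff σ = 0 ∧ a.coeff σ = 0 := by
      rcases (by decide : ∀ r : ZMod 2, r = 0 ∨ r = 1) ε with rfl | rfl
      · rw [if_pos rfl, ← mul_one 1, a2 1 G.one_mem, zero_add, mul_one, one_mul] at l1
        exact ⟨l1, by rwa [l1, zero_add, mul_zero] at l2⟩
      · rw [mul_one, add_eq_right] at l2
        exact ⟨l2, by rwa [if_neg one_ne_zero, s1 y y1 y2, l2, add_zero] at l1⟩
    obtain rfl := hF v y v1
    obtain rfl : F v 1 = a := v3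
    exact Fin.forall_fin_two.2 this
  intro v hv
  refine inj v hv (h.kil_core cG u4 (X.map F.toAddMonoidHom) ?_ ?_ ?_ ?_ ?_ _ ⟨v, hv, rfl⟩)
  · rintro _ ⟨v, hv, rfl⟩
    obtain ⟨y, a, y1, a1, -, -, -, v1, -, v3, -⟩ := key v hv
    obtain rfl := hF v y v1
    obtain rfl : F v 1 = a := v3
    exact funext (Fin.forall_fin_two.2 ⟨y1, a1⟩)
  · rintro _ ⟨v, hv, rfl⟩
    obtain ⟨y, a, -, -, y1, a1, -, v1, -, v3, -⟩ := key v hv
    obtain rfl := hF v y v1
    obtain rfl : F v 1 = a := v3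
    exact Fin.forall_fin_two.2 ⟨y1, a1⟩
  · rintro g hg _ ⟨v, hv, rfl⟩
    exact ⟨_, hG g hg v hv, F.map_smul _ _⟩
  · rintro _ ⟨v, hv, rfl⟩
    obtain ⟨y, a, -, -, -, -, e, v1, -, v3, -⟩ := key v hv
    obtain rfl := hF v y v1
    obtain rfl : F v 1 = a := v3
    exact e
  · rintro _ ⟨v, hv, rfl⟩ e i
    have e' : F (gr c • v - v) = 0 := by rw [map_sub, map_smul]; exact sub_eq_zero.2 e
    obtain ⟨v1, h1, v2, h2, rfl, l1, l2⟩ := hc v hv
      (sub_eq_zero.1 (inj _ (sub_mem (hG c cG v hv) hv) e'))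
    change (F (v1 + v2) i).coeff σ = 0
    rw [map_add, Pi.add_apply, MonoidAlgebra.coeff_add, Finsupp.add_apply, s3 _ _ h1 l1,
      s3 _ _ h2 l2, add_zero]

end Pool.Agent.Lib.MP_775b3b_nt.CM
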