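import Pool.Agent.Lib.MP_775b3b_nt.CM3.YDef

/-! A hermitian relative inverse and the involution attached to it. -/

namespace Pool.Agent.Lib.MP_775b3b_nt.CM

theorem kil_idem {R : Type} [Monoid R] [Finite R] (a : R) :
    ∃ k, a ^ (k + 1) * a ^ (k + 1) = a ^ (k + 1) := by
  obtain ⟨i, j, hij, h⟩ := Finite.exists_ne_map_eq_of_infinite fun i : ℕ => a ^ i
  wlog hlt : i < j generalizing i j
  · exact this j i hij.symm h.symm (lt_of_le_of_ne (not_lt.1 hlt) hij.symm)
  obtain ⟨d, rfl⟩ := Nat.exists_eq_add_of_lt hlt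
  have h1 : ∀ m, a ^ (i + m * (d + 1)) = a ^ i := fun m => by
    induction m with
    | zero => simp
    | succ m ih =>
      rw [add_mul, one_mul, ← add_assoc, pow_add, ih, ← pow_add, ← add_assoc]
      exact h.symm
  refine ⟨i + (i * d + d), ?_⟩
  have h2 := congrArg (· * a ^ (i * d + d + 1)) (h1 (i + 1))
  simp only [← pow_add] at h2 ⊢
  rw [← add_assoc] at h2
  refine Eq.trans (congrArg _ ?_) (h2.trans (congrArg _ ?_)) <;> ring

theorem kil_ups {R : Type} [Ring R] (h2 : ∀ x : R, x + x = 0) {e w v φ n υ : R}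
    (hw : ∀ x, w * x = x * w) (hv : ∀ x, v * x = x * v) (he : e = w + v) (ee : e * e = e)
    (eφ : e * φ = φ) (hφ : φ * n * φ = φ) (hn : n * n = 0)
    (hυ : υ = (e + v * (n * φ)) * φ * (e + w * (φ * n)) + n * φ * n + (e + n * φ) * (e + φ * n)) :
    υ * υ = e := by
  have hc : ∀ x, e * x = x * e := fun x => by rw [he, add_mul, mul_add, hw, hv]
  have φe : φ * e = φ := by rw [← hc, eφ]
  obtain ⟨f, hf⟩ : ∃ f, f = φ * n := ⟨_, rfl⟩
  obtain ⟨g, hg⟩ : ∃ g, g = n * φ := ⟨_, rfl⟩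
  obtain ⟨m, hm⟩ : ∃ m, m = g * n := ⟨_, rfl⟩
  rw [← hf, ← hg, ← hm] at hυ
  have ef : e * f = f := by rw [hf, ← mul_assoc, eφ]
  have ge : g * e = g := by rw [hg, mul_assoc, φe]
  have fe : f * e = f := by rw [← hc, ef]
  have eg : e * g = g := by rw [hc, ge]
  have em : e * m = m := by rw [hm, ← mul_assoc, eg]
  have me : m * e = m := by rw [← hc, em]
  have fφ : f * φ = φ := by rw [hf, hφ]
  have φg : φ * g = φ := by rw [hg, ← mul_assoc, hφ]
  have ff : f * f = f := by rw [hf, ← mul_assoc, hφ]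
  have gg : g * g = g := by rw [hg, mul_assoc, ← hg, φg, hg]
  have fn : f * n = 0 := by rw [hf, mul_assoc, hn, mul_zero]
  have fg : f * g = 0 := by rw [hg, ← mul_assoc, fn, zero_mul]
  have mn : m * n = 0 := by rw [hm, mul_assoc, hn, mul_zero]
  have mg : m * g = 0 := by rw [hg, ← mul_assoc, mn, zero_mul]
  have fm : f * m = 0 := by rw [hm, ← mul_assoc, fg, zero_mul]
  have mm : m * m = 0 := by rw [hm, ← mul_assoc, ← hm, mg, zero_mul]
  have mφ : m * φ = g := by rw [hm, mul_assoc, ← hg, gg]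
  have φm : φ * m = f := by rw [hm, ← mul_assoc, φg, hf]
  have mf : m * f = m := by rw [hf, ← mul_assoc, mφ, hm]
  have gm : g * m = m := by rw [hm, ← mul_assoc, gg]
  have a1 : (e + w * f) * m = m := by rw [add_mul, em, mul_assoc, fm, mul_zero, add_zero]
  have a2 : m * (e + v * g) = m := by
    rw [mul_add, me, hv, ← mul_assoc, mg, zero_mul, add_zero]
  have a3 : φ * (e + w * f) * ((e + g) * (e + f)) = 0 := by
    rw [← mul_assoc, mul_assoc φ, add_mul e, mul_add e, ee, eg, mul_assoc w, mul_add f, fe, fg,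
      add_zero, mul_add φ, mul_add φ, φe, φg, h2, zero_add, mul_assoc, mul_assoc, mul_add f, fe, ff,
      h2, mul_zero, mul_zero]
  have a4 : (e + g) * (e + f) * ((e + v * g) * φ) = 0 := by
    rw [mul_assoc, ← mul_assoc (e + f), mul_add (e + f), add_mul e f e, ee, fe, hv g,
      ← mul_assoc (e + f), add_mul e f g, eg, fg, add_zero, add_mul (e + f), add_mul e f, eφ, fφ, h2,
      zero_add, ← mul_assoc, ← mul_assoc, add_mul e, eg, gg, h2, zero_mul, zero_mul]
  have a5 : φ * (e + w * f) * ((e + v * g) * φ) = 0 := by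
    rw [mul_assoc, ← mul_assoc (e + w * f), mul_add (e + w * f), add_mul e _ e, ee, mul_assoc w, fe,
      hv g, ← mul_assoc _ g, add_mul e _ g, eg, mul_assoc w, fg, mul_zero, add_zero, add_mul,
      add_mul, eφ, mul_assoc w, fφ, mul_add, mul_add, ← mul_assoc φ (g * v), ← mul_assoc φ g, φg,
      mul_assoc, add_assoc, ← mul_add, ← add_mul, ← he, eφ, h2]
  have a6 : m * ((e + g) * (e + f)) = 0 := by
    rw [← mul_assoc, mul_add m, me, mg, add_zero, mul_add, me, mf, h2]
  have a7 : (e + g) * (e + f) * m = 0 := by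
    rw [mul_assoc, add_mul e f, em, fm, add_zero, add_mul, em, gm, h2]
  have a8 : (e + g) * (e + f) * ((e + g) * (e + f)) = (e + g) * (e + f) := by
    rw [← mul_assoc, mul_assoc (e + g), mul_add (e + f), add_mul e f e, add_mul e f g, ee, fe, eg,
      fg, add_zero, mul_add (e + g), add_mul e g g, eg, gg, h2, add_zero, mul_assoc,
      mul_add (e + f), add_mul e f f, ef, ff, h2, add_zero, add_mul e f, ee, fe]
  have b1 : (e + v * g) * φ * (e + w * f) * m = f + v * (g * f) := by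
    rw [mul_assoc, a1, mul_assoc, φm, add_mul, ef, mul_assoc]
  have b2 : m * ((e + v * g) * φ * (e + w * f)) = g + w * (g * f) := by
    rw [← mul_assoc, ← mul_assoc, a2, mφ, mul_add, ge, ← mul_assoc, ← hw, mul_assoc]
  have b3 : (e + g) * (e + f) = e + f + (g + g * f) := by
    rw [add_mul, mul_add, mul_add, ee, ef, ge]
  have b4 : g * f = w * (g * f) + v * (g * f) := by rw [← add_mul, ← he, ← mul_assoc, eg]
  have b5 : (e + v * g) * φ * (e + w * f) * ((e + v * g) * φ * (e + w * f)) = 0 := by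
    rw [← mul_assoc, mul_assoc _ φ, mul_assoc (e + v * g), a5, mul_zero, zero_mul]
  have b6 : (e + v * g) * φ * (e + w * f) * ((e + g) * (e + f)) = 0 := by
    rw [mul_assoc _ φ, mul_assoc (e + v * g), a3, mul_zero]
  have b7 : (e + g) * (e + f) * ((e + v * g) * φ * (e + w * f)) = 0 := by
    rw [← mul_assoc, a4, zero_mul]
  rw [hυ]
  generalize (e + v * g) * φ * (e + w * f) = A at *
  generalize (e + g) * (e + f) = B at *
  simp only [mul_add, add_mul, b1, b2, b5, b6, b7, mm, a6, a7, a8]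
  linear_combination (norm := abel) b3 + b4 + h2 f + h2 g + h2 (w * (g * f)) + h2 (v * (g * f))

variable {Γ : Type} [Group Γ] [Fintype Γ] {σ : Γ} {G : Subgroup Γ}

theorem Cub.exists_phi (h : Cub σ G) {n : GA Γ} (hn : star n = n) : ∃ φ : GA Γ, ee σ * φ = φ ∧
    star φ = φ ∧ φ * n * φ = φ ∧ ee σ * n + n * φ * n ∈ Ring.jacobson (GA Γ) := by
  have : IsArtinianRing (GA Γ) := isArtinian_of_finite
  set π := Ideal.Quotient.mk (Ring.jacobson (GA Γ)) with hπ
  obtain ⟨v, hv⟩ := exists_reg (π n)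
  obtain ⟨v, rfl⟩ := Ideal.Quotient.mk_surjective v
  have hv' : π n * π (star v) * π n = π n := by
    rw [← map_mul, ← map_mul, Ideal.Quotient.eq] at hv ⊢
    have := star_mem_jac hv
    rwa [star_sub, star_mul, star_mul, hn, ← mul_assoc] at this
  obtain ⟨w, hw⟩ : ∃ w, w = gr σ * ee σ := ⟨_, rfl⟩
  have w1 : ∀ x, w * x = x * w := fun x => hw ▸ (Commute.mul_left (h.gr_cm x) (h.ee_cm x)).eq
  have w2 : ∀ x, star w * x = x * star w := fun x => by
    rw [← star_star x, ← star_mul, ← w1, star_mul]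
  have w3 : w + star w = ee σ := hw ▸ h.om_add
  have w4 : ee σ * w = w := by rw [h.ee_cm, hw, mul_assoc, h.ee_mul_ee']
  have w5 : ee σ * star w = star w := by rw [← h.star_ee', ← star_mul, ← h.ee_cm, w4]
  obtain ⟨s, hs⟩ : ∃ s, s = w * v + star w * star v := ⟨_, rfl⟩
  have s1 : star s = s := by
    rw [hs, star_add, star_mul, star_mul, star_star, star_star, w1, w2, add_comm]
  have s2 : ee σ * s = s := by rw [hs, mul_add, ← mul_assoc, ← mul_assoc, w4, w5]
  have s3 : π (n * (s * n)) = π (ee σ * n) := by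
    rw [hs, add_mul, mul_add, ← mul_assoc, ← mul_assoc, ← mul_assoc, ← mul_assoc, ← w1, ← w2,
      mul_assoc w, mul_assoc w, mul_assoc (star w), mul_assoc (star w), map_add, map_mul π w,
      map_mul π (star w), map_mul, map_mul, map_mul, map_mul, hv, hv', ← add_mul, ← map_add, w3,
      map_mul]
  have s4 : ∀ j, π (n * (s * n) ^ (j + 1)) = π (ee σ * n) := fun j => by
    induction j with
    | zero => rw [zero_add, pow_one, s3]
    | succ j ih =>
      rw [pow_succ', ← mul_assoc, map_mul, s3, ← map_mul, mul_assoc, map_mul, ih, ← map_mul,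
        ← mul_assoc, h.ee_mul_ee']
  obtain ⟨k, hk⟩ := kil_idem (s * n)
  have k1 : (s * n) ^ (k + 1 + k) * s * n = (s * n) ^ (k + 1) := by
    rw [mul_assoc, ← pow_succ, add_assoc (k + 1), pow_add, hk]
  refine ⟨(s * n) ^ (k + 1 + k) * s, ?_, ?_, ?_, ?_⟩
  · rw [mul_pow_mul, ← mul_assoc, s2]
  · rw [star_mul, star_pow, star_mul, s1, hn, mul_pow_mul]
  · rw [k1, pow_add _ (k + 1), ← mul_assoc, ← mul_assoc, hk]
  · rw [mul_assoc, k1, ← Ideal.Quotient.eq_zero_iff_mem, map_add, ← hπ, s4, ← map_add, sel_two,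
      map_zero]

theorem Cub.exists_ups (h : Cub σ G) {n : GA Γ} (hn : star n = n) (h2 : n * n = 0) :
    ∃ υ π : GA Γ, ee σ * υ = υ ∧ star υ = υ ∧ υ * υ = ee σ ∧ n * π ∈ Ring.jacobson (GA Γ) ∧
      ∀ b, ee σ * b = b → b * n = 0 → b * υ * n = 0 → b * υ = b ∧ b * π = b := by
  obtain ⟨φ, p1, p2, p3, p4⟩ := h.exists_phi hn
  obtain ⟨w, hw⟩ : ∃ w, w = gr σ * ee σ := ⟨_, rfl⟩
  have w1 : ∀ x, w * x = x * w := fun x => hw ▸ (Commute.mul_left (h.gr_cm x) (h.ee_cm x)).eq
  have w2 : ∀ x, star w * x = x * star w := fun x => by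
    rw [← star_star x, ← star_mul, ← w1, star_mul]
  have w3 : ee σ = w + star w := hw ▸ h.om_add.symm
  have k := kil_ups sel_two w1 w2 w3 h.ee_mul_ee' p1 p3 h2 rfl
  have e1 : ee σ * (n * φ) = n * φ := by rw [← mul_assoc, h.ee_cm, mul_assoc, p1]
  refine ⟨_, ee σ + φ * n, ?_, ?_, k, by rwa [mul_add, ← h.ee_cm, ← mul_assoc], fun b b1 b2 b3 => ?_⟩
  · rw [mul_add, mul_add, ← mul_assoc _ (n * φ), e1, ← mul_assoc _ (_ + _) (_ + _),
      mul_add _ _ (n * φ), e1, h.ee_mul_ee', ← mul_assoc, h.ee_cm (_ * _), mul_assoc _ φ,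
      ← h.ee_cm, p1]
  · simp only [star_add, star_mul, star_star, hn, p2, h.star_ee', mul_assoc, w1, w2]
  · have b4 : b * ee σ = b := by rw [← h.ee_cm, b1]
    have c1 : b * (n * φ) = 0 := by rw [← mul_assoc, b2, zero_mul]
    have c2 : φ * n * n = 0 := by rw [mul_assoc, h2, mul_zero]
    have c3 : b * (ee σ + star w * (n * φ)) = b := by
      rw [mul_add, b4, w2, ← mul_assoc, c1, zero_mul, add_zero]
    have c4 : b * (ee σ + n * φ) = b := by rw [mul_add, b4, c1, add_zero]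
    rw [mul_add, mul_add, ← mul_assoc, ← mul_assoc, c3, ← mul_assoc b, c1, zero_mul, add_zero,
      ← mul_assoc b, c4] at b3 ⊢
    rw [add_mul, mul_assoc, mul_assoc b (_ + _), add_mul, add_mul, mul_assoc w, c2, mul_zero, add_zero,
      ← mul_assoc b, b4, b2, add_zero, ← mul_assoc, mul_assoc b, ← h.ee_cm, p1] at b3
    have c5 : b * φ = 0 := by rw [← p3, ← mul_assoc, ← mul_assoc, b3, zero_mul]
    rw [c5, zero_mul, zero_add, and_self, mul_add, b4, ← mul_assoc, b3, add_zero]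

end Pool.Agent.Lib.MP_775b3b_nt.CM
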