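import Pool.Agent.Lib.MP_775b3b_nt.CM3.YDef
import Pool.Agent.Lib.MP_775b3b_nt.CM.EDef

/-! Local symbols and the localisation map for an arbitrary complex conjugation. -/

namespace Pool.Agent.Lib.MP_775b3b_nt.CM

open Pool.Agent.Lib.MP_439fea_co NumberField WithZero

variable {K : Type} [Field K] [NumberField K]

/-- an unramified prime above `l` whose decomposition group is generated by the involution `c` -/
structure IP (c : Ga K) (l : ℕ) (v : P K) : Prop where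
  prime : l.Prime
  one : l % 4 = 1
  unr : val v (l : K) = exp (-1 : ℤ)
  fix : c • v = v
  stab : ∀ g : Ga K, g • v = v → g = 1 ∨ g = c
  res : ∀ y : K, c y = y → val v y ≤ 1 → ∃ n : ℤ, val v (y - n) < 1
  th : ∃ θ : K, c θ = -θ ∧ val v θ = 1

/-- residue symbol of `x / l ^ ord x` -/
noncomputable def sl (l : ℕ) (v : P K) (x : Kˣ) : ZMod 2 := ns v (x * nu K l ^ (-ord v (x : K)))

open Classical in
/-- residue symbol of `x / l ^ ord x` in the prime field -/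
noncomputable def fs (l : ℕ) (v : P K) (x : Kˣ) : ZMod 2 :=
  if ∃ n : ℤ, val v (((x * nu K l ^ (-ord v (x : K)) : Kˣ) : K) - n ^ 2) < 1 then 0 else 1

open Classical in
/-- sign of the real part -/
noncomputable def sr (Φ : K →+* ℂ) (x : Kˣ) : ZMod 2 := if (Φ (x : K)).re < 0 then 1 else 0

/-- marked elements: fixed by `c`, with norm the square of an element fixed by `c` -/
def Mk (σ c : Ga K) (y : Kˣ) : Prop :=
  c • y = y ∧ ∃ r : Kˣ, c • r = r ∧ y * σ • y * (σ * σ) • y = r * r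

/-- the data attached to the field -/
structure Dt (K : Type) [Field K] [NumberField K] where
  σ : Ga K
  G : Subgroup (Ga K)
  cub : Cub σ G
  two : Two K
  ram : ∀ w : P K, σ • w = w ∨ ∃ n : ℕ, Odd (ord w (n : K))
  w : P K
  hw : val w (2 : K) < 1
  α : 𝓞 K
  u : GA (Ga K)
  hu : SymU G u
  form : ∀ s s' : 𝓞 K, (cz α s * u * star (cz α s')).coeff 1 = tr2 (s * s')
  zero : ∀ s : 𝓞 K, val w (s : K) < 1 → tr2 (s * α) = 0
  one : ∀ s : 𝓞 K, val w ((s : K) - 1) < 1 → tr2 (s * α) = 1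
  c : Ga K
  cG : c ∈ G
  cc : c * c = 1
  c1 : c ≠ 1
  Φ : K →+* ℂ
  hΦ : ∀ x : K, Φ (c x) = starRingEnd ℂ (Φ x)
  l : ℕ
  q : P K
  ip : IP c l q
  s0 : Kˣ → ZMod 2
  b0 : Kˣ → ZMod 2
  s0_mul : ∀ x y, s0 (x * y) = s0 x + s0 y
  b0_mul : ∀ x y, b0 (x * y) = b0 x + b0 y
  s0_eq : ∀ y, Mk σ c y → s0 y = sr Φ y
  b0_eq : ∀ y, Mk σ c y → b0 y = fs l q y

variable (D : Dt K)

/-- admissible sets of primes -/
structure Dt.Ok (S : Finset (P K)) : Prop where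
  mem : D.q ∈ S
  sp : ∀ v ∈ S, v ≠ D.q → SP v
  inj : ∀ v ∈ S, ∀ w ∈ S, nm v = nm w → v = w

/-- the elements whose norm is a square and whose order is even outside the conjugates of `S` -/
def Dt.Z (S : Finset (P K)) : Subgroup Kˣ where
  carrier := {x | IsSquare (x * D.σ • x * (D.σ * D.σ) • x) ∧
    ∀ w : P K, (∀ v ∈ S, ∀ g : Ga K, g • v ≠ w) → Even (ord w (x : K))}
  one_mem' := ⟨by simp, fun w _ => by rw [Units.val_one, ord_one]; exact Even.zero⟩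
  mul_mem' := by
    rintro x y ⟨h1, h2⟩ ⟨h3, h4⟩
    refine ⟨?_, fun w hw => ?_⟩
    · have := h1.mul h3
      rw [smul_mul', smul_mul']
      rwa [mul_mul_mul_comm, mul_mul_mul_comm x] at this
    · rw [Units.val_mul, ord_mul w x.ne_zero y.ne_zero]
      exact (h2 w hw).add (h4 w hw)
  inv_mem' := by
    rintro x ⟨h1, h2⟩
    refine ⟨?_, fun w hw => ?_⟩
    · have := h1.inv
      rwa [mul_inv, mul_inv, ← smul_inv', ← smul_inv'] at this
    · rw [Units.val_inv_eq_inv_val, ord_inv]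
      exact (h2 w hw).neg

theorem Dt.mem_Z {S : Finset (P K)} {x : Kˣ} : x ∈ D.Z S ↔
    IsSquare (x * D.σ • x * (D.σ * D.σ) • x) ∧
      ∀ w : P K, (∀ v ∈ S, ∀ g : Ga K, g • v ≠ w) → Even (ord w (x : K)) := Iff.rfl

open Classical in
/-- the symbol used at `v` -/
noncomputable def Dt.sy (v : P K) : Kˣ → ZMod 2 := if v = D.q then D.b0 else CM.sy v

/-- the localisation map -/
noncomputable def Dt.loc (S : Finset (P K)) (x : Kˣ) : Ix S → GA (Ga K)
  | .inl false => cz D.α (sig x)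
  | .inl true => co D.s0 x
  | .inr (false, v) => co (od v.1) x
  | .inr (true, v) => co (D.sy v.1) x

/-- the visible coordinates of the localisation map are injective modulo squares -/
def Dt.Inj (S : Finset (P K)) : Prop := ∀ x ∈ D.Z S, cz D.α (sig x) = 0 →
  (∀ v ∈ S, co (od v) x = 0) → (∀ v ∈ S, v ≠ D.q → co (CM.sy v) x = 0) → IsSquare x

open Classical in
/-- twisting primes: `l`, the class `κ` and the other primes are squares -/
structure Dt.Tw (S : Finset (P K)) (κ : Kˣ) (T : Finset (P K)) : Prop where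
  ok : D.Ok (S ∪ T)
  disj : Disjoint S T
  sq : ∀ v ∈ T, ∀ w ∈ S ∪ T, w ≠ v → nu K (nm w) ∈ Sq (val v)
  sql : ∀ v ∈ T, nu K D.l ∈ Sq (val v)
  kap : ∀ v ∈ T, co (CM.sy v) κ = 0

/-- the curve data -/
structure Cw (D : Dt K) where
  s : ℕ
  t : K
  a : Kˣ
  b : Kˣ
  c : Kˣ
  s4 : s % 4 = 3
  sq : s % D.l = 1
  fix : ∀ g ∈ D.G, g t = t
  rt : Rt s D.l t (D.σ t) (D.σ (D.σ t))
  ha : (a : K) = t - D.σ t
  hb : (b : K) = D.σ t - D.σ (D.σ t)
  hc : (c : K) = D.σ (D.σ t) - t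
  w1 : val D.w t = 1
  q1 : val D.q t = 1
  r1 : (D.Φ t).re < (D.Φ (D.σ t)).re
  r2 : (D.Φ t).re < (D.Φ (D.σ (D.σ t))).re

/-- the class of a point whose coordinates satisfy `R` -/
def Cl (s Q n : ℕ) (t : K) (R : K → K → Prop) (ξ : Kˣ) : Prop :=
  IsSquare ξ ∨ ∃ X Y : K, R X Y ∧ Y ^ 2 = cb s Q (n : K) X ∧ IsSquare ((ξ : K) * (X - n * t))

/-- every group of classes of points that is compatible with `c` is trivial -/
def Triv (s Q n : ℕ) (t : K) (σ c : Ga K) (G : Subgroup (Ga K)) : Prop :=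
  ∀ A : Subgroup Kˣ, (∀ g ∈ G, ∀ ξ ∈ A, g • ξ ∈ A) →
    (∀ ξ ∈ A, Cl s Q n t (fun X Y => σ X = X ∧ σ Y = Y) ξ) →
    (∀ ξ ∈ A, IsSquare (c • ξ * ξ) → ∃ ξ1 ∈ A, ∃ ξ2 ∈ A, IsSquare (ξ * ξ1 * ξ2) ∧
      Cl s Q n t (fun X Y => σ X = X ∧ σ Y = Y ∧ c X = X ∧ c Y = Y) ξ1 ∧
      Cl s Q n t (fun X Y => σ X = X ∧ σ Y = Y ∧ c X = X ∧ c Y = -Y) ξ2) →
    ∀ ξ ∈ A, IsSquare ξ

/-- the hypotheses on the field -/
structure Base3 (s l : ℕ) (c : Ga K) (q : P K) : Prop where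
  two : Two K
  ip : IP c l q
  s4 : s % 4 = 3
  sq : s % l = 1
  irr : ∀ x : K, cb s l 1 x ≠ 0
  ram : ∀ v : P K, (∃ n : ℕ, Odd (ord v (n : K))) ∨
    ∀ x : K, val v x ≤ 1 → ¬ val v (cb s l 1 x) < 1

end Pool.Agent.Lib.MP_775b3b_nt.CM
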