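import Pool.Agent.Lib.MP_775b3b_nt.CM.SelX

/-! Lagrangians that can be reached by twisting primes. -/

set_option autoImplicit false

namespace Pool.Agent.Lib.MP_775b3b_nt.CM

open Matrix

section Ring

variable {R T : Type} [Ring R] [StarRing R] [Fintype T]

/-- `M'` is reached from `M` with types orthogonal to `k` -/
def Rc (u e : R) (k : Ix T → R) (M M' : Set (Ix T → R)) : Prop :=
  ∃ (J : Type) (_ : Fintype J) (Y : J → Ix T → R) (W : Matrix J J R),
    (∀ j, e • Y j = Y j) ∧ (∀ j, hf u k (Y j) = 0) ∧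
    (∀ i j, W i j + star (W j i) = hf u (Y i) (Y j)) ∧ (∀ i j, e * W i j = W i j) ∧
    ∀ x ∈ M, ∀ m : J → R, e • m = m → (fun j => hf u x (Y j)) = m ᵥ* W →
      x + ∑ j, m j • Y j ∈ M' ∧ (x + ∑ j, m j • Y j = 0 → x = 0 ∧ m = 0)

variable {u e : R} {k : Ix T → R} {M M' M'' : Set (Ix T → R)}

theorem hf_sum_right {ι : Type} [Fintype ι] (hu : star u = u) (c : ι → R) (x : Ix T → R)
    (y : ι → Ix T → R) : hf u x (∑ i, c i • y i) = ∑ i, hf u x (y i) * star (c i) := by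
  rw [← hf_star hu, hf_sum_left, star_sum]
  simp only [star_mul, hf_star hu]

theorem Rc.mono (h : Rc u e k M M') (hM : M' ⊆ M'') : Rc u e k M M'' :=
  let ⟨J, i, Y, W, h1, h2, h3, h4, h5⟩ := h
  ⟨J, i, Y, W, h1, h2, h3, h4, fun x hx m m0 m1 => (h5 x hx m m0 m1).imp_left fun a => hM a⟩

theorem Rc.trans (h2 : ∀ x : R, x + x = 0) (hu : star u = u) (h : Rc u e k M M')
    (h' : Rc u e k M' M'') : Rc u e k M M'' := by
  obtain ⟨J, _, Y, W, h0, h1, w1, w2, w3⟩ := h
  obtain ⟨J', _, Y', W', h0', h1', w1', w2', w3'⟩ := h'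
  refine ⟨J ⊕ J', inferInstance, Sum.elim Y Y',
    fromBlocks W (of fun i j => hf u (Y i) (Y' j)) 0 W', ?_, ?_, ?_, ?_, fun x hx m m0 hm => ?_⟩
  · rintro (j | j)
    exacts [h0 j, h0' j]
  · rintro (j | j)
    exacts [h1 j, h1' j]
  · rintro (i | i) (j | j)
    exacts [w1 i j, by simp, by simp [hf_star hu], w1' i j]
  · rintro (i | i) (j | j)
    exacts [w2 i j, (hf_smul_left ..).symm.trans (by rw [h0 i]; rfl), mul_zero _, w2' i j]
  rw [vecMul_fromBlocks, vecMul_zero, add_zero] at hm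
  obtain ⟨a1, a2⟩ := w3 x hx (m ∘ .inl) (funext fun i => congrFun m0 _)
    (funext fun i => congrFun hm (.inl i))
  obtain ⟨b1, b2⟩ := w3' _ a1 (m ∘ .inr) (funext fun i => congrFun m0 _) (funext fun j => by
    have := congrFun hm (.inr j)
    simp only [Sum.elim_inr, Pi.add_apply] at this
    rw [hf_add_left, hf_sum_left, this, add_right_comm]
    exact (congrArg (· + _) (h2 _)).trans (zero_add _))
  rw [Fintype.sum_sum_type, ← add_assoc]
  refine ⟨b1, fun e => ?_⟩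
  obtain ⟨c1, c2⟩ := b2 e
  obtain ⟨c3, c4⟩ := a2 c1
  refine ⟨c3, funext ?_⟩
  rintro (i | i)
  exacts [congrFun c4 i, congrFun c2 i]

/-- the graph of a matrix -/
def Gph (e : R) {ι : Type} [Fintype ι] (y z : ι → Ix T → R) (B : Matrix ι ι R) :
    Set (Ix T → R) := {x | ∃ m : ι → R, e • m = m ∧ x = ∑ i, m i • y i + ∑ i, (m ᵥ* B) i • z i}

theorem Dub.ind (hu : star u = u) (he : star e = e) (hc : ∀ x, e * x = x * e) {ι : Type}
    [Fintype ι] {y z : ι → Ix T → R} (hy : Dub u e y z) {m : ι → R} (hm : e • m = m) (c : ι → R)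
    (j : ι) : hf u (∑ i, m i • y i + ∑ i, c i • z i) (z j) = m j := by
  rw [hf_add_left, hf_sum_left, hf_sum_left, Finset.sum_eq_single j
    (fun i _ ne => by rw [← hf_star hu, hy.zy' _ _ ne.symm, star_zero, mul_zero]) (by simp),
    ← hf_star hu, hy.zy, he, ← hc, Finset.sum_eq_zero fun i _ => by rw [hy.zz, mul_zero], add_zero]
  exact congrFun hm j

theorem Rc.shear (h2 : ∀ x : R, x + x = 0) (hu : star u = u) (he : star e = e) (hee : e * e = e)
    (hc : ∀ x, e * x = x * e) {ι L : Type} [Fintype ι] [Fintype L] {y z : ι → Ix T → R}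
    (hy : Dub u e y z) {s : L → L} (hs : Function.Involutive s) (A : L → ι → R)
    (a1 : ∀ b j, e * A b j = A b j) (a2 : ∀ b, hf u k (∑ j, A b j • z j) = 0)
    {B C : Matrix ι ι R} (a3 : ∀ i j, ∑ b, star (A b i) * A (s b) j = B i j + C i j) :
    Rc u e k (Gph e y z B) (Gph e y z C) := by
  classical
  refine ⟨L, inferInstance, fun b => ∑ j, A b j • z j, of fun a b => if a = s b then e else 0,
    fun b => by simp only [Finset.smul_sum, ← mul_smul, a1], a2, fun a b => ?_,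
    fun a b => by simp only [of_apply, mul_ite, mul_zero, hee], ?_⟩
  · simp only [of_apply, hf_sum_left, hf_sum_right hu, hy.zz, zero_mul, mul_zero,
      Finset.sum_const_zero]
    by_cases h : a = s b
    · rw [if_pos h, if_pos (by rw [h, hs]), he, h2]
    · rw [if_neg h, if_neg fun h' => h (by rw [h', hs]), star_zero, add_zero]
  rintro _ ⟨m, m0, rfl⟩ μ μ0 hμ
  have f4 : ∀ b, μ (s b) = ∑ i, m i * star (A b i) := fun b => by
    have := congrFun hμ b
    simp only [hf_sum_right hu, hy.ind hu he hc m0, vecMul, dotProduct, of_apply, mul_ite, mul_zero,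
      Finset.sum_ite_eq', Finset.mem_univ, if_true, ← hc] at this
    exact (congrFun μ0 _).symm.trans this.symm
  have f5 : ∑ b, μ b • ∑ j, A b j • z j = ∑ j, (m ᵥ* (B + C)) j • z j := by
    rw [← Equiv.sum_comp hs.toPerm]
    simp only [Function.Involutive.coe_toPerm, f4, Finset.smul_sum, ← mul_smul, vecMul, dotProduct,
      Matrix.add_apply, ← a3, Finset.mul_sum, Finset.sum_mul, mul_assoc]
    rw [Finset.sum_comm]
    refine Finset.sum_congr rfl fun j _ => ?_
    rw [← Finset.sum_smul, Finset.sum_comm]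
  have f6 : ∑ i, m i • y i + ∑ i, (m ᵥ* B) i • z i + ∑ b, μ b • ∑ j, A b j • z j =
      ∑ i, m i • y i + ∑ i, (m ᵥ* C) i • z i := by
    rw [f5, add_assoc, ← Finset.sum_add_distrib]
    refine congrArg _ (Finset.sum_congr rfl fun j _ => ?_)
    rw [← add_smul, vecMul_add, Pi.add_apply, ← add_assoc, h2, zero_add]
  rw [f6]
  refine ⟨⟨m, m0, rfl⟩, fun h => ?_⟩
  obtain rfl : m = 0 := funext fun j => by
    rw [← hy.ind hu he hc m0 (m ᵥ* C) j, h, hf_zero_left, Pi.zero_apply]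
  refine ⟨by simp, funext fun b => ?_⟩
  rw [← hs b, f4]
  simp

theorem Dub.map [Finite R] (hu : star u = u) (he : star e = e) (hc : ∀ x, e * x = x * e)
    {u' : R} (hu' : star u' = u') {ι : Type} [Fintype ι] {y z : ι → Ix T → R} (hy : Dub u e y z)
    (Φ : (Ix T → R) →ₗ[R] (Ix T → R))
    (hΦ : ∀ x x', e • x = x → e • x' = x' → hf u' (Φ x) (Φ x') = hf u x x') :
    Dub u' e (Φ ∘ y) (Φ ∘ z) := by
  have p : ∀ x, e • x = x → e • Φ x = Φ x := fun x hx => by rw [← map_smul, hx]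
  refine ⟨fun i => p _ (hy.py i), fun i => p _ (hy.pz i),
    fun i j => (hΦ _ _ (hy.py i) (hy.py j)).trans (hy.yy i j),
    fun i j => (hΦ _ _ (hy.pz i) (hy.pz j)).trans (hy.zz i j),
    fun i => (hΦ _ _ (hy.pz i) (hy.py i)).trans (hy.zy i),
    fun i j ne => (hΦ _ _ (hy.pz i) (hy.py j)).trans (hy.zy' i j ne), fun v hv h1 h2 => ?_⟩
  let f : {x : Ix T → R // e • x = x} → {x : Ix T → R // e • x = x} := fun x => ⟨Φ x, p _ x.2⟩
  have hf1 : Function.Injective f := fun a b h => by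
    have e1 : Φ (a.1 - b.1) = 0 := by rw [map_sub, sub_eq_zero]; exact congrArg Subtype.val h
    have e2 : e • (a.1 - b.1) = a.1 - b.1 := by rw [smul_sub, a.2, b.2]
    exact Subtype.ext (sub_eq_zero.1 (hy.nd _ e2
      (fun j => by rw [← hΦ _ _ e2 (hy.py j), e1, hf_zero_left])
      fun j => by rw [← hΦ _ _ e2 (hy.pz j), e1, hf_zero_left]))
  obtain ⟨⟨x, hx⟩, e1⟩ := Finite.surjective_of_injective hf1 ⟨v, hv⟩
  obtain rfl : Φ x = v := congrArg Subtype.val e1
  rw [hy.nd x hx (fun j => (hΦ _ _ hx (hy.py j)).symm.trans (h1 j))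
    fun j => (hΦ _ _ hx (hy.pz j)).symm.trans (h2 j), map_zero]

end Ring

variable {Γ : Type} [Group Γ] [Fintype Γ] {σ : Γ} {G : Subgroup Γ} {T : Type} [Fintype T]
  {u : GA Γ} {k : Ix T → GA Γ} {M A : Submodule (GA Γ) (Ix T → GA Γ)}

theorem Rc.move (h : Cub σ G) (hu : star u = u) {ι : Type} [Fintype ι] [DecidableEq ι]
    {y z : ι → Ix T → GA Γ} (hy : Dub u (ee σ) y z) (hk : ∀ i, hf u k (y i) = 0)
    (hL : Lag u (ee σ) M) (hF : Fre (ee σ) (Fintype.card ι) M) :
    ∃ B : Matrix ι ι (GA Γ), star B = B ∧ ee σ • B = B ∧ (∀ i j, IsNilpotent (B i j)) ∧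
      Rc u (ee σ) k M (Gph (ee σ) y z B) := by
  obtain ⟨W, B, m1, m2, b1, b2, b3, m3⟩ := h.move2' hu hy hL hF
  refine ⟨B, b1, b2, b3, ι, inferInstance, y, W, hy.py, hk, fun i j =>
    ((congrArg _ (congrFun (congrFun m1 i) j)).trans (sel_two _)).trans (hy.yy _ _).symm,
    fun i j => congrFun (congrFun m2 i) j, fun x hx m m0 hm => ?_⟩
  obtain ⟨m', f1, f2, f3⟩ := m3 x hx m m0 hm
  refine ⟨⟨m', f1, f2⟩, fun e => f3 (funext fun j => ?_)⟩
  rw [← hy.ind hu h.star_ee' h.ee_cm f1 (m' ᵥ* B) j, ← f2, e, hf_zero_left, Pi.zero_apply]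

/-- A reachable set is reached by primes whose types lie in a given complement. -/
theorem Rc.real (hc : Cub σ G) (hu : star u = u) {M' : Set (Ix T → GA Γ)}
    (h : Rc u (ee σ) k M M') (hL : Lag u (ee σ) M) (hk : k ∈ M)
    (hA : ∀ v, ee σ • v = v → ∃ μ ∈ M, v + μ ∈ A) :
    ∃ (n : ℕ) (y : Fin n → Ix T → GA Γ), (∀ i, y i ∈ A) ∧ (∀ i, ee σ • y i = y i) ∧
      (∀ i, hf u k (y i) = 0) ∧
      ∀ {Pr : Type} (Ind : Pr → Pr → Prop) (Ty : Fin n → Pr → Prop) (N : Pr → Pr → GA Γ),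
        Sup u (ee σ) y Ind Ty N → ∃ (m : ℕ) (p : Fin m → Pr) (t : Fin m → Fin n),
          (∀ a b, a ≠ b → Ind (p a) (p b)) ∧ (∀ a, Ty (t a) (p a)) ∧
          ∀ x ∈ M, ∀ c : Fin m → GA Γ, (∀ a, ee σ * c a = c a) →
            (∀ b, hf u x (y (t b)) = ∑ a, c a * N (p a) (p b)) →
            x + ∑ a, c a • y (t a) ∈ M' ∧ (x + ∑ a, c a • y (t a) = 0 → x = 0 ∧ c = 0) := by
  obtain ⟨J, _, Y, W, h0, h1, w1, w2, w3⟩ := h
  choose μ μ1 μ2 using fun j => hA (Y j) (h0 j)
  rcases isEmpty_or_nonempty J with hJ | hJ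
  · refine ⟨0, fun i => i.elim0, fun i => i.elim0, fun i => i.elim0, fun i => i.elim0,
      fun Ind Ty N _ => ⟨0, fun i => i.elim0, fun i => i.elim0, fun i => i.elim0, fun i => i.elim0,
        fun x hx c _ _ => ?_⟩⟩
    obtain ⟨a1, a2⟩ := w3 x hx 0 (smul_zero _) (funext fun j => hJ.elim j)
    simp only [Finset.univ_eq_empty, Finset.sum_empty] at a1 a2 ⊢
    exact ⟨a1, fun e => ⟨(a2 e).1, funext fun i => i.elim0⟩⟩
  let g := (Fintype.equivFin J).symm
  refine ⟨_, fun i => Y (g i) + μ (g i), fun i => μ2 _,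
    fun i => by rw [smul_add, h0, hL.part _ (μ1 _)],
    fun i => by rw [hf_add_right, h1, hL.iso _ hk _ (μ1 _), add_zero], fun Ind Ty N hS => ?_⟩
  obtain ⟨m, p, t, p1, p2, p3⟩ := hc.realize Fintype.card_pos _
    (of fun i j => W (g i) (g j) + hf u (μ (g i)) (Y (g j)))
    (Matrix.ext fun i j => by
      simp only [Matrix.add_apply, star_apply, of_apply, star_add, hf_star hu, hf_add_left,
        hf_add_right, hL.iso _ (μ1 _) _ (μ1 _), ← w1]
      abel)
    (Matrix.ext fun i j => by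
      simp only [Matrix.smul_apply, of_apply, smul_eq_mul, mul_add, w2, ← hf_smul_left,
        hL.part _ (μ1 _)]) hS
  refine ⟨m, p, t, p1, p2, fun x hx c c1 c2 => ?_⟩
  obtain ⟨v, v1, v2, v3, v4⟩ := p3 x c c1 c2
  obtain ⟨a1, a2⟩ := w3 (x + ∑ j, (v ∘ g.symm) j • μ j)
    (M.add_mem hx (M.sum_mem fun j _ => M.smul_mem _ (μ1 j))) (v ∘ g.symm)
    (funext fun j => congrFun v1 _) (funext fun j => by
      have := congrFun v2 (g.symm j)
      simp only [vecMul, dotProduct, of_apply, Equiv.apply_symm_apply, hf_add_right,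
        hL.iso _ hx _ (μ1 _), add_zero, mul_add, Finset.sum_add_distrib] at this
      rw [hf_add_left, this, hf_sum_left, ← g.symm.sum_comp, ← g.symm.sum_comp]
      simp only [Equiv.apply_symm_apply, Function.comp_apply, vecMul, dotProduct]
      rw [add_assoc, sel_two, add_zero])
  have e1 : x + ∑ a, c a • (Y (g (t a)) + μ (g (t a))) =
      x + ∑ j, (v ∘ g.symm) j • μ j + ∑ j, (v ∘ g.symm) j • Y j := by
    rw [v3, ← g.symm.sum_comp, add_assoc, ← Finset.sum_add_distrib]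
    simp only [Equiv.apply_symm_apply, Function.comp_apply, smul_add, add_comm]
  rw [e1]
  refine ⟨a1, fun e => ?_⟩
  obtain ⟨b1, b2⟩ := a2 e
  rw [b2] at b1
  exact ⟨by simpa using b1, v4 (funext fun i => by simpa using congrFun b2 (g i))⟩

end Pool.Agent.Lib.MP_775b3b_nt.CM
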