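import Pool.Agent.Lib.MP_775b3b_nt.CM.SelX
import Pool.Agent.Lib.MP_775b3b_nt.CM.A3

/-! Definitions for an arbitrary complex conjugation. -/

namespace Pool.Agent.Lib.MP_775b3b_nt.CM

open Matrix

variable {Γ T : Type} [Group Γ]

/-- the isotropic submodule of the invisible coordinates -/
structure Wm (c : Γ) (q : T) (v : Ix T → GA Γ) : Prop where
  two : v (.inl false) = 0
  inf : v (.inl true) * gr c = v (.inl true)
  od : ∀ t, v (.inr (false, t)) = 0
  sy : v (.inr (true, q)) * gr c = v (.inr (true, q))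
  aux : ∀ t, t ≠ q → v (.inr (true, t)) = 0

/-- its orthogonal complement -/
structure Wp (c : Γ) (q : T) (v : Ix T → GA Γ) : Prop where
  inf : v (.inl true) * gr c = v (.inl true)
  od : v (.inr (false, q)) * gr c = v (.inr (false, q))

/-- the local conditions over the big field -/
structure Lt (σ : Γ) (G : Subgroup Γ) (c : Γ) (q p : T) (z : Ix T → GA Γ) : Prop where
  two : Zc G 1 (z (.inl false))
  od : Zc G 1 (z (.inr (false, q)))
  sy : ∀ g ∈ G, (z (.inr (true, q))).coeff g = (z (.inr (true, q))).coeff (g * c)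
  p1 : ∀ g ∈ G, (z (.inr (false, p))).coeff (g * σ) = (z (.inr (true, p))).coeff (g * σ * σ)
  p2 : ∀ g ∈ G, (z (.inr (false, p))).coeff (g * σ * σ) = (z (.inr (true, p))).coeff (g * σ)
  aux : ∀ t, t ≠ q → t ≠ p → z (.inr (false, t)) = 0

/-- the class that every move has to keep -/
structure Kap3 (σ : Γ) (G : Subgroup Γ) (q p : T) (k : Ix T → GA Γ) : Prop where
  two : ∀ b γ, (k (.inl b)).coeff γ = 0 ↔ γ * σ ∈ G
  bin : ∀ γ, (k (.inr (false, q))).coeff γ = 0 ↔ γ ∈ G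
  sp : ∀ γ, (k (.inr (true, p))).coeff γ = 0 ↔ γ ∈ G
  sy : ∀ t, t ≠ p → k (.inr (true, t)) = 0
  od : ∀ t, t ≠ q → k (.inr (false, t)) = 0

/-- the local conditions at the two places that `c` fixes, for the curve (`ε = 0`) and for its
twist (`ε = 1`) -/
structure L1 (σ : Γ) (q : T) (ε : ZMod 2) (z : Ix T → GA Γ) : Prop where
  inf : (z (.inl true)).coeff (if ε = 0 then 1 else σ) = 0
  sy : (z (.inr (true, q))).coeff 1 = (z (.inr (false, q))).coeff σ * ε

/-- the set `D` contains no group of classes of points -/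
def Kil (σ : Γ) (G : Subgroup Γ) (c : Γ) (q p : T) (D : Set (Ix T → GA Γ)) : Prop :=
  ∀ X : AddSubgroup (Ix T → GA Γ), (∀ v ∈ X, v ∈ D ∧ Wp c q v ∧ Lt σ G c q p v) →
    (∀ g ∈ G, ∀ v ∈ X, gr g • v ∈ X) →
    (∀ v ∈ X, gr c • v = v → ∃ v1 ∈ X, ∃ v2 ∈ X, v = v1 + v2 ∧ L1 σ q 0 v1 ∧ L1 σ q 1 v2) →
    ∀ v ∈ X, v = 0

/-- the cube root of unity used for the target -/
noncomputable def om (σ : Γ) : GA Γ := gr σ * (gr σ * ee σ)

/-- the target -/
def Tg (σ : Γ) (q p : T) (ζ υ : GA Γ) (g : Γ) : Set (Ix T → GA Γ) :=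
  {v | ∃ a b m : GA Γ, ee σ * a = a ∧ ee σ * b = b ∧ ee σ * m = m ∧ v (.inl false) = m * ζ ∧
    v (.inl true) = (a + b) * om σ ∧ v (.inr (false, q)) = a ∧
    v (.inr (true, q)) = b * (υ * om σ * om σ + ee σ) ∧
    v (.inr (false, p)) = ((a * om σ + b * υ) * gr g + m) * om σ * om σ ∧
    v (.inr (true, p)) = (a * om σ + b * υ) * gr g * om σ + m ∧
    ∀ t, t ≠ q → t ≠ p → v (.inr (true, t)) = 0}

/-- the number of elements of the `e`-part that are invariant under `Q` on the left and under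
`c` on the right -/
noncomputable def dc (σ : Γ) (Q : Subgroup Γ) (c : Γ) : ℕ :=
  Nat.card {x : GA Γ // ee σ * x = x ∧ (∀ g ∈ Q, gr g * x = x) ∧ x * gr c = x}

/-- a move from `H` to `H'` with types orthogonal to `k` -/
def Rch {R : Type} [Ring R] [StarRing R] [Fintype T] (u e : R) (k : Ix T → R)
    (H H' : Set (Ix T → R)) : Prop :=
  ∃ (n : ℕ) (y : Fin n → Ix T → R) (M : Matrix (Fin n) (Fin n) R), 0 < n ∧
    (∀ i, e • y i = y i) ∧ (∀ i, hf u k (y i) = 0) ∧
    (M + star M = of fun i j => hf u (y i) (y j)) ∧ e • M = M ∧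
    ∀ x ∈ H, ∀ m : Fin n → R, e • m = m → (fun j => hf u x (y j)) = m ᵥ* M →
      x + ∑ i, m i • y i ∈ H' ∧ (x + ∑ i, m i • y i = 0 → m = 0)

end Pool.Agent.Lib.MP_775b3b_nt.CM
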