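import Pool.Agent.Lib.MP_775b3b_nt.CM3.Rc1
import Pool.Agent.Lib.MP_775b3b_nt.CM3.YDef

/-! The target is reached from every free Lagrangian. -/

set_option autoImplicit false

namespace Pool.Agent.Lib.MP_775b3b_nt.CM

open Matrix

theorem sum_yz {R T : Type} [Ring R] [DecidableEq T] [Fintype T] (e w ζ : R) (q : T)
    (m n : Option T → R) (i : Ix T) : (∑ i, m i • yt e w ζ q i + ∑ i, n i • zt e w ζ i) i =
      match i with
      | .inl false => (m none + m (some q) * w + n none * (w * w)) * ζ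
      | .inl true => (m none + m (some q)) * w + n none * (w * w)
      | .inr (false, t) => m (some t) * e
      | .inr (true, t) => (if t = q then m none * w else 0) + n (some t) * e := by
  rcases i with (_ | _) | ⟨_ | _, t⟩ <;> simp [Fintype.sum_option, yt, zt, add_mul, mul_assoc]

theorem Gph.map {R T ι : Type} [Ring R] [Fintype ι] (e : R) (y z : ι → Ix T → R)
    (B : Matrix ι ι R) (Φ : (Ix T → R) →ₗ[R] (Ix T → R)) :
    Gph e (Φ ∘ y) (Φ ∘ z) B = Φ '' Gph e y z B := by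
  ext x
  simp only [Gph, Set.mem_setOf_eq, Set.mem_image, Function.comp_apply, ← map_smul, ← map_sum,
    ← map_add]
  exact ⟨fun ⟨m, a, b⟩ => ⟨_, ⟨m, a, rfl⟩, b.symm⟩, fun ⟨_, ⟨m, a, b⟩, c⟩ => ⟨m, a, b ▸ c.symm⟩⟩

variable {Γ : Type} [Group Γ] [Fintype Γ] {σ : Γ} {G : Subgroup Γ} {T : Type} [Fintype T]
  {u : GA Γ}

theorem Rc.shq (h : Cub σ G) (hu : star u = u) {ι : Type} [Fintype ι] [DecidableEq ι]
    {y z : ι → Ix T → GA Γ} (hy : Dub u (ee σ) y z) (q : ι) {B C : Matrix ι ι (GA Γ)}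
    (c1 : star (B + C) = B + C) (c2 : ee σ • (B + C) = B + C) (c3 : (B + C) q q ∈ I2 G)
    (c4 : ∀ i, selNG G * (B + C) i q = 0) :
    Rc u (ee σ) (selNG G • y q) (Gph (ee σ) y z B) (Gph (ee σ) y z C) := by
  obtain ⟨A, a1, a2, a3⟩ := h.factor q c1 c2 c3 c4
  refine Rc.shear sel_two hu h.star_ee' h.ee_mul_ee' h.ee_cm hy Sum.swap_swap A a1 (fun b => ?_) a3
  rw [hf_smul_left, ← hf_star hu, hf_sum_left, Finset.sum_eq_single q
    (fun j _ ne => by rw [hy.zy' _ _ ne, mul_zero]) (by simp), hy.zy, ← h.ee_cm, a1,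
    h.an_star (a2 b)]

theorem Cub.om_fact (h : Cub σ G) : (∀ x, om σ * x = x * om σ) ∧ ee σ * om σ = om σ ∧
    ee σ = om σ + om σ * om σ ∧ om σ * om σ * om σ = ee σ ∧ star (om σ) = om σ * om σ := by
  have c1 : ∀ x y, x * (gr σ * y) = gr σ * (x * y) := fun x y => by
    rw [← mul_assoc, ← h.gr_cm, mul_assoc]
  have c2 : ∀ y, gr σ * (gr σ * (gr σ * y)) = y := fun y => by
    rw [← mul_assoc, ← mul_assoc, h.gr_three', one_mul]
  obtain ⟨w, hw⟩ : ∃ w, w = gr σ * (gr σ * ee σ) := ⟨_, rfl⟩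
  rw [om, ← hw]
  have w0 : ∀ x, ee σ * x = x → x * w = gr σ * (gr σ * x) := fun x hx => by
    rw [hw, c1, c1 x, ← h.ee_cm, hx]
  have ew : ee σ * w = w := by rw [hw, c1, c1 (ee σ), h.ee_mul_ee']
  have w1 : w * w = gr σ * ee σ := by rw [w0 w ew, hw, c2]
  refine ⟨fun x => hw ▸ (Commute.mul_left (h.gr_cm x)
    (Commute.mul_left (h.gr_cm x) (h.ee_cm x))).eq, ew, ?_, ?_, ?_⟩
  · rw [w1, hw, ← mul_assoc, ← add_mul, add_comm, ← sel_ee_eq, h.ee_mul_ee']
  · rw [w1, mul_assoc, w0 _ h.ee_mul_ee', c2]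
  · rw [w1, hw, ← mul_assoc, ← sel_gr_mul, star_mul, h.star_ee', sel_star_gr, ← h.inv_eq', inv_inv,
      h.ee_cm]

theorem Cub.exists_tau (h : Cub σ G) {g : Γ} (hg : g ∈ G) (hn : IsNilpotent (1 + gr g)) :
    ∃ t, star t = t ∧ ee σ * t = t ∧ t + (1 + gr g) * ee σ ∈ I2 G ∧ selNG G * t = 0 ∧
      ∀ γ, ee σ * γ = γ → (γ + om σ * (γ * t)) * gr g = γ + om σ * (om σ * (γ * t)) := by
  obtain ⟨wc, ew, w2, w3, ws⟩ := h.om_fact
  generalize om σ = w at *
  obtain ⟨ν, hν⟩ : ∃ ν, ν = 1 + gr g := ⟨_, rfl⟩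
  have nN : selNG G * ν = 0 := hν ▸ an_one_add hg
  rw [← hν] at hn ⊢
  obtain ⟨ρ, hρ⟩ := (Commute.isNilpotent_mul_right (wc ν).symm hn).isUnit_one_add
  obtain ⟨t, ht⟩ : ∃ t, t = ee σ * ν * ↑ρ⁻¹ := ⟨_, rfl⟩
  have t1 : t * (1 + ν * w) = ee σ * ν := by rw [ht, ← hρ, ρ.inv_mul_cancel_right]
  have t2 : ee σ * t = t := by rw [ht, ← mul_assoc, ← mul_assoc, h.ee_mul_ee']
  have el : ∀ x y, x * (ee σ * y) = ee σ * (x * y) := fun x y => by
    rw [← mul_assoc, ← h.ee_cm, mul_assoc]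
  have t3 : star t = t := by
    have e1 : star ν * ν = ν + star ν := by
      rw [hν, star_add, star_one, sel_star_gr, add_mul, mul_add, mul_add, ← sel_gr_mul, inv_mul_cancel]
      rw [show (gr 1 : GA Γ) = 1 from rfl, one_mul, one_mul, mul_one, add_comm (gr g⁻¹)]
    refine ρ.isUnit.star.mul_left_cancel (ρ.isUnit.mul_right_cancel ?_)
    rw [← star_mul, mul_assoc, hρ, t1, star_mul, star_add, star_one, star_mul, ws, h.star_ee',
      ← h.ee_cm, mul_assoc, mul_add, mul_one, ← mul_assoc _ ν, e1, add_mul 1, one_mul,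
      mul_assoc (w * w), el (star ν), e1, ← mul_assoc (w * w), mul_assoc w w, wc (ee σ), ew, ← wc,
      mul_add (ee σ), ← mul_assoc (ee σ) w, ew]
    linear_combination (norm := noncomm_ring) w2 * (ν + star ν) - sel_two (ee σ * ν) +
      sel_two (w * (ν + star ν))
  have nc : ν * t = t * ν := by
    have e1 : Commute ν ρ := hρ ▸ (Commute.one_right _).add_right
      ((Commute.refl ν).mul_right (wc ν).symm)
    exact ht ▸ (Commute.mul_right (Commute.mul_right (h.ee_cm ν).symm (Commute.refl ν))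
      e1.units_inv_right).eq
  have t4 : selNG G * t = 0 := by rw [ht, mul_assoc (ee σ), el, ← mul_assoc _ ν, nN, zero_mul, mul_zero]
  refine ⟨t, t3, t2, ?_, t4, fun γ g0 => ?_⟩
  · rw [← h.ee_cm, ← t1, mul_add, mul_one, ← add_assoc, sel_two, zero_add, ← mul_assoc, ← nc,
      mul_assoc]
    exact mul_mem_I2 nN (by rw [← mul_assoc, t4, zero_mul])
  have e6 : (γ + w * (γ * t)) * (1 + ν * w) = γ := by
    rw [add_mul, mul_assoc w, mul_assoc γ, t1, ← mul_assoc γ, ← h.ee_cm, g0, mul_add, mul_one,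
      wc, mul_assoc γ, add_assoc, sel_two, add_zero]
  have e7 : Commute (1 + ν * w) (gr g) := (Commute.one_left _).add_left
    (Commute.mul_left (hν ▸ (Commute.one_left _).add_left (Commute.refl _)) (wc _))
  refine ρ.isUnit.mul_right_cancel ?_
  rw [hρ, mul_assoc, ← e7.eq, ← mul_assoc, e6, add_mul, mul_assoc w, mul_assoc w, mul_assoc γ,
    t1, ← mul_assoc γ, ← h.ee_cm, g0, mul_add, mul_one, ← mul_assoc γ, ← wc, ← mul_assoc w w,
    add_assoc, ← add_mul, ← w2, ← mul_assoc, g0, hν, mul_add, mul_one, ← add_assoc, sel_two,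
    zero_add]

theorem Cub.gph_tau (h : Cub σ G) [DecidableEq T] (q : T) (ζ : GA Γ) {g : Γ} (hg : g ∈ G)
    (hn : IsNilpotent (1 + gr g)) : ∃ B : Matrix (Option T) (Option T) (GA Γ), star B = B ∧
      ee σ • B = B ∧ B (some q) (some q) + (1 + gr g) * ee σ ∈ I2 G ∧
      (∀ i, selNG G * B i (some q) = 0) ∧
      Gph (ee σ) (yt (ee σ) (om σ) ζ q) (zt (ee σ) (om σ) ζ) B ⊆
        Gph (ee σ) (yt (ee σ) (om σ) (gr g * ζ) q) (zt (ee σ) (om σ) (gr g * ζ)) 0 := by
  obtain ⟨t, t3, t2, t5, t4, e5⟩ := h.exists_tau hg hn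
  obtain ⟨wc, ew, w2, w3, ws⟩ := h.om_fact
  generalize om σ = w at *
  have wl : ∀ x y, x * (w * y) = w * (x * y) := fun x y => by rw [← mul_assoc, ← wc, mul_assoc]
  let a : Option T → GA Γ := fun i => i.elim (w * w) fun s => if s = q then ee σ else 0
  refine ⟨of fun i j => a i * t * star (a j), Matrix.ext fun i j => by
    simp only [star_apply, of_apply, star_mul, star_star, t3, mul_assoc],
    Matrix.ext fun i j => by
      simp only [Matrix.smul_apply, of_apply, smul_eq_mul]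
      rw [← mul_assoc, ← mul_assoc, h.ee_cm, mul_assoc _ (ee σ), t2], ?_, fun i => ?_, ?_⟩
  · simp only [of_apply, a, Option.elim, if_true, h.star_ee', t2]
    rwa [← h.ee_cm, t2]
  · rw [of_apply, ← mul_assoc, ← mul_assoc, h.selNG_cm, mul_assoc _ _ t, t4, mul_zero, zero_mul]
  rintro _ ⟨m, hm, rfl⟩
  have m0 : ∀ i, ee σ * m i = m i := congrFun hm
  obtain ⟨γ, hγ⟩ : ∃ γ, γ = m none + m (some q) * w := ⟨_, rfl⟩
  have g0 : ee σ * γ = γ := by rw [hγ, mul_add, ← mul_assoc, m0, m0]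
  have hv : m ᵥ* (of fun i j => a i * t * star (a j)) = fun j => w * (w * (γ * t)) * star (a j) := by
    funext j
    have : ∑ i, m i * a i = w * (w * γ) := by
      simp only [Fintype.sum_option, a, Option.elim, mul_ite, mul_zero, Finset.sum_ite_eq',
        Finset.mem_univ, if_true]
      rw [hγ, mul_add, mul_add, wl (m none), ← wc (m none), ← wc (m (some q)), ← mul_assoc w w (w * _),
        ← mul_assoc (w * w), w3, h.ee_cm]
    simp only [vecMul, dotProduct, of_apply, ← mul_assoc, ← Finset.sum_mul, this]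
  have e6 := e5 γ g0
  obtain ⟨d, hd⟩ : ∃ d, d = γ * t := ⟨_, rfl⟩
  rw [← hd] at hv e6
  have d0 : ee σ * d = d := by rw [hd, ← mul_assoc, g0]
  have ed : ∀ x, ee σ * x = x → ee σ * (w * x) = w * x := fun x hx => by rw [wl, hx]
  have a0 : w * (w * d) * star (a none) * (w * w) = w * (w * d) := by
    rw [show star (a none) = w by
      rw [show a none = w * w from rfl, ← ws, star_star], mul_assoc, ← mul_assoc w w w, w3,
      ← h.ee_cm, ed _ (ed _ d0)]
  refine ⟨fun i => i.elim (m none + w * d) fun s => m (some s), funext ?_, funext fun i => ?_⟩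
  · rintro (_ | s)
    · exact (mul_add ..).trans (by rw [m0, ed _ d0]; rfl)
    · exact m0 _
  rw [sum_yz, sum_yz, hv]
  rcases i with (_ | _) | ⟨_ | _, s⟩ <;>
    simp only [Option.elim, a0, vecMul_zero, Pi.zero_apply, zero_mul, add_zero]
  · rw [add_right_comm _ (w * d), ← hγ, ← mul_assoc _ (gr g), e6]
  · rw [add_right_comm, add_mul _ (w * d), ← wc (w * d)]
  · simp only [a, Option.elim]
    split_ifs
    · rw [h.star_ee', mul_assoc, h.ee_mul_ee', ← h.ee_cm, ed _ (ed _ d0), add_mul, ← wc (w * d)]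
    · simp

/-- the target before the change of coordinates -/
def Tg0 (σ : Γ) (q : T) (ζ υ : GA Γ) : Set (Ix T → GA Γ) :=
  {v | ∃ a b : GA Γ, ee σ * a = a ∧ ee σ * b = b ∧ v (.inl false) = (a * om σ + b * υ) * ζ ∧
    v (.inl true) = (a + b) * om σ ∧ v (.inr (false, q)) = a ∧
    v (.inr (true, q)) = b * (υ * om σ * om σ + ee σ) ∧ ∀ t, t ≠ q → v (.inr (true, t)) = 0}

theorem Cub.gph_ups (h : Cub σ G) [DecidableEq T] (q : T) (ζ : GA Γ) {υ : GA Γ} (u1 : ee σ * υ = υ) (u3 : υ * υ = ee σ) :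
    Gph (ee σ) (yt (ee σ) (om σ) ζ q) (zt (ee σ) (om σ) ζ) (single none none (ee σ + υ)) ⊆
      {v | ee σ • v = v} ∩ Tg0 σ q ζ υ := by
  obtain ⟨wc, ew, w2, w3, -⟩ := h.om_fact
  rintro _ ⟨m, hm, rfl⟩
  have m0 : ∀ i, m i * ee σ = m i := fun i => (h.ee_cm _).symm.trans (congrFun hm i)
  have hv : ∀ j, (m ᵥ* single (none : Option T) (none : Option T) (ee σ + υ)) j =
      j.elim (m none * (ee σ + υ)) fun _ => 0 := by
    rintro (_ | j) <;> simp [vecMul, dotProduct, Fintype.sum_option]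
  unfold Tg0
  generalize om σ = w at *
  have k1 : ∀ y, υ * (w * y) = w * (υ * y) := fun y => by rw [← mul_assoc, ← wc, mul_assoc]
  have k2 : w * (w * w) = ee σ := (mul_assoc ..).symm.trans w3
  have k3 : ∀ y, w * (w * (w * y)) = ee σ * y := fun y => by rw [← mul_assoc, ← mul_assoc, w3]
  have k4 : ∀ y, ee σ * (w * y) = w * y := fun y => by rw [← mul_assoc, ew]
  have k5 : w * ee σ = w := (wc _).trans ew
  have k6 : υ * ee σ = υ := (h.ee_cm _).symm.trans u1
  have r1 : ee σ + (ee σ + υ) * (w * w) = (w * w + w * υ) * υ := by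
    simp only [mul_add, add_mul, mul_assoc, k1, k4, k5, u3, ← wc υ]
    linear_combination (norm := abel) w2 + sel_two (w * w)
  have r2 : w + (ee σ + υ) * (w * w) = (w * w + w * υ) * w := by
    simp only [mul_add, add_mul, mul_assoc, k1, k2, k4, ← wc υ]
    linear_combination (norm := abel) -w2
  have r3 : w = (w * w + w * υ) * (υ * w * w + ee σ) := by
    simp only [mul_add, add_mul, mul_assoc, k1, k2, k3, k4, k5, k6, u1, u3, ← wc υ,
      h.ee_mul_ee']
    linear_combination (norm := abel) -w2 - sel_two (w * w) - sel_two (w * υ)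
  refine ⟨?_, m (some q), m none * (w * w + w * υ), congrFun hm _,
    by rw [← mul_assoc, h.ee_cm, m0], ?_, ?_, ?_, ?_, fun t ht => ?_⟩
  · have m1 : ∀ B : Matrix (Option T) (Option T) (GA Γ), ∀ j, ee σ * (m ᵥ* B) j = (m ᵥ* B) j :=
      fun B => congrFun ((smul_vecMul ..).symm.trans (by rw [hm]))
    simp only [Set.mem_setOf_eq, smul_add, Finset.smul_sum, ← mul_smul, m1, h.ee_cm (m _), m0]
  all_goals rw [sum_yz]
  all_goals
    simp only [hv, Option.elim, if_true, zero_mul, add_zero, m0]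
  · rw [mul_assoc (m none), mul_assoc (m none), ← r1, mul_add, m0, add_comm (m none), add_assoc]
  · rw [add_mul (m (some q)), mul_assoc (m none), mul_assoc (m none), ← r2, mul_add, add_mul,
      add_comm (m none * w), add_assoc]
  · rw [mul_assoc (m none), ← r3]
  · rw [if_neg ht]

/-- The image of the target under an isometry is reached from every free Lagrangian. -/
theorem Cub.rc_tg (h : Cub σ G) {u0 ζ υ : GA Γ} (hu : star u = u) (hu0 : star u0 = u0)
    (z1 : ee σ * ζ = ζ) (z2 : ζ * u0 * star ζ = ee σ)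
    (z3 : ∀ v, ee σ * v = v → v * u0 * star ζ = 0 → v = 0) (z4 : selNG G * ζ = selNG G * ee σ)
    (u1 : ee σ * υ = υ) (u2 : star υ = υ) (u3 : υ * υ = ee σ) (q : T)
    (Φ : (Ix T → GA Γ) →ₗ[GA Γ] (Ix T → GA Γ))
    (hΦ : ∀ x x', ee σ • x = x → ee σ • x' = x' → hf u (Φ x) (Φ x') = hf u0 x x')
    {k : Ix T → GA Γ} (hk : Kap σ G q k) {M : Submodule (GA Γ) (Ix T → GA Γ)}
    (hL : Lag u (ee σ) M) (hF : Fre (ee σ) (1 + Fintype.card T) M) :
    ∃ g ∈ G, Rc u (ee σ) (Φ k) M (Φ '' ({v | ee σ • v = v} ∩ Tg0 σ q (gr g * ζ) υ)) := by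
  classical
  obtain ⟨wc, ew, w2, w3, ws⟩ := h.om_fact
  have hd : ∀ g : Γ, Dub u (ee σ) (Φ ∘ yt (ee σ) (om σ) (gr g * ζ) q)
      (Φ ∘ zt (ee σ) (om σ) (gr g * ζ)) := fun g =>
    (hyp_yt sel_two q wc w2 w3 ws (by rw [← mul_assoc, h.ee_cm, mul_assoc, z1])
      (by
        rw [star_mul, mul_assoc (gr g), mul_assoc (gr g), ← mul_assoc _ (star ζ), z2, h.ee_cm,
          ← mul_assoc, sel_star_gr, ← sel_gr_mul, mul_inv_cancel]
        exact one_mul _)
      fun v hv e => z3 v hv (by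
        have := congrArg (· * gr g) e
        simp only [star_mul, sel_star_gr, ← mul_assoc _ (star ζ), mul_assoc _ _ (gr g),
          ← sel_gr_mul, inv_mul_cancel, zero_mul] at this
        exact (mul_one _).symm.trans this)).map hu0 h.star_ee' h.ee_cm hu Φ hΦ
  have hke : ∀ g ∈ G, Φ k = selNG G • (Φ ∘ yt (ee σ) (om σ) (gr g * ζ) q) (some q) := fun g hg => by
    rw [Function.comp_apply, ← map_smul]
    exact congrArg Φ (h.kap_eq hk (by rw [← mul_assoc, h.ee_cm, mul_assoc, z1])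
      (by rw [← mul_assoc, selNG_gr hg, z4]))
  have h1 := hd 1
  have h2 := hke 1 (one_mem G)
  rw [show gr (1 : Γ) * ζ = ζ from one_mul ζ] at h1 h2
  obtain ⟨B, b1, b2, b3, r1⟩ := Rc.move (k := Φ k) h hu h1
    (fun i => by rw [h2, hf_smul_left, h1.yy, mul_zero]) hL (by rwa [Fintype.card_option, add_comm])
  have b4 : ∀ i j, B i j * ee σ = B i j := fun i j =>
    (h.ee_cm _).symm.trans (congrFun (congrFun b2 i) j)
  obtain ⟨g, hg, g1, g2⟩ := h.herm_form (b4 _ _) (b3 (some q) (some q)) (congrFun (congrFun b1 _) _)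
  obtain ⟨B0, d1, d2, d3, d4, d5⟩ := h.gph_tau q ζ hg g1
  have r2 := Rc.shq h hu h1 (some q) (B := B) (C := B0) (by rw [star_add, b1, d1])
    (by rw [smul_add, b2, d2])
    (by
      have := add_mem g2 d3
      rwa [add_add_add_comm, sel_two, add_zero] at this)
    fun i => by
      obtain ⟨g, hg, k, hk, e⟩ := h.an_of_nil (b4 i (some q)) (b3 _ _)
      have := I2_an e
      rw [mul_add, mul_add, ← mul_assoc _ (1 + _), ← mul_assoc _ (1 + _), an_one_add hg,
        an_one_add hk, zero_mul, zero_mul, add_zero, add_zero] at this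
      rw [Matrix.add_apply, mul_add, this, d4, add_zero]
  have r3 := Rc.shq h hu (hd g) (some q) (B := 0) (C := single none none (ee σ + υ))
    (by rw [zero_add, star_eq_conjTranspose, conjTranspose_single, star_add, h.star_ee', u2])
    (by rw [zero_add, smul_single, smul_eq_mul, mul_add, h.ee_mul_ee', u1])
    (by simp) (by simp)
  rw [← h2] at r2
  rw [← hke g hg] at r3
  simp only [Gph.map] at r1 r2 r3
  exact ⟨g, hg, ((r1.trans sel_two hu (r2.mono (Set.image_mono d5))).trans sel_two hu r3).mono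
    (Set.image_mono (h.gph_ups q _ u1 u3))⟩

end Pool.Agent.Lib.MP_775b3b_nt.CM
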